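import Pool.Agent.Mg.F61ef33.G568017

section

/- Extension of the inverse Boettcher map to the whole basin of infinity. -/

namespace Pool.Agent.MP_61ef33_al

open Filter Topology Set Metric

theorem exists_ex' {w : ℂ} (hw : w ≠ 0) : ∃ y, ex (Real.log ‖w‖) y = w := by
  refine ⟨Complex.arg w / (2 * Real.pi), ?_⟩
  have hp : (Real.pi : ℂ) ≠ 0 := by exact_mod_cast Real.pi_ne_zero
  rw [ex]
  conv_rhs => rw [← Complex.exp_log hw, Complex.log]
  congr 2
  push_cast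
  field_simp

theorem ex_sq (t y : ℝ) : ex (2 * t) (2 * y) = ex t y ^ 2 := by
  rw [ex, ex, ← Complex.exp_nat_mul]
  congr 1; push_cast; ring

theorem ex_int (t y : ℝ) (m : ℤ) : ex t (y + m) = ex t y := by
  rw [ex, ex, Complex.exp_eq_exp_iff_exists_int]
  exact ⟨m, by push_cast; ring⟩

theorem ex_inj {t y t' y' : ℝ} (h : ex t y = ex t' y') : t = t' ∧ ∃ m : ℤ, y' = y + m := by
  rw [ex, ex, Complex.exp_eq_exp_iff_exists_int] at h
  obtain ⟨n, hn⟩ := h
  have a1 := congrArg Complex.re hn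
  have a2 := congrArg Complex.im hn
  simp at a1 a2
  refine ⟨a1, -n, ?_⟩
  have hp := Real.pi_pos
  push_cast
  apply mul_left_cancel₀ (show 2 * Real.pi ≠ 0 by positivity)
  linarith

/-- Half planes exhausting the right half plane. -/
def HP (T : ℝ) (n : ℕ) : Set (ℝ × ℝ) := {p | T / 2 ^ n < p.1}

def dbp (p : ℝ × ℝ) : ℝ × ℝ := (2 * p.1, 2 * p.2)

theorem HP_convex (T : ℝ) (n : ℕ) : Convex ℝ (HP T n) :=
  (convex_Ioi (T / 2 ^ n)).linear_preimage (LinearMap.fst ℝ ℝ ℝ)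

theorem HP_open (T : ℝ) (n : ℕ) : IsOpen (HP T n) := isOpen_lt continuous_const continuous_fst

theorem HP_mono {T : ℝ} (hT : 0 < T) {m n : ℕ} (h : m ≤ n) : HP T m ⊆ HP T n := fun p hp => by
  have : T / 2 ^ n ≤ T / 2 ^ m := by gcongr; norm_num
  exact this.trans_lt hp

theorem dbp_mem {T : ℝ} {n : ℕ} {p : ℝ × ℝ} (h : p ∈ HP T (n + 1)) : dbp p ∈ HP T n := by
  change T / 2 ^ n < 2 * p.1
  have : T / 2 ^ (n + 1) < p.1 := h
  rw [pow_succ, ← div_div] at this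
  linarith

theorem HP_pos {T : ℝ} (hT : 0 < T) {n : ℕ} {p : ℝ × ℝ} (h : p ∈ HP T n) : 0 < p.1 :=
  (by positivity : 0 < T / 2 ^ n).trans h

theorem exists_HP (T : ℝ) {p : ℝ × ℝ} (h : 0 < p.1) : ∃ n, p ∈ HP T n := by
  have : Tendsto (fun n : ℕ => T / 2 ^ n) atTop (𝓝 0) :=
    tendsto_const_nhds.div_atTop (tendsto_pow_atTop_atTop_of_one_lt one_lt_two)
  exact (this.eventually (gt_mem_nhds h)).exists

theorem base_mem (T : ℝ) : (T + 1, (0 : ℝ)) ∈ HP T 0 := by simp [HP]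

theorem continuous_dbp : Continuous dbp := by unfold dbp; fun_prop

theorem exists_ext {c : ℂ} {T : ℝ} (hT : 0 < T) {F : ℝ × ℝ → ℂ} (hF : ContinuousOn F (HP T 0))
    (hd : ∀ p ∈ HP T 0, F (dbp p) = qf c (F p)) (hne : ∀ p ∈ HP T 0, ∀ k, F p ≠ (qf c)^[k] c) :
    ∃ Ψ : ℝ × ℝ → ℂ, ContinuousOn Ψ {p | 0 < p.1} ∧ (∀ p, 0 < p.1 → Ψ (dbp p) = qf c (Ψ p)) ∧
      (∀ p ∈ HP T 0, Ψ p = F p) ∧ (∀ p, 0 < p.1 → Ψ p ≠ 0) ∧ ∀ p, ¬ 0 < p.1 → Ψ p = 0 := by
  classical
  let Good : ℕ → (ℝ × ℝ → ℂ) → Prop := fun n G => ContinuousOn G (HP T n) ∧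
    (∀ p ∈ HP T 0, G p = F p) ∧ ∀ p ∈ HP T n, ∀ k, G p ≠ (qf c)^[k] c
  have nz : ∀ {a b : ℂ}, b = qf c a → b ≠ (qf c)^[0] c → a ≠ 0 := by
    rintro a _ rfl h rfl
    exact h (by simp [qf])
  have d0 : ∀ p ∈ HP T 0, dbp p ∈ HP T 0 := fun p hp => dbp_mem (HP_mono hT (Nat.zero_le 1) hp)
  have step : ∀ n G, Good n G → ∃ G', Good (n + 1) G' ∧
      ∀ p ∈ HP T (n + 1), G (dbp p) = qf c (G' p) := by
    rintro n G ⟨g1, g2, g3⟩
    have hb := HP_mono hT (Nat.zero_le (n + 1))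
    have := (HP_convex T (n + 1)).contractibleSpace ⟨_, hb (base_mem T)⟩
    obtain ⟨q, q1, q2⟩ := Complex.exists_continuousOn_pow_eq (U := HP T (n + 1))
      (g := fun p => G (dbp p) - c) (n := 2) (inferInstance : SimplyConnectedSpace (HP T (n + 1)))
      (HP_open _ _) ((g1.comp continuous_dbp.continuousOn fun p hp => dbp_mem hp).sub
        continuousOn_const) (by
        rintro ⟨p, hp, e⟩
        exact g3 _ (dbp_mem hp) 0 (sub_eq_zero.1 e)) two_ne_zero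
    have q3 : ∀ p ∈ HP T 0, F p ^ 2 = q p ^ 2 := fun p hp => by
      rw [q2, g2 _ (d0 p hp), hd p hp, qf]; ring
    obtain ⟨e, he⟩ := exists_sg (q3 _ (base_mem T))
    have q4 : ∀ p, G (dbp p) = qf c (sg e * q p) := fun p => by
      rw [qf, mul_pow, sg_sq, one_mul, q2]; ring
    refine ⟨fun p => sg e * q p, ⟨continuousOn_const.mul q1, fun p hp => ?_, fun p hp k e => ?_⟩,
      fun p _ => q4 p⟩
    · refine sq_unique (HP_convex T 0).isPreconnected (u := fun p => sg e * q p)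
        (continuousOn_const.mul (q1.mono hb)) hF
        (fun p hp => by rw [mul_pow, sg_sq, one_mul, q3 p hp])
        (fun p hp => nz (hd p hp) (hne _ (d0 p hp) 0)) (base_mem T) he.symm p hp
    · exact g3 _ (dbp_mem hp) (k + 1) (by rw [q4, Function.iterate_succ_apply']; exact congrArg _ e)
  choose! nxt hnxt using step
  let Φ : ℕ → ℝ × ℝ → ℂ := fun n => Nat.rec F nxt n
  have hΦ : ∀ n, Good n (Φ n) := by
    intro n
    induction n with
    | zero => exact ⟨hF, fun _ _ => rfl, hne⟩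
    | succ n ih => exact (hnxt n _ ih).1
  have hdb : ∀ n, ∀ p ∈ HP T (n + 1), Φ n (dbp p) = qf c (Φ (n + 1) p) :=
    fun n => (hnxt n _ (hΦ n)).2
  have hz : ∀ n, ∀ p ∈ HP T (n + 1), Φ (n + 1) p ≠ 0 :=
    fun n p hp => nz (hdb n p hp) ((hΦ n).2.2 _ (dbp_mem hp) 0)
  have comp : ∀ n, ∀ p ∈ HP T n, Φ (n + 1) p = Φ n p := by
    intro n
    induction n with
    | zero => exact (hΦ 1).2.1
    | succ n ih =>
      have hb := HP_mono hT (Nat.le_succ (n + 1))
      refine sq_unique (HP_convex T _).isPreconnected ((hΦ (n + 2)).1.mono hb) (hΦ (n + 1)).1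
        (fun p hp => ?_) (hz n) (HP_mono hT (Nat.zero_le _) (base_mem T))
        (((hΦ (n + 2)).2.1 _ (base_mem T)).trans ((hΦ (n + 1)).2.1 _ (base_mem T)).symm)
      have a1 := hdb (n + 1) p (hb hp)
      rw [ih _ (dbp_mem hp), hdb n p hp] at a1
      exact (add_right_cancel a1).symm
  have comp' : ∀ m n, m ≤ n → ∀ p ∈ HP T m, Φ n p = Φ m p := by
    intro m n h p hp
    induction n, h using Nat.le_induction with
    | base => rfl
    | succ n h ih => rw [comp n p (HP_mono hT h hp), ih]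
  choose N hN using fun (p : ℝ × ℝ) (h : 0 < p.1) => exists_HP T h
  let Ψ : ℝ × ℝ → ℂ := fun p => if h : 0 < p.1 then Φ (N p h) p else 0
  have hΨ : ∀ n, ∀ p ∈ HP T n, Ψ p = Φ n p := fun n p hp => by
    have h := HP_pos hT hp
    simp only [Ψ, dif_pos h]
    rw [← comp' _ _ (le_max_left (N p h) n) p (hN p h), comp' _ _ (le_max_right _ _) p hp]
  refine ⟨Ψ, fun p hp => ?_, fun p hp => ?_, hΨ 0, fun p hp => ?_, fun p hp => dif_neg hp⟩
  · obtain ⟨n, hn⟩ := exists_HP T hp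
    have := (HP_open T n).mem_nhds hn
    exact (((hΦ n).1.continuousAt this).congr
      (mem_of_superset this fun q hq => (hΨ n q hq).symm)).continuousWithinAt
  · obtain ⟨n, hn⟩ := exists_HP T hp
    have h1 := HP_mono hT (Nat.le_succ n) hn
    rw [hΨ _ _ h1, hΨ _ _ (dbp_mem h1), hdb n p h1]
  · obtain ⟨n, hn⟩ := exists_HP T hp
    have h1 := HP_mono hT (Nat.le_succ n) hn
    rw [hΨ _ _ h1]; exact hz n p h1

theorem exists_BD (c : ℂ) (hb : ∃ M, ∀ k, ‖(qf c)^[k] c‖ ≤ M) :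
    ∃ B : BD, B.c = c ∧ ∃ R, ∀ z, R < ‖z‖ → z ∈ B.U := by
  obtain ⟨T, φ, hT, h1, h2, h3, h4, h5, R, hR⟩ := exists_phi c
  have hm : ∀ p ∈ HP T 0, Real.exp T < ‖ex p.1 p.2‖ := fun p hp => by
    rw [norm_ex]; exact Real.exp_lt_exp.2 (by simpa [HP] using hp)
  have d0 : ∀ p ∈ HP T 0, dbp p ∈ HP T 0 := fun p hp => dbp_mem (HP_mono hT (Nat.zero_le 1) hp)
  have hlow : ∀ w, Real.exp T < ‖w‖ → ‖w‖ ≤ 2 * ‖φ w‖ := fun w hw => by
    have a1 := (re_ge_of_near (h5 w hw)).trans (Complex.re_le_norm _)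
    rw [norm_div, le_div_iff₀ ((Real.exp_pos T).trans hw)] at a1
    linarith [norm_nonneg (φ w)]
  have hd : ∀ p ∈ HP T 0, φ (ex (dbp p).1 (dbp p).2) = qf c (φ (ex p.1 p.2)) := fun p hp => by
    rw [← h3 _ (hm p hp), ← ex_sq]; rfl
  obtain ⟨Ψ, p1, p2, p3, p4, p5⟩ := exists_ext (c := c) hT (F := fun p => φ (ex p.1 p.2))
    (h1.comp (by unfold ex; fun_prop) hm) hd (by
      intro p hp k e
      obtain ⟨M, hM⟩ := hb
      have a1 : ∀ n : ℕ, dbp^[n] p ∈ HP T 0 ∧ (dbp^[n] p).1 = 2 ^ n * p.1 ∧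
          φ (ex (dbp^[n] p).1 (dbp^[n] p).2) = (qf c)^[n + k] c := by
        intro n
        induction n with
        | zero => simpa using ⟨hp, e⟩
        | succ n ih =>
          rw [Function.iterate_succ_apply', hd _ ih.1, ih.2.2, add_right_comm,
            Function.iterate_succ_apply']
          exact ⟨d0 _ ih.1, by simp only [dbp, ih.2.1]; ring, rfl⟩
      obtain ⟨n, hn⟩ := pow_unbounded_of_one_lt (2 * M / p.1) (one_lt_two (α := ℝ))
      rw [div_lt_iff₀ (HP_pos hT hp)] at hn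
      obtain ⟨b1, b2, b3⟩ := a1 n
      have := hlow _ (hm _ b1)
      rw [b3, norm_ex, b2] at this
      linarith [hM (n + k), Real.add_one_le_exp (2 ^ n * p.1)])
  have hpc : IsPreconnected {p : ℝ × ℝ | 0 < p.1} :=
    ((convex_Ioi (0 : ℝ)).linear_preimage (LinearMap.fst ℝ ℝ ℝ)).isPreconnected
  have sh : ∀ δ : ℝ, ContinuousOn (fun p : ℝ × ℝ => Ψ (p.1, p.2 + δ)) {p | 0 < p.1} :=
    fun δ => p1.comp (by fun_prop) fun p hp => hp
  have per : ∀ n, ∀ m : ℤ, ∀ p ∈ HP T n, Ψ (p.1, p.2 + m) = Ψ p := by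
    have b0 : ∀ m : ℤ, ∀ p ∈ HP T 0, Ψ (p.1, p.2 + m) = Ψ p := fun m p hp => by
      rw [p3 p hp, p3 (p.1, p.2 + m) hp, ex_int]
    intro n
    induction n with
    | zero => exact b0
    | succ n ih =>
      intro m
      refine sq_unique (HP_convex T _).isPreconnected ((sh m).mono fun p hp => HP_pos hT hp)
        (p1.mono fun p hp => HP_pos hT hp) (fun p hp => ?_) (fun p hp => p4 p (HP_pos hT hp))
        (HP_mono hT (Nat.zero_le _) (base_mem T)) (b0 m _ (base_mem T))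
      have a1 := ih (2 * m) _ (dbp_mem hp)
      rw [p2 p (HP_pos hT hp), show ((dbp p).1, (dbp p).2 + ((2 * m : ℤ) : ℝ)) =
        dbp (p.1, p.2 + m) by simp only [dbp]; push_cast; congr 1; ring,
        p2 (p.1, p.2 + m) (HP_pos hT hp)] at a1
      exact add_right_cancel a1
  have per' : ∀ t y (m : ℤ), Ψ (t, y + m) = Ψ (t, y) := fun t y m => by
    by_cases h : 0 < t
    · obtain ⟨n, hn⟩ := exists_HP T (p := (t, y)) h
      exact per n m _ hn
    · rw [p5 (t, y + m) h, p5 (t, y) h]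
  have inj0 : ∀ p ∈ HP T 0, ∀ q ∈ HP T 0, Ψ p = Ψ q → p.1 = q.1 ∧ ∃ m : ℤ, q.2 = p.2 + m :=
    fun p hp q hq e => ex_inj (h2 (hm p hp) (hm q hq) (by rwa [p3 p hp, p3 q hq] at e))
  have hsq : ∀ p : ℝ × ℝ, 0 < p.1 → Ψ (p.1, p.2 + 1 / 2) ^ 2 = (-Ψ p) ^ 2 := fun p hp => by
    have a1 := per' (2 * p.1) (2 * p.2) 1
    have a2 := p2 (p.1, p.2 + 1 / 2) hp
    rw [show dbp (p.1, p.2 + 1 / 2) = (2 * p.1, 2 * p.2 + ((1 : ℤ) : ℝ)) by
      simp only [dbp]; push_cast; congr 1; ring, a1] at a2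
    rw [neg_sq]
    exact add_right_cancel (a2.symm.trans (p2 p hp))
  have half : ∀ p : ℝ × ℝ, 0 < p.1 → Ψ (p.1, p.2 + 1 / 2) = -Ψ p := by
    have hb := base_mem T
    refine sq_unique hpc (sh _) p1.neg hsq (fun p hp => neg_ne_zero.2 (p4 p hp)) (HP_pos hT hb) ?_
    rcases sq_eq_sq_iff_eq_or_eq_neg.1 (hsq _ (HP_pos hT hb)) with h | h
    · exact h
    · rw [neg_neg] at h
      obtain ⟨_, m, hm⟩ := inj0 (T + 1, 0 + 1 / 2) hb _ hb h
      have : (2 * m + 1 : ℤ) = 0 := by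
        have : (2 * m + 1 : ℝ) = 0 := by simp only at hm; linarith
        exact_mod_cast this
      omega
  have inj : ∀ n, ∀ p ∈ HP T n, ∀ q ∈ HP T n, Ψ p = Ψ q → p.1 = q.1 ∧ ∃ m : ℤ, q.2 = p.2 + m := by
    intro n
    induction n with
    | zero => exact inj0
    | succ n ih =>
      rintro ⟨t, y⟩ hp ⟨t', y'⟩ hq e
      obtain ⟨a1, m, a2⟩ := ih _ (dbp_mem hp) _ (dbp_mem hq)
        (by rw [p2 _ (HP_pos hT hp), p2 _ (HP_pos hT hq), e])
      simp only [dbp] at a1 a2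
      obtain rfl : t = t' := by linarith
      refine ⟨rfl, ?_⟩
      obtain ⟨k, rfl | rfl⟩ := Int.even_or_odd' m
      · exact ⟨k, by push_cast at a2; simp only; linarith⟩
      · have a3 := half (t, y) (HP_pos hT hp)
        rw [show y' = y + 1 / 2 + k by push_cast at a2; linarith, per', a3] at e
        exact absurd (by linear_combination e / 2) (p4 _ (HP_pos hT hp))
  have surj : ∀ z, R < ‖z‖ → ∃ t y, 0 < t ∧ t ≤ 2 * ‖z‖ ∧ Ψ (t, y) = z := fun z hz => by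
    obtain ⟨w, w1, rfl⟩ := hR z hz
    have w0 := (Real.exp_pos T).trans w1
    obtain ⟨y, hy⟩ := exists_ex' (norm_pos_iff.1 w0)
    have w2 : T < Real.log ‖w‖ := (Real.lt_log_iff_exp_lt w0).2 w1
    refine ⟨_, y, hT.trans w2, ?_, by rw [p3 _ (by simpa [HP] using w2), hy]⟩
    linarith [Real.log_le_sub_one_of_pos w0, hlow w w1]
  refine ⟨⟨c, fun t y => Ψ (t, y), p1, fun t y ht => p2 (t, y) ht, per',
    fun t y t' y' ht ht' e => ?_, fun ε hε => ?_, ((|R| + 2 : ℝ) : ℂ), 1, 2 * (|R| + 3), one_pos,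
    fun z hz => ?_⟩, rfl, R, fun z hz => ?_⟩
  · obtain ⟨n, hn⟩ := exists_HP T (p := (t, y)) ht
    obtain ⟨n', hn'⟩ := exists_HP T (p := (t', y')) ht'
    exact inj _ _ (HP_mono hT (le_max_left n n') hn) _ (HP_mono hT (le_max_right n n') hn') e
  · refine ⟨T + 1 + 2 * ‖c‖ / ε, fun t ht y => ?_⟩
    have a0 : 0 ≤ 2 * ‖c‖ / ε := by positivity
    have a1 : (t, y) ∈ HP T 0 := by simp only [HP, mem_ofPred_eq]; linarith
    rw [p3 _ a1]
    refine (h4 _ (hm _ a1)).trans_lt ?_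
    have a2 := Real.add_one_le_exp t
    have a3 : 2 * ‖c‖ < ε * Real.exp t ^ 2 := by
      rw [← div_lt_iff₀' hε]; nlinarith
    rw [norm_inv, norm_ex, inv_pow, ← mul_assoc, ← div_eq_mul_inv, div_lt_iff₀ (by positivity)]
    exact a3
  · rw [mem_ball, dist_eq_norm] at hz
    have a1 := abs_norm_sub_norm_le z ((|R| + 2 : ℝ) : ℂ)
    rw [Complex.norm_real, Real.norm_of_nonneg (by positivity), abs_le] at a1
    obtain ⟨t, y, b1, b2, b3⟩ := surj z (by linarith [le_abs_self R])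
    exact ⟨t, y, b1, by linarith, b3⟩
  · obtain ⟨t, y, b1, _, b3⟩ := surj z hz
    exact ⟨t, y, b1, b3⟩

end Pool.Agent.MP_61ef33_al

end

section

/- The shrinking lemma without legs, and landing of a ray at the critical value. -/

namespace Pool.Agent.MP_61ef33_al

open Filter Topology Set Metric unitInterval

/-- A forward invariant set containing the critical value. -/
structure PC where
  c : ℂ
  P : Set ℂ
  hc : c ∈ P
  hf : ∀ z ∈ P, qf c z ∈ P

namespace PC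

variable (A : PC)

theorem pull_P {z : ℂ} (h : qf A.c z ∉ A.P) : z ∉ A.P := fun hz => h (A.hf z hz)

theorem pull_P_iter {n : ℕ} {z : ℂ} (h : (qf A.c)^[n] z ∉ A.P) : z ∉ A.P := by
  induction n with
  | zero => exact h
  | succ n ih => rw [Function.iterate_succ_apply'] at h; exact ih (A.pull_P h)

theorem ne_zero_of {z : ℂ} (h : qf A.c z ∉ A.P) : z ≠ 0 := by
  rintro rfl
  exact h (by simpa [qf] using A.hc)

theorem lift_unique {n : ℕ} {α : Type} [TopologicalSpace α] {T : Set α} (hT : IsPreconnected T)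
    {Γ Γ' : α → ℂ} (h1 : ContinuousOn Γ T) (h2 : ContinuousOn Γ' T)
    (hP : ∀ τ ∈ T, (qf A.c)^[n] (Γ τ) ∉ A.P)
    (h : ∀ τ ∈ T, (qf A.c)^[n] (Γ τ) = (qf A.c)^[n] (Γ' τ)) {a : α} (ha : a ∈ T)
    (h0 : Γ a = Γ' a) : ∀ τ ∈ T, Γ τ = Γ' τ := by
  induction n with
  | zero => exact h
  | succ n ih =>
    simp only [Function.iterate_succ_apply'] at h hP
    refine ih (fun τ hτ => A.pull_P (hP τ hτ)) ?_
    refine sq_unique hT (((continuous_qf A.c).iterate n).comp_continuousOn h1)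
      (((continuous_qf A.c).iterate n).comp_continuousOn h2)
      (fun τ hτ => add_right_cancel (h τ hτ))
      (fun τ hτ => A.ne_zero_of (h τ hτ ▸ hP τ hτ)) ha (by simp [h0])

theorem hasDeriv_iter {n : ℕ} {y : ℂ} (h : (qf A.c)^[n] y ∉ A.P) :
    ∃ d ≠ 0, HasDerivAt (qf A.c)^[n] d y := by
  induction n with
  | zero => exact ⟨1, one_ne_zero, hasDerivAt_id y⟩
  | succ n ih =>
    rw [Function.iterate_succ_apply'] at h
    obtain ⟨d, h1, h2⟩ := ih (A.pull_P h)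
    refine ⟨2 * (qf A.c)^[n] y * d, mul_ne_zero (mul_ne_zero two_ne_zero (A.ne_zero_of h)) h1, ?_⟩
    rw [Function.iterate_succ']
    have : HasDerivAt (qf A.c) (2 * (qf A.c)^[n] y) ((qf A.c)^[n] y) := by
      have h0 : HasDerivAt (fun x : ℂ => x ^ 2) (2 * (qf A.c)^[n] y) ((qf A.c)^[n] y) := by
        simpa using hasDerivAt_pow 2 ((qf A.c)^[n] y)
      exact h0.add_const A.c
    exact this.comp y h2

theorem exists_cbranch {x : ℂ} {R : ℝ} (hP : ∀ z ∈ ball x R, z ∉ A.P) (n : ℕ) {y : ℂ}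
    (hy : (qf A.c)^[n] y ∈ ball x R) : ∃ g : ℂ → ℂ, ContinuousOn g (ball x R) ∧
      (∀ z ∈ ball x R, (qf A.c)^[n] (g z) = z) ∧ g ((qf A.c)^[n] y) = y := by
  induction n generalizing y with
  | zero => exact ⟨id, continuousOn_id, fun _ _ => rfl, rfl⟩
  | succ n ih =>
    obtain ⟨g, h1, h2, h3⟩ := ih (y := qf A.c y) hy
    have := (convex_ball x R).contractibleSpace ⟨_, hy⟩
    obtain ⟨q, q1, q2⟩ := Complex.exists_continuousOn_pow_eq (U := ball x R)
      (g := fun z => g z - A.c) (n := 2) (inferInstance : SimplyConnectedSpace (ball x R))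
      isOpen_ball (h1.sub continuousOn_const) (by
        rintro ⟨z, hz, e⟩
        refine A.pull_P_iter (n := n) (z := g z) (by rw [h2 z hz]; exact hP z hz) ?_
        rw [sub_eq_zero.1 e]; exact A.hc) (by norm_num)
    obtain ⟨e, he⟩ := exists_sg (a := y) (b := q ((qf A.c)^[n + 1] y)) (by
      rw [q2, Function.iterate_succ_apply, h3, qf]; ring)
    refine ⟨fun z => sg e * q z, continuousOn_const.mul q1, fun z hz => ?_, he.symm⟩
    rw [Function.iterate_succ_apply, qf, mul_pow, sg_sq, one_mul, q2, sub_add_cancel, h2 z hz]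

theorem exists_branch {x : ℂ} {R : ℝ} (hP : ∀ z ∈ ball x R, z ∉ A.P) (n : ℕ) {y : ℂ}
    (hy : (qf A.c)^[n] y ∈ ball x R) : ∃ g : ℂ → ℂ, DifferentiableOn ℂ g (ball x R) ∧
      (∀ z ∈ ball x R, (qf A.c)^[n] (g z) = z) ∧
      ∀ y', JoinedIn ((qf A.c)^[n] ⁻¹' ball x R) y y' → g ((qf A.c)^[n] y') = y' := by
  obtain ⟨g, h1, h2, h3⟩ := A.exists_cbranch hP n hy
  refine ⟨g, fun z hz => ?_, h2, ?_⟩
  · obtain ⟨d, d1, d2⟩ := A.hasDeriv_iter (n := n) (y := g z) (by rw [h2 z hz]; exact hP z hz)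
    exact (HasDerivAt.of_local_left_inverse (h1.continuousAt (isOpen_ball.mem_nhds hz)) d2 d1
      (mem_of_superset (isOpen_ball.mem_nhds hz) h2)).differentiableAt.differentiableWithinAt
  · rintro y' ⟨η, hη⟩
    have hc : Continuous fun τ => (qf A.c)^[n] (η τ) :=
      ((continuous_qf A.c).iterate n).comp η.continuous
    have := A.lift_unique (n := n) isPreconnected_univ η.continuous.continuousOn
      (Γ' := fun τ => g ((qf A.c)^[n] (η τ))) (h1.comp_continuous hc hη).continuousOn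
      (fun τ _ => hP _ (hη τ)) (fun τ _ => (h2 _ (hη τ)).symm) (mem_univ 0) (by simp [h3]) 1
      (mem_univ 1)
    simpa using this.symm

theorem branch_bound {x : ℂ} {R : ℝ} {n : ℕ} {g : ℂ → ℂ}
    (h : ∀ z ∈ ball x R, (qf A.c)^[n] (g z) = z) {z : ℂ} (hz : z ∈ ball x R) :
    ‖g z‖ ≤ max (‖x‖ + R) (2 + ‖A.c‖) := by
  have := norm_le_iter A.c n (g z)
  rw [h z hz] at this
  refine this.trans (max_le_max ?_ le_rfl)
  rw [mem_ball, dist_eq_norm] at hz
  linarith [norm_sub_norm_le z x]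

/-- Preimages of a small disc about `x` shrink uniformly. -/
def Shr (x : ℂ) : Prop := ∃ r > 0, ∀ ε > 0, ∃ N, ∀ n ≥ N, ∀ y y',
  JoinedIn ((qf A.c)^[n] ⁻¹' ball x r) y y' → dist y y' ≤ ε

theorem shr_of {x x' : ℂ} {R r : ℝ} (hP : ∀ z ∈ ball x R, z ∉ A.P) (hr : 0 < r)
    (hsub : ball x' r ⊆ ball x R) (h : ∀ ε > 0, ∃ N, ∀ n ≥ N, ∀ g : ℂ → ℂ,
      DifferentiableOn ℂ g (ball x R) → (∀ z ∈ ball x R, (qf A.c)^[n] (g z) = z) →
      ∀ z ∈ ball x' r, ∀ z' ∈ ball x' r, dist (g z) (g z') ≤ ε) : A.Shr x' := by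
  refine ⟨r, hr, fun ε hε => ?_⟩
  obtain ⟨N, hN⟩ := h ε hε
  refine ⟨N, fun n hn y y' hj => ?_⟩
  obtain ⟨g, h1, h2, h3⟩ := A.exists_branch hP n (hsub hj.source_mem)
  have := hN n hn g h1 h2 _ hj.source_mem _ hj.target_mem
  rwa [h3 y' (hj.mono (preimage_mono hsub)), h3 y (JoinedIn.refl (hsub hj.source_mem))] at this

theorem Shr.prop {A : PC} {x : ℂ} (h : A.Shr x) {R : ℝ} (hP : ∀ z ∈ ball x R, z ∉ A.P)
    {x' : ℂ} (hx' : x' ∈ ball x (R / 2)) : A.Shr x' := by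
  have hR : 0 < R := by have := pos_of_mem_ball hx'; linarith
  obtain ⟨r', hr', hsub⟩ := Metric.isOpen_iff.1 isOpen_ball x' hx'
  refine A.shr_of hP hr' (hsub.trans (ball_subset_ball (by linarith))) fun ε hε => ?_
  obtain ⟨r, hr, h⟩ := h
  obtain ⟨η, hη, h3⟩ := three_circles (M := 2 * max (‖x‖ + R) (2 + ‖A.c‖)) hr hR
    (show 0 < ε / 2 by linarith)
  obtain ⟨N, hN⟩ := h η hη
  refine ⟨N, fun n hn g g1 g2 => ?_⟩
  have key := h3 x g g1 (fun z hz => by
      have := A.branch_bound g2 hz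
      have := A.branch_bound g2 (mem_ball_self hR)
      linarith [norm_sub_le (g z) (g x)]) (fun z hz hz' => by
      rw [← dist_eq_norm]
      refine hN n hn _ _ ?_
      have hc : Convex ℝ (ball x r ∩ ball x R) := (convex_ball _ _).inter (convex_ball _ _)
      have hj := (hc.isPathConnected ⟨z, hz, hz'⟩).joinedIn z ⟨hz, hz'⟩ x
        ⟨mem_ball_self hr, mem_ball_self hR⟩
      refine (hj.map_continuousOn (g1.continuousOn.mono inter_subset_right)).mono ?_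
      rintro _ ⟨w, hw, rfl⟩
      change (qf A.c)^[n] (g w) ∈ ball x r
      rw [g2 w hw.2]; exact hw.1)
  intro z hz z' hz'
  have a1 := key z (hsub hz)
  have a2 := key z' (hsub hz')
  rw [← dist_eq_norm] at a1 a2
  linarith [dist_triangle_right (g z) (g z') (g x)]

theorem shr_all (hfin : A.P.Finite) {x0 : ℂ} (hx0 : x0 ∉ A.P) (h0 : A.Shr x0) {x : ℂ}
    (hx : x ∉ A.P) : A.Shr x := by
  have hc : IsPreconnected A.Pᶜ :=
    (hfin.countable.isPathConnected_compl_of_one_lt_rank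
      (by simp)).isConnected.isPreconnected
  refine hc.induction₂' (fun a b => A.Shr a → A.Shr b) (fun a ha => ?_)
    (fun _ _ _ _ _ _ h h' => h' ∘ h) hx0 hx h0
  obtain ⟨R, hR, hsub⟩ := Metric.isOpen_iff.1 hfin.isClosed.isOpen_compl a ha
  refine mem_nhdsWithin_of_mem_nhds ?_
  filter_upwards [ball_mem_nhds a (show 0 < R / 4 by linarith)] with b hb
  refine ⟨fun h => h.prop (R := R) (fun z hz => hsub hz) (ball_subset_ball (by linarith) hb),
    fun h => h.prop (R := R / 2) (fun z hz => hsub ?_) (by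
      rw [mem_ball, dist_comm]; rw [mem_ball] at hb; linarith)⟩
  rw [mem_ball] at *
  linarith [dist_triangle z b a]

end PC

namespace BD

variable (B : BD)

theorem shr_base' {A : PC} (hc : A.c = B.c) (hU : ∀ s ∈ A.P, s ∉ B.U) :
    ∃ x ∉ A.P, A.Shr x := by
  obtain ⟨x, r, C, hr, h⟩ := B.opn
  have hP : ∀ z ∈ ball x r, z ∉ A.P := by
    intro z hz hs
    obtain ⟨t, y, h1, _, h3⟩ := h _ hz
    exact hU z hs ⟨t, y, h1, h3⟩
  refine ⟨x, hP x (mem_ball_self hr), A.shr_of hP (show 0 < r / 2 by linarith)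
    (ball_subset_ball (by linarith)) fun ε hε => ?_⟩
  obtain ⟨ρ, hρ, hl⟩ := landau (M := max (‖x‖ + r) (2 + ‖A.c‖)) (show 0 < r / 2 by linarith)
    (show 0 < ε / r by positivity)
  obtain ⟨N, hN⟩ := B.inradius C (max (‖x‖ + r) (2 + ‖A.c‖)) hρ
  refine ⟨N, fun n hn g g1 g2 z hz z' hz' => ?_⟩
  have hb : ball x (r / 2) ⊆ ball x r := ball_subset_ball (by linarith)
  have hd : ∀ z0 ∈ ball x (r / 2), ‖deriv g z0‖ ≤ ε / r := by
    intro z0 h0
    by_contra hlt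
    have hsub : ball z0 (r / 2) ⊆ ball x r := ball_subset_ball' (by rw [mem_ball] at h0; linarith)
    refine hN n hn (g z0) (A.branch_bound g2 (hb h0)) ((hl g z0 (g1.mono hsub)
      (fun w hw => A.branch_bound g2 (hsub hw)) (not_le.1 hlt).le).trans ?_)
    rintro _ ⟨w, hw, rfl⟩
    obtain ⟨t, y, a1, a2, a3⟩ := h w (hsub hw)
    obtain ⟨y', e⟩ := B.pre_iter (n := n) a1 (z := g w) (by rw [← hc, g2 w (hsub hw), a3])
    exact ⟨t / 2 ^ n, y', by positivity, by gcongr, e.symm⟩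
  have := (convex_ball x (r / 2)).norm_image_sub_le_of_norm_deriv_le
    (fun z0 h0 => g1.differentiableAt (isOpen_ball.mem_nhds (hb h0))) hd hz' hz
  rw [dist_eq_norm]
  refine this.trans ?_
  have h2 : ‖z - z'‖ ≤ r := by
    rw [← dist_eq_norm]; rw [mem_ball] at hz hz'
    linarith [dist_triangle_right z z' x]
  calc ε / r * ‖z - z'‖ ≤ ε / r * r := by gcongr
    _ = ε := by field_simp

end BD

end Pool.Agent.MP_61ef33_al

end
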