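import Pool.Agent.Mg.F61ef33.G942b22

/- Existence of the inverse Boettcher map near infinity. -/

namespace Pool.Agent.MP_61ef33_al

open Filter Topology Set Metric

theorem csqrt_sq (a : ℂ) : a.sqrt ^ 2 = a := by
  simp [Complex.sqrt]

theorem csqrt_re (a : ℂ) : 0 ≤ a.sqrt.re := by
  rw [Complex.sqrt, Complex.cpow_inv_two_re]; exact Real.sqrt_nonneg _

theorem norm_sub_le_of_re {a b : ℂ} {r : ℝ} (hr : 0 < r) (h : r ≤ (a + b).re) :
    ‖a - b‖ ≤ ‖a ^ 2 - b ^ 2‖ / r := by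
  rw [le_div_iff₀ hr, show a ^ 2 - b ^ 2 = (a - b) * (a + b) by ring, norm_mul]
  gcongr
  exact h.trans (Complex.re_le_norm _)

theorem re_ge_of_near {a : ℂ} {δ : ℝ} (h : ‖a - 1‖ ≤ δ) : 1 - δ ≤ a.re := by
  have := Complex.abs_re_le_norm (a - 1)
  rw [Complex.sub_re, Complex.one_re] at this
  linarith [neg_abs_le (a.re - 1)]

theorem csqrt_near {a : ℂ} (h : ‖a - 1‖ ≤ 1 / 2) : ‖a.sqrt - 1‖ ≤ 2 / 3 * ‖a - 1‖ := by
  have h1 := norm_sub_le_of_re (a := a.sqrt) (b := 1) one_pos (by simpa using csqrt_re a)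
  rw [csqrt_sq, one_pow, div_one] at h1
  have h2 := re_ge_of_near (h1.trans h)
  have h3 := norm_sub_le_of_re (a := a.sqrt) (b := 1) (r := 3 / 2) (by norm_num)
    (by simp only [Complex.add_re, Complex.one_re]; linarith)
  rw [csqrt_sq, one_pow] at h3
  linarith

noncomputable def uSeq (c : ℂ) : ℕ → ℂ → ℂ
  | 0 => fun _ => 1
  | n + 1 => fun v => (uSeq c n (v ^ 2) - c * v ^ 2).sqrt

section

variable {c : ℂ} {ρ : ℝ} (h1 : ρ ≤ 1) (h2 : 6 * ‖c‖ * ρ ^ 2 ≤ 1)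

include h1 in
theorem sq_mem_ball {v : ℂ} (hv : v ∈ ball (0 : ℂ) ρ) : v ^ 2 ∈ ball (0 : ℂ) ρ := by
  rw [mem_ball_zero_iff] at *
  rw [norm_pow]
  nlinarith [norm_nonneg v]

include h2 in
theorem small_of_mem {v : ℂ} (hv : v ∈ ball (0 : ℂ) ρ) : ‖c‖ * ‖v‖ ^ 2 ≤ 1 / 6 := by
  rw [mem_ball_zero_iff] at hv
  have : ‖c‖ * ‖v‖ ^ 2 ≤ ‖c‖ * ρ ^ 2 := by gcongr
  linarith

include h1 in
theorem step_near {v a : ℂ} (hv : v ∈ ball (0 : ℂ) ρ) (ha : ‖a - 1‖ ≤ 2 * (‖c‖ * ‖v ^ 2‖ ^ 2)) :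
    ‖a - c * v ^ 2 - 1‖ ≤ 3 * (‖c‖ * ‖v‖ ^ 2) := by
  have a1 : ‖v‖ ≤ 1 := (mem_ball_zero_iff.1 hv).le.trans h1
  have a2 : ‖v ^ 2‖ ^ 2 ≤ ‖v‖ ^ 2 := by
    rw [norm_pow]
    have : ‖v‖ ^ 2 ≤ 1 := pow_le_one₀ (norm_nonneg _) a1
    nlinarith [sq_nonneg ‖v‖]
  have a3 : ‖c‖ * ‖v ^ 2‖ ^ 2 ≤ ‖c‖ * ‖v‖ ^ 2 := by gcongr
  have a4 := norm_sub_le (a - 1) (c * v ^ 2)
  rw [norm_mul, norm_pow] at a4
  calc _ = ‖a - 1 - c * v ^ 2‖ := by congr 1; ring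
    _ ≤ _ := by linarith

include h1 h2

theorem uSeq_near (n : ℕ) {v : ℂ} (hv : v ∈ ball (0 : ℂ) ρ) :
    ‖uSeq c n v - 1‖ ≤ 2 * (‖c‖ * ‖v‖ ^ 2) := by
  induction n generalizing v with
  | zero => simp only [uSeq, sub_self, norm_zero]; positivity
  | succ n ih =>
    have a := step_near h1 hv (ih (sq_mem_ball h1 hv))
    have := csqrt_near (a.trans (by linarith [small_of_mem h2 hv]))
    simp only [uSeq]
    linarith

theorem uSeq_slit (n : ℕ) {v : ℂ} (hv : v ∈ ball (0 : ℂ) ρ) :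
    uSeq c n (v ^ 2) - c * v ^ 2 ∈ Complex.slitPlane := by
  have a := step_near h1 hv (uSeq_near h1 h2 n (sq_mem_ball h1 hv))
  have := re_ge_of_near a
  exact Or.inl (by linarith [small_of_mem h2 hv])

theorem uSeq_diff (n : ℕ) : DifferentiableOn ℂ (uSeq c n) (ball 0 ρ) := by
  induction n with
  | zero => exact differentiableOn_const _
  | succ n ih =>
    exact Complex.differentiableOn_sqrt.comp ((ih.comp (by fun_prop)
      fun v hv => sq_mem_ball h1 hv).sub (by fun_prop)) fun v hv => uSeq_slit h1 h2 n hv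

theorem uSeq_step (n : ℕ) {v : ℂ} (hv : v ∈ ball (0 : ℂ) ρ) :
    ‖uSeq c (n + 1) v - uSeq c n v‖ ≤ 1 * (3 / 4) ^ n := by
  have hs := small_of_mem h2 hv
  induction n generalizing v with
  | zero =>
    have := uSeq_near h1 h2 1 hv
    simp only [uSeq] at this ⊢
    linarith
  | succ n ih =>
    have a1 := re_ge_of_near (uSeq_near h1 h2 (n + 2) hv)
    have a2 := re_ge_of_near (uSeq_near h1 h2 (n + 1) hv)
    have a3 := norm_sub_le_of_re (a := uSeq c (n + 2) v) (b := uSeq c (n + 1) v) (r := 4 / 3)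
      (by norm_num) (by rw [Complex.add_re]; linarith)
    have a4 := ih (sq_mem_ball h1 hv) (small_of_mem h2 (sq_mem_ball h1 hv))
    have e : uSeq c (n + 2) v ^ 2 - uSeq c (n + 1) v ^ 2 =
        uSeq c (n + 1) (v ^ 2) - uSeq c n (v ^ 2) := by
      rw [uSeq, uSeq, csqrt_sq, csqrt_sq]; ring
    rw [e] at a3
    rw [pow_succ]
    linarith

theorem exists_u : ∃ u : ℂ → ℂ, DifferentiableOn ℂ u (ball 0 ρ) ∧
    (∀ v ∈ ball (0 : ℂ) ρ, ‖u v - 1‖ ≤ 2 * (‖c‖ * ‖v‖ ^ 2)) ∧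
    ∀ v ∈ ball (0 : ℂ) ρ, u v ^ 2 = u (v ^ 2) - c * v ^ 2 := by
  have hs : Summable fun n : ℕ => 1 * (3 / 4 : ℝ) ^ n :=
    (summable_geometric_of_lt_one (by norm_num) (by norm_num)).mul_left _
  let u : ℂ → ℂ := fun v => 1 + ∑' n, (uSeq c (n + 1) v - uSeq c n v)
  have ht : ∀ v ∈ ball (0 : ℂ) ρ, Tendsto (fun n => uSeq c n v) atTop (𝓝 (u v)) := by
    intro v hv
    have := (Summable.of_norm_bounded hs fun n => uSeq_step h1 h2 n hv).hasSum.tendsto_sum_nat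
    simp only [Finset.sum_range_sub (fun n => uSeq c n v)] at this
    exact (this.const_add 1).congr fun n => by simp [uSeq]
  refine ⟨u, (Complex.differentiableOn_tsum_of_summable_norm hs
    (fun n => (uSeq_diff h1 h2 (n + 1)).sub (uSeq_diff h1 h2 n)) isOpen_ball
    fun n v hv => uSeq_step h1 h2 n hv).const_add 1, fun v hv => ?_, fun v hv => ?_⟩
  · exact le_of_tendsto' ((ht v hv).sub_const 1).norm fun n => uSeq_near h1 h2 n hv
  · refine tendsto_nhds_unique (((ht v hv).comp (tendsto_add_atTop_nat 1)).pow 2) ?_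
    refine ((ht _ (sq_mem_ball h1 hv)).sub_const (c * v ^ 2)).congr fun n => ?_
    simp only [Function.comp, uSeq, csqrt_sq]

end

theorem rigid {ζ : ℂ} (h : ∀ n : ℕ, ‖ζ ^ 2 ^ n - 1‖ ≤ 1 / 2) : ζ = 1 := by
  have h1 : ∀ n : ℕ, (3 / 2) ^ n * ‖ζ - 1‖ ≤ ‖ζ ^ 2 ^ n - 1‖ := by
    intro n
    induction n with
    | zero => simp
    | succ n ih =>
      have := norm_sub_le_of_re (a := ζ ^ 2 ^ n) (b := 1) (r := 3 / 2) (by norm_num)
        (by rw [Complex.add_re, Complex.one_re]; linarith [re_ge_of_near (h n)])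
      rw [← pow_mul, ← pow_succ, one_pow] at this
      rw [pow_succ]
      linarith
  by_contra hne
  have h0 : 0 < ‖ζ - 1‖ := norm_pos_iff.2 (sub_ne_zero.2 hne)
  obtain ⟨n, hn⟩ := pow_unbounded_of_one_lt (1 / 2 / ‖ζ - 1‖) (show (1 : ℝ) < 3 / 2 by norm_num)
  rw [div_lt_iff₀ h0] at hn
  linarith [h1 n, h n]

/-- The inverse Boettcher map near infinity. -/
theorem exists_phi (c : ℂ) : ∃ (T : ℝ) (φ : ℂ → ℂ), 0 < T ∧
    ContinuousOn φ {w | Real.exp T < ‖w‖} ∧ InjOn φ {w | Real.exp T < ‖w‖} ∧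
    (∀ w, Real.exp T < ‖w‖ → φ (w ^ 2) = qf c (φ w)) ∧
    (∀ w, Real.exp T < ‖w‖ → ‖φ w / w - 1‖ ≤ 2 * (‖c‖ * ‖w⁻¹‖ ^ 2)) ∧
    (∀ w, Real.exp T < ‖w‖ → ‖φ w / w - 1‖ ≤ 1 / 6) ∧
    ∃ R, ∀ z, R < ‖z‖ → ∃ w, Real.exp T < ‖w‖ ∧ φ w = z := by
  set T := 12 * ‖c‖ + 1 with hT
  have T0 : 0 < T := by positivity
  set ρ := (Real.exp T)⁻¹ with hρ
  have e1 : T + 1 ≤ Real.exp T := Real.add_one_le_exp T
  have ρ0 : 0 < ρ := by positivity
  have ρ1 : ρ ≤ 1 := inv_le_one_of_one_le₀ (by linarith)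
  have ρ2 : 12 * ‖c‖ * ρ ^ 2 ≤ 1 := by
    have : 12 * ‖c‖ * ρ ≤ 1 := by
      rw [hρ, ← div_eq_mul_inv, div_le_one (by positivity)]; linarith
    have h0 : 0 ≤ 12 * ‖c‖ * ρ := by positivity
    nlinarith
  obtain ⟨u, u1, u2, u3⟩ := exists_u (c := c) ρ1 (by nlinarith [norm_nonneg c, sq_nonneg ρ])
  have hm : ∀ w : ℂ, Real.exp T < ‖w‖ → w⁻¹ ∈ ball (0 : ℂ) ρ := fun w hw => by
    rw [mem_ball_zero_iff, norm_inv]
    exact inv_strictAnti₀ (Real.exp_pos T) hw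
  have hne : ∀ w : ℂ, Real.exp T < ‖w‖ → w ≠ 0 := fun w hw =>
    norm_pos_iff.1 ((Real.exp_pos T).trans hw)
  have u4 : ∀ v ∈ ball (0 : ℂ) ρ, ‖u v - 1‖ ≤ 1 / 6 := fun v hv => by
    have := u2 v hv
    rw [mem_ball_zero_iff] at hv
    have : ‖c‖ * ‖v‖ ^ 2 ≤ ‖c‖ * ρ ^ 2 := by gcongr
    linarith
  have u5 : ∀ v ∈ ball (0 : ℂ) ρ, 5 / 6 ≤ ‖u v‖ := fun v hv => by
    linarith [re_ge_of_near (u4 v hv), Complex.re_le_norm (u v)]
  have u6 : ∀ v ∈ ball (0 : ℂ) ρ, u v ≠ 0 := fun v hv => norm_pos_iff.1 (by linarith [u5 v hv])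
  have hsq : ∀ w : ℂ, Real.exp T < ‖w‖ → Real.exp T < ‖w ^ 2‖ := fun w hw => by
    rw [norm_pow]; nlinarith
  have hconj : ∀ w : ℂ, Real.exp T < ‖w‖ →
      w ^ 2 * u (w ^ 2)⁻¹ = qf c (w * u w⁻¹) := fun w hw => by
    rw [qf, mul_pow, u3 _ (hm w hw), inv_pow]
    field_simp [hne w hw]
    ring
  have hdiv : ∀ w : ℂ, Real.exp T < ‖w‖ → w * u w⁻¹ / w = u w⁻¹ := fun w hw => by
    field_simp [hne w hw]
  refine ⟨T, fun w => w * u w⁻¹, T0, continuousOn_id.mul (u1.continuousOn.comp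
    (continuousOn_inv₀.mono fun w hw => hne w hw) hm), fun w hw w' hw' e => ?_, hconj,
    fun w hw => by rw [hdiv w hw]; exact u2 _ (hm w hw),
    fun w hw => by rw [hdiv w hw]; exact u4 _ (hm w hw), ?_⟩
  · have key : ∀ n : ℕ, Real.exp T < ‖w ^ 2 ^ n‖ ∧ Real.exp T < ‖w' ^ 2 ^ n‖ ∧
        w ^ 2 ^ n * u (w ^ 2 ^ n)⁻¹ = w' ^ 2 ^ n * u (w' ^ 2 ^ n)⁻¹ := by
      intro n
      induction n with
      | zero => simpa using ⟨hw, hw', e⟩
      | succ n ih =>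
        rw [pow_succ, pow_mul, pow_mul]
        exact ⟨hsq _ ih.1, hsq _ ih.2.1, by rw [hconj _ ih.1, hconj _ ih.2.1, ih.2.2]⟩
    refine (div_eq_one_iff_eq (hne w' hw')).1 (rigid fun n => ?_)
    obtain ⟨k1, k2, k3⟩ := key n
    have b1 := u6 _ (hm _ k1)
    have b2 := hne _ k2
    have : (w / w') ^ 2 ^ n - 1 = ((u (w' ^ 2 ^ n)⁻¹ - 1) - (u (w ^ 2 ^ n)⁻¹ - 1)) /
        u (w ^ 2 ^ n)⁻¹ := by
      rw [div_pow]
      generalize u (w ^ 2 ^ n)⁻¹ = a at *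
      generalize u (w' ^ 2 ^ n)⁻¹ = b at *
      field_simp
      linear_combination k3
    rw [this, norm_div, div_le_iff₀ (norm_pos_iff.2 b1)]
    linarith [norm_sub_le (u (w' ^ 2 ^ n)⁻¹ - 1) (u (w ^ 2 ^ n)⁻¹ - 1), u4 _ (hm _ k1),
      u4 _ (hm _ k2), u5 _ (hm _ k1)]
  · have hb := ball_mem_nhds (0 : ℂ) ρ0
    have ha : AnalyticAt ℂ (fun v => v / u v) 0 :=
      analyticAt_id.div (u1.analyticAt hb) (u6 0 (mem_ball_self ρ0))
    rcases ha.eventually_constant_or_nhds_le_map_nhds with h | h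
    · obtain ⟨v, ⟨a1, a2⟩, a3⟩ := (((h.and hb).filter_mono
        nhdsWithin_le_nhds).and (self_mem_nhdsWithin (s := {0}ᶜ))).exists
      rw [zero_div, div_eq_zero_iff] at a1
      exact absurd (a1.resolve_right (u6 v a2)) a3
    · obtain ⟨r, hr, hsub⟩ := Metric.mem_nhds_iff.1 (h (image_mem_map hb))
      refine ⟨r⁻¹, fun z hz => ?_⟩
      have z0 : 0 < ‖z‖ := (inv_pos.2 hr).trans hz
      obtain ⟨v, hv, e⟩ := hsub (a := z⁻¹) (by
        rw [zero_div, mem_ball_zero_iff, norm_inv]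
        exact inv_lt_of_inv_lt₀ hr hz)
      have z1 := norm_pos_iff.1 z0
      have v0 : v ≠ 0 := by
        rintro rfl
        simp only [zero_div] at e
        exact inv_ne_zero z1 e.symm
      refine ⟨v⁻¹, ?_, ?_⟩
      · rw [mem_ball_zero_iff] at hv
        rw [norm_inv]
        exact lt_inv_of_lt_inv₀ (norm_pos_iff.2 v0) hv
      · simp only [inv_inv]
        have := u6 v hv
        rw [← inv_inv z, ← e]
        field_simp

end Pool.Agent.MP_61ef33_al
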