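import Mathlib

section

/- Kneading automata of strictly preperiodic quadratic type and their action on the binary tree. -/

namespace Pool.Agent.MP_61ef33_al

/-- Abstract kneading data. -/
structure KA (S : Type) where
  sg : S
  nx : S → S
  cl : S → Bool
  ha : ∀ s, nx s ≠ sg
  hb : ∀ s t, nx s = nx t → cl s = cl t → s = t
  hc : ∀ s, ∃ k, nx^[k] sg = s
  hd : ∀ s t, (∀ i, cl (nx^[i] s) = cl (nx^[i] t)) → s = t

namespace KA

variable {S : Type} (A : KA S)

/-- Star (renormalisable) form of the kneading sequence. -/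
def Star : Prop :=
  ∃ p, 2 ≤ p ∧ ∀ j, ¬ p ∣ j + 1 → A.cl (A.nx^[j + p] A.sg) = A.cl (A.nx^[j] A.sg)

open Classical in
noncomputable def prev (x : Bool) (s : S) : Option S :=
  if h : ∃ t, A.nx t = s ∧ A.cl t = x then some h.choose else none

theorem prev_eq_some {x : Bool} {s t : S} : A.prev x s = some t ↔ A.nx t = s ∧ A.cl t = x := by
  unfold prev
  split_ifs with h
  · constructor
    · intro e
      have := h.choose_spec
      rw [Option.some.injEq] at e
      rw [← e]; exact this
    · rintro ⟨h1, h2⟩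
      have := h.choose_spec
      rw [Option.some.injEq]
      exact A.hb _ _ (this.1.trans h1.symm) (this.2.trans h2.symm)
  · constructor
    · intro e; cases e
    · intro e; exact absurd ⟨t, e⟩ h

theorem prev_eq_none {x : Bool} {s : S} : A.prev x s = none ↔ ∀ t, A.nx t = s → A.cl t ≠ x := by
  constructor
  · intro h t h1 h2
    have := (A.prev_eq_some (x := x) (s := s) (t := t)).2 ⟨h1, h2⟩
    rw [h] at this; cases this
  · intro h
    cases e : A.prev x s with
    | none => rfl
    | some t => exact absurd (A.prev_eq_some.1 e).2 (h t (A.prev_eq_some.1 e).1)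

theorem prev_sg (x : Bool) : A.prev x A.sg = none :=
  A.prev_eq_none.2 fun t h _ => A.ha t h

theorem prev_nx (t : S) : A.prev (A.cl t) (A.nx t) = some t := A.prev_eq_some.2 ⟨rfl, rfl⟩

open Classical in
/-- `isg s` says that `s` is the active state. -/
noncomputable def isg (s : S) : Bool := decide (s = A.sg)

@[simp] theorem isg_sg : A.isg A.sg = true := by simp [isg]
theorem isg_ne {s : S} (h : s ≠ A.sg) : A.isg s = false := by simp [isg, h]
theorem isg_eq_true {s : S} : A.isg s = true ↔ s = A.sg := by simp [isg]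
theorem isg_eq_false {s : S} : A.isg s = false ↔ s ≠ A.sg := by simp [isg]
@[simp] theorem isg_nx (s : S) : A.isg (A.nx s) = false := A.isg_ne (A.ha s)

/-- Action of a state on a vertex of the binary tree. -/
noncomputable def act : List Bool → S → List Bool
  | [], _ => []
  | x :: w, s => (xor x (A.isg s)) :: (match A.prev x s with
      | none => w
      | some t => act w t)

theorem act_act (w : List Bool) (s : S) : A.act (A.act w s) s = w := by
  induction w generalizing s with
  | nil => rfl
  | cons x w ih =>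
    by_cases h : s = A.sg
    · subst h
      simp [act, prev_sg]
    · cases e : A.prev x s with
      | none => simp [act, A.isg_ne h, e]
      | some t => simp [act, A.isg_ne h, e, ih]

/-- The generator attached to a state. -/
noncomputable def gen (s : S) : Equiv.Perm (List Bool) :=
  Function.Involutive.toPerm (fun w => A.act w s) (fun w => A.act_act w s)

theorem gen_apply (s : S) (w : List Bool) : A.gen s w = A.act w s := rfl

theorem gen_mul_self (s : S) : A.gen s * A.gen s = 1 := by
  ext1 w; exact A.act_act w s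

theorem gen_inv (s : S) : (A.gen s)⁻¹ = A.gen s :=
  inv_eq_of_mul_eq_one_left (A.gen_mul_self s)

/-- Value of a word (letters are applied from left to right). -/
noncomputable def ev : List S → Equiv.Perm (List Bool)
  | [] => 1
  | s :: W => ev W * A.gen s

@[simp] theorem ev_nil : A.ev [] = 1 := rfl
@[simp] theorem ev_cons (s : S) (W : List S) : A.ev (s :: W) = A.ev W * A.gen s := rfl

theorem ev_append (U V : List S) : A.ev (U ++ V) = A.ev V * A.ev U := by
  induction U with
  | nil => simp
  | cons s U ih => simp [ih, mul_assoc]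

theorem ev_reverse (U : List S) : A.ev U.reverse = (A.ev U)⁻¹ := by
  induction U with
  | nil => simp
  | cons s U ih => simp [ev_append, ih, gen_inv]

/-- Parity of the number of active letters. -/
noncomputable def par : List S → Bool
  | [] => false
  | s :: W => xor (A.isg s) (par W)

@[simp] theorem par_nil : A.par [] = false := rfl
@[simp] theorem par_cons (s : S) (W : List S) : A.par (s :: W) = xor (A.isg s) (A.par W) := rfl

theorem par_append (U V : List S) : A.par (U ++ V) = xor (A.par U) (A.par V) := by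
  induction U with
  | nil => simp
  | cons s U ih => simp [ih]

/-- Section of a word at a first-level vertex. -/
noncomputable def sec : List S → Bool → List S
  | [], _ => []
  | s :: W, y => (A.prev y s).toList ++ sec W (xor y (A.isg s))

@[simp] theorem sec_nil (y : Bool) : A.sec [] y = [] := rfl
theorem sec_cons (s : S) (W : List S) (y : Bool) :
    A.sec (s :: W) y = (A.prev y s).toList ++ A.sec W (xor y (A.isg s)) := rfl

theorem sec_append (U V : List S) (y : Bool) :
    A.sec (U ++ V) y = A.sec U y ++ A.sec V (xor y (A.par U)) := by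
  induction U generalizing y with
  | nil => simp
  | cons s U ih => simp [sec_cons, ih]

@[simp] theorem ev_apply_nil (W : List S) : A.ev W [] = [] := by
  induction W with
  | nil => rfl
  | cons s W ih => simpa [gen_apply, act] using ih

theorem ev_apply_cons (W : List S) (y : Bool) (v : List Bool) :
    A.ev W (y :: v) = xor y (A.par W) :: A.ev (A.sec W y) v := by
  induction W generalizing y v with
  | nil => simp
  | cons s W ih =>
    simp only [ev_cons, Equiv.Perm.mul_apply, gen_apply, act, ih, par_cons, sec_cons, ev_append,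
      Bool.xor_assoc]
    congr 2
    cases A.prev y s with
    | none => simp
    | some t => simp [gen_apply]

theorem par_eq_of_ev {U V : List S} (h : A.ev U = A.ev V) : A.par U = A.par V := by
  have h1 := A.ev_apply_cons U false []
  rw [h, A.ev_apply_cons] at h1
  simpa using (List.cons.inj h1).1.symm

theorem sec_eq_of_ev {U V : List S} (h : A.ev U = A.ev V) (y : Bool) :
    A.ev (A.sec U y) = A.ev (A.sec V y) := by
  ext1 v
  have h1 := A.ev_apply_cons U y v
  rw [h, A.ev_apply_cons] at h1
  exact (List.cons.inj h1).2.symm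

theorem ev_eq_of_sec {U V : List S} (hp : A.par U = A.par V)
    (h : ∀ y, A.ev (A.sec U y) = A.ev (A.sec V y)) : A.ev U = A.ev V := by
  ext1 v
  cases v with
  | nil => simp
  | cons y v => rw [ev_apply_cons, ev_apply_cons, hp, h]

theorem mem_sec {W : List S} {y : Bool} {t : S} (h : t ∈ A.sec W y) : A.nx t ∈ W := by
  induction W generalizing y with
  | nil => simp at h
  | cons s W ih =>
    rw [sec_cons, List.mem_append] at h
    rcases h with h | h
    · have : A.prev y s = some t := by simpa using h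
      rw [(A.prev_eq_some.1 this).1]; simp
    · exact List.mem_cons_of_mem _ (ih h)

theorem par_of_not_mem {W : List S} (hW : A.sg ∉ W) : A.par W = false := by
  induction W with
  | nil => rfl
  | cons s W ih =>
    simp only [List.mem_cons, not_or] at hW
    simp [ih hW.2, A.isg_ne (Ne.symm hW.1)]

theorem cl_of_mem_sec {W : List S} (hW : A.sg ∉ W) {y : Bool} {t : S} (h : t ∈ A.sec W y) :
    A.cl t = y := by
  induction W with
  | nil => simp at h
  | cons s W ih =>
    simp only [List.mem_cons, not_or] at hW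
    rw [sec_cons, List.mem_append, A.isg_ne (Ne.symm hW.1)] at h
    rcases h with h | h
    · have : A.prev y s = some t := by simpa using h
      exact (A.prev_eq_some.1 this).2
    · exact ih hW.2 (by simpa using h)

end KA

end Pool.Agent.MP_61ef33_al

end

section

/- Proper subsets of the generators generate finite groups (non-star case). -/

namespace Pool.Agent.MP_61ef33_al

namespace KA

variable {S : Type} (A : KA S)

/-- Elements represented by words over `B`. -/
def Wd (B : Set S) : Set (Equiv.Perm (List Bool)) := {g | ∃ W : List S, (∀ s ∈ W, s ∈ B) ∧ A.ev W = g}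

theorem finite_of_sec {B B1 B2 : Set S} (h1 : (A.Wd B1).Finite) (h2 : (A.Wd B2).Finite)
    (h : ∀ W : List S, (∀ s ∈ W, s ∈ B) → (∀ s ∈ A.sec W false, s ∈ B1) ∧
      (∀ s ∈ A.sec W true, s ∈ B2)) : (A.Wd B).Finite := by
  let f : Equiv.Perm (List Bool) → Bool × (List Bool → List Bool) × (List Bool → List Bool) :=
    fun g => ((g [false]).headD false, fun v => (g (false :: v)).tail, fun v => (g (true :: v)).tail)
  have hf : ∀ W, f (A.ev W) = (A.par W, (A.ev (A.sec W false) : List Bool → List Bool),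
      (A.ev (A.sec W true) : List Bool → List Bool)) := by
    intro W
    simp [f, A.ev_apply_cons]
  refine Set.Finite.of_injOn (f := f) (t := Set.univ ×ˢ ((fun g : Equiv.Perm (List Bool) =>
    (g : List Bool → List Bool)) '' A.Wd B1) ×ˢ ((fun g : Equiv.Perm (List Bool) =>
    (g : List Bool → List Bool)) '' A.Wd B2)) ?_ ?_ ?_
  · rintro g ⟨W, hW, rfl⟩
    rw [hf]
    exact ⟨trivial, ⟨_, ⟨_, (h W hW).1, rfl⟩, rfl⟩, ⟨_, ⟨_, (h W hW).2, rfl⟩, rfl⟩⟩
  · rintro g ⟨W, hW, rfl⟩ g' ⟨W', hW', rfl⟩ e
    rw [hf, hf] at e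
    simp only [Prod.mk.injEq, DFunLike.coe_fn_eq] at e
    refine A.ev_eq_of_sec e.1 fun y => ?_
    cases y
    · exact e.2.1
    · exact e.2.2
  · exact Set.finite_univ.prod ((h1.image _).prod (h2.image _))

theorem exists_cl (x : Bool) : ∃ s, A.cl s = x := by
  by_contra h
  push Not at h
  have h2 : ∀ s t, A.cl s = A.cl t := by
    intro s t
    have a := h s
    have b := h t
    revert a b
    cases A.cl s <;> cases A.cl t <;> cases x <;> simp
  exact A.ha A.sg (A.hd _ _ fun i => h2 _ _)

theorem exists_child {B : Set S} (hB : B ≠ Set.univ) (hi : (A.Wd B).Infinite) :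
    ∃ B' : Set S, (B' ≠ Set.univ ∧ (A.Wd B').Infinite) ∧ (∀ s ∈ B', A.nx s ∈ B) ∧
      (A.sg ∉ B → ∀ s ∈ B', ∀ t ∈ B', A.cl s = A.cl t) := by
  by_cases hs : A.sg ∈ B
  · refine ⟨{s | A.nx s ∈ B}, ⟨?_, ?_⟩, fun s h => h, fun h => absurd hs h⟩
    · intro e
      apply hB
      rw [Set.eq_univ_iff_forall] at e ⊢
      intro s
      obtain ⟨k, rfl⟩ := A.hc s
      cases k with
      | zero => exact hs
      | succ k => rw [Function.iterate_succ_apply']; exact e _
    · intro hf
      exact hi (A.finite_of_sec hf hf fun W hW =>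
        ⟨fun s h => hW _ (A.mem_sec h), fun s h => hW _ (A.mem_sec h)⟩)
  · have key : ∃ x, (A.Wd {s | A.nx s ∈ B ∧ A.cl s = x}).Infinite := by
      by_contra h
      push Not at h
      refine hi (A.finite_of_sec (h false) (h true) fun W hW => ?_)
      have hn : A.sg ∉ W := fun h' => hs (hW _ h')
      exact ⟨fun s h => ⟨hW _ (A.mem_sec h), A.cl_of_mem_sec hn h⟩,
        fun s h => ⟨hW _ (A.mem_sec h), A.cl_of_mem_sec hn h⟩⟩
    obtain ⟨x, hx⟩ := key
    refine ⟨_, ⟨?_, hx⟩, fun s h => h.1, fun _ s h t h' => h.2.trans h'.2.symm⟩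
    intro e
    obtain ⟨s, hs'⟩ := A.exists_cl (!x)
    have : s ∈ {s | A.nx s ∈ B ∧ A.cl s = x} := e ▸ Set.mem_univ s
    have h3 := this.2
    rw [hs'] at h3
    cases x <;> simp at h3

theorem chain_star (C : ℕ → Set S) (p : ℕ) (hp : 0 < p) (hper : ∀ k, C (k + p) = C k)
    (hne : C 0 ≠ Set.univ) (hnx : ∀ k, ∀ s ∈ C k, A.nx s ∈ C (k + 1))
    (hcl : ∀ k, A.sg ∉ C (k + 1) → ∀ s ∈ C k, ∀ t ∈ C k, A.cl s = A.cl t) :
    A.Star ∨ (C 0).Subsingleton := by
  classical
  have hit : ∀ j k, ∀ s ∈ C k, A.nx^[j] s ∈ C (k + j) := by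
    intro j
    induction j with
    | zero => intro k s h; exact h
    | succ j ih =>
      intro k s h
      rw [Function.iterate_succ_apply']
      exact hnx _ _ (ih k s h)
  have hperm : ∀ m k, C (k + m * p) = C k := by
    intro m
    induction m with
    | zero => intro k; simp
    | succ m ih => intro k; rw [Nat.succ_mul, ← add_assoc, hper, ih]
  by_cases hT : ∃ k, A.sg ∈ C k
  swap
  · right
    push Not at hT
    intro s hs t ht
    exact A.hd _ _ fun i => hcl _ (hT _) _ (hit i 0 s hs) _ (hit i 0 t ht)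
  left
  let P : ℕ → Prop := fun d => ∀ k, A.sg ∈ C k ↔ A.sg ∈ C (k + d)
  have hP0 : ∃ d, 0 < d ∧ P d := ⟨p, hp, fun k => by rw [hper]⟩
  let g := Nat.find hP0
  have hg : 0 < g ∧ P g := Nat.find_spec hP0
  have hgm : ∀ m k, A.sg ∈ C k ↔ A.sg ∈ C (k + m * g) := by
    intro m
    induction m with
    | zero => intro k; simp
    | succ m ih => intro k; rw [Nat.succ_mul, ← add_assoc, ← hg.2, ih]
  have hdiv : ∀ d, P d → g ∣ d := by
    intro d hd
    by_contra hnd
    have hr : 0 < d % g := Nat.pos_of_ne_zero fun h => hnd (Nat.dvd_of_mod_eq_zero h)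
    have hlt : d % g < g := Nat.mod_lt _ hg.1
    refine Nat.find_min hP0 hlt ⟨hr, fun k => ?_⟩
    rw [hd k, hgm (d / g) (k + d % g)]
    have := Nat.mod_add_div' d g
    rw [add_assoc, this]
  have hg2 : 2 ≤ g := by
    by_contra h
    have h1 : g = 1 := by have := hg.1; omega
    obtain ⟨k0, hk0⟩ := hT
    have hall : ∀ k, A.sg ∈ C k := by
      intro k
      have a := (hgm k 0)
      have b := (hgm k0 0)
      rw [h1] at a b
      simp only [zero_add, mul_one] at a b
      exact a.1 (b.2 hk0)
    apply hne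
    rw [Set.eq_univ_iff_forall]
    intro s
    obtain ⟨k, rfl⟩ := A.hc s
    have := hit k ((p - 1) * k) _ (hall _)
    have e : (p - 1) * k + k = 0 + k * p := by
      obtain ⟨q, rfl⟩ : ∃ q, p = q + 1 := ⟨p - 1, by omega⟩
      simp; ring
    rwa [e, hperm] at this
  refine ⟨g, hg2, fun j hj => ?_⟩
  have hex : ∃ i, A.sg ∈ C i ∧ A.sg ∉ C (i + (j + 1)) := by
    by_contra h
    push Not at h
    apply hj
    apply hdiv
    intro k
    refine ⟨h k, fun hk => ?_⟩
    have hm : ∀ m i, A.sg ∈ C i → A.sg ∈ C (i + m * (j + 1)) := by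
      intro m
      induction m with
      | zero => intro i hi; simpa using hi
      | succ m ih => intro i hi; rw [Nat.succ_mul, ← add_assoc]; exact h _ (ih i hi)
    have := hm (p - 1) _ hk
    have e : k + (j + 1) + (p - 1) * (j + 1) = k + (j + 1) * p := by
      obtain ⟨q, rfl⟩ : ∃ q, p = q + 1 := ⟨p - 1, by omega⟩
      simp; ring
    rwa [e, hperm] at this
  obtain ⟨i, hi, hi'⟩ := hex
  have h1 := hit j i _ hi
  have h2 := hit (j + g) _ _ ((hgm (p - 1) i).1 hi)
  have e : i + (p - 1) * g + (j + g) = i + j + g * p := by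
    obtain ⟨q, rfl⟩ : ∃ q, p = q + 1 := ⟨p - 1, by omega⟩
    simp; ring
  rw [e, hperm] at h2
  exact hcl (i + j) hi' _ h2 _ h1

theorem finite_Wd_subsingleton {B : Set S} (h : B.Subsingleton) : (A.Wd B).Finite := by
  rcases B.eq_empty_or_nonempty with rfl | ⟨s, hs⟩
  · refine (Set.finite_singleton 1).subset ?_
    rintro g ⟨W, hW, rfl⟩
    cases W with
    | nil => rfl
    | cons t W => exact absurd (hW t (by simp)) (by simp)
  · refine ((Set.finite_singleton (A.gen s)).insert 1).subset ?_
    rintro g ⟨W, hW, rfl⟩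
    induction W with
    | nil => left; rfl
    | cons t W ih =>
      have ht : t = s := h (hW t (by simp)) hs
      subst ht
      rcases ih (fun u hu => hW u (by simp [hu])) with e | e
      · right; simp [e]
      · left; rw [ev_cons, e, gen_mul_self]

theorem finite_Wd [Finite S] (hs : ¬ A.Star) {B : Set S} (hB : B ≠ Set.univ) : (A.Wd B).Finite := by
  by_contra hi
  let T := {B : Set S // B ≠ Set.univ ∧ (A.Wd B).Infinite}
  have hch : ∀ B : T, ∃ B' : T, (∀ s ∈ B'.1, A.nx s ∈ B.1) ∧
      (A.sg ∉ B.1 → ∀ s ∈ B'.1, ∀ t ∈ B'.1, A.cl s = A.cl t) := by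
    intro B
    obtain ⟨B', h1, h2⟩ := A.exists_child B.2.1 B.2.2
    exact ⟨⟨B', h1⟩, h2⟩
  choose ch hch using hch
  obtain ⟨a, b, hab, e⟩ := Finite.exists_ne_map_eq_of_infinite (fun n => ch^[n] (⟨B, hB, hi⟩ : T))
  wlog hlt : a < b generalizing a b
  · exact this b a hab.symm e.symm (by omega)
  obtain ⟨q, rfl⟩ : ∃ q, b = q + 1 + a := ⟨b - a - 1, by omega⟩
  set B0 : T := ch^[a] ⟨B, hB, hi⟩ with hB0
  have hfix : ch^[q + 1] B0 = B0 := by
    rw [hB0, ← Function.iterate_add_apply]; exact e.symm
  have hfixm : ∀ m, ch^[m * (q + 1)] B0 = B0 := by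
    intro m
    induction m with
    | zero => simp
    | succ m ih => rw [Nat.succ_mul, Function.iterate_add_apply, hfix, ih]
  let C : ℕ → T := fun k => ch^[q * k] B0
  have hC : ∀ k, ch (C (k + 1)) = C k := by
    intro k
    show ch (ch^[q * (k + 1)] B0) = ch^[q * k] B0
    rw [← Function.iterate_succ_apply' ch]
    have : (q * (k + 1)).succ = q * k + (q + 1) := by simp [Nat.succ_eq_add_one]; ring
    rw [this, Function.iterate_add_apply, hfix]
  have := A.chain_star (fun k => (C k).1) (q + 1) (by omega) (fun k => by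
      show (ch^[q * (k + (q + 1))] B0).1 = (ch^[q * k] B0).1
      rw [mul_add, Function.iterate_add_apply, hfixm]) (C 0).2.1
    (fun k s h => (hch (C (k + 1))).1 s (by rw [hC]; exact h))
    (fun k h s h1 t h2 => (hch (C (k + 1))).2 h s (by rw [hC]; exact h1) t (by rw [hC]; exact h2))
  rcases this with h | h
  · exact hs h
  · exact (C 0).2.2 (A.finite_Wd_subsingleton h)

end KA

end Pool.Agent.MP_61ef33_al

end

section

/- Cuts of the state set, and closed walks of cuts of consecutive lengths (non-star case). -/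

namespace Pool.Agent.MP_61ef33_al

namespace KA

variable {S : Type} (A : KA S)

/-- The cut separating the active state from the others. -/
noncomputable def cut0 : S → Bool := fun s => !A.isg s

/-- Pull-back of a cut into one class, normalised so that the active state is outside. -/
noncomputable def step (F : S → Bool) (x : Bool) : S → Bool := fun s =>
  xor (F (A.nx s) && (A.cl s == x)) (F (A.nx A.sg) && (A.cl A.sg == x))

theorem step_sg (F : S → Bool) (x : Bool) : A.step F x A.sg = false := by simp [step]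

noncomputable def walk (xs : List Bool) : S → Bool := xs.foldl A.step A.cut0

theorem walk_concat (xs : List Bool) (x : Bool) : A.walk (xs ++ [x]) = A.step (A.walk xs) x := by
  simp [walk]

theorem walk_sg (xs : List Bool) : A.walk xs A.sg = false := by
  induction xs using List.reverseRecOn with
  | nil => simp [walk, cut0]
  | append_singleton xs x _ => rw [walk_concat, step_sg]

theorem walk_append {xs : List Bool} (h : A.walk xs = A.cut0) (ys : List Bool) :
    A.walk (xs ++ ys) = A.walk ys := by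
  unfold walk at *
  rw [List.foldl_append, h]

/-- Some cut reached in `L` steps separates `r` from `B`. -/
def Lam (L : ℕ) (r : S) (B : Set S) : Prop :=
  ∃ xs : List Bool, xs.length = L ∧ ∀ b ∈ B, A.walk xs b ≠ A.walk xs r

theorem Lam.mono {L : ℕ} {r : S} {B B' : Set S} (h : A.Lam L r B) (hB : B' ⊆ B) : A.Lam L r B' := by
  obtain ⟨xs, h1, h2⟩ := h
  exact ⟨xs, h1, fun b hb => h2 b (hB hb)⟩

theorem Lam.symm {L : ℕ} {r t : S} (h : A.Lam L r {t}) : A.Lam L t {r} := by
  obtain ⟨xs, h1, h2⟩ := h
  refine ⟨xs, h1, fun b hb => ?_⟩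
  rw [Set.mem_singleton_iff.1 hb]
  exact (h2 t rfl).symm

theorem lam_zero (r : S) : A.Lam 0 (A.nx r) {A.sg} := by
  refine ⟨[], rfl, fun b hb => ?_⟩
  rw [Set.mem_singleton_iff.1 hb]
  simp [walk, cut0]

theorem lam_two {L : ℕ} {r : S} {B B' : Set S} (h : A.Lam L (A.nx r) B')
    (hB : ∀ b ∈ B, (A.cl b = A.cl r → A.nx b ∈ B') ∧ (A.cl b ≠ A.cl r → A.sg ∈ B')) :
    A.Lam (L + 1) r B := by
  obtain ⟨xs, h1, h2⟩ := h
  refine ⟨xs ++ [A.cl r], by simp [h1], fun b hb => ?_⟩
  rw [walk_concat]
  simp only [step, ne_eq, Bool.xor_left_inj, BEq.rfl, Bool.and_true]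
  by_cases hc : A.cl b = A.cl r
  · have := h2 _ ((hB b hb).1 hc)
    simpa [hc] using this
  · have := h2 _ ((hB b hb).2 hc)
    rw [walk_sg] at this
    have e : (A.cl b == A.cl r) = false := by simpa using hc
    simpa [e] using this

theorem lam_three {L : ℕ} {r : S} {B B' : Set S} (h : A.Lam L A.sg B')
    (hB : ∀ b ∈ B, A.cl b ≠ A.cl r ∧ A.nx b ∈ B') : A.Lam (L + 1) r B := by
  obtain ⟨xs, h1, h2⟩ := h
  refine ⟨xs ++ [!A.cl r], by simp [h1], fun b hb => ?_⟩
  rw [walk_concat]
  have a := h2 _ (hB b hb).2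
  rw [walk_sg] at a
  have a' : A.walk xs (A.nx b) = true := by simpa using a
  have c := (hB b hb).1
  simp only [step, ne_eq, Bool.xor_left_inj, a']
  revert c
  cases A.cl b <;> cases A.cl r <;> simp

/-- `r` is an extreme point with respect to `B`, in a strong form. -/
def Good (r : S) (B : Set S) : Prop :=
  ∃ i, ∀ L, A.Lam L (A.nx^[i + 1] r) {A.sg} → A.Lam (L + i + 1) r B

theorem good_pull {r : S} {B B' : Set S} (h : A.Good (A.nx r) B')
    (hB : ∀ b ∈ B, (A.cl b = A.cl r → A.nx b ∈ B') ∧ (A.cl b ≠ A.cl r → A.sg ∈ B')) :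
    A.Good r B := by
  obtain ⟨i, hi⟩ := h
  exact ⟨i + 1, fun L hL => A.lam_two (hi L hL) hB⟩

theorem good_base {r : S} {B : Set S} (hB : ∀ b ∈ B, A.cl b ≠ A.cl r) : A.Good r B :=
  ⟨0, fun _ hL => A.lam_two hL fun b hb => ⟨fun h => absurd h (hB b hb), fun _ => rfl⟩⟩

theorem good_pair {r t : S} (h : r ≠ t) : A.Good r {t} := by
  have : ∃ k, A.cl (A.nx^[k] r) ≠ A.cl (A.nx^[k] t) := by
    by_contra h'
    push Not at h'
    exact h (A.hd _ _ h')
  obtain ⟨k, hk⟩ := this
  clear h
  induction k generalizing r t with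
  | zero =>
    exact A.good_base fun b hb => by rw [Set.mem_singleton_iff.1 hb]; exact Ne.symm hk
  | succ k ih =>
    by_cases hc : A.cl t = A.cl r
    · refine A.good_pull (ih (r := A.nx r) (t := A.nx t) hk) fun b hb => ?_
      rw [Set.mem_singleton_iff.1 hb]
      exact ⟨fun _ => rfl, fun h => absurd hc h⟩
    · exact A.good_base fun b hb => by rw [Set.mem_singleton_iff.1 hb]; exact hc

theorem extreme [DecidableEq S] (n : ℕ) : ∀ U : Finset S, U.card ≤ n → U.Nonempty → ∀ t ∉ U,
    ∃ r ∈ U, A.Good r {b | b = t ∨ (b ∈ U ∧ b ≠ r)} := by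
  induction n with
  | zero =>
    intro U hU hne
    exact absurd (Finset.card_pos.2 hne) (by omega)
  | succ n ih =>
    have nonmono : ∀ U : Finset S, U.card ≤ n + 1 → (∃ u ∈ U, ∃ v ∈ U, A.cl u ≠ A.cl v) → ∀ t,
        ∃ r ∈ U, A.Good r {b | b = t ∨ (b ∈ U ∧ b ≠ r)} := by
      rintro U hU ⟨u, hu, v, hv, huv⟩ t
      have hex1 : ∃ w ∈ U, A.cl w ≠ A.cl t := by
        by_cases h : A.cl u = A.cl t
        · exact ⟨v, hv, fun h' => huv (h.trans h'.symm)⟩
        · exact ⟨u, hu, h⟩
      have hex2 : ∃ w ∈ U, A.cl w = A.cl t := by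
        by_cases h : A.cl u = A.cl t
        · exact ⟨u, hu, h⟩
        · refine ⟨v, hv, ?_⟩
          revert h huv
          cases A.cl u <;> cases A.cl v <;> cases A.cl t <;> simp
      set U1 := U.filter (fun w => A.cl w ≠ A.cl t) with hU1
      have hlt : U1.card < U.card := by
        apply Finset.card_lt_card
        rw [hU1, Finset.filter_ssubset]
        obtain ⟨w, hw, h⟩ := hex2
        exact ⟨w, hw, by simpa using h⟩
      obtain ⟨r', hr', hg⟩ := ih (U1.image A.nx) ((Finset.card_image_le).trans (by omega))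
        (by obtain ⟨w, hw, h⟩ := hex1; exact ⟨A.nx w, Finset.mem_image_of_mem _ (by simp [hU1, hw, h])⟩)
        A.sg (by simp [A.ha])
      obtain ⟨r, hr, rfl⟩ := Finset.mem_image.1 hr'
      have hr2 := Finset.mem_filter.1 hr
      refine ⟨r, hr2.1, A.good_pull hg fun b hb => ⟨fun hc => ?_, fun _ => Or.inl rfl⟩⟩
      rcases hb with rfl | ⟨hb1, hb2⟩
      · exact absurd hc.symm hr2.2
      · exact Or.inr ⟨Finset.mem_image_of_mem _ (Finset.mem_filter.2 ⟨hb1, hc ▸ hr2.2⟩),
          fun e => hb2 (A.hb _ _ e hc)⟩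
    intro U hU hne t ht
    by_cases hs : ∃ u ∈ U, ∃ v ∈ U, u ≠ v
    swap
    · push Not at hs
      obtain ⟨r, hr⟩ := hne
      refine ⟨r, hr, ?_⟩
      obtain ⟨i, hi⟩ := A.good_pair (r := r) (t := t) (fun e => ht (e ▸ hr))
      refine ⟨i, fun L hL => (hi L hL).mono A ?_⟩
      rintro b (rfl | ⟨h1, h2⟩)
      · rfl
      · exact absurd (hs b h1 r hr) h2
    obtain ⟨u, hu, v, hv, huv⟩ := hs
    have : ∃ k, A.cl (A.nx^[k] u) ≠ A.cl (A.nx^[k] v) := by
      by_contra h'
      push Not at h'
      exact huv (A.hd _ _ h')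
    obtain ⟨k, hk⟩ := this
    clear huv hne
    induction k generalizing U t u v with
    | zero => exact nonmono U hU ⟨u, hu, v, hv, hk⟩ t
    | succ k ihk =>
      by_cases hm : ∃ u ∈ U, ∃ v ∈ U, A.cl u ≠ A.cl v
      · exact nonmono U hU hm t
      push Not at hm
      obtain ⟨r', hr', hg⟩ := ihk (U.image A.nx) ((Finset.card_image_le).trans hU)
        (if A.cl t = A.cl u then A.nx t else A.sg) (by
          split_ifs with h
          · intro h'
            obtain ⟨w, hw, e⟩ := Finset.mem_image.1 h'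
            exact ht (A.hb _ _ e ((hm w hw u hu).trans h.symm) ▸ hw)
          · simp [A.ha]) (A.nx u) (Finset.mem_image_of_mem _ hu) (A.nx v)
          (Finset.mem_image_of_mem _ hv) hk
      obtain ⟨r, hr, rfl⟩ := Finset.mem_image.1 hr'
      refine ⟨r, hr, A.good_pull hg fun b hb => ?_⟩
      rcases hb with rfl | ⟨hb1, hb2⟩
      · constructor
        · intro hc
          left; rw [if_pos (hc.trans (hm r hr u hu))]
        · intro hc
          left; rw [if_neg (fun h => hc (h.trans (hm u hu r hr)))]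
      · exact ⟨fun hc => Or.inr ⟨Finset.mem_image_of_mem _ hb1, fun e => hb2 (A.hb _ _ e hc)⟩,
          fun hc => absurd (hm b hb1 r hr) hc⟩

theorem good_sg [Finite S] : A.Good A.sg {b | b ≠ A.sg} := by
  classical
  have := Fintype.ofFinite S
  obtain ⟨r, hr, hg⟩ := A.extreme _ (Finset.univ.erase A.sg) le_rfl
    ⟨A.nx A.sg, by simp [A.ha]⟩ A.sg (by simp)
  have hg' : A.Good r {b | b ≠ r} := by
    obtain ⟨i, hi⟩ := hg
    refine ⟨i, fun L hL => (hi L hL).mono A fun b hb => ?_⟩
    by_cases h : b = A.sg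
    · exact Or.inl h
    · exact Or.inr ⟨by simp [h], hb⟩
  obtain ⟨k, rfl⟩ := A.hc r
  clear hg hr
  induction k with
  | zero => exact hg'
  | succ k ih =>
    apply ih
    rw [Function.iterate_succ_apply'] at hg'
    exact A.good_pull hg' fun b hb =>
      ⟨fun hc e => hb (A.hb _ _ e hc), fun _ => (A.ha _).symm⟩

/-- There is a closed walk of length `L` at the basic cut. -/
def Closed (L : ℕ) : Prop := ∃ xs : List Bool, xs.length = L ∧ A.walk xs = A.cut0

theorem closed_of_lam {L : ℕ} (h : A.Lam L A.sg {b | b ≠ A.sg}) : A.Closed L := by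
  obtain ⟨xs, h1, h2⟩ := h
  refine ⟨xs, h1, funext fun s => ?_⟩
  by_cases hs : s = A.sg
  · subst hs; simp [walk_sg, cut0]
  · have := h2 s hs
    rw [walk_sg] at this
    simpa [cut0, A.isg_ne hs] using this

theorem Closed.add {a b : ℕ} (ha : A.Closed a) (hb : A.Closed b) : A.Closed (a + b) := by
  obtain ⟨xs, h1, h2⟩ := ha
  obtain ⟨ys, h3, h4⟩ := hb
  exact ⟨xs ++ ys, by simp [h1, h3], by rw [A.walk_append h2, h4]⟩

theorem iter_ne_sg (q : ℕ) (r : S) : A.nx^[q + 1] r ≠ A.sg := by
  rw [Function.iterate_succ_apply']; exact A.ha _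

theorem lam_chain {L j : ℕ} {r t : S} (hj : ∀ i < j, A.cl (A.nx^[i] r) = A.cl (A.nx^[i] t))
    (h : A.Lam L (A.nx^[j] r) {A.nx^[j] t}) : A.Lam (L + j) r {t} := by
  induction j generalizing r t with
  | zero => exact h
  | succ j ih =>
    have h1 := ih (r := A.nx r) (t := A.nx t) (fun i hi => hj (i + 1) (by omega)) h
    refine A.lam_two h1 fun b hb => ?_
    rw [Set.mem_singleton_iff.1 hb]
    exact ⟨fun _ => rfl, fun hc => absurd (hj 0 (by omega)).symm hc⟩

/-- Closure of a set of naturals under differences. -/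
inductive Dif (Q : ℕ → Prop) : ℕ → Prop
  | base {a : ℕ} : Q a → Dif Q a
  | sub {a b : ℕ} : Dif Q a → Dif Q b → b ≤ a → Dif Q (a - b)

theorem star_of_dvd [Finite S] {g : ℕ} (hg : 2 ≤ g) (h : ∀ L, A.Closed L → g ∣ L) : A.Star := by
  classical
  let Q : ℕ → Prop := fun q => 0 < q ∧ g ∣ q ∧ ∀ L, A.Lam L (A.nx^[q] A.sg) {A.sg} → g ∣ L
  have hQ0 : ∃ q, Q q := by
    obtain ⟨i, hi⟩ := A.good_sg
    have h0 : g ∣ i + 1 := by
      have := h _ (A.closed_of_lam (hi 0 (by
        rw [Function.iterate_succ_apply']; exact A.lam_zero _)))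
      simpa using this
    refine ⟨i + 1, by omega, h0, fun L hL => ?_⟩
    have := h _ (A.closed_of_lam (hi L hL))
    rw [add_assoc] at this
    exact (Nat.dvd_add_left h0).1 this
  have hstep : ∀ q, Q q → ∃ d, Q (d + 1) ∧ Q (q + (d + 1)) ∧
      ∀ i < d, A.cl (A.nx^[i + q] A.sg) = A.cl (A.nx^[i] A.sg) := by
    rintro q ⟨hq0, hq1, hq2⟩
    have hex : ∃ k, A.cl (A.nx^[k] (A.nx^[q] A.sg)) ≠ A.cl (A.nx^[k] A.sg) := by
      by_contra h'
      push Not at h'
      obtain ⟨q', rfl⟩ : ∃ q', q = q' + 1 := ⟨q - 1, by omega⟩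
      exact A.iter_ne_sg q' _ (A.hd _ _ h')
    let d := Nat.find hex
    have hd := Nat.find_spec hex
    have hmin : ∀ i < d, A.cl (A.nx^[i] (A.nx^[q] A.sg)) = A.cl (A.nx^[i] A.sg) := fun i hi =>
      not_not.1 (Nat.find_min hex hi)
    have e1 : A.nx (A.nx^[d] (A.nx^[q] A.sg)) = A.nx^[q + (d + 1)] A.sg := by
      rw [add_comm q, Function.iterate_add_apply, Function.iterate_succ_apply']
    have k1 : ∀ L, A.Lam L (A.nx^[q + (d + 1)] A.sg) {A.sg} → g ∣ L + (d + 1) := by
      intro L hL
      rw [← e1] at hL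
      have := A.lam_chain hmin (A.lam_two (B := {A.nx^[d] A.sg}) hL fun b hb => by
        rw [Set.mem_singleton_iff.1 hb]
        exact ⟨fun hc => absurd hc.symm hd, fun _ => rfl⟩)
      have := hq2 _ this
      rwa [show L + 1 + d = L + (d + 1) by ring] at this
    have k2 : ∀ L, A.Lam L (A.nx^[d + 1] A.sg) {A.sg} → g ∣ L + (d + 1) := by
      intro L hL
      have := A.lam_chain hmin (A.lam_three (B := {A.nx^[d] A.sg}) (hL.symm A) fun b hb => by
        rw [Set.mem_singleton_iff.1 hb]
        exact ⟨Ne.symm hd, by rw [Function.iterate_succ_apply']; rfl⟩)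
      have := hq2 _ this
      rwa [show L + 1 + d = L + (d + 1) by ring] at this
    have hd1 : g ∣ d + 1 := by
      have := k2 0 (by rw [Function.iterate_succ_apply']; exact A.lam_zero _)
      simpa using this
    refine ⟨d, ⟨by omega, hd1, fun L hL => (Nat.dvd_add_left hd1).1 (k2 L hL)⟩,
      ⟨by omega, Dvd.dvd.add hq1 hd1, fun L hL => (Nat.dvd_add_left hd1).1 (k1 L hL)⟩,
      fun i hi => ?_⟩
    rw [Function.iterate_add_apply]; exact hmin i hi
  have hR0 : ∃ d, 0 < d ∧ Dif Q d := by
    obtain ⟨q, hq⟩ := hQ0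
    exact ⟨q, hq.1, Dif.base hq⟩
  let p := Nat.find hR0
  have hp : 0 < p ∧ Dif Q p := Nat.find_spec hR0
  have hgR : ∀ a, Dif Q a → g ∣ a := by
    intro a ha
    induction ha with
    | base h => exact h.2.1
    | sub _ _ _ h1 h2 => exact Nat.dvd_sub h1 h2
  have hpR : ∀ a, Dif Q a → p ∣ a := by
    intro a
    induction a using Nat.strong_induction_on with
    | _ a ih =>
      intro ha
      rcases Nat.eq_zero_or_pos a with rfl | h0
      · simp
      have hle : p ≤ a := Nat.find_min' hR0 ⟨h0, ha⟩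
      have := ih (a - p) (by have := hp.1; omega) (Dif.sub ha hp.2 hle)
      have e : a = a - p + p := by omega
      rw [e]; exact Dvd.dvd.add this dvd_rfl
  have hQper : ∀ j, ¬ p ∣ j + 1 → ∀ q, Q q →
      A.cl (A.nx^[j + q] A.sg) = A.cl (A.nx^[j] A.sg) := by
    intro j
    induction j using Nat.strong_induction_on with
    | _ j ih =>
      intro hj q hq
      obtain ⟨d, h1, h2, h3⟩ := hstep q hq
      rcases lt_trichotomy j d with hlt | rfl | hgt
      · exact h3 j hlt
      · exact absurd (hpR _ (Dif.base h1)) hj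
      · obtain ⟨j', rfl⟩ : ∃ j', j = j' + (d + 1) := ⟨j - (d + 1), by omega⟩
        have hj' : ¬ p ∣ j' + 1 := fun hh => hj (by
          rw [show j' + (d + 1) + 1 = j' + 1 + (d + 1) by ring]
          exact Dvd.dvd.add hh (hpR _ (Dif.base h1)))
        rw [ih j' (by omega) hj' _ h1, ← ih j' (by omega) hj' _ h2]
        congr 2; ring
  have hRper : ∀ a, Dif Q a → ∀ j, ¬ p ∣ j + 1 →
      A.cl (A.nx^[j + a] A.sg) = A.cl (A.nx^[j] A.sg) := by
    intro a ha
    induction ha with
    | base h => exact fun j hj => hQper j hj _ h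
    | @sub a b ha hb hle h1 h2 =>
      intro j hj
      have hj' : ¬ p ∣ j + (a - b) + 1 := fun hh => hj (by
        rw [show j + (a - b) + 1 = (a - b) + (j + 1) by ring] at hh
        exact (Nat.dvd_add_right (hpR _ (Dif.sub ha hb hle))).1 hh)
      rw [← h2 _ hj', ← h1 j hj]
      congr 2; omega
  refine ⟨p, ?_, hRper p hp.2⟩
  exact hg.trans (Nat.le_of_dvd hp.1 (hgR p hp.2))

theorem exists_closed [Finite S] (hs : ¬ A.Star) : ∃ L, A.Closed (L + 1) ∧ A.Closed (L + 2) := by
  classical
  have hpos : ∃ i, A.Closed (i + 1) := by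
    obtain ⟨i, hi⟩ := A.good_sg
    have := A.closed_of_lam (hi 0 (by rw [Function.iterate_succ_apply']; exact A.lam_zero _))
    exact ⟨i, by simpa using this⟩
  have h0 : A.Closed 0 := ⟨[], rfl, rfl⟩
  have hex : ∃ d, 0 < d ∧ ∃ b, A.Closed b ∧ A.Closed (b + d) := by
    obtain ⟨i, hi⟩ := hpos
    exact ⟨i + 1, by omega, 0, h0, by simpa using hi⟩
  let d := Nat.find hex
  have hd : 0 < d ∧ ∃ b, A.Closed b ∧ A.Closed (b + d) := Nat.find_spec hex
  have hdiv : ∀ a, (∃ b, A.Closed b ∧ A.Closed (b + a)) → d ∣ a := by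
    intro a
    induction a using Nat.strong_induction_on with
    | _ a ih =>
      rintro ⟨b, hb1, hb2⟩
      rcases Nat.eq_zero_or_pos a with rfl | hp
      · simp
      have hle : d ≤ a := Nat.find_min' hex ⟨hp, b, hb1, hb2⟩
      obtain ⟨c, hc1, hc2⟩ := hd.2
      have := ih (a - d) (by have := hd.1; omega) ⟨b + (c + d), hb1.add A hc2, by
        have := hb2.add A hc1
        rwa [show b + a + c = b + (c + d) + (a - d) by omega] at this⟩
      have e : a = a - d + d := by omega
      rw [e]; exact Dvd.dvd.add this dvd_rfl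
  have hd1 : d = 1 := by
    by_contra h
    exact hs (A.star_of_dvd (g := d) (by have := hd.1; omega) fun L hL =>
      hdiv L ⟨0, h0, by simpa using hL⟩)
  obtain ⟨c, hc1, hc2⟩ := hd.2
  obtain ⟨i, hi⟩ := hpos
  rw [hd1] at hc2
  refine ⟨c + i, hc1.add A hi, ?_⟩
  have := hc2.add A hi
  rwa [show c + 1 + (i + 1) = c + i + 2 by ring] at this

end KA

end Pool.Agent.MP_61ef33_al

end

section

/- Periodic systems of cuts, crossing numbers. -/

namespace Pool.Agent.MP_61ef33_al

namespace KA

variable {S : Type} (A : KA S)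

/-- A finite system of cuts closed under pull-back, containing two cycles through the basic cut,
of lengths `L` and `L + 1`. -/
structure CS (I : Type) where
  F : I → S → Bool
  pa : I ≃ I
  x : I → Bool
  hF : ∀ i, F i = A.step (F (pa i)) (x i)
  i0 : I
  i1 : I
  j0 : I
  j1 : I
  L : ℕ
  h0 : F i0 = A.cut0
  h1 : F i1 = A.cut0
  hj0 : pa j0 = i0
  hj1 : pa j1 = i1
  x0 : x j0 = false
  x1 : x j1 = true
  hL0 : pa^[L] i0 = i0
  hL1 : pa^[L] i1 = j1

theorem step_cut0 (x : Bool) : A.step A.cut0 x = fun s => xor (A.cl s) (A.cl A.sg) := by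
  funext s
  simp only [step, cut0, isg_nx]
  cases A.cl s <;> cases A.cl A.sg <;> cases x <;> rfl

theorem closed_head {L : ℕ} (h : A.Closed (L + 1)) (x : Bool) :
    ∃ xs : List Bool, xs.length = L + 1 ∧ A.walk xs = A.cut0 ∧ xs.getD 0 false = x := by
  obtain ⟨xs, h1, h2⟩ := h
  cases xs with
  | nil => simp at h1
  | cons y xs =>
    refine ⟨x :: xs, by simpa using h1, ?_, rfl⟩
    rw [← h2]
    simp [walk, step_cut0]

theorem cyc {xs : List Bool} {n : ℕ} (hn : xs.length = n + 1) (hw : A.walk xs = A.cut0)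
    (k : ZMod (n + 1)) : A.walk (xs.take k.val) =
      A.step (A.walk (xs.take (k - 1).val)) (xs.getD (k - 1).val false) := by
  have hm : (k - 1).val < n + 1 := ZMod.val_lt _
  have hk : k.val = ((k - 1).val + 1) % (n + 1) := by
    conv_lhs => rw [show k = (k - 1) + 1 by ring]
    rw [ZMod.val_add, ZMod.val_one_eq_one_mod]
    simp
  set m := (k - 1).val
  have h1 : A.walk (xs.take (m + 1)) = A.step (A.walk (xs.take m)) (xs.getD m false) := by
    rw [List.take_add_one, ← walk_concat]
    congr 2
    rw [List.getD_eq_getElem _ _ (by omega), List.getElem?_eq_getElem (by omega)]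
    rfl
  rw [← h1, hk]
  by_cases h : m + 1 < n + 1
  · rw [Nat.mod_eq_of_lt h]
  · have : m + 1 = n + 1 := by omega
    rw [this, Nat.mod_self, ← hn, List.take_length, hw]
    rfl

theorem exists_CS [Finite S] (hs : ¬ A.Star) :
    ∃ (I : Type) (_ : Fintype I), Nonempty (A.CS I) := by
  obtain ⟨L, hL0, hL1⟩ := A.exists_closed hs
  obtain ⟨xs, a1, a2, a3⟩ := A.closed_head hL0 false
  obtain ⟨ys, b1, b2, b3⟩ := A.closed_head hL1 true
  let pa : ZMod (L + 1) ⊕ ZMod (L + 1 + 1) ≃ ZMod (L + 1) ⊕ ZMod (L + 1 + 1) :=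
    Equiv.sumCongr (Equiv.subRight 1) (Equiv.subRight 1)
  have it0 : ∀ (m : ℕ) k, pa^[m] (Sum.inl k) = Sum.inl (k - m) := by
    intro m
    induction m with
    | zero => simp
    | succ m ih => intro k; rw [Function.iterate_succ_apply', ih]; simp [pa, sub_sub]
  have it1 : ∀ (m : ℕ) k, pa^[m] (Sum.inr k) = Sum.inr (k - m) := by
    intro m
    induction m with
    | zero => simp
    | succ m ih => intro k; rw [Function.iterate_succ_apply', ih]; simp [pa, sub_sub]
  refine ⟨ZMod (L + 1) ⊕ ZMod (L + 1 + 1), inferInstance, ⟨⟨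
    Sum.elim (fun k => A.walk (xs.take k.val)) (fun k => A.walk (ys.take k.val)), pa,
    Sum.elim (fun k => xs.getD (k - 1).val false) (fun k => ys.getD (k - 1).val false), ?_,
    Sum.inl 0, Sum.inr 0, Sum.inl 1, Sum.inr 1, L + 1, by simp [walk], by simp [walk],
    by simp [pa], by simp [pa], by simpa using a3, by simpa using b3, ?_, ?_⟩⟩⟩
  · rintro (k | k)
    · exact A.cyc a1 a2 k
    · exact A.cyc b1 b2 k
  · rw [it0]; simp
  · rw [it1]
    congr 1
    have : ((L + 1 + 1 : ℕ) : ZMod (L + 1 + 1)) = 0 := ZMod.natCast_self _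
    push_cast at this ⊢
    linear_combination -this

end KA

/-- Discrete distance on `Bool`. -/
def bd (a b : Bool) : ℕ := if a = b then 0 else 1

@[simp] theorem bd_self (a : Bool) : bd a a = 0 := by simp [bd]
theorem bd_le (a b : Bool) : bd a b ≤ 1 := by unfold bd; split_ifs <;> omega
theorem bd_tri (a b c : Bool) : bd a c ≤ bd a b + bd b c := by
  cases a <;> cases b <;> cases c <;> simp [bd]
theorem bd_xor (a b f : Bool) : bd (xor a f) (xor b f) = bd a b := by
  cases a <;> cases b <;> cases f <;> simp [bd]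

/-- Number of changes along `a, l, b`. -/
def crs : Bool → List Bool → Bool → ℕ
  | a, [], b => bd a b
  | a, c :: l, b => bd a c + crs c l b

@[simp] theorem crs_nil (a b : Bool) : crs a [] b = bd a b := rfl
@[simp] theorem crs_cons (a c b : Bool) (l : List Bool) : crs a (c :: l) b = bd a c + crs c l b :=
  rfl

theorem crs_left (a a' : Bool) (l : List Bool) (b : Bool) : crs a l b ≤ bd a a' + crs a' l b := by
  cases l with
  | nil => exact bd_tri _ _ _
  | cons c l => have := bd_tri a a' c; simp only [crs_cons]; omega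

theorem crs_right (a : Bool) (l : List Bool) (b b' : Bool) : crs a l b ≤ crs a l b' + bd b' b := by
  induction l generalizing a with
  | nil => exact bd_tri _ _ _
  | cons c l ih => have := ih c; simp only [crs_cons]; omega

theorem crs_ends (a a' : Bool) (l : List Bool) (b b' : Bool) : crs a l b ≤ crs a' l b' + 2 := by
  have h1 := crs_left a a' l b
  have h2 := crs_right a' l b b'
  have := bd_le a a'
  have := bd_le b' b
  omega

theorem crs_append_le (a m b : Bool) (l l' : List Bool) :
    crs a (l ++ l') b ≤ crs a l m + crs m l' b := by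
  induction l generalizing a with
  | nil => exact crs_left _ _ _ _
  | cons c l ih => have := ih c; simp only [List.cons_append, crs_cons]; omega

theorem crs_append_cons (a c b : Bool) (l l' : List Bool) :
    crs a (l ++ c :: l') b = crs a l c + crs c l' b := by
  induction l generalizing a with
  | nil => rfl
  | cons d l ih => simp only [List.cons_append, crs_cons, ih]; omega

theorem crs_sublist {l l' : List Bool} (h : l.Sublist l') (a b : Bool) : crs a l b ≤ crs a l' b := by
  induction h generalizing a with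
  | slnil => exact le_rfl
  | cons c _ ih => exact (crs_left a c _ b).trans (by simpa using ih c)
  | cons_cons c _ ih => simpa using ih c

theorem crs_xor (a b f : Bool) (l : List Bool) :
    crs (xor a f) (l.map fun c => xor c f) (xor b f) = crs a l b := by
  induction l generalizing a with
  | nil => exact bd_xor _ _ _
  | cons c l ih => simp only [List.map_cons, crs_cons, bd_xor, ih]

theorem crs_mod (a b : Bool) (l : List Bool) : crs a l b % 2 = bd a b := by
  induction l generalizing a with
  | nil => have := bd_le a b; simp only [crs_nil]; omega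
  | cons c l ih =>
    have := ih c
    simp only [crs_cons]
    revert this
    cases a <;> cases b <;> cases c <;> simp [bd] <;> omega

theorem crs_le_length (a b : Bool) (l : List Bool) : crs a l b ≤ l.length + 1 := by
  induction l generalizing a with
  | nil => simpa using bd_le a b
  | cons c l ih => have := ih c; have := bd_le a c; simp only [crs_cons, List.length_cons]; omega

theorem crs_const (a b c : Bool) (l : List Bool) (h : ∀ d ∈ l, d = c) : crs a l b ≤ 2 := by
  have : crs c l c = 0 := by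
    induction l with
    | nil => simp
    | cons d l ih =>
      have e := h d (by simp)
      subst e
      simpa using ih fun e he => h e (by simp [he])
  have := crs_ends a c l b c
  omega

namespace KA

variable {S : Type} (A : KA S)

/-- The cut values seen at those letters that are read at the parity `e`. -/
noncomputable def lifted (F : S → Bool) : Bool → List S → List Bool
  | _, [] => []
  | e, s :: W => (F s && !e) :: lifted F (xor e (A.isg s)) W

/-- Crossings of the cut `F` taking place at parity `e`. -/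
noncomputable def Nc (F : S → Bool) (e a : Bool) (W : List S) (b : Bool) : ℕ :=
  crs (a && !e) (A.lifted F e W) (b && !(xor e (A.par W)))

theorem Nc_add {F : S → Bool} (hF : F A.sg = false) (e a : Bool) (W : List S) (b : Bool) :
    A.Nc F e a W b + A.Nc F (!e) a W b = crs a (W.map F) b := by
  unfold Nc
  induction W generalizing e a with
  | nil => cases e <;> cases a <;> cases b <;> simp [lifted, bd]
  | cons s W ih =>
    by_cases h : s = A.sg
    · subst h
      have := ih (!e) false
      simp only [lifted, hF, isg_sg, par_cons, List.map_cons, crs_cons] at this ⊢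
      rw [← this]
      cases e <;> cases a <;> simp [bd] <;> omega
    · have := ih e (F s)
      simp only [lifted, A.isg_ne h, par_cons, List.map_cons, crs_cons, Bool.xor_false,
        Bool.false_xor] at this ⊢
      rw [← this]
      cases e <;> cases a <;> cases F s <;> simp [bd] <;> omega

theorem sec_sublist (F : S → Bool) (x : Bool) (W : List S) (y : Bool) :
    ((A.sec W y).map fun s => F (A.nx s) && (A.cl s == x)).Sublist (A.lifted F (xor x y) W) := by
  induction W generalizing y with
  | nil => simp [lifted]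
  | cons s W ih =>
    rw [sec_cons, lifted, List.map_append, Bool.xor_assoc]
    cases e : A.prev y s with
    | none => simpa using (ih _).cons _
    | some t =>
      obtain ⟨h1, h2⟩ := A.prev_eq_some.1 e
      have : (F (A.nx t) && (A.cl t == x)) = (F s && !(xor x y)) := by
        rw [h1, h2]; cases x <;> cases y <;> rfl
      simpa [this] using ih _

theorem lifted_append (F : S → Bool) (e : Bool) (U V : List S) :
    A.lifted F e (U ++ V) = A.lifted F e U ++ A.lifted F (xor e (A.par U)) V := by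
  induction U generalizing e with
  | nil => simp [lifted]
  | cons s U ih => simp [lifted, ih]

end KA

end Pool.Agent.MP_61ef33_al

end

section

/- Words with end positions, non-expansion, perfect words. -/

namespace Pool.Agent.MP_61ef33_al

/-- A word with an initial and a final position. -/
structure WT (S I : Type) where
  a : I → Bool
  W : List S
  b : I → Bool

def WT.comp {S I : Type} (t u : WT S I) : WT S I := ⟨t.a, t.W ++ u.W, u.b⟩

namespace KA.CS

variable {S I : Type} {A : KA S} (C : A.CS I)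

noncomputable def fl (i : I) : Bool := C.F (C.pa i) (A.nx A.sg) && (A.cl A.sg == C.x i)

noncomputable def lp (a : I → Bool) (y : Bool) : I → Bool :=
  fun i => xor (a (C.pa i) && (y == C.x i)) (C.fl i)

noncomputable def child (t : WT S I) (y : Bool) : WT S I :=
  ⟨C.lp t.a y, A.sec t.W y, C.lp t.b (xor y (A.par t.W))⟩

noncomputable def cr (i : I) (t : WT S I) : ℕ := crs (t.a i) (t.W.map (C.F i)) (t.b i)

noncomputable def N (i : I) (e : Bool) (t : WT S I) : ℕ := A.Nc (C.F i) e (t.a i) t.W (t.b i)

def pos (s : S) : I → Bool := fun i => C.F i s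

theorem F_sg (i : I) : C.F i A.sg = false := by rw [C.hF, step_sg]

theorem N_add (i : I) (e : Bool) (t : WT S I) : C.N i e t + C.N i (!e) t = C.cr i t :=
  A.Nc_add (C.F_sg i) _ _ _ _

theorem cr_child_le (j : I) (t : WT S I) (y : Bool) :
    C.cr j (C.child t y) ≤ C.N (C.pa j) (xor (C.x j) y) t := by
  have h := crs_sublist (A.sec_sublist (C.F (C.pa j)) (C.x j) t.W y)
    (t.a (C.pa j) && (y == C.x j)) (t.b (C.pa j) && (xor y (A.par t.W) == C.x j))
  rw [← crs_xor _ _ (C.fl j), List.map_map] at h
  have e : C.cr j (C.child t y) = crs (xor (t.a (C.pa j) && (y == C.x j)) (C.fl j))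
      ((A.sec t.W y).map ((fun c => xor c (C.fl j)) ∘
        fun s => C.F (C.pa j) (A.nx s) && (A.cl s == C.x j)))
      (xor (t.b (C.pa j) && (xor y (A.par t.W) == C.x j)) (C.fl j)) := by
    unfold cr child
    conv_lhs => rw [C.hF j]
    rfl
  rw [e]
  refine h.trans (le_of_eq ?_)
  unfold N Nc
  congr 2
  · cases y <;> cases C.x j <;> rfl
  · cases y <;> cases C.x j <;> cases A.par t.W <;> rfl

theorem child_comp (t u : WT S I) (y : Bool) :
    C.child (t.comp u) y = (C.child t y).comp (C.child u (xor y (A.par t.W))) := by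
  simp [child, WT.comp, sec_append, par_append]

theorem cr_comp_le (i : I) {t u : WT S I} (h : t.b = u.a) :
    C.cr i (t.comp u) ≤ C.cr i t + C.cr i u := by
  unfold cr WT.comp
  simp only [List.map_append]
  rw [← h]
  exact crs_append_le _ _ _ _ _

theorem N_comp_le (i : I) (e : Bool) {t u : WT S I} (h : t.b = u.a) :
    C.N i e (t.comp u) ≤ C.N i e t + C.N i (xor e (A.par t.W)) u := by
  unfold N Nc WT.comp
  simp only [lifted_append, par_append, ← Bool.xor_assoc]
  rw [← h]
  exact crs_append_le _ _ _ _ _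

/-- Total crossings of a cut over all descendants of depth `D`. -/
noncomputable def crD (i : I) : ℕ → WT S I → ℕ
  | 0, t => C.cr i t
  | D + 1, t => crD i D (C.child t false) + crD i D (C.child t true)

theorem crD_comp_le (i : I) (D : ℕ) {t u : WT S I} (h : t.b = u.a) :
    C.crD i D (t.comp u) ≤ C.crD i D t + C.crD i D u := by
  induction D generalizing t u with
  | zero => exact C.cr_comp_le i h
  | succ D ih =>
    simp only [crD, child_comp]
    have h1 := ih (t := C.child t false) (u := C.child u (xor false (A.par t.W)))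
      (by simp [child, h])
    have h2 := ih (t := C.child t true) (u := C.child u (xor true (A.par t.W)))
      (by simp [child, h])
    revert h1 h2
    cases A.par t.W <;> simp <;> omega

variable [Fintype I]

noncomputable def lenD (D : ℕ) (t : WT S I) : ℕ := ∑ i, C.crD i D t

noncomputable def len (t : WT S I) : ℕ := ∑ i, C.cr i t

theorem lenD_zero (t : WT S I) : C.lenD 0 t = C.len t := rfl

theorem lenD_succ (D : ℕ) (t : WT S I) :
    C.lenD (D + 1) t = C.lenD D (C.child t false) + C.lenD D (C.child t true) := by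
  simp [lenD, crD, Finset.sum_add_distrib]

omit [Fintype I] in
theorem cr_child_add_le (j : I) (t : WT S I) :
    C.cr j (C.child t false) + C.cr j (C.child t true) ≤ C.cr (C.pa j) t := by
  have h1 := C.cr_child_le j t false
  have h2 := C.cr_child_le j t true
  have h3 := C.N_add (C.pa j) (C.x j) t
  simp only [Bool.xor_false, Bool.xor_true] at h1 h2
  omega

theorem len_child_le (t : WT S I) : C.len (C.child t false) + C.len (C.child t true) ≤ C.len t := by
  unfold len
  rw [← Finset.sum_add_distrib, ← Equiv.sum_comp C.pa (fun i => C.cr i t)]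
  exact Finset.sum_le_sum fun j _ => C.cr_child_add_le j t

theorem lenD_le (D : ℕ) (t : WT S I) : C.lenD D t ≤ C.len t := by
  induction D generalizing t with
  | zero => exact le_rfl
  | succ D ih =>
    rw [lenD_succ]
    exact (Nat.add_le_add (ih _) (ih _)).trans (C.len_child_le t)

theorem lenD_comp_le (D : ℕ) {t u : WT S I} (h : t.b = u.a) :
    C.lenD D (t.comp u) ≤ C.lenD D t + C.lenD D u := by
  unfold lenD
  rw [← Finset.sum_add_distrib]
  exact Finset.sum_le_sum fun i _ => C.crD_comp_le i D h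

theorem len_comp_le {t u : WT S I} (h : t.b = u.a) : C.len (t.comp u) ≤ C.len t + C.len u :=
  C.lenD_comp_le 0 h

/-- No crossing is lost at any depth. -/
def Perf (t : WT S I) : Prop := ∀ D, C.lenD D t = C.len t

variable {C}

theorem Perf.child {t : WT S I} (h : C.Perf t) (y : Bool) : C.Perf (C.child t y) := by
  intro D
  have h1 := h (D + 1)
  rw [lenD_succ] at h1
  have h2 := C.lenD_le D (C.child t false)
  have h3 := C.lenD_le D (C.child t true)
  have h4 := C.len_child_le t
  cases y <;> omega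

theorem Perf.cr_child {t : WT S I} (h : C.Perf t) (j : I) (y : Bool) :
    C.cr j (C.child t y) = C.N (C.pa j) (xor (C.x j) y) t := by
  have h1 := h 1
  rw [lenD_succ, lenD_zero, lenD_zero] at h1
  unfold len at h1
  rw [← Finset.sum_add_distrib, ← Equiv.sum_comp C.pa (fun i => C.cr i t)] at h1
  have h2 := (Finset.sum_eq_sum_iff_of_le fun j _ => C.cr_child_add_le j t).1 h1 j
    (Finset.mem_univ _)
  have a1 := C.cr_child_le j t false
  have a2 := C.cr_child_le j t true
  have h3 := C.N_add (C.pa j) (C.x j) t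
  simp only [Bool.xor_false, Bool.xor_true] at a1 a2
  cases y
  · simp only [Bool.xor_false]; omega
  · simp only [Bool.xor_true]; omega

theorem Perf.crD {t : WT S I} (h : C.Perf t) (i : I) (D : ℕ) :
    C.crD i D t = C.cr (C.pa^[D] i) t := by
  induction D generalizing t with
  | zero => rfl
  | succ D ih =>
    rw [CS.crD, ih (h.child _), ih (h.child _), h.cr_child, h.cr_child,
      Function.iterate_succ_apply', ← C.N_add _ (C.x (C.pa^[D] i))]
    simp

variable (C) in
/-- Lengths add up. -/
def Add (t u : WT S I) : Prop := t.b = u.a ∧ C.len (t.comp u) = C.len t + C.len u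

theorem Add.cr {t u : WT S I} (h : C.Add t u) (i : I) : C.cr i (t.comp u) = C.cr i t + C.cr i u := by
  have h1 := h.2
  unfold len at h1
  rw [← Finset.sum_add_distrib] at h1
  exact (Finset.sum_eq_sum_iff_of_le fun j _ => C.cr_comp_le j h.1).1 h1 i (Finset.mem_univ _)

theorem Add.N {t u : WT S I} (h : C.Add t u) (i : I) (e : Bool) :
    C.N i e (t.comp u) = C.N i e t + C.N i (xor e (A.par t.W)) u := by
  have h1 := h.cr i
  have h2 := C.N_comp_le i e h.1
  have h3 := C.N_comp_le i (!e) h.1
  have h4 := C.N_add i e t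
  have h5 := C.N_add i (xor e (A.par t.W)) u
  have h6 := C.N_add i e (t.comp u)
  rw [Bool.not_xor] at h3
  omega

theorem Add.perf_left {t u : WT S I} (h : C.Add t u) (hp : C.Perf (t.comp u)) : C.Perf t := by
  intro D
  have h1 := hp D
  have h2 := C.lenD_comp_le D h.1
  have h3 := C.lenD_le D t
  have h4 := C.lenD_le D u
  have := h.2
  omega

theorem Add.perf_right {t u : WT S I} (h : C.Add t u) (hp : C.Perf (t.comp u)) : C.Perf u := by
  intro D
  have h1 := hp D
  have h2 := C.lenD_comp_le D h.1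
  have h3 := C.lenD_le D t
  have h4 := C.lenD_le D u
  have := h.2
  omega

theorem Add.child {t u : WT S I} (h : C.Add t u) (hp : C.Perf (t.comp u)) (y : Bool) :
    C.Add (C.child t y) (C.child u (xor y (A.par t.W))) := by
  have hm : ∀ y, (C.child t y).b = (C.child u (xor y (A.par t.W))).a := fun y => by
    simp [CS.child, h.1]
  refine ⟨hm y, ?_⟩
  have h1 := hp 1
  rw [lenD_succ, lenD_zero, lenD_zero, child_comp, child_comp] at h1
  have h2 := C.len_comp_le (hm false)
  have h3 := C.len_comp_le (hm true)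
  have h4 := C.len_child_le t
  have h5 := C.len_child_le u
  have := h.2
  revert h1 h2 h3
  cases y <;> cases A.par t.W <;> simp <;> omega

variable (C) in
theorem add_cut (a b : I → Bool) (U V : List S) (w : S) :
    C.Add ⟨a, U, C.pos w⟩ ⟨C.pos w, w :: V, b⟩ := by
  refine ⟨rfl, ?_⟩
  unfold len
  rw [← Finset.sum_add_distrib]
  refine Finset.sum_congr rfl fun i _ => ?_
  simp [CS.cr, WT.comp, crs_append_cons, pos]

end KA.CS

end Pool.Agent.MP_61ef33_al

end

section

/- Perfect words are determined by their two ends. -/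

namespace Pool.Agent.MP_61ef33_al

theorem crs_right_diff (a b b' : Bool) (l0 l : List Bool) (hl : l ≠ []) :
    crs a (l0 ++ l) b + crs false l b' = crs a (l0 ++ l) b' + crs false l b := by
  obtain ⟨c, l, rfl⟩ := List.exists_cons_of_ne_nil hl
  simp only [crs_append_cons, crs_cons]
  omega

theorem crs_diff (a a' b b' : Bool) (l1 l l2 : List Bool) (h1 : l1 ≠ []) (h2 : l2 ≠ []) :
    (crs a (l1 ++ (l ++ l2)) b : ℤ) - crs a' (l1 ++ (l ++ l2)) b' =
      ((crs a l1 false : ℤ) - crs a' l1 false) + ((crs false l2 b : ℤ) - crs false l2 b') := by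
  obtain ⟨c, l1, rfl⟩ := List.exists_cons_of_ne_nil h1
  have := crs_right_diff c b b' (l1 ++ l) l2 h2
  simp only [List.cons_append, crs_cons, ← List.append_assoc]
  omega

namespace KA.CS

variable {S I : Type} {A : KA S} (C : A.CS I)

theorem F_j : C.F C.j0 = C.F C.j1 := by
  rw [C.hF C.j0, C.hF C.j1, C.hj0, C.hj1, C.h0, C.h1, step_cut0, step_cut0]

theorem fl_j0 : C.fl C.j0 = !A.cl A.sg := by
  simp only [fl, C.hj0, C.h0, C.x0, cut0, isg_nx]
  cases A.cl A.sg <;> rfl

theorem fl_j1 : C.fl C.j1 = A.cl A.sg := by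
  simp only [fl, C.hj1, C.h1, C.x1, cut0, isg_nx]
  cases A.cl A.sg <;> rfl

/-- The size parameter. -/
noncomputable def n (t : WT S I) : ℕ := C.cr C.i1 t

/-- All descendants of depth `D` have nonempty words. -/
def NE : ℕ → WT S I → Prop
  | 0, t => t.W ≠ []
  | D + 1, t => NE D (C.child t false) ∧ NE D (C.child t true)

noncomputable def al : ℕ → WT S I → ℤ
  | 0, t => (crs (t.a C.i0) (t.W.map A.cut0) false : ℤ) - crs (t.a C.i1) (t.W.map A.cut0) false
  | D + 1, t => al D (C.child t false) + al D (C.child t true)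

noncomputable def be : ℕ → WT S I → ℤ
  | 0, t => (crs false (t.W.map A.cut0) (t.b C.i0) : ℤ) - crs false (t.W.map A.cut0) (t.b C.i1)
  | D + 1, t => be D (C.child t false) + be D (C.child t true)

theorem crD_diff (D : ℕ) {P m Y : WT S I} (hP : C.NE D P) (hY : C.NE D Y) :
    (C.crD C.i0 D (P.comp (m.comp Y)) : ℤ) - C.crD C.i1 D (P.comp (m.comp Y)) =
      C.al D P + C.be D Y := by
  induction D generalizing P m Y with
  | zero =>
    simp only [crD, cr, WT.comp, C.h0, C.h1, List.map_append, al, be]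
    exact crs_diff _ _ _ _ _ _ _ (by simpa [NE] using hP) (by simpa [NE] using hY)
  | succ D ih =>
    have hY' : ∀ y, C.NE D (C.child Y y) := fun y => by cases y; exact hY.1; exact hY.2
    have h1 := ih (m := C.child m (xor false (A.par P.W))) hP.1
      (hY' (xor (xor false (A.par P.W)) (A.par m.W)))
    have h2 := ih (m := C.child m (xor true (A.par P.W))) hP.2
      (hY' (xor (xor true (A.par P.W)) (A.par m.W)))
    simp only [crD, child_comp, al, be]
    push_cast
    revert h1 h2
    cases A.par P.W <;> cases A.par m.W <;> simp <;> omega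

theorem crD_bd (D : ℕ) (t : WT S I) : C.crD C.i0 D t ≤ C.crD C.i1 D t + 2 * 2 ^ D ∧
    C.crD C.i1 D t ≤ C.crD C.i0 D t + 2 * 2 ^ D := by
  induction D generalizing t with
  | zero =>
    simp only [crD, cr, C.h0, C.h1]
    exact ⟨crs_ends _ _ _ _ _, crs_ends _ _ _ _ _⟩
  | succ D ih =>
    have h1 := ih (C.child t false)
    have h2 := ih (C.child t true)
    simp only [crD, pow_succ]
    omega

/-- The additive error in the halving of the size. -/
def c3 : ℕ := 4 * 2 ^ C.L + 8

/-- Thresholds. -/
def th : ℕ → ℕ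
  | 0 => 3
  | k + 1 => 2 * th k + C.c3

theorem th_ge (k : ℕ) : 3 ≤ C.th k := by
  induction k with
  | zero => exact le_rfl
  | succ k ih => simp only [th]; omega

theorem th_mono {k l : ℕ} (h : k ≤ l) : C.th k ≤ C.th l := by
  induction h with
  | refl => exact le_rfl
  | step _ ih => simp only [th]; omega

theorem th_le (k : ℕ) : C.th k + C.c3 ≤ 2 ^ k * (3 + C.c3) := by
  induction k with
  | zero => simp [th]
  | succ k ih => simp only [th, pow_succ]; nlinarith

theorem exists_letter {t : WT S I} (h : 3 ≤ C.n t) : ∃ w ∈ t.W, w ≠ A.sg := by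
  by_contra h'
  push Not at h'
  have := crs_const (t.a C.i1) (t.b C.i1) false (t.W.map (C.F C.i1)) (by
    intro d hd
    obtain ⟨s, hs, rfl⟩ := List.mem_map.1 hd
    rw [h' s hs, F_sg])
  unfold n cr at h
  omega

variable [Fintype I] {C}

theorem Perf.halve {t : WT S I} (h : C.Perf t) (y : Bool) :
    2 * C.n (C.child t y) ≤ C.n t + C.c3 ∧ C.n t ≤ 2 * C.n (C.child t y) + C.c3 := by
  have hc := h.child y
  have a1 := hc.crD C.i0 C.L
  have a2 := hc.crD C.i1 C.L
  rw [C.hL0] at a1
  rw [C.hL1] at a2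
  have a3 := C.crD_bd C.L (C.child t y)
  have a4 := C.crD_bd 0 (C.child t y)
  simp only [CS.crD] at a4
  have a5 := h.cr_child C.j1 y
  have a6 := h.cr_child C.j1 false
  have a7 := h.cr_child C.j0 false
  rw [C.hj1, C.x1] at a5 a6
  rw [C.hj0, C.x0] at a7
  have a8 : C.cr C.j0 (C.child t false) ≤ C.cr C.j1 (C.child t false) + 2 ∧
      C.cr C.j1 (C.child t false) ≤ C.cr C.j0 (C.child t false) + 2 := by
    simp only [cr, C.F_j]
    exact ⟨crs_ends _ _ _ _ _, crs_ends _ _ _ _ _⟩
  have a9 : C.N C.i0 false t ≤ C.N C.i1 false t + 2 ∧ C.N C.i1 false t ≤ C.N C.i0 false t + 2 := by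
    simp only [N, Nc, C.h0, C.h1]
    exact ⟨crs_ends _ _ _ _ _, crs_ends _ _ _ _ _⟩
  have a10 := C.N_add C.i1 false t
  unfold n c3
  cases y <;> simp only [Bool.xor_false, Bool.xor_self, Bool.not_false] at * <;> omega

theorem Perf.th_child {t : WT S I} (h : C.Perf t) {k : ℕ} (hk : C.th (k + 1) ≤ C.n t) (y : Bool) :
    C.th k ≤ C.n (C.child t y) := by
  have := h.halve y
  simp only [th] at hk
  omega

theorem Perf.ne {t : WT S I} (h : C.Perf t) {k : ℕ} (hk : C.th k ≤ C.n t) : C.NE k t := by
  induction k generalizing t with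
  | zero =>
    obtain ⟨w, hw, _⟩ := C.exists_letter hk
    exact List.ne_nil_of_mem hw
  | succ k ih => exact ⟨ih (h.child _) (h.th_child hk _), ih (h.child _) (h.th_child hk _)⟩

theorem Perf.mid {t : WT S I} (h : C.Perf t) (a0 : t.a C.i0 = true) (a1 : t.a C.i1 = true)
    (b0 : t.b C.i0 = true) (b1 : t.b C.i1 = true) :
    C.N C.i1 false t = C.N C.i1 true t ∧ C.N C.i1 true t % 2 = bd false (A.par t.W) := by
  constructor
  · have a6 := h.cr_child C.j1 false
    have a7 := h.cr_child C.j0 false
    rw [C.hj1, C.x1] at a6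
    rw [C.hj0, C.x0] at a7
    have e1 : C.N C.i0 false t = C.N C.i1 false t := by
      simp only [N, C.h0, C.h1, a0, a1, b0, b1]
    have e2 : C.cr C.j0 (C.child t false) = C.cr C.j1 (C.child t false) := by
      simp only [cr, C.F_j, CS.child, lp, C.hj0, C.hj1, C.x0, C.x1, a0, a1, b0, b1, fl_j0, fl_j1]
      congr 1
      · cases A.cl A.sg <;> rfl
      · cases A.cl A.sg <;> cases A.par t.W <;> rfl
    simp only [Bool.xor_false] at a6 a7
    omega
  · simp only [N, Nc, crs_mod, a1, b1]
    cases A.par t.W <;> rfl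

theorem stepA {a b : I → Bool} {P1 M M' Y2 : List S} {w w' : S} (hw : w ≠ A.sg) (hw' : w' ≠ A.sg)
    (h : C.Perf ⟨a, P1 ++ w :: (M ++ w' :: Y2), b⟩) (h' : C.Perf ⟨a, P1 ++ w :: (M' ++ w' :: Y2), b⟩)
    (hn : C.n ⟨a, P1 ++ w :: (M ++ w' :: Y2), b⟩ = C.n ⟨a, P1 ++ w :: (M' ++ w' :: Y2), b⟩) :
    A.par M = A.par M' ∧ ∀ e, C.N C.i1 e ⟨a, P1 ++ w :: (M ++ w' :: Y2), b⟩ =
      C.N C.i1 e ⟨a, P1 ++ w :: (M' ++ w' :: Y2), b⟩ := by
  have key : ∀ M : List S, C.Perf ⟨a, P1 ++ w :: (M ++ w' :: Y2), b⟩ →
      ∃ k, k % 2 = bd false (A.par M) ∧ C.n ⟨a, P1 ++ w :: (M ++ w' :: Y2), b⟩ =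
        C.n ⟨a, P1, C.pos w⟩ + 2 * k + C.n ⟨C.pos w', w' :: Y2, b⟩ ∧
      ∀ e, C.N C.i1 e ⟨a, P1 ++ w :: (M ++ w' :: Y2), b⟩ = C.N C.i1 e ⟨a, P1, C.pos w⟩ + k +
        C.N C.i1 (xor (xor e (A.par P1)) (A.par M)) ⟨C.pos w', w' :: Y2, b⟩ := by
    intro M h
    have ad1 := C.add_cut a b P1 (M ++ w' :: Y2) w
    have ad2 := C.add_cut (C.pos w) b (w :: M) Y2 w'
    have p1 := ad1.perf_right h
    have p2 := ad2.perf_left p1
    have hm := p2.mid (by simp [pos, C.h0, cut0, A.isg_ne hw]) (by simp [pos, C.h1, cut0, A.isg_ne hw])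
      (by simp [pos, C.h0, cut0, A.isg_ne hw']) (by simp [pos, C.h1, cut0, A.isg_ne hw'])
    have hpar : A.par (w :: M) = A.par M := by simp [A.isg_ne hw]
    refine ⟨C.N C.i1 true ⟨C.pos w, w :: M, C.pos w'⟩, by rw [hm.2, hpar], ?_, fun e => ?_⟩
    · have e1 := ad1.cr C.i1
      have e2 := ad2.cr C.i1
      have e3 := C.N_add C.i1 false ⟨C.pos w, w :: M, C.pos w'⟩
      simp only [WT.comp, List.cons_append, Bool.not_false] at e1 e2 e3
      unfold n
      omega
    · have e1 := ad1.N C.i1 e
      have e2 := ad2.N C.i1 (xor e (A.par P1))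
      simp only [WT.comp, List.cons_append, hpar] at e1 e2
      rw [e1, e2]
      have := hm.1
      cases xor e (A.par P1) <;> omega
  obtain ⟨k, k1, k2, k3⟩ := key M h
  obtain ⟨k', k1', k2', k3'⟩ := key M' h'
  have hk : k = k' := by omega
  have hp : A.par M = A.par M' := by
    rw [hk, k1'] at k1
    revert k1
    cases A.par M <;> cases A.par M' <;> simp [bd]
  exact ⟨hp, fun e => by rw [k3, k3', hk, hp]⟩

variable (C) in
/-- A perfect additive triple product. -/
structure Tri (P m Y : WT S I) : Prop where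
  ad2 : C.Add m Y
  ad1 : C.Add P (m.comp Y)
  perf : C.Perf (P.comp (m.comp Y))

theorem Tri.pP {P m Y : WT S I} (h : C.Tri P m Y) : C.Perf P := h.ad1.perf_left h.perf
theorem Tri.pm {P m Y : WT S I} (h : C.Tri P m Y) : C.Perf m :=
  h.ad2.perf_left (h.ad1.perf_right h.perf)
theorem Tri.pY {P m Y : WT S I} (h : C.Tri P m Y) : C.Perf Y :=
  h.ad2.perf_right (h.ad1.perf_right h.perf)

theorem Tri.n_eq {P m Y : WT S I} (h : C.Tri P m Y) :
    C.n (P.comp (m.comp Y)) = C.n P + C.n m + C.n Y := by
  unfold n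
  rw [h.ad1.cr, h.ad2.cr, add_assoc]

theorem Tri.child {P m Y : WT S I} (h : C.Tri P m Y) (y : Bool) :
    C.Tri (C.child P y) (C.child m (xor y (A.par P.W)))
      (C.child Y (xor (xor y (A.par P.W)) (A.par m.W))) := by
  refine ⟨h.ad2.child (h.ad1.perf_right h.perf) _, ?_, ?_⟩
  · rw [← child_comp]; exact h.ad1.child h.perf y
  · rw [← child_comp, ← child_comp]; exact h.perf.child y

theorem one_step {P m m' Y : WT S I} (h : C.Tri P m Y) (h' : C.Tri P m' Y) (hn : C.n m = C.n m')
    (hP : C.th (C.L + 1) ≤ C.n P) (hY : C.th (C.L + 1) ≤ C.n Y) :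
    A.par m.W = A.par m'.W ∧ ∀ y, C.n (C.child m y) = C.n (C.child m' y) := by
  obtain ⟨w, hw1, hw⟩ := C.exists_letter ((C.th_ge _).trans hP)
  obtain ⟨w', hw1', hw'⟩ := C.exists_letter ((C.th_ge _).trans hY)
  obtain ⟨P1, P2, eP⟩ := List.append_of_mem hw1
  obtain ⟨Y1, Y2, eY⟩ := List.append_of_mem hw1'
  have e : ∀ m : WT S I, P.comp (m.comp Y) =
      ⟨P.a, P1 ++ w :: ((P2 ++ m.W ++ Y1) ++ w' :: Y2), Y.b⟩ := fun m => by
    simp [WT.comp, eP, eY]
  have hnn : C.n (P.comp (m.comp Y)) = C.n (P.comp (m'.comp Y)) := by rw [h.n_eq, h'.n_eq, hn]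
  have sA := stepA (C := C) (a := P.a) (b := Y.b) (P1 := P1) (Y2 := Y2) (M := P2 ++ m.W ++ Y1)
    (M' := P2 ++ m'.W ++ Y1) hw hw' (e m ▸ h.perf) (e m' ▸ h'.perf) (by rw [← e, ← e]; exact hnn)
  rw [← e, ← e] at sA
  have hp : A.par m.W = A.par m'.W := by
    have := sA.1
    simp only [par_append] at this
    revert this
    cases A.par P2 <;> cases A.par Y1 <;> cases A.par m.W <;> cases A.par m'.W <;> simp
  refine ⟨hp, fun y' => ?_⟩
  obtain ⟨y, rfl⟩ : ∃ y, y' = xor y (A.par P.W) := ⟨xor y' (A.par P.W), by simp⟩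
  have t1 := h.child y
  have t2 := h'.child y
  rw [← hp] at t2
  have key : ∀ m : WT S I, ∀ z, C.Tri (C.child P y) m (C.child Y z) →
      (C.n ((C.child P y).comp (m.comp (C.child Y z))) : ℤ) =
        C.cr C.j1 ((C.child P y).comp (m.comp (C.child Y z))) +
        (C.al C.L (C.child P y) + C.be C.L (C.child Y z)) -
        (C.al 0 (C.child P y) + C.be 0 (C.child Y z)) := by
    intro m z t
    have b1 := h.pP.th_child hP y
    have b2 := h.pY.th_child hY z
    have d1 := C.crD_diff C.L (m := m) (t.pP.ne b1) (t.pY.ne b2)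
    have d0 := C.crD_diff 0 (m := m) (t.pP.ne ((C.th_mono (Nat.zero_le _)).trans b1))
      (t.pY.ne ((C.th_mono (Nat.zero_le _)).trans b2))
    rw [t.perf.crD, t.perf.crD, C.hL0, C.hL1] at d1
    simp only [CS.crD] at d0
    unfold n
    omega
  have k1 := key _ _ t1
  have k2 := key _ _ t2
  have j1 := h.perf.cr_child C.j1 y
  have j2 := h'.perf.cr_child C.j1 y
  rw [C.hj1] at j1 j2
  rw [child_comp, child_comp] at j1 j2
  rw [← hp] at j2
  rw [sA.2] at j1
  have n1 := t1.n_eq
  have n2 := t2.n_eq
  omega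

theorem same_levels (d : ℕ) {P m m' Y : WT S I} (h : C.Tri P m Y) (h' : C.Tri P m' Y)
    (hn : C.n m = C.n m') (hP : C.th (d + C.L + 1) ≤ C.n P) (hY : C.th (d + C.L + 1) ≤ C.n Y)
    (v : List Bool) (hv : v.length ≤ d) : A.ev m.W v = A.ev m'.W v := by
  induction d generalizing P m m' Y v with
  | zero =>
    have : v = [] := by simpa using hv
    simp [this]
  | succ d ih =>
    cases v with
    | nil => simp
    | cons y' v =>
      have os := one_step h h' hn ((C.th_mono (by omega)).trans hP) ((C.th_mono (by omega)).trans hY)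
      obtain ⟨y, rfl⟩ : ∃ y, y' = xor y (A.par P.W) := ⟨xor y' (A.par P.W), by simp⟩
      have t1 := h.child y
      have t2 := h'.child y
      rw [← os.1] at t2
      have e : d + 1 + C.L + 1 = d + C.L + 1 + 1 := by ring
      have := ih t1 t2 (os.2 _) (h.pP.th_child (e ▸ hP) _) (h.pY.th_child (e ▸ hY) _) v
        (by simpa using hv)
      rw [ev_apply_cons, ev_apply_cons, ← os.1]
      congr 1

theorem key_lemma {c0 : ℕ} (hc0 : ∀ m m' : WT S I, C.n m ≤ C.c3 + 1 → C.n m' ≤ C.c3 + 1 →
      (∀ v : List Bool, v.length ≤ c0 → A.ev m.W v = A.ev m'.W v) → A.ev m.W = A.ev m'.W)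
    (j : ℕ) {P m m' Y : WT S I} (h : C.Tri P m Y) (h' : C.Tri P m' Y)
    (hn : C.n m = C.n m') (hm : C.n m ≤ 2 ^ j + C.c3) (hP : C.th (j + c0 + C.L + 1) ≤ C.n P)
    (hY : C.th (j + c0 + C.L + 1) ≤ C.n Y) : A.ev m.W = A.ev m'.W := by
  induction j generalizing P m m' Y with
  | zero =>
    refine hc0 m m' (by omega) (by omega) fun v hv => same_levels c0 h h' hn ?_ ?_ v hv
    · simpa using hP
    · simpa using hY
  | succ j ih =>
    have os := one_step h h' hn ((C.th_mono (by omega)).trans hP) ((C.th_mono (by omega)).trans hY)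
    refine A.ev_eq_of_sec os.1 fun y' => ?_
    obtain ⟨y, rfl⟩ : ∃ y, y' = xor y (A.par P.W) := ⟨xor y' (A.par P.W), by simp⟩
    have t1 := h.child y
    have t2 := h'.child y
    rw [← os.1] at t2
    have e : j + 1 + c0 + C.L + 1 = j + c0 + C.L + 1 + 1 := by ring
    have hh := (h.pm.halve (xor y (A.par P.W))).1
    exact ih t1 t2 (os.2 _) (by rw [pow_succ] at hm; omega) (h.pP.th_child (e ▸ hP) _)
      (h.pY.th_child (e ▸ hY) _)

end KA.CS

end Pool.Agent.MP_61ef33_al

end
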