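import Mathlib
import Pool.Agent.Mg.F61ef33.G8dcc6e
import Pool.Agent.MP_61ef33_al.Defs

section

/- Exponential growth rates of counting functions; an incompressibility criterion. -/

namespace Pool.Agent.MP_61ef33_al

open Real

def cnt {X : Type} (s : Set X) (f : X → ℕ) (n : ℕ) : Set X := {x | x ∈ s ∧ f x ≤ n}

/-- The counting function of `f` on `s` has exponential rate at most `t`. -/
def Rate {X : Type} (s : Set X) (f : X → ℕ) (t : ℝ) : Prop :=
  ∀ δ > 0, ∃ K : ℝ, ∀ n : ℕ, (cnt s f n).Finite ∧ ((cnt s f n).ncard : ℝ) ≤ K * exp ((t + δ) * n)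

theorem Rate.pos {X : Type} {s : Set X} {f : X → ℕ} {t : ℝ} (h : Rate s f t) (δ : ℝ) (hδ : 0 < δ) :
    ∃ K : ℝ, 0 ≤ K ∧ ∀ n : ℕ, (cnt s f n).Finite ∧
      ((cnt s f n).ncard : ℝ) ≤ K * exp ((t + δ) * n) := by
  obtain ⟨K, hK⟩ := h δ hδ
  refine ⟨K, ?_, hK⟩
  have := (hK 0).2
  simp only [Nat.cast_zero, mul_zero, exp_zero, mul_one] at this
  exact (Nat.cast_nonneg _).trans this

theorem Rate.mono {X : Type} {s : Set X} {f : X → ℕ} {t t' : ℝ} (h : Rate s f t) (ht : t ≤ t') :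
    Rate s f t' := by
  intro δ hδ
  obtain ⟨K, K0, hK⟩ := h.pos δ hδ
  refine ⟨K, fun n => ⟨(hK n).1, (hK n).2.trans ?_⟩⟩
  gcongr

theorem Rate.subset {X : Type} {s s' : Set X} {f : X → ℕ} {t : ℝ} (h : Rate s f t) (hs : s' ⊆ s) :
    Rate s' f t := by
  intro δ hδ
  obtain ⟨K, hK⟩ := h δ hδ
  have : ∀ n, cnt s' f n ⊆ cnt s f n := fun n x hx => ⟨hs hx.1, hx.2⟩
  refine ⟨K, fun n => ⟨(hK n).1.subset (this n), le_trans ?_ (hK n).2⟩⟩
  exact_mod_cast Set.ncard_le_ncard (this n) (hK n).1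

theorem rate_zero {X : Type} {s : Set X} {f : X → ℕ} {t0 : ℝ} (h0 : Rate s f t0)
    (himp : ∀ t > 0, Rate s f t → ∃ t' < t, Rate s f t') : Rate s f 0 := by
  let E : Set ℝ := {t | 0 ≤ t ∧ Rate s f t}
  have hne : E.Nonempty := ⟨max t0 0, le_max_right _ _, h0.mono (le_max_left _ _)⟩
  have hbd : BddBelow E := ⟨0, fun t ht => ht.1⟩
  have hinf : Rate s f (sInf E) := by
    intro δ hδ
    obtain ⟨t, ht, hlt⟩ := exists_lt_of_csInf_lt hne (show sInf E < sInf E + δ / 2 by linarith)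
    obtain ⟨K, K0, hK⟩ := ht.2.pos (δ / 2) (by linarith)
    refine ⟨K, fun n => ⟨(hK n).1, (hK n).2.trans ?_⟩⟩
    have : t + δ / 2 ≤ sInf E + δ := by linarith
    gcongr
  by_cases h : 0 < sInf E
  · obtain ⟨t', h1, h2⟩ := himp _ h hinf
    have : max t' 0 ∈ E := ⟨le_max_right _ _, h2.mono (le_max_left _ _)⟩
    have := csInf_le hbd this
    have : max t' 0 < sInf E := max_lt h1 h
    linarith
  · exact hinf.mono (not_lt.1 h)

theorem succ_le_exp {δ : ℝ} (hδ : 0 < δ) (n : ℕ) : (n : ℝ) + 1 ≤ (1 + 1 / δ) * exp (δ * n) := by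
  have h1 := add_one_le_exp (δ * n)
  have h2 : (0 : ℝ) ≤ n := Nat.cast_nonneg n
  have h3 : 0 < 1 / δ := by positivity
  calc (n : ℝ) + 1 ≤ (1 + 1 / δ) * (δ * n + 1) := by
        have : (1 + 1 / δ) * (δ * n + 1) = δ * n + 1 + n + 1 / δ := by field_simp; ring
        rw [this]; nlinarith
    _ ≤ _ := by gcongr

theorem ncard_biUnion_le' {X : Type} (n : ℕ) (F : ℕ → Set X) (b : ℝ)
    (h : ∀ k ≤ n, (F k).Finite ∧ ((F k).ncard : ℝ) ≤ b) :
    (⋃ k ∈ Finset.range (n + 1), F k).Finite ∧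
      ((⋃ k ∈ Finset.range (n + 1), F k).ncard : ℝ) ≤ (n + 1) * b := by
  induction n with
  | zero => simpa using h 0 le_rfl
  | succ n ih =>
    have := ih fun k hk => h k (by omega)
    have e : (⋃ k ∈ Finset.range (n + 1 + 1), F k) =
        F (n + 1) ∪ ⋃ k ∈ Finset.range (n + 1), F k := by
      rw [Finset.range_add_one, Finset.set_biUnion_insert]
    rw [e]
    refine ⟨(h _ le_rfl).1.union this.1, ?_⟩
    have h1 : ((F (n + 1) ∪ ⋃ k ∈ Finset.range (n + 1), F k).ncard : ℝ) ≤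
        (F (n + 1)).ncard + (⋃ k ∈ Finset.range (n + 1), F k).ncard := by
      exact_mod_cast Set.ncard_union_le _ _
    have h2 := (h _ le_rfl).2
    push_cast
    linarith [this.2]

theorem Rate.pair {X Y : Type} {s : Set X} {s' : Set Y} {f : X → ℕ} {f' : Y → ℕ} {t : ℝ}
    (h : Rate s f t) (h' : Rate s' f' t) :
    Rate (s ×ˢ s') (fun p => f p.1 + f' p.2) t := by
  intro δ hδ
  obtain ⟨K, K0, hK⟩ := h.pos (δ / 2) (by linarith)
  obtain ⟨K', K0', hK'⟩ := h'.pos (δ / 2) (by linarith)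
  refine ⟨(1 + 1 / (δ / 2)) * (K * K'), fun n => ?_⟩
  have hU := ncard_biUnion_le' n (fun k => cnt s f k ×ˢ cnt s' f' (n - k))
    (K * K' * exp ((t + δ / 2) * n)) (fun k hk => ⟨(hK k).1.prod (hK' _).1, by
      rw [Set.ncard_prod]
      push_cast
      calc ((cnt s f k).ncard : ℝ) * (cnt s' f' (n - k)).ncard
          ≤ (K * exp ((t + δ / 2) * k)) * (K' * exp ((t + δ / 2) * (n - k : ℕ))) := by
            gcongr
            · exact (hK k).2
            · exact (hK' _).2
        _ = _ := by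
            rw [Nat.cast_sub hk, mul_mul_mul_comm, ← exp_add]; congr 2; ring⟩)
  have hsub : cnt (s ×ˢ s') (fun p => f p.1 + f' p.2) n ⊆
      ⋃ k ∈ Finset.range (n + 1), cnt s f k ×ˢ cnt s' f' (n - k) := by
    rintro ⟨x, y⟩ ⟨⟨h1, h2⟩, h3⟩
    simp only [Set.mem_iUnion, Finset.mem_range]
    simp only at h3
    exact ⟨f x, by omega, ⟨h1, le_rfl⟩, ⟨h2, by simp only; omega⟩⟩
  refine ⟨hU.1.subset hsub, ?_⟩
  have h1 : ((cnt (s ×ˢ s') (fun p => f p.1 + f' p.2) n).ncard : ℝ) ≤ _ :=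
    le_trans (by exact_mod_cast Set.ncard_le_ncard hsub hU.1) hU.2
  refine h1.trans ?_
  have h2 := succ_le_exp (show 0 < δ / 2 by linarith) n
  calc ((n : ℝ) + 1) * (K * K' * exp ((t + δ / 2) * n))
      ≤ ((1 + 1 / (δ / 2)) * exp (δ / 2 * n)) * (K * K' * exp ((t + δ / 2) * n)) := by gcongr
    _ = _ := by
      rw [mul_mul_mul_comm, ← exp_add]; congr 2; ring

theorem rate_finite {K : Type} [Finite K] {t : ℝ} (ht : 0 ≤ t) :
    Rate (Set.univ : Set K) (fun _ => 0) t := by
  intro δ hδ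
  refine ⟨Nat.card K, fun n => ⟨Set.toFinite _, ?_⟩⟩
  have h1 : ((cnt (Set.univ : Set K) (fun _ => 0) n).ncard : ℝ) ≤ Nat.card K := by
    exact_mod_cast Set.ncard_le_card _
  have h2 : 1 ≤ exp ((t + δ) * n) := one_le_exp (by positivity)
  have h3 : (0 : ℝ) ≤ Nat.card K := Nat.cast_nonneg _
  nlinarith

theorem Rate.of_inj {X Y : Type} {s : Set X} {s' : Set Y} {f : X → ℕ} {f' : Y → ℕ} {t : ℝ}
    (h : Rate s' f' t) (φ : X → Y) (hφ : Set.InjOn φ s) (hs : ∀ x ∈ s, φ x ∈ s' ∧ f' (φ x) ≤ f x) :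
    Rate s f t := by
  intro δ hδ
  obtain ⟨K, hK⟩ := h δ hδ
  have hm : ∀ n, Set.MapsTo φ (cnt s f n) (cnt s' f' n) := fun n x hx =>
    ⟨(hs x hx.1).1, (hs x hx.1).2.trans hx.2⟩
  have hi : ∀ n, Set.InjOn φ (cnt s f n) := fun n => hφ.mono fun x hx => hx.1
  refine ⟨K, fun n => ⟨Set.Finite.of_injOn (hm n) (hi n) (hK n).1, le_trans ?_ (hK n).2⟩⟩
  exact_mod_cast Set.ncard_le_ncard_of_injOn φ (hm n) (hi n) (hK n).1

theorem Rate.shrink {X Y : Type} {s : Set X} {s' : Set Y} {f : X → ℕ} {f' : Y → ℕ} {t β : ℝ}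
    (h : Rate s' f' t) (ht : 0 ≤ t) (hβ : 0 ≤ β) (hβ1 : β ≤ 1) (k0 c : ℕ)
    (hfin : ∀ n, (cnt s f n).Finite)
    (hφ : ∀ k ≥ k0, ∃ φ : X → Y × ℕ, Set.InjOn φ {x | x ∈ s ∧ f x = k} ∧ ∀ x ∈ s, f x = k →
      (φ x).1 ∈ s' ∧ (f' (φ x).1 : ℝ) ≤ β * k + c ∧ (φ x).2 ≤ k) : Rate s f (β * t) := by
  intro δ hδ
  obtain ⟨K, K0, hK⟩ := h.pos (δ / 3) (by linarith)
  set B : ℝ := (cnt s f k0).ncard + K * exp ((t + δ / 3) * c) with hB
  have hB0 : 0 ≤ B := by positivity
  refine ⟨(1 + 1 / (δ / 3)) * ((1 + 1 / (δ / 3)) * B), fun n => ⟨hfin n, ?_⟩⟩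
  have hE : 1 ≤ exp ((β * t + δ / 3) * n) := one_le_exp (by positivity)
  have hU := ncard_biUnion_le' n (fun k => {x | x ∈ s ∧ f x = k})
    ((n + 1) * (B * exp ((β * t + δ / 3) * n))) (fun k hk => ⟨(hfin k).subset
      fun x hx => ⟨hx.1, hx.2.le⟩, by
      have hn1 : (1 : ℝ) ≤ n + 1 := by have : (0 : ℝ) ≤ n := Nat.cast_nonneg n; linarith
      by_cases hk0 : k0 ≤ k
      · obtain ⟨φ, h1, h2⟩ := hφ k hk0
        have hm : Set.MapsTo φ {x | x ∈ s ∧ f x = k}
            (cnt s' f' ⌊β * k + c⌋₊ ×ˢ (Finset.range (n + 1) : Set ℕ)) := fun x hx => by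
          obtain ⟨a1, a2, a3⟩ := h2 x hx.1 hx.2
          exact ⟨⟨a1, Nat.le_floor a2⟩, by simp; omega⟩
        have h3 := Set.ncard_le_ncard_of_injOn φ hm h1 ((hK _).1.prod (Finset.finite_toSet _))
        rw [Set.ncard_prod, Set.ncard_coe_finset, Finset.card_range] at h3
        have h4 : (({x | x ∈ s ∧ f x = k} : Set X).ncard : ℝ) ≤
            (cnt s' f' ⌊β * k + c⌋₊).ncard * (n + 1) := by exact_mod_cast h3
        refine h4.trans ?_
        rw [mul_comm]
        gcongr
        refine (hK _).2.trans ?_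
        have hfl : (⌊β * k + c⌋₊ : ℝ) ≤ β * n + c :=
          (Nat.floor_le (by positivity)).trans (by gcongr)
        calc K * exp ((t + δ / 3) * ⌊β * k + c⌋₊) ≤ K * exp ((t + δ / 3) * (β * n + c)) := by gcongr
          _ ≤ K * exp ((t + δ / 3) * c + (β * t + δ / 3) * n) := by
            gcongr
            have : (0 : ℝ) ≤ n := Nat.cast_nonneg n
            have : δ / 3 * β * n ≤ δ / 3 * 1 * n := by gcongr
            nlinarith
          _ = K * exp ((t + δ / 3) * c) * exp ((β * t + δ / 3) * n) := by rw [exp_add, mul_assoc]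
          _ ≤ _ := by
            gcongr
            rw [hB]
            have : (0 : ℝ) ≤ (cnt s f k0).ncard := Nat.cast_nonneg _
            linarith
      · have h3 : (({x | x ∈ s ∧ f x = k} : Set X).ncard : ℝ) ≤ (cnt s f k0).ncard := by
          have hsub : {x | x ∈ s ∧ f x = k} ⊆ cnt s f k0 :=
            fun x hx => ⟨hx.1, by have := hx.2; omega⟩
          exact_mod_cast Set.ncard_le_ncard hsub (hfin k0)
        have h4 : ((cnt s f k0).ncard : ℝ) ≤ B := by
          rw [hB]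
          have : 0 ≤ K * exp ((t + δ / 3) * c) := by positivity
          linarith
        calc _ ≤ B := h3.trans h4
          _ = 1 * (B * 1) := by ring
          _ ≤ _ := by gcongr⟩)
  have hsub : cnt s f n ⊆ ⋃ k ∈ Finset.range (n + 1), {x | x ∈ s ∧ f x = k} := by
    intro x hx
    simp only [Set.mem_iUnion, Finset.mem_range]
    exact ⟨f x, by have := hx.2; omega, hx.1, rfl⟩
  have h1 : ((cnt s f n).ncard : ℝ) ≤ _ :=
    le_trans (by exact_mod_cast Set.ncard_le_ncard hsub hU.1) hU.2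
  refine h1.trans ?_
  have h2 := succ_le_exp (show 0 < δ / 3 by linarith) n
  calc ((n : ℝ) + 1) * ((n + 1) * (B * exp ((β * t + δ / 3) * n)))
      ≤ ((1 + 1 / (δ / 3)) * exp (δ / 3 * n)) * (((1 + 1 / (δ / 3)) * exp (δ / 3 * n)) *
        (B * exp ((β * t + δ / 3) * n))) := by gcongr
    _ = (1 + 1 / (δ / 3)) * ((1 + 1 / (δ / 3)) * B) *
        (exp (δ / 3 * n) * exp (δ / 3 * n) * exp ((β * t + δ / 3) * n)) := by ring
    _ = _ := by rw [← exp_add, ← exp_add]; congr 2; ring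

/-- Sum of the norms of all descendants of depth `D`. -/
def nD {X : Type} (nrm : X → ℕ) (ch : X → Bool → X) : ℕ → X → ℕ
  | 0, x => nrm x
  | D + 1, x => nD nrm ch D (ch x false) + nD nrm ch D (ch x true)

section Crit

variable {X : Type} {nrm : X → ℕ} {ch : X → Bool → X}

theorem nD_succ_le (hne : ∀ x, nrm (ch x false) + nrm (ch x true) ≤ nrm x) (D : ℕ) (x : X) :
    nD nrm ch (D + 1) x ≤ nD nrm ch D x := by
  induction D generalizing x with
  | zero => exact hne x
  | succ D ih => exact Nat.add_le_add (ih _) (ih _)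

theorem nD_anti (hne : ∀ x, nrm (ch x false) + nrm (ch x true) ≤ nrm x) (x : X) {D E : ℕ}
    (h : D ≤ E) : nD nrm ch E x ≤ nD nrm ch D x := by
  induction h with
  | refl => exact le_rfl
  | step _ ih => exact (nD_succ_le hne _ x).trans ih

theorem rate_nD {K : Type} [Finite K] (key : X → K)
    (hinj : ∀ x y, key x = key y → ch x false = ch y false → ch x true = ch y true → x = y)
    {t : ℝ} (ht : 0 ≤ t) (h : Rate Set.univ nrm t) (D : ℕ) : Rate Set.univ (nD nrm ch D) t := by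
  induction D with
  | zero => exact h
  | succ D ih =>
    refine ((rate_finite (K := K) ht).pair (ih.pair ih)).of_inj
      (fun x => (key x, ch x false, ch x true)) (fun x _ y _ e => ?_) fun x _ => ⟨by simp, ?_⟩
    · simp only [Prod.mk.injEq] at e
      exact hinj x y e.1 e.2.1 e.2.2
    · simp [nD]

theorem count_G (hne : ∀ x, nrm (ch x false) + nrm (ch x true) ≤ nrm x)
    (hfin : ∀ n, (cnt Set.univ nrm n).Finite) (comp : X → X → X) (c M D : ℕ)
    (hdec : ∀ x, M + c ≤ nrm x → ∃ x1 x2, x = comp x1 x2 ∧ M ≤ nrm x1 ∧ nrm x1 ≤ M + c ∧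
      nrm x = nrm x1 + nrm x2 ∧ nD nrm ch D x ≤ nD nrm ch D x1 + nD nrm ch D x2)
    (J : Set X) (hJ : ∀ x, nrm x ≤ M + c → nD nrm ch D x = nrm x → x ∈ J) (r k : ℕ) :
    {x | nrm x ≤ r * M + (M + c) ∧ nrm x ≤ nD nrm ch D x + k}.ncard ≤
      (cnt Set.univ nrm (M + c)).ncard ^ (k + 1) * ((cnt J nrm (M + c)).ncard + 2) ^ r := by
  set Γ := (cnt Set.univ nrm (M + c)).ncard
  set T := (cnt J nrm (M + c)).ncard
  let G : ℕ → ℕ → Set X := fun r k => {x | nrm x ≤ r * M + (M + c) ∧ nrm x ≤ nD nrm ch D x + k}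
  have hG : ∀ r k, (G r k).Finite := fun r k => (hfin _).subset fun x hx => ⟨trivial, hx.1⟩
  have hΓ : ∀ k, Γ ≤ Γ ^ (k + 1) := fun k => Nat.le_self_pow (by omega) _
  change (G r k).ncard ≤ _
  induction r generalizing k with
  | zero =>
    simp only [pow_zero, mul_one]
    refine le_trans (Set.ncard_le_ncard (fun x hx => ?_) (hfin _)) (hΓ k)
    exact ⟨trivial, by simpa using hx.1⟩
  | succ r ih =>
    let G' : Set X := if k = 0 then ∅ else G r (k - 1)
    have hG' : G'.Finite := by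
      simp only [G']; split_ifs
      · exact Set.finite_empty
      · exact hG _ _
    have hG'c : Γ * G'.ncard ≤ Γ ^ (k + 1) * (T + 2) ^ r := by
      simp only [G']; split_ifs with h
      · simp
      · obtain ⟨k', rfl⟩ : ∃ k', k = k' + 1 := ⟨k - 1, by omega⟩
        have := ih k'
        simp only [Nat.add_sub_cancel]
        rw [pow_succ' Γ (k' + 1), mul_assoc]
        exact Nat.mul_le_mul_left _ this
    have hJf : (cnt J nrm (M + c)).Finite := (hfin _).subset fun x hx => ⟨trivial, hx.2⟩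
    have hsub : G (r + 1) k ⊆ cnt Set.univ nrm (M + c) ∪
        (Function.uncurry comp '' (cnt J nrm (M + c) ×ˢ G r k) ∪
          Function.uncurry comp '' (cnt Set.univ nrm (M + c) ×ˢ G')) := by
      rintro x ⟨h1, h2⟩
      by_cases hx : nrm x ≤ M + c
      · exact Or.inl ⟨trivial, hx⟩
      right
      obtain ⟨x1, x2, e, a1, a2, a3, a4⟩ := hdec x (by omega)
      have b1 := nD_anti hne x1 (Nat.zero_le D)
      have b2 := nD_anti hne x2 (Nat.zero_le D)
      simp only [nD] at b1 b2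
      rw [Nat.succ_mul] at h1
      by_cases hc : nD nrm ch D x1 = nrm x1
      · exact Or.inl ⟨(x1, x2), ⟨⟨hJ x1 a2 hc, a2⟩, by simp only; omega, by simp only; omega⟩, e.symm⟩
      · refine Or.inr ⟨(x1, x2), ⟨⟨trivial, a2⟩, ?_⟩, e.symm⟩
        simp only [G']
        rw [if_neg (by omega)]
        exact ⟨by omega, by omega⟩
    have h1 := Set.ncard_le_ncard hsub ((hfin _).union (((hJf.prod (hG _ _)).image _).union
      (((hfin _).prod hG').image _)))
    have h2 := Set.ncard_union_le (cnt Set.univ nrm (M + c))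
      (Function.uncurry comp '' (cnt J nrm (M + c) ×ˢ G r k) ∪
          Function.uncurry comp '' (cnt Set.univ nrm (M + c) ×ˢ G'))
    have h3 := Set.ncard_union_le (Function.uncurry comp '' (cnt J nrm (M + c) ×ˢ G r k))
          (Function.uncurry comp '' (cnt Set.univ nrm (M + c) ×ˢ G'))
    have h4 := Set.ncard_image_le (f := Function.uncurry comp) (hJf.prod (hG r k))
    have h5 := Set.ncard_image_le (f := Function.uncurry comp) ((hfin (M + c)).prod hG')
    rw [Set.ncard_prod] at h4 h5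
    change _ ≤ T * _ at h4
    change _ ≤ Γ * _ at h5
    change _ ≤ Γ + _ at h2
    have h6 := Nat.mul_le_mul_left T (ih k)
    have h7 : Γ ≤ Γ ^ (k + 1) * (T + 2) ^ r :=
      (hΓ k).trans (Nat.le_mul_of_pos_right _ (by positivity))
    calc (G (r + 1) k).ncard ≤ Γ + (T * (G r k).ncard + Γ * G'.ncard) := by omega
      _ ≤ Γ ^ (k + 1) * (T + 2) ^ r + (T * (Γ ^ (k + 1) * (T + 2) ^ r) +
          Γ ^ (k + 1) * (T + 2) ^ r) := by omega
      _ = _ := by ring

theorem exists_depth (hne : ∀ x, nrm (ch x false) + nrm (ch x true) ≤ nrm x) {s : Set X}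
    (hs : s.Finite) : ∃ D, ∀ x ∈ s, nD nrm ch D x = nrm x → ∀ E, nD nrm ch E x = nrm x := by
  have h1 : ∀ x, ∃ D, ∀ D' ≥ D, nD nrm ch D' x = nrm x → ∀ E, nD nrm ch E x = nrm x := by
    intro x
    by_cases h : ∀ E, nD nrm ch E x = nrm x
    · exact ⟨0, fun _ _ _ => h⟩
    · push Not at h
      obtain ⟨E, hE⟩ := h
      refine ⟨E, fun D' hD' e => absurd ?_ hE⟩
      have a1 := nD_anti hne x hD'
      have a2 := nD_anti hne x (Nat.zero_le E)
      simp only [nD] at a2
      omega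
  choose d hd using h1
  obtain ⟨D, hD⟩ := (hs.image d).bddAbove
  exact ⟨D, fun x hx => hd x D (hD ⟨x, hx, rfl⟩)⟩

theorem rate_apriori (hne : ∀ x, nrm (ch x false) + nrm (ch x true) ≤ nrm x)
    (hfin : ∀ n, (cnt Set.univ nrm n).Finite) (comp : X → X → X) (c : ℕ)
    (hdec : ∀ M D x, M + c ≤ nrm x → ∃ x1 x2, x = comp x1 x2 ∧ M ≤ nrm x1 ∧ nrm x1 ≤ M + c ∧
      nrm x = nrm x1 + nrm x2 ∧ nD nrm ch D x ≤ nD nrm ch D x1 + nD nrm ch D x2) :
    ∃ t, Rate Set.univ nrm t := by
  set Γ := (cnt Set.univ nrm (1 + c)).ncard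
  refine ⟨log (Γ + 2), fun δ hδ => ⟨Γ, fun n => ⟨hfin n, ?_⟩⟩⟩
  have h1 := count_G hne hfin comp c 1 0 (hdec 1 0) Set.univ (fun _ _ _ => trivial) n 0
  have hsub : cnt Set.univ nrm n ⊆ {x | nrm x ≤ n * 1 + (1 + c) ∧ nrm x ≤ nD nrm ch 0 x + 0} :=
    fun x hx => ⟨by have := hx.2; omega, by simp [nD]⟩
  have h2 : (cnt Set.univ nrm n).ncard ≤ _ := le_trans (Set.ncard_le_ncard hsub
    ((hfin _).subset fun x hx => ⟨trivial, hx.1⟩)) h1
  have h3 : ((cnt Set.univ nrm n).ncard : ℝ) ≤ Γ * (Γ + 2) ^ n := by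
    have : (cnt Set.univ nrm n).ncard ≤ Γ * (Γ + 2) ^ n := by simpa using h2
    exact_mod_cast this
  refine h3.trans ?_
  gcongr
  rw [add_mul, exp_add, mul_comm (log _), exp_nat_mul, exp_log (by positivity)]
  exact le_mul_of_one_le_right (by positivity) (one_le_exp (by positivity))

theorem criterion (hne : ∀ x, nrm (ch x false) + nrm (ch x true) ≤ nrm x)
    (hfin : ∀ n, (cnt Set.univ nrm n).Finite) {K : Type} [Finite K] (key : X → K)
    (hinj : ∀ x y, key x = key y → ch x false = ch y false → ch x true = ch y true → x = y)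
    (comp : X → X → X) (c : ℕ)
    (hdec : ∀ M D x, M + c ≤ nrm x → ∃ x1 x2, x = comp x1 x2 ∧ M ≤ nrm x1 ∧ nrm x1 ≤ M + c ∧
      nrm x = nrm x1 + nrm x2 ∧ nD nrm ch D x ≤ nD nrm ch D x1 + nD nrm ch D x2)
    (hI : Rate {x | ∀ E, nD nrm ch E x = nrm x} nrm 0) : Rate Set.univ nrm 0 := by
  obtain ⟨t0, h0⟩ := rate_apriori hne hfin comp c hdec
  refine rate_zero h0 fun t ht hr => ?_
  set J : Set X := {x | ∀ E, nD nrm ch E x = nrm x}
  obtain ⟨K', K0', hK'⟩ := hI.pos (t / 8) (by linarith)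
  obtain ⟨M, hM1, hM⟩ : ∃ M : ℕ, 1 ≤ M ∧ ((cnt J nrm (M + c)).ncard : ℝ) + 2 ≤ exp (t / 4 * M) := by
    obtain ⟨M, hM⟩ := exists_nat_ge ((K' * exp (t / 8 * c) + 2) / (t / 8))
    have hM' : K' * exp (t / 8 * c) + 2 ≤ t / 8 * M := by
      rwa [div_le_iff₀ (by linarith), mul_comm (M : ℝ)] at hM
    have hp : 0 ≤ K' * exp (t / 8 * c) := by positivity
    have hM1 : 1 ≤ M := by
      by_contra h
      have : M = 0 := by omega
      subst this
      simp only [Nat.cast_zero, mul_zero] at hM'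
      linarith
    refine ⟨M, hM1, ?_⟩
    have h1 := (hK' (M + c)).2
    have h2 := add_one_le_exp (t / 8 * M)
    have h3 : 1 ≤ exp (t / 8 * M) := one_le_exp (by positivity)
    have e1 : exp (t / 4 * M) = exp (t / 8 * M) * exp (t / 8 * M) := by
      rw [← exp_add]; congr 1; ring
    have e2 : exp ((0 + t / 8) * (M + c : ℕ)) = exp (t / 8 * c) * exp (t / 8 * M) := by
      rw [← exp_add]; congr 1; push_cast; ring
    rw [e2] at h1
    rw [e1]
    nlinarith
  obtain ⟨D, hD⟩ := exists_depth hne (hfin (M + c))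
  set Γ := (cnt Set.univ nrm (M + c)).ncard
  obtain ⟨q, hq1, hq⟩ : ∃ q : ℕ, 1 ≤ q ∧ (Γ : ℝ) ≤ exp (t / 4 * (q * M : ℕ)) := by
    obtain ⟨q, hq⟩ := exists_nat_ge ((Γ : ℝ) / (t / 4))
    refine ⟨q + 1, by omega, ?_⟩
    rw [div_le_iff₀ (by linarith)] at hq
    have h2 := add_one_le_exp (t / 4 * ((q + 1) * M : ℕ))
    have h3 : (q : ℝ) ≤ ((q + 1) * M : ℕ) := by exact_mod_cast (by nlinarith : q ≤ (q + 1) * M)
    nlinarith
  have hqM : 0 < q * M := Nat.mul_pos hq1 hM1
  have hqM' : (0 : ℝ) < (q * M : ℕ) := by exact_mod_cast hqM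
  have hqM1 : (1 : ℝ) ≤ (q * M : ℕ) := by exact_mod_cast hqM
  refine ⟨max (t * (1 - 1 / (q * M : ℕ))) (t / 2), max_lt ?_ (by linarith), fun δ hδ => ?_⟩
  · have : 0 < t * (1 / (q * M : ℕ)) := by positivity
    linarith
  obtain ⟨K1, K10, hK1⟩ := (rate_nD key hinj ht.le hr D).pos δ hδ
  refine ⟨K1 + Γ, fun n => ⟨hfin n, ?_⟩⟩
  set k := n / (q * M) with hk
  have hG := count_G hne hfin comp c M D (hdec M D) J
    (fun x h1 h2 => hD x ⟨trivial, h1⟩ h2) (n / M) k
  have hsub : cnt Set.univ nrm n ⊆ cnt Set.univ (nD nrm ch D) (n - (k + 1)) ∪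
      {x | nrm x ≤ n / M * M + (M + c) ∧ nrm x ≤ nD nrm ch D x + k} := by
    intro x hx
    have h1 := hx.2
    by_cases h : nrm x ≤ nD nrm ch D x + k
    · refine Or.inr ⟨?_, h⟩
      have := Nat.lt_div_mul_add (a := n) (show 0 < M by omega)
      omega
    · exact Or.inl ⟨trivial, by omega⟩
  have h1 := (Set.ncard_le_ncard hsub ((hK1 _).1.union ((hfin _).subset
    fun x hx => ⟨trivial, hx.1⟩))).trans (Set.ncard_union_le _ _)
  have h2 : ((cnt Set.univ nrm n).ncard : ℝ) ≤ (cnt Set.univ (nD nrm ch D) (n - (k + 1))).ncard +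
      Γ ^ (k + 1) * ((cnt J nrm (M + c)).ncard + 2) ^ (n / M) := by
    exact_mod_cast h1.trans (Nat.add_le_add_left hG _)
  refine h2.trans ?_
  rw [add_mul]
  have hn0 : (0 : ℝ) ≤ n := Nat.cast_nonneg n
  gcongr ?_ + ?_
  · refine (hK1 _).2.trans ?_
    gcongr K1 * exp ?_
    have a1 : ((n - (k + 1) : ℕ) : ℝ) ≤ n * (1 - 1 / (q * M : ℕ)) := by
      have b1 : n < k * (q * M) + q * M := Nat.lt_div_mul_add hqM
      have b2 : (n : ℝ) / (q * M : ℕ) ≤ k + 1 := by
        rw [div_le_iff₀ hqM']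
        exact_mod_cast (by nlinarith : n ≤ (k + 1) * (q * M))
      rcases le_total (k + 1) n with h | h
      · rw [Nat.cast_sub h]; push_cast at b2 ⊢
        rw [mul_sub, mul_one_div]; linarith
      · rw [Nat.sub_eq_zero_of_le h, Nat.cast_zero]
        have : 1 / ((q * M : ℕ) : ℝ) ≤ 1 := by rw [div_le_one hqM']; exact hqM1
        exact mul_nonneg hn0 (by linarith)
    have a2 : 0 ≤ 1 / ((q * M : ℕ) : ℝ) := by positivity
    calc (t + δ) * ((n - (k + 1) : ℕ) : ℝ) ≤ (t + δ) * (n * (1 - 1 / (q * M : ℕ))) := by gcongr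
      _ = (t * (1 - 1 / (q * M : ℕ)) + δ) * n - δ * n * (1 / (q * M : ℕ)) := by ring
      _ ≤ (t * (1 - 1 / (q * M : ℕ)) + δ) * n := by
        have : 0 ≤ δ * n * (1 / ((q * M : ℕ) : ℝ)) := by positivity
        linarith
      _ ≤ _ := by gcongr; exact le_max_left _ _
  · rw [pow_succ', mul_assoc]
    gcongr
    have a1 : (Γ : ℝ) ^ k ≤ exp (t / 4 * n) := by
      calc (Γ : ℝ) ^ k ≤ exp (t / 4 * (q * M : ℕ)) ^ k := by gcongr
        _ = exp (t / 4 * ((k * (q * M) : ℕ) : ℝ)) := by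
          rw [← exp_nat_mul]; congr 1; push_cast; ring
        _ ≤ _ := by gcongr; exact Nat.div_mul_le_self _ _
    have a2 : (((cnt J nrm (M + c)).ncard : ℝ) + 2) ^ (n / M) ≤ exp (t / 4 * n) := by
      calc _ ≤ exp (t / 4 * M) ^ (n / M) := by gcongr
        _ = exp (t / 4 * ((n / M * M : ℕ) : ℝ)) := by
          rw [← exp_nat_mul]; congr 1; push_cast; ring
        _ ≤ _ := by gcongr; exact Nat.div_mul_le_self _ _
    calc _ ≤ exp (t / 4 * n) * exp (t / 4 * n) := by gcongr
      _ = exp (t / 2 * n) := by rw [← exp_add]; congr 1; ring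
      _ ≤ _ := by
        gcongr
        have := le_max_right (t * (1 - 1 / (q * M : ℕ))) (t / 2)
        linarith

end Crit

end Pool.Agent.MP_61ef33_al

end

section

/- Subexponential growth in the non-star case. -/

namespace Pool.Agent.MP_61ef33_al

namespace KA

variable {S : Type} (A : KA S)

/-- The ball of radius `n`. -/
def wball (n : ℕ) : Set (Equiv.Perm (List Bool)) := {g | ∃ W : List S, W.length ≤ n ∧ A.ev W = g}

theorem wball_finite [Finite S] (n : ℕ) : (A.wball n).Finite :=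
  ((List.finite_length_le S n).image A.ev).subset fun _ ⟨W, h1, h2⟩ => ⟨W, h1, h2⟩

theorem exists_short [Finite S] (hs : ¬ A.Star) : ∃ z : ℕ, ∀ a (u : List S) b, ∃ u' : List S,
    A.ev u' = A.ev u ∧ u'.length ≤ z * (crs a (u.map A.cut0) b + 1) := by
  have hfin : ∀ c, (A.Wd {s | A.cut0 s = c}).Finite := fun c => A.finite_Wd hs fun e => by
    have h1 : A.sg ∈ {s | A.cut0 s = c} := e ▸ Set.mem_univ _
    have h2 : A.nx A.sg ∈ {s | A.cut0 s = c} := e ▸ Set.mem_univ _
    simp only [cut0, Set.mem_ofPred_eq, isg_sg, isg_nx] at h1 h2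
    rw [← h1] at h2
    cases h2
  have hch : ∀ g : Equiv.Perm (List Bool), ∃ k : ℕ, ∀ W, A.ev W = g →
      ∃ W' : List S, A.ev W' = g ∧ W'.length ≤ k := by
    intro g
    by_cases h : ∃ W, A.ev W = g
    · obtain ⟨W, hW⟩ := h
      exact ⟨W.length, fun _ _ => ⟨W, hW, le_rfl⟩⟩
    · exact ⟨0, fun W hW => absurd ⟨W, hW⟩ h⟩
  choose k hk using hch
  obtain ⟨z, hz⟩ := (((hfin false).union (hfin true)).image k).bddAbove
  have hmono : ∀ c (W : List S), (∀ s ∈ W, A.cut0 s = c) →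
      ∃ W' : List S, A.ev W' = A.ev W ∧ W'.length ≤ z := by
    intro c W hW
    obtain ⟨W', h1, h2⟩ := hk _ W rfl
    refine ⟨W', h1, h2.trans (hz ⟨_, ?_, rfl⟩)⟩
    cases c
    · exact Or.inl ⟨W, hW, rfl⟩
    · exact Or.inr ⟨W, hW, rfl⟩
  have key : ∀ (u : List S) a b, ∃ v u' : List S, (∀ s ∈ v, A.cut0 s = a) ∧
      A.ev (v ++ u') = A.ev u ∧ u'.length ≤ z * crs a (u.map A.cut0) b := by
    intro u
    induction u with
    | nil => intro a b; exact ⟨[], [], by simp, rfl, by simp⟩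
    | cons s u ih =>
      intro a b
      obtain ⟨v, u', h1, h2, h3⟩ := ih (A.cut0 s) b
      by_cases h : a = A.cut0 s
      · subst h
        refine ⟨s :: v, u', ?_, by simp [h2], by simpa using h3⟩
        intro t ht
        rcases List.mem_cons.1 ht with rfl | ht
        · rfl
        · exact h1 t ht
      · obtain ⟨W', e1, e2⟩ := hmono (A.cut0 s) (s :: v) (by
          intro t ht
          rcases List.mem_cons.1 ht with rfl | ht
          · rfl
          · exact h1 t ht)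
        refine ⟨[], W' ++ u', by simp, ?_, ?_⟩
        · rw [List.nil_append, ev_append, e1, ev_cons, ev_cons, ← h2, ev_append, mul_assoc]
        · simp only [List.length_append, List.map_cons, crs_cons, bd, if_neg h]
          rw [mul_add]; omega
  refine ⟨z, fun a u b => ?_⟩
  obtain ⟨v, u', h1, h2, h3⟩ := key u a b
  obtain ⟨W', e1, e2⟩ := hmono a v h1
  refine ⟨W' ++ u', by rw [ev_append, e1, ← h2, ev_append], ?_⟩
  rw [List.length_append, mul_add]; omega

theorem exists_sep {s : Set (Equiv.Perm (List Bool))} (hs : s.Finite) :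
    ∃ c0 : ℕ, ∀ g ∈ s, ∀ h ∈ s, (∀ v : List Bool, v.length ≤ c0 → g v = h v) → g = h := by
  have h1 : ∀ p : Equiv.Perm (List Bool) × Equiv.Perm (List Bool), ∃ d : ℕ,
      (∀ v : List Bool, v.length ≤ d → p.1 v = p.2 v) → p.1 = p.2 := by
    intro p
    by_cases h : p.1 = p.2
    · exact ⟨0, fun _ => h⟩
    · obtain ⟨v, hv⟩ : ∃ v, p.1 v ≠ p.2 v := by
        by_contra h'
        push Not at h'
        exact h (Equiv.ext h')
      exact ⟨v.length, fun h' => absurd (h' v le_rfl) hv⟩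
  choose d hd using h1
  obtain ⟨c0, hc⟩ := ((hs.prod hs).image d).bddAbove
  exact ⟨c0, fun g hg h hh e => hd (g, h) fun v hv => e v (hv.trans (hc ⟨(g, h), ⟨hg, hh⟩, rfl⟩))⟩

/-- Group elements with two end positions. -/
abbrev XT (I : Type) : Type := (I → Bool) × Set.range A.ev × (I → Bool)

noncomputable def cls {I : Type} (t : WT S I) : A.XT I := (t.a, ⟨A.ev t.W, t.W, rfl⟩, t.b)

theorem cls_eq {I : Type} {t u : WT S I} :
    A.cls t = A.cls u ↔ t.a = u.a ∧ A.ev t.W = A.ev u.W ∧ t.b = u.b := by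
  simp [cls]

theorem cls_surj {I : Type} (x : A.XT I) : ∃ t, A.cls t = x := by
  obtain ⟨a, ⟨g, W, rfl⟩, b⟩ := x
  exact ⟨⟨a, W, b⟩, rfl⟩

theorem cls_comp {I : Type} {t u t' u' : WT S I} (h : A.cls t = A.cls t') (h' : A.cls u = A.cls u') :
    A.cls (t.comp u) = A.cls (t'.comp u') := by
  rw [cls_eq] at *
  simp [WT.comp, ev_append, h, h']

namespace CS

variable {A} {I : Type} [Fintype I] (C : A.CS I)

theorem exists_geo (x : A.XT I) : ∃ t, A.cls t = x ∧ ∀ u, A.cls u = x → C.len t ≤ C.len u := by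
  obtain ⟨t0, h0⟩ := A.cls_surj x
  obtain ⟨t, h1, h2⟩ := (InvImage.wf C.len wellFounded_lt).has_min {t | A.cls t = x} ⟨t0, h0⟩
  exact ⟨t, h1, fun u hu => not_lt.1 (h2 u hu)⟩

noncomputable def geo (x : A.XT I) : WT S I := (C.exists_geo x).choose

theorem cls_geo (x : A.XT I) : A.cls (C.geo x) = x := (C.exists_geo x).choose_spec.1

noncomputable def nrm (x : A.XT I) : ℕ := C.len (C.geo x)

theorem nrm_le (t : WT S I) : C.nrm (A.cls t) ≤ C.len t := (C.exists_geo _).choose_spec.2 t rfl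

noncomputable def ch (x : A.XT I) (y : Bool) : A.XT I := A.cls (C.child (C.geo x) y)

omit [Fintype I] in
theorem cls_child {t u : WT S I} (h : A.cls t = A.cls u) (y : Bool) :
    A.cls (C.child t y) = A.cls (C.child u y) := by
  rw [cls_eq] at *
  simp [child, h.1, h.2.2, A.par_eq_of_ev h.2.1, A.sec_eq_of_ev h.2.1]

theorem ch_cls (t : WT S I) (y : Bool) : C.ch (A.cls t) y = A.cls (C.child t y) :=
  C.cls_child (C.cls_geo _) y

theorem nonexp (x : A.XT I) : C.nrm (C.ch x false) + C.nrm (C.ch x true) ≤ C.nrm x :=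
  (Nat.add_le_add (C.nrm_le _) (C.nrm_le _)).trans (C.len_child_le _)

theorem nD_le (D : ℕ) (t : WT S I) : nD C.nrm C.ch D (A.cls t) ≤ C.lenD D t := by
  induction D generalizing t with
  | zero => exact C.nrm_le t
  | succ D ih => rw [nD, ch_cls, ch_cls, lenD_succ]; exact Nat.add_le_add (ih _) (ih _)

theorem nD_comp_le (D : ℕ) {t u : WT S I} (h : t.b = u.a) : nD C.nrm C.ch D (A.cls (t.comp u)) ≤
    nD C.nrm C.ch D (A.cls t) + nD C.nrm C.ch D (A.cls u) := by
  induction D generalizing t u with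
  | zero =>
    simp only [nD]
    rw [← A.cls_comp (C.cls_geo (A.cls t)) (C.cls_geo (A.cls u))]
    refine (C.nrm_le _).trans (C.len_comp_le ?_)
    rw [(A.cls_eq.1 (C.cls_geo (A.cls t))).2.2, (A.cls_eq.1 (C.cls_geo (A.cls u))).1, h]
  | succ D ih =>
    simp only [nD, ch_cls, child_comp]
    have h1 := ih (t := C.child t false) (u := C.child u (xor false (A.par t.W)))
      (by simp [child, h])
    have h2 := ih (t := C.child t true) (u := C.child u (xor true (A.par t.W)))
      (by simp [child, h])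
    revert h1 h2
    cases A.par t.W <;> simp <;> omega

theorem len_le (t : WT S I) : C.len t ≤ Fintype.card I * (t.W.length + 1) := by
  unfold len
  rw [← Finset.card_univ, ← smul_eq_mul]
  refine Finset.sum_le_card_nsmul _ _ _ fun i _ => ?_
  simpa [cr] using crs_le_length (t.a i) (t.b i) (t.W.map (C.F i))

theorem len_cons (a b : I → Bool) (s : S) (W : List S) :
    C.len ⟨a, s :: W, b⟩ = ∑ i, bd (a i) (C.pos s i) + C.len ⟨C.pos s, W, b⟩ := by
  simp [len, cr, Finset.sum_add_distrib, pos]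

theorem exists_cut (t : WT S I) (M : ℕ) (h : M + Fintype.card I ≤ C.len t) :
    ∃ t1 t2, t = t1.comp t2 ∧ C.Add t1 t2 ∧ M ≤ C.len t1 ∧ C.len t1 ≤ M + Fintype.card I := by
  obtain ⟨a, W, b⟩ := t
  induction W generalizing a M with
  | nil =>
    have h1 := C.len_le ⟨a, [], b⟩
    have e : C.len ⟨a, [], a⟩ = 0 := by simp [len, cr]
    refine ⟨⟨a, [], a⟩, ⟨a, [], b⟩, rfl, ⟨rfl, by rw [e]; simp [WT.comp]⟩, ?_, by omega⟩
    simp at h1; omega
  | cons s W ih =>
    have e0 := C.len_cons a b s W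
    have hd : ∑ i, bd (a i) (C.pos s i) ≤ Fintype.card I := by
      rw [← Finset.card_univ, ← mul_one Finset.univ.card, ← smul_eq_mul]
      exact Finset.sum_le_card_nsmul _ _ _ fun i _ => bd_le _ _
    by_cases hM : M ≤ ∑ i, bd (a i) (C.pos s i)
    · have e1 := C.len_cons a (C.pos s) s []
      have e : C.len ⟨C.pos s, [], C.pos s⟩ = 0 := by simp [len, cr]
      exact ⟨⟨a, [s], C.pos s⟩, ⟨C.pos s, W, b⟩, rfl, ⟨rfl, by
        simp only [WT.comp, List.singleton_append]; omega⟩, by omega, by omega⟩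
    · obtain ⟨⟨a1, W1, b1⟩, t2, h1, h2, h3, h4⟩ := ih (M - ∑ i, bd (a i) (C.pos s i)) (C.pos s)
        (by omega)
      have h5 := h2.2
      rw [← h1] at h5
      simp only [WT.comp, WT.mk.injEq] at h1
      obtain ⟨rfl, rfl, rfl⟩ := h1
      have e1 := C.len_cons a b1 s W1
      exact ⟨⟨a, s :: W1, b1⟩, t2, rfl, ⟨h2.1, by
        simp only [WT.comp, List.cons_append]; omega⟩, by omega, by omega⟩

theorem geo_pieces {t u : WT S I} (h : C.Add t u) (hg : C.len (t.comp u) = C.nrm (A.cls (t.comp u))) :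
    C.len t = C.nrm (A.cls t) ∧ C.len u = C.nrm (A.cls u) := by
  have h1 := C.nD_comp_le 0 h.1
  simp only [nD] at h1
  have h2 := C.nrm_le t
  have h3 := C.nrm_le u
  have := h.2
  omega

theorem inc_pieces {t u : WT S I} (h : C.Add t u) (hg : C.len (t.comp u) = C.nrm (A.cls (t.comp u)))
    (hi : ∀ E, nD C.nrm C.ch E (A.cls (t.comp u)) = C.nrm (A.cls (t.comp u))) :
    (∀ E, nD C.nrm C.ch E (A.cls t) = C.nrm (A.cls t)) ∧
      ∀ E, nD C.nrm C.ch E (A.cls u) = C.nrm (A.cls u) := by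
  have h0 := C.geo_pieces h hg
  have key : ∀ E, nD C.nrm C.ch E (A.cls t) = C.nrm (A.cls t) ∧
      nD C.nrm C.ch E (A.cls u) = C.nrm (A.cls u) := by
    intro E
    have h1 := C.nD_comp_le E h.1
    have h2 := nD_anti C.nonexp (A.cls t) (Nat.zero_le E)
    have h3 := nD_anti C.nonexp (A.cls u) (Nat.zero_le E)
    simp only [nD] at h2 h3
    have := hi E
    have := h.2
    omega
  exact ⟨fun E => (key E).1, fun E => (key E).2⟩

theorem perf_of_inc {t : WT S I} (hg : C.len t = C.nrm (A.cls t))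
    (hi : ∀ E, nD C.nrm C.ch E (A.cls t) = C.nrm (A.cls t)) : C.Perf t := by
  intro D
  have h1 := C.nD_le D t
  have h2 := C.lenD_le D t
  have := hi D
  omega

theorem nrm_geo (x : A.XT I) : C.len (C.geo x) = C.nrm (A.cls (C.geo x)) := by rw [cls_geo]; rfl

theorem n_le_len (t : WT S I) : C.n t ≤ C.len t :=
  Finset.single_le_sum (f := fun i => C.cr i t) (fun _ _ => Nat.zero_le _) (Finset.mem_univ C.i1)

variable {z : ℕ} (hz : ∀ a (u : List S) b, ∃ u' : List S,
    A.ev u' = A.ev u ∧ u'.length ≤ z * (crs a (u.map A.cut0) b + 1))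
include hz

omit [Fintype I] in
theorem mem_wball (t : WT S I) : A.ev t.W ∈ A.wball (z * (C.n t + 1)) := by
  obtain ⟨u', h1, h2⟩ := hz (t.a C.i1) t.W (t.b C.i1)
  exact ⟨u', by simpa [n, cr, C.h1] using h2, h1⟩

theorem nrm_le_n (t : WT S I) : C.nrm (A.cls t) ≤ Fintype.card I * (z * (C.n t + 1) + 1) := by
  obtain ⟨u', h1, h2⟩ := C.mem_wball hz t
  have e : A.cls t = A.cls ⟨t.a, u', t.b⟩ := A.cls_eq.2 ⟨rfl, h2.symm, rfl⟩
  rw [e]
  refine (C.nrm_le _).trans ((C.len_le _).trans ?_)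
  gcongr

theorem cnt_finite [Finite S] (k : ℕ) : (cnt Set.univ C.nrm k).Finite := by
  refine Set.Finite.of_injOn (f := fun x : A.XT I => (x.1, x.2.1.1, x.2.2))
    (t := Set.univ ×ˢ A.wball (z * (k + 1)) ×ˢ Set.univ) ?_ ?_
    (Set.finite_univ.prod ((A.wball_finite _).prod Set.finite_univ))
  · intro x hx
    refine ⟨trivial, ?_, trivial⟩
    obtain ⟨W, h1, h2⟩ := C.mem_wball hz (C.geo x)
    refine ⟨W, h1.trans ?_, ?_⟩
    · have := (C.n_le_len (C.geo x)).trans hx.2
      gcongr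
    · rw [h2]; conv_rhs => rw [← C.cls_geo x]
      rfl
  · rintro ⟨a, ⟨g, hg⟩, b⟩ _ ⟨a', ⟨g', hg'⟩, b'⟩ _ e
    simpa using e

theorem rate_inc [Finite S] : Rate {x | ∀ E, nD C.nrm C.ch E x = C.nrm x} C.nrm 0 := by
  set J : Set (A.XT I) := {x | ∀ E, nD C.nrm C.ch E x = C.nrm x}
  set c := Fintype.card I
  have hdec : ∀ M D x, M + c ≤ C.nrm x → ∃ x1 x2, x = A.cls ((C.geo x1).comp (C.geo x2)) ∧
      M ≤ C.nrm x1 ∧ C.nrm x1 ≤ M + c ∧ C.nrm x = C.nrm x1 + C.nrm x2 ∧
      nD C.nrm C.ch D x ≤ nD C.nrm C.ch D x1 + nD C.nrm C.ch D x2 := by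
    intro M D x h
    obtain ⟨t1, t2, e, h1, h2, h3⟩ := C.exists_cut (C.geo x) M h
    have hp := C.geo_pieces h1 (e ▸ C.nrm_geo x)
    have ex : x = A.cls (t1.comp t2) := by rw [← e, cls_geo]
    refine ⟨A.cls t1, A.cls t2, ?_, by omega, by omega, ?_, ?_⟩
    · rw [ex]; exact A.cls_comp (C.cls_geo _).symm (C.cls_geo _).symm
    · rw [← hp.1, ← hp.2, ← h1.2, ← e]; rfl
    · rw [ex]; exact C.nD_comp_le D h1.1
  obtain ⟨t0, h0⟩ := rate_apriori C.nonexp (C.cnt_finite hz)
    (fun x1 x2 => A.cls ((C.geo x1).comp (C.geo x2))) c hdec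
  obtain ⟨c0, hc0⟩ := exists_sep (A.wball_finite (z * (C.c3 + 1 + 1)))
  have hc0' : ∀ m m' : WT S I, C.n m ≤ C.c3 + 1 → C.n m' ≤ C.c3 + 1 →
      (∀ v : List Bool, v.length ≤ c0 → A.ev m.W v = A.ev m'.W v) → A.ev m.W = A.ev m'.W := by
    intro m m' h1 h2
    have key : ∀ m : WT S I, C.n m ≤ C.c3 + 1 → A.ev m.W ∈ A.wball (z * (C.c3 + 1 + 1)) := by
      intro m h
      obtain ⟨W, a1, a2⟩ := C.mem_wball hz m
      exact ⟨W, a1.trans (by gcongr), a2⟩
    exact hc0 _ (key m h1) _ (key m' h2)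
  set K0 := 2 ^ (c0 + C.L + 1) * (3 + C.c3) with hK0
  set K1 := c * (z * K0 + 1) with hK1
  refine rate_zero (h0.subset (Set.subset_univ _)) fun t ht hr => ?_
  have hK1' : (0 : ℝ) < 4 * K1 + 6 := by positivity
  have hβ1 : 0 < 1 / (4 * (K1 : ℝ) + 6) := by positivity
  have hβ2 : 1 / (4 * (K1 : ℝ) + 6) ≤ 1 := by
    rw [div_le_one hK1']; have : (0 : ℝ) ≤ K1 := Nat.cast_nonneg _; linarith
  refine ⟨(1 - 1 / (4 * K1 + 6)) * t, by nlinarith, ?_⟩
  refine (hr.pair hr).shrink ht.le (by linarith) (by linarith) ((2 * K1 + 3) * (4 * c + 2))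
    (2 * c + 1) (fun n => (C.cnt_finite hz n).subset fun x hx => ⟨trivial, hx.2⟩) fun k hk => ?_
  have hq : k / (2 * K1 + 3) ≠ 0 := by
    have : 4 * c + 2 ≤ k / (2 * K1 + 3) := (Nat.le_div_iff_mul_le (by omega)).2 (by linarith)
    omega
  set j := Nat.log 2 (k / (2 * K1 + 3))
  have j1 : 2 ^ j ≤ k / (2 * K1 + 3) := Nat.pow_log_le_self 2 hq
  have j2 : k / (2 * K1 + 3) < 2 ^ (j + 1) := Nat.lt_pow_succ_log_self (by omega) _
  have j3 : 2 ^ j * (2 * K1 + 3) ≤ k := (Nat.le_div_iff_mul_le (by omega)).1 j1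
  have j4 : k < 2 ^ (j + 1) * (2 * K1 + 3) := (Nat.div_lt_iff_lt_mul (by omega)).1 j2
  have j5 : 2 * c + 1 ≤ 2 ^ j := by
    have : 4 * c + 2 ≤ k / (2 * K1 + 3) := (Nat.le_div_iff_mul_le (by omega)).2 (by linarith)
    rw [pow_succ] at j2
    omega
  set h := (k - 2 ^ j + 1) / 2 with hh
  have hK1h : K1 * 2 ^ j < h := by
    have : 2 ^ j * (2 * K1 + 3) = 2 * (K1 * 2 ^ j) + 3 * 2 ^ j := by ring
    omega
  have hle : 2 ^ j ≤ k := by nlinarith [Nat.zero_le (2 ^ j)]
  have hex : ∀ x ∈ J, C.nrm x = k → ∃ P m Y : WT S I, x = A.cls (P.comp (m.comp Y)) ∧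
      P.b = m.a ∧ m.b = Y.a ∧ A.cls P ∈ J ∧ A.cls Y ∈ J ∧
      C.nrm (A.cls P) + C.len m + C.nrm (A.cls Y) = k ∧ h ≤ C.nrm (A.cls P) ∧
      C.nrm (A.cls P) ≤ h + c ∧ h ≤ C.nrm (A.cls Y) ∧ C.nrm (A.cls Y) ≤ h + c := by
    intro x hx hxk
    have hxk' : C.len (C.geo x) = k := hxk
    obtain ⟨P, R, e, h1, h2, h3⟩ := C.exists_cut (C.geo x) h (by omega)
    have hg := C.nrm_geo x
    have hi : ∀ E, nD C.nrm C.ch E (A.cls (C.geo x)) = C.nrm (A.cls (C.geo x)) := by
      rw [cls_geo]; exact hx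
    rw [e] at hg hi hxk'
    have hp := C.geo_pieces h1 hg
    have hi1 := C.inc_pieces h1 hg hi
    have h1' := h1.2
    obtain ⟨m, Y, e', h4, h5, h6⟩ := C.exists_cut R (C.len R - h - c) (by omega)
    subst e'
    have hp' := C.geo_pieces h4 hp.2
    have hi2 := C.inc_pieces h4 hp.2 hi1.2
    have h4' := h4.2
    exact ⟨P, m, Y, by rw [← e, cls_geo], h1.1, h4.1, hi1.1, hi2.2, by omega, by omega, by omega,
      by omega, by omega⟩
  have : Nonempty (WT S I) := ⟨⟨fun _ => false, [], fun _ => false⟩⟩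
  choose! P m Y hPmY using hex
  refine ⟨fun x => ((A.cls (P x), A.cls (Y x)), C.n (m x)), ?_, fun x hx hxk => ?_⟩
  · rintro x ⟨hx, hxk⟩ x' ⟨hx', hxk'⟩ e
    simp only [Prod.mk.injEq] at e
    obtain ⟨⟨eP, eY⟩, en⟩ := e
    have key : ∀ x ∈ J, C.nrm x = k → C.Tri (C.geo (A.cls (P x))) (m x) (C.geo (A.cls (Y x))) ∧
        x = A.cls ((C.geo (A.cls (P x))).comp ((m x).comp (C.geo (A.cls (Y x))))) := by
      intro x hx hxk
      obtain ⟨a1, a2, a3, _, _, a4, _⟩ := hPmY x hx hxk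
      have ex : x = A.cls ((C.geo (A.cls (P x))).comp ((m x).comp (C.geo (A.cls (Y x))))) :=
        a1.trans (A.cls_comp (C.cls_geo _).symm (A.cls_comp rfl (C.cls_geo _).symm))
      have b1 : (C.geo (A.cls (P x))).b = ((m x).comp (C.geo (A.cls (Y x)))).a :=
        (A.cls_eq.1 (C.cls_geo (A.cls (P x)))).2.2.trans a2
      have b2 : (m x).b = (C.geo (A.cls (Y x))).a :=
        a3.trans (A.cls_eq.1 (C.cls_geo (A.cls (Y x)))).1.symm
      have l1 := C.len_comp_le b1
      have l2 := C.len_comp_le b2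
      have l3 := C.nrm_le ((C.geo (A.cls (P x))).comp ((m x).comp (C.geo (A.cls (Y x)))))
      rw [← ex] at l3
      unfold nrm at a4
      refine ⟨⟨⟨b2, by omega⟩, ⟨b1, by omega⟩, C.perf_of_inc (by rw [← ex]; omega) ?_⟩, ex⟩
      rw [← ex]; exact hx
    obtain ⟨t1, e1⟩ := key x hx hxk
    obtain ⟨t2, e2⟩ := key x' hx' hxk'
    rw [← eP, ← eY] at t2 e2
    obtain ⟨_, _, _, _, _, a4, a5, _, a6, _⟩ := hPmY x hx hxk
    have big : ∀ y : A.XT I, h ≤ C.nrm y → C.th (j + c0 + C.L + 1) ≤ C.n (C.geo y) := by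
      intro y hy
      by_contra hlt
      have b1 := C.nrm_le_n hz (C.geo y)
      rw [cls_geo] at b1
      have b2 := C.th_le (j + c0 + C.L + 1)
      have b3 : C.n (C.geo y) + 1 ≤ K0 * 2 ^ j := by
        have : 2 ^ (j + c0 + C.L + 1) * (3 + C.c3) = K0 * 2 ^ j := by rw [hK0]; ring
        omega
      have b4 : c * (z * (C.n (C.geo y) + 1) + 1) ≤ K1 * 2 ^ j := by
        calc c * (z * (C.n (C.geo y) + 1) + 1) ≤ c * (z * (K0 * 2 ^ j) + 2 ^ j) := by
              gcongr; exact Nat.one_le_two_pow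
          _ = _ := by rw [hK1]; ring
      change _ ≤ c * _ at b1
      omega
    have hm := C.n_le_len (m x)
    have := key_lemma hc0' j t1 t2 en (by omega) (big _ a5) (big _ a6)
    rw [e1, e2]
    refine A.cls_comp rfl (A.cls_comp (A.cls_eq.2 ⟨?_, this, ?_⟩) rfl)
    · exact t1.ad1.1.symm.trans t2.ad1.1
    · exact t1.ad2.1.trans t2.ad2.1.symm
  · obtain ⟨_, _, _, a1, a2, a4, _, a5, _, a6⟩ := hPmY x hx hxk
    have hm := C.n_le_len (m x)
    refine ⟨⟨a1, a2⟩, ?_, by simp only; omega⟩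
    have b1 : C.nrm (A.cls (P x)) + C.nrm (A.cls (Y x)) + 2 ^ j ≤ k + (2 * c + 1) := by omega
    have b2 : ((C.nrm (A.cls (P x)) + C.nrm (A.cls (Y x)) : ℕ) : ℝ) + 2 ^ j ≤ k + (2 * c + 1 : ℕ) := by
      exact_mod_cast b1
    have b3 : (k : ℝ) / (4 * K1 + 6) ≤ 2 ^ j := by
      rw [div_le_iff₀ hK1']
      have : k ≤ 2 ^ j * (4 * K1 + 6) := by rw [pow_succ] at j4; nlinarith
      exact_mod_cast this
    simp only
    rw [sub_mul, one_mul, one_div_mul_eq_div]
    linarith

theorem rate_all [Finite S] : Rate Set.univ C.nrm 0 := by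
  refine criterion C.nonexp (C.cnt_finite hz) (fun x => (x.1, x.2.2, A.par (C.geo x).W)) ?_
    (fun x1 x2 => A.cls ((C.geo x1).comp (C.geo x2))) (Fintype.card I) ?_ (C.rate_inc hz)
  · intro x y e h0 h1
    simp only [Prod.mk.injEq] at e
    rw [← C.cls_geo x, ← C.cls_geo y, cls_eq]
    refine ⟨?_, A.ev_eq_of_sec e.2.2 fun b => ?_, ?_⟩
    · have := e.1
      rwa [← C.cls_geo x, ← C.cls_geo y] at this
    · cases b
      · exact (A.cls_eq.1 h0).2.1
      · exact (A.cls_eq.1 h1).2.1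
    · have := e.2.1
      rwa [← C.cls_geo x, ← C.cls_geo y] at this
  · intro M D x h
    obtain ⟨t1, t2, e, h1, h2, h3⟩ := C.exists_cut (C.geo x) M h
    have hp := C.geo_pieces h1 (e ▸ C.nrm_geo x)
    have ex : x = A.cls (t1.comp t2) := by rw [← e, cls_geo]
    refine ⟨A.cls t1, A.cls t2, ?_, by omega, by omega, ?_, ?_⟩
    · rw [ex]; exact A.cls_comp (C.cls_geo _).symm (C.cls_geo _).symm
    · rw [← hp.1, ← hp.2, ← h1.2, ← e]; rfl
    · rw [ex]; exact C.nD_comp_le D h1.1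

end CS

theorem subexp [Finite S] (hs : ¬ A.Star) (δ : ℝ) (hδ : 0 < δ) :
    ∃ K : ℝ, ∀ n : ℕ, ((A.wball n).ncard : ℝ) ≤ K * Real.exp (δ * n) := by
  obtain ⟨I, _, ⟨C⟩⟩ := A.exists_CS hs
  obtain ⟨z, hz⟩ := A.exists_short hs
  set c := Fintype.card I
  obtain ⟨K, K0, hK⟩ := (C.rate_all hz).pos (δ / (c + 1)) (by positivity)
  refine ⟨K * Real.exp δ, fun n => ?_⟩
  have h1 : (A.wball n).ncard ≤ (cnt Set.univ C.nrm (c * (n + 1))).ncard := by
    refine le_trans (Set.ncard_le_ncard ?_ ((hK _).1.image _))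
      (Set.ncard_image_le (f := fun x : A.XT I => x.2.1.1) (hK _).1)
    rintro g ⟨W, h1, rfl⟩
    refine ⟨A.cls ⟨fun _ => false, W, fun _ => false⟩, ⟨trivial, ?_⟩, rfl⟩
    exact (C.nrm_le _).trans ((C.len_le _).trans (by gcongr))
  have h2 : ((A.wball n).ncard : ℝ) ≤ _ := le_trans (by exact_mod_cast h1) (hK _).2
  refine h2.trans ?_
  rw [mul_assoc, ← Real.exp_add]
  gcongr
  push_cast
  have : δ / (c + 1) * c ≤ δ := by
    rw [div_mul_eq_mul_div, div_le_iff₀ (by positivity)]; nlinarith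
  have hn : (0 : ℝ) ≤ n := Nat.cast_nonneg n
  calc (0 + δ / (c + 1)) * (c * (n + 1)) = δ / (c + 1) * c * (n + 1) := by ring
    _ ≤ δ * (n + 1) := by gcongr
    _ = _ := by ring

end KA

end Pool.Agent.MP_61ef33_al

end

section

/- Sections in the group, centralisers of normal closures of generators. -/

namespace Pool.Agent.MP_61ef33_al

namespace KA

variable {S : Type} (A : KA S)

/-- The group generated by the automaton. -/
def G : Subgroup (Equiv.Perm (List Bool)) where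
  carrier := Set.range A.ev
  one_mem' := ⟨[], rfl⟩
  mul_mem' := by rintro _ _ ⟨U, rfl⟩ ⟨V, rfl⟩; exact ⟨V ++ U, A.ev_append _ _⟩
  inv_mem' := by rintro _ ⟨U, rfl⟩; exact ⟨U.reverse, A.ev_reverse _⟩

theorem G_eq : A.G = Subgroup.closure (Set.range A.gen) := by
  apply le_antisymm
  · rintro _ ⟨U, rfl⟩
    induction U with
    | nil => exact one_mem _
    | cons s U ih => exact mul_mem ih (Subgroup.subset_closure ⟨s, rfl⟩)
  · rw [Subgroup.closure_le]
    rintro _ ⟨s, rfl⟩
    exact ⟨[s], by simp⟩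

noncomputable def el (W : List S) : A.G := ⟨A.ev W, W, rfl⟩

noncomputable def ga (s : S) : A.G := A.el [s]

theorem el_surj (g : A.G) : ∃ W, A.el W = g := by
  obtain ⟨_, W, rfl⟩ := g
  exact ⟨W, rfl⟩

theorem el_append (U V : List S) : A.el (U ++ V) = A.el V * A.el U := Subtype.ext (A.ev_append _ _)

variable {A}

noncomputable def gp (g : A.G) : Bool := A.par (A.el_surj g).choose

noncomputable def gs (g : A.G) (y : Bool) : A.G := A.el (A.sec (A.el_surj g).choose y)

theorem gp_el (W : List S) : gp (A.el W) = A.par W :=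
  A.par_eq_of_ev (congrArg Subtype.val (A.el_surj (A.el W)).choose_spec)

theorem gs_el (W : List S) (y : Bool) : gs (A.el W) y = A.el (A.sec W y) :=
  Subtype.ext (A.sec_eq_of_ev (congrArg Subtype.val (A.el_surj (A.el W)).choose_spec) y)

theorem g_nil (g : A.G) : g.1 [] = [] := by
  obtain ⟨W, rfl⟩ := A.el_surj g
  exact A.ev_apply_nil W

theorem g_cons (g : A.G) (y : Bool) (v : List Bool) :
    g.1 (y :: v) = xor y (gp g) :: (gs g y).1 v := by
  obtain ⟨W, rfl⟩ := A.el_surj g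
  rw [gp_el, gs_el]
  exact A.ev_apply_cons W y v

theorem gp_mul (g h : A.G) : gp (g * h) = xor (gp g) (gp h) := by
  obtain ⟨U, rfl⟩ := A.el_surj g
  obtain ⟨V, rfl⟩ := A.el_surj h
  rw [← el_append, gp_el, gp_el, gp_el, par_append, Bool.xor_comm]

theorem gs_mul (g h : A.G) (y : Bool) : gs (g * h) y = gs g (xor y (gp h)) * gs h y := by
  obtain ⟨U, rfl⟩ := A.el_surj g
  obtain ⟨V, rfl⟩ := A.el_surj h
  rw [← el_append, gs_el, gs_el, gs_el, gp_el, sec_append, el_append]

@[simp] theorem gp_one : gp (1 : A.G) = false := gp_el []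

@[simp] theorem gs_one (y : Bool) : gs (1 : A.G) y = 1 := gs_el [] y

@[simp] theorem gp_inv (g : A.G) : gp g⁻¹ = gp g := by
  have := gp_mul g⁻¹ g
  rw [inv_mul_cancel, gp_one] at this
  revert this
  cases gp g⁻¹ <;> cases gp g <;> simp

theorem gs_inv (g : A.G) (y : Bool) : gs g⁻¹ y = (gs g (xor y (gp g)))⁻¹ := by
  have := gs_mul g g⁻¹ y
  rw [mul_inv_cancel, gs_one, gp_inv] at this
  exact eq_inv_of_mul_eq_one_right this.symm

theorem g_ext {g h : A.G} (hp : gp g = gp h) (hs : ∀ y, gs g y = gs h y) : g = h := by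
  apply Subtype.ext
  ext1 v
  cases v with
  | nil => rw [g_nil, g_nil]
  | cons y v => rw [g_cons, g_cons, hp, hs]

theorem g_length (g : A.G) (v : List Bool) : (g.1 v).length = v.length := by
  induction v generalizing g with
  | nil => rw [g_nil]
  | cons y v ih => simp [g_cons, ih]

theorem g_append (g : A.G) (u w : List Bool) : ∃ w', g.1 (u ++ w) = g.1 u ++ w' := by
  induction u generalizing g with
  | nil => exact ⟨g.1 w, by simp [g_nil]⟩
  | cons y u ih =>
    obtain ⟨w', h⟩ := ih (gs g y)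
    exact ⟨w', by simp [g_cons, h]⟩

theorem gp_ga (s : S) : gp (A.ga s) = A.isg s := by simp [ga, gp_el]

theorem gs_ga (s : S) (y : Bool) : gs (A.ga s) y = A.el (A.prev y s).toList := by
  simp [ga, gs_el, sec_cons]

theorem gs_ga_nx (t : S) : gs (A.ga (A.nx t)) (A.cl t) = A.ga t := by
  rw [gs_ga, prev_nx]; rfl

theorem gs_ga_sg (y : Bool) : gs (A.ga A.sg) y = 1 := by rw [gs_ga, prev_sg]; rfl

theorem gs_ga_cases (s : S) (y : Bool) :
    gs (A.ga s) y = 1 ∨ ∃ t, A.nx t = s ∧ A.cl t = y ∧ gs (A.ga s) y = A.ga t := by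
  rw [gs_ga]
  cases e : A.prev y s with
  | none => left; rfl
  | some t => exact Or.inr ⟨t, (A.prev_eq_some.1 e).1, (A.prev_eq_some.1 e).2, rfl⟩

theorem ga_mul_self (s : S) : A.ga s * A.ga s = 1 :=
  Subtype.ext (by simpa [ga, el] using A.gen_mul_self s)

theorem ga_inv (s : S) : (A.ga s)⁻¹ = A.ga s := inv_eq_of_mul_eq_one_left (ga_mul_self s)

/-- Acts trivially down to level `d`. -/
def Fix (d : ℕ) (g : A.G) : Prop := ∀ v : List Bool, v.length ≤ d → g.1 v = v

theorem fix_succ {d : ℕ} {g : A.G} : Fix (d + 1) g ↔ gp g = false ∧ ∀ y, Fix d (gs g y) := by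
  constructor
  · intro h
    refine ⟨?_, fun y v hv => ?_⟩
    · have := h [false] (by simp)
      rw [g_cons] at this
      simpa using (List.cons.inj this).1
    · have := h (y :: v) (by simpa using hv)
      rw [g_cons] at this
      exact (List.cons.inj this).2
  · rintro ⟨h1, h2⟩ v hv
    cases v with
    | nil => exact g_nil g
    | cons y v => rw [g_cons, h1, h2 y v (by simpa using hv)]; simp

theorem fix_ga (k : ℕ) (s : S) : Fix k (A.ga s) ↔ ∀ j < k, A.nx^[j] A.sg ≠ s := by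
  induction k generalizing s with
  | zero =>
    refine ⟨fun _ j hj => absurd hj (by omega), fun _ v hv => ?_⟩
    have : v = [] := by simpa using hv
    rw [this, g_nil]
  | succ k ih =>
    rw [fix_succ, gp_ga, isg_eq_false]
    constructor
    · rintro ⟨h1, h2⟩ j hj
      cases j with
      | zero => exact h1.symm
      | succ j =>
        intro e
        rw [Function.iterate_succ_apply'] at e
        have := h2 (A.cl (A.nx^[j] A.sg))
        rw [← e, gs_ga_nx, ih] at this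
        exact this j (by omega) rfl
    · intro h
      refine ⟨(h 0 (by omega)).symm, fun y => ?_⟩
      rcases gs_ga_cases s y with e | ⟨t, h1, _, e⟩
      · rw [e]; intro v _; rfl
      · rw [e, ih]
        intro j hj e'
        exact h (j + 1) (by omega) (by rw [Function.iterate_succ_apply', e', h1])

theorem Fix.conj {d : ℕ} {g : A.G} (h : Fix d g) (r : A.G) : Fix d (r * g * r⁻¹) := by
  intro v hv
  have := h (r⁻¹.1 v) (by rw [g_length]; exact hv)
  simp only [Subgroup.coe_mul, Equiv.Perm.mul_apply, this]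
  simp

theorem ga_ne_one (s : S) : A.ga s ≠ 1 := by
  intro h
  obtain ⟨k, hk⟩ := A.hc s
  exact (fix_ga (k + 1) s).1 (h ▸ fun _ _ => rfl) k (by omega) hk

theorem ga_conj {s t : S} {r : A.G} (h : r * A.ga s * r⁻¹ = A.ga t) : s = t := by
  classical
  have h1 : ∀ k, (∀ j < k, A.nx^[j] A.sg ≠ s) → ∀ j < k, A.nx^[j] A.sg ≠ t := fun k hk =>
    (fix_ga k t).1 (h ▸ ((fix_ga k s).2 hk).conj r)
  have h2 : ∀ k, (∀ j < k, A.nx^[j] A.sg ≠ t) → ∀ j < k, A.nx^[j] A.sg ≠ s := fun k hk => by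
    have := ((fix_ga k t).2 hk).conj r⁻¹
    rw [← h] at this
    exact (fix_ga k s).1 (by simpa [mul_assoc] using this)
  have a := Nat.find_spec (A.hc s)
  have b := Nat.find_spec (A.hc t)
  rcases lt_trichotomy (Nat.find (A.hc s)) (Nat.find (A.hc t)) with hlt | he | hlt
  · exact absurd a (h2 _ (fun j hj => Nat.find_min (A.hc t) hj) _ hlt)
  · rw [← a, ← b, he]
  · exact absurd b (h1 _ (fun j hj => Nat.find_min (A.hc s) hj) _ hlt)

variable (A) in
/-- A word fixing the first level whose section at `y` is a given word. -/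
noncomputable def lift1 (y : Bool) : List S → List S
  | [] => []
  | t :: W => (if A.cl t = y then [A.nx t] else [A.sg, A.nx t, A.sg]) ++ lift1 y W

theorem lift1_spec (y : Bool) (W : List S) : A.par (A.lift1 y W) = false ∧
    A.sec (A.lift1 y W) y = W ∧ (A.lift1 y W).length ≤ 3 * W.length := by
  induction W with
  | nil => simp [lift1]
  | cons t W ih =>
    by_cases h : A.cl t = y
    · subst h
      refine ⟨by simp [lift1, ih.1], by simp [lift1, sec_cons, prev_nx, ih.2.1], ?_⟩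
      have := ih.2.2
      simp [lift1]; omega
    · have h' : (!y) = A.cl t := by revert h; cases y <;> cases A.cl t <;> simp
      have h'' : (!A.cl t) = y := by revert h; cases y <;> cases A.cl t <;> simp
      refine ⟨by simp [lift1, h, ih.1], by
        simp [lift1, h, sec_cons, prev_sg, h', prev_nx, h'', ih.2.1], ?_⟩
      have := ih.2.2
      simp [lift1, h]; omega

theorem exists_lift (g : A.G) (y : Bool) : ∃ h : A.G, gp h = false ∧ gs h y = g := by
  obtain ⟨W, rfl⟩ := A.el_surj g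
  exact ⟨A.el (A.lift1 y W), by rw [gp_el, (lift1_spec y W).1], by rw [gs_el, (lift1_spec y W).2.1]⟩

/-- Centraliser of the conjugacy class of a generator. -/
def Cen (s : S) (r : A.G) : Prop := ∀ g : A.G, r * (g * A.ga s * g⁻¹) = (g * A.ga s * g⁻¹) * r

theorem Cen.conj {s : S} {r : A.G} (h : Cen s r) (k : A.G) : Cen s (k * r * k⁻¹) := by
  intro g
  have := h (k⁻¹ * g)
  calc k * r * k⁻¹ * (g * A.ga s * g⁻¹) = k * (r * (k⁻¹ * g * A.ga s * (k⁻¹ * g)⁻¹)) * k⁻¹ := by group
    _ = _ := by rw [this]; group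

theorem cen_nx {t : S} {r : A.G} (h : Cen (A.nx t) r) : gp r = false ∧ ∀ y, Cen t (gs r y) := by
  have hp : gp r = false := by
    by_contra hp
    have hp : gp r = true := by simpa using hp
    have e := congrArg (fun g => gs g (A.cl t)) (h 1)
    simp only [one_mul, inv_one, mul_one, gs_mul, gp_ga, isg_nx, hp, Bool.xor_false, gs_ga_nx,
      Bool.xor_true] at e
    have e' : gs r (A.cl t) * A.ga t * (gs r (A.cl t))⁻¹ = gs (A.ga (A.nx t)) (!A.cl t) := by
      rw [e]; group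
    rcases gs_ga_cases (A.nx t) (!A.cl t) with e1 | ⟨u, _, h2, e1⟩
    · rw [e1] at e'
      exact ga_ne_one t (by simpa using e')
    · rw [e1] at e'
      rw [← ga_conj e'] at h2
      revert h2; cases A.cl t <;> simp
  have key : ∀ r : A.G, Cen (A.nx t) r → gp r = false → Cen t (gs r (A.cl t)) := by
    intro r h hp g
    obtain ⟨k, k1, k2⟩ := exists_lift g (A.cl t)
    have e := congrArg (fun g => gs g (A.cl t)) (h k)
    simpa only [gs_mul, gp_mul, gp_inv, gs_inv, k1, hp, gp_ga, isg_nx, Bool.xor_false, k2,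
      gs_ga_nx] using e
  refine ⟨hp, fun y => ?_⟩
  by_cases hy : y = A.cl t
  · rw [hy]; exact key r h hp
  · have := key _ (h.conj (A.ga A.sg)) (by simp [gp_mul, hp])
    have h' : (!A.cl t) = y := by revert hy; cases y <;> cases A.cl t <;> simp
    simpa [gs_mul, gs_inv, gs_ga_sg, gp_ga, h'] using this

/-- Total parity on the second level. -/
noncomputable def q2 (g : A.G) : Bool := xor (gp (gs g false)) (gp (gs g true))

theorem q2_mul (g h : A.G) : q2 (g * h) = xor (q2 g) (q2 h) := by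
  simp only [q2, gs_mul, gp_mul]
  cases gp h <;> simp only [Bool.xor_false, Bool.xor_true, Bool.not_false, Bool.not_true] <;>
    cases gp (gs g false) <;> cases gp (gs g true) <;> cases gp (gs h false) <;>
    cases gp (gs h true) <;> rfl

theorem q2_inv (g : A.G) : q2 g⁻¹ = q2 g := by
  simp only [q2, gs_inv, gp_inv]
  cases gp g <;> simp [Bool.xor_comm]

theorem q2_one : q2 (1 : A.G) = false := by simp [q2]

theorem gp_gs_ga (s : S) (y : Bool) :
    gp (gs (A.ga s) y) = true ↔ s = A.nx A.sg ∧ y = A.cl A.sg := by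
  constructor
  · intro h
    rcases gs_ga_cases s y with e | ⟨t, h1, h2, e⟩
    · rw [e] at h; simp at h
    · rw [e, gp_ga, isg_eq_true] at h
      subst h
      exact ⟨h1.symm, h2.symm⟩
  · rintro ⟨rfl, rfl⟩
    rw [gs_ga_nx, gp_ga, isg_sg]

theorem q2_ga (s : S) : q2 (A.ga s) = true ↔ s = A.nx A.sg := by
  have h0 := gp_gs_ga (A := A) s false
  have h1 := gp_gs_ga (A := A) s true
  unfold q2
  revert h0 h1
  cases gp (gs (A.ga s) false) <;> cases gp (gs (A.ga s) true) <;> cases A.cl A.sg <;> simp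

theorem exists_phi {a : S} (ha : ∀ t, A.nx t = A.nx a → t = a) (g : A.G) (y : Bool) :
    ∃ h : A.G, gp h = false ∧ gs h y = g * A.ga a * g⁻¹ ∧ gs h (!y) = 1 := by
  have h0 : gs (A.ga (A.nx a)) (!A.cl a) = 1 := by
    rcases gs_ga_cases (A.nx a) (!A.cl a) with e | ⟨t, h1, h2, _⟩
    · exact e
    · rw [ha t h1] at h2
      revert h2; cases A.cl a <;> simp
  have h1 : ∃ h : A.G, gp h = false ∧ gs h y = A.ga a ∧ gs h (!y) = 1 := by
    by_cases hy : y = A.cl a
    · subst hy
      exact ⟨A.ga (A.nx a), by simp [gp_ga], gs_ga_nx a, h0⟩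
    · have h' : (!y) = A.cl a := by revert hy; cases y <;> cases A.cl a <;> simp
      have h'' : (!A.cl a) = y := by revert hy; cases y <;> cases A.cl a <;> simp
      refine ⟨A.ga A.sg * A.ga (A.nx a) * A.ga A.sg, by simp [gp_mul, gp_ga], ?_, ?_⟩
      · simp [gs_mul, gp_ga, gs_ga_sg, h', gs_ga_nx]
      · simp [gs_mul, gp_ga, gs_ga_sg, ← h'', h0]
  obtain ⟨h, h1, h2, h3⟩ := h1
  obtain ⟨k, k1, k2⟩ := exists_lift g y
  exact ⟨k * h * k⁻¹, by simp [gp_mul, h1], by simp [gs_mul, gs_inv, k1, h1, k2, h2],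
    by simp [gs_mul, gs_inv, k1, h1, h3]⟩

theorem cen_sg_eq {r : A.G} (h : Cen A.sg r) : gs r true = gs r false := by
  have e := congrArg (fun g => gs g false) (h 1)
  simpa [gs_mul, gp_ga, gs_ga_sg] using e

theorem cen_sg {a : S} (ha : ∀ t, A.nx t = A.nx a → t = a) {r : A.G} (h : Cen A.sg r) :
    gp r = false ∧ ∀ y, Cen a (gs r y) := by
  have e0 := cen_sg_eq h
  have hd : ∀ k : A.G, gp k = false → gs r false * (gs k true * (gs k false)⁻¹) =
      gs k (!gp r) * (gs k (gp r))⁻¹ * gs r false := by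
    intro k hk
    have e := congrArg (fun g => gs g false) (h k)
    simpa [gs_mul, gp_mul, gs_inv, hk, gp_ga, gs_ga_sg, e0] using e
  have hx : ∀ g : A.G, (g * A.ga a * g⁻¹)⁻¹ = g * A.ga a * g⁻¹ := fun g => by
    simp [mul_assoc, ga_inv]
  have hc : Cen a (gs r false) := by
    intro g
    obtain ⟨k, k1, k2, k3⟩ := exists_phi ha g false
    have := hd k k1
    simp only [Bool.not_false] at k3
    revert this
    cases gp r <;> simp only [Bool.not_false, Bool.not_true, k2, k3, hx, one_mul, inv_one,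
      mul_one] <;> exact id
  refine ⟨?_, fun y => by cases y; exact hc; exact e0 ▸ hc⟩
  by_contra hp
  have hp : gp r = true := by simpa using hp
  have hD : ∀ k : A.G, gp k = false → Cen a (gs k true * (gs k false)⁻¹) := by
    intro k hk g
    obtain ⟨f, f1, f2, f3⟩ := exists_phi ha g false
    simp only [Bool.not_false] at f3
    have a1 := hd k hk
    have a2 := hd (f * k) (by simp [gp_mul, f1, hk])
    have a3 := hc g
    simp only [hp, Bool.not_true, gs_mul, hk, Bool.xor_false, f2, f3, one_mul] at a1 a2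
    have hx' := hx g
    set x := g * A.ga a * g⁻¹
    set r0 := gs r false
    set d := gs k true * (gs k false)⁻¹ with hd'
    have b1 : r0 * d = d⁻¹ * r0 := by rw [a1, hd']; group
    have b2 : r0 * (d * x⁻¹) = x * d⁻¹ * r0 := by
      have : d * x⁻¹ = gs k true * (x * gs k false)⁻¹ := by rw [hd']; group
      rw [this, a2, hd']; group
    rw [hx', ← mul_assoc, b1, mul_assoc, a3, ← mul_assoc] at b2
    have b3 : d⁻¹ * x = x * d⁻¹ := mul_right_cancel b2
    calc d * x = d * (x * d⁻¹) * d := by group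
      _ = _ := by rw [← b3]; group
  by_cases has : a = A.sg
  · subst has
    have h1 := cen_sg_eq (hD (A.ga (A.nx (A.nx A.sg))) (by simp [gp_ga]))
    have h2 : q2 (gs (A.ga (A.nx (A.nx A.sg))) true * (gs (A.ga (A.nx (A.nx A.sg))) false)⁻¹) =
        false := by simp [q2, h1]
    rw [q2_mul, q2_inv] at h2
    have h3 : q2 (gs (A.ga (A.nx (A.nx A.sg))) (A.cl (A.nx A.sg))) = true := by
      rw [gs_ga_nx, q2_ga]
    have h4 : q2 (gs (A.ga (A.nx (A.nx A.sg))) (!A.cl (A.nx A.sg))) = false := by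
      rcases gs_ga_cases (A.nx (A.nx A.sg)) (!A.cl (A.nx A.sg)) with e | ⟨t, _, t2, e⟩
      · rw [e, q2_one]
      · rw [e]
        by_contra h5
        rw [(q2_ga t).1 (by simpa using h5)] at t2
        revert t2; cases A.cl (A.nx A.sg) <;> simp
    revert h2 h3 h4
    cases A.cl (A.nx A.sg) <;> simp +contextual
  · obtain ⟨k, hk⟩ := A.hc a
    cases k with
    | zero => exact has hk.symm
    | succ k =>
      rw [Function.iterate_succ_apply'] at hk
      have h1 := hD (A.ga (A.nx A.sg)) (by simp [gp_ga])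
      rw [← hk] at h1
      have h2 := (cen_nx h1).1
      have h3 := (q2_ga (A := A) (A.nx A.sg)).2 rfl
      rw [gp_mul, gp_inv, Bool.xor_comm] at h2
      rw [q2, h2] at h3
      cases h3

theorem cen_trivial {a : S} (ha : ∀ t, A.nx t = A.nx a → t = a) {s : S} {r : A.G} (h : Cen s r) :
    r = 1 := by
  apply Subtype.ext
  ext1 v
  change _ = v
  induction v generalizing s r with
  | nil => exact g_nil r
  | cons y v ih =>
    obtain ⟨k, rfl⟩ := A.hc s
    cases k with
    | zero =>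
      have := cen_sg ha h
      rw [g_cons, this.1, ih (this.2 y)]; simp
    | succ k =>
      rw [Function.iterate_succ_apply'] at h
      have := cen_nx h
      rw [g_cons, this.1, ih (this.2 y)]; simp

variable (A) in
theorem exists_uniq [Fintype S] (h3 : 3 ≤ Fintype.card S) : ∃ a, ∀ t, A.nx t = A.nx a → t = a := by
  classical
  by_contra h
  push Not at h
  have h1 := Finset.mul_card_image_le_card (f := A.nx) Finset.univ 2 (by
    intro b hb
    obtain ⟨a, _, rfl⟩ := Finset.mem_image.1 hb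
    obtain ⟨t, h1, h2⟩ := h a
    exact Finset.one_lt_card.2 ⟨t, by simp [h1], a, by simp, h2⟩)
  have h2 : Finset.univ.erase A.sg ⊆ Finset.univ.image A.nx := by
    intro s hs
    obtain ⟨k, rfl⟩ := A.hc s
    cases k with
    | zero => simp at hs
    | succ k => rw [Function.iterate_succ_apply']; simp
  have h4 := Finset.card_le_card h2
  rw [Finset.card_erase_of_mem (Finset.mem_univ _), Finset.card_univ] at h4
  rw [Finset.card_univ] at h1
  omega

end KA

end Pool.Agent.MP_61ef33_al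

end

section

/- Rigid stabilisers and superpolynomial growth. -/

namespace Pool.Agent.MP_61ef33_al

namespace KA

variable {S : Type} {A : KA S}

/-- `L` fixes the vertex `v` and has section `X` there. -/
def Lft (v : List Bool) (L X : A.G) : Prop := ∀ w, L.1 (v ++ w) = v ++ X.1 w

/-- `W` acts trivially outside the subtree at `v`. -/
def Ri (v : List Bool) (W : A.G) : Prop := ∀ x, (∀ w, x ≠ v ++ w) → W.1 x = x

theorem Lft.mul {v : List Bool} {L X L' X' : A.G} (h : Lft v L X) (h' : Lft v L' X') :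
    Lft v (L * L') (X * X') := fun w => by
  simp only [Subgroup.coe_mul, Equiv.Perm.mul_apply, h' w, h _]

theorem Lft.inv {v : List Bool} {L X : A.G} (h : Lft v L X) : Lft v L⁻¹ X⁻¹ := fun w => by
  have := h (X⁻¹.1 w)
  simp only [Subgroup.coe_inv, Equiv.Perm.coe_inv, Equiv.apply_symm_apply] at this ⊢
  rw [← this]; simp

theorem Ri.mul {v : List Bool} {W W' : A.G} (h : Ri v W) (h' : Ri v W') : Ri v (W * W') :=
  fun x hx => by simp only [Subgroup.coe_mul, Equiv.Perm.mul_apply, h' x hx, h x hx]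

theorem Ri.inv {v : List Bool} {W : A.G} (h : Ri v W) : Ri v W⁻¹ := fun x hx => by
  have := h x hx
  simp only [Subgroup.coe_inv, Equiv.Perm.coe_inv]
  conv_lhs => rw [← this]
  simp

theorem Ri.conj {v : List Bool} {W L X : A.G} (h : Ri v W) (hL : Lft v L X) :
    Ri v (L * W * L⁻¹) := fun x hx => by
  have : W.1 (L⁻¹.1 x) = L⁻¹.1 x := h _ fun w e => hx (X.1 w) (by
    rw [← hL w, ← e]; simp)
  simp only [Subgroup.coe_mul, Equiv.Perm.mul_apply, this]
  simp

theorem Ri.mono {v w : List Bool} {W : A.G} (h : Ri (v ++ w) W) : Ri v W :=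
  fun x hx => h x fun u e => hx (w ++ u) (by rw [e, List.append_assoc])

theorem Ri.eq_one {v : List Bool} {W : A.G} (h : Ri v W) (h' : ∀ w, W.1 (v ++ w) = v ++ w) :
    W = 1 := by
  apply Subtype.ext
  ext1 x
  by_cases hx : ∃ w, x = v ++ w
  · obtain ⟨w, rfl⟩ := hx; exact h' w
  · push Not at hx; exact h x hx

theorem Ri.disj {v : List Bool} {W : A.G} (h : Ri (v ++ [false]) W) (h' : Ri (v ++ [true]) W) :
    W = 1 := h.eq_one fun w => h' _ fun w' e => by simp at e

theorem Ri.fix {v : List Bool} {W : A.G} (h : Ri v W) {d : ℕ} (hd : d < v.length) : Fix d W :=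
  fun x hx => h x fun w e => by rw [e, List.length_append] at hx; omega

theorem lft_one {y : Bool} {L X : A.G} (h1 : gp L = false) (h2 : gs L y = X) : Lft [y] L X :=
  fun w => by simp [g_cons, h1, h2]

theorem ri_one {y : Bool} {L : A.G} (h1 : gp L = false) (h2 : gs L (!y) = 1) : Ri [y] L := by
  intro x hx
  cases x with
  | nil => exact g_nil L
  | cons z x =>
    have : z = !y := by
      have := hx x
      revert this; cases z <;> cases y <;> simp
    rw [g_cons, h1, this, h2]; simp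

theorem Lft.trans {v w : List Bool} {L X Y : A.G} (h : Lft v L X) (h' : Lft w X Y) :
    Lft (v ++ w) L Y := fun u => by rw [List.append_assoc, h, h', List.append_assoc]

theorem Ri.trans {v w : List Bool} {L X : A.G} (h : Ri v L) (hL : Lft v L X) (h' : Ri w X) :
    Ri (v ++ w) L := by
  intro x hx
  by_cases h1 : ∃ u, x = v ++ u
  · obtain ⟨u, rfl⟩ := h1
    rw [hL, h' u fun u' e => hx u' (by rw [e, List.append_assoc])]
  · push Not at h1; exact h x h1

theorem exists_lft (v : List Bool) (X : List S) :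
    ∃ L : List S, Lft v (A.el L) (A.el X) ∧ L.length ≤ 3 ^ v.length * X.length := by
  induction v with
  | nil => exact ⟨X, fun w => rfl, by simp⟩
  | cons y v ih =>
    obtain ⟨L, h1, h2⟩ := ih
    obtain ⟨a1, a2, a3⟩ := lift1_spec (A := A) y L
    refine ⟨A.lift1 y L, (lft_one (y := y) (by rw [gp_el, a1]) (by rw [gs_el, a2])).trans h1, ?_⟩
    rw [List.length_cons, pow_succ]
    nlinarith

theorem exists_lft' (v : List Bool) (X : A.G) : ∃ L : A.G, Lft v L X := by
  obtain ⟨X, rfl⟩ := A.el_surj X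
  obtain ⟨L, h, _⟩ := exists_lft v X
  exact ⟨_, h⟩

section
variable {a : S} (ha : ∀ t, A.nx t = A.nx a → t = a)
include ha

theorem exists_ri (v : List Bool) : ∃ W U : A.G, Ri v W ∧ Lft v W U ∧ U ≠ 1 := by
  induction v using List.reverseRecOn with
  | nil => exact ⟨A.ga A.sg, A.ga A.sg, fun x hx => absurd rfl (hx x), fun _ => rfl, ga_ne_one _⟩
  | append_singleton v y ih =>
    have comm : ∀ W U X : A.G, Ri v W → Lft v W U →
        ∃ W', Ri v W' ∧ Lft v W' (U * X * U⁻¹ * X⁻¹) := by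
      intro W U X h1 h2
      obtain ⟨L, hL⟩ := exists_lft' v X
      refine ⟨W * (L * W⁻¹ * L⁻¹), h1.mul (h1.inv.conj hL), ?_⟩
      have := h2.mul ((hL.mul h2.inv).mul hL.inv)
      simpa [mul_assoc] using this
    have h1 : ∃ W U : A.G, Ri v W ∧ Lft v W U ∧ gp U = false ∧ gs U y ≠ 1 := by
      obtain ⟨W, U, h1, h2, h3⟩ := ih
      by_cases hp : gp U = false
      · by_cases hy : gs U y = 1
        · have hy' : gs U (!y) ≠ 1 := fun e => h3 (g_ext (by simp [hp]) fun z => by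
            by_cases hz : z = y
            · rw [hz, hy, gs_one]
            · have : z = !y := by revert hz; cases z <;> cases y <;> simp
              rw [this, e, gs_one])
          obtain ⟨L, hL⟩ := exists_lft' v (A.ga A.sg)
          refine ⟨L * W * L⁻¹, _, h1.conj hL, (hL.mul h2).mul hL.inv, by simp [gp_mul, hp], ?_⟩
          simpa [gs_mul, gs_inv, gp_ga, gs_ga_sg] using hy'
        · exact ⟨W, U, h1, h2, hp, hy⟩
      · have hp : gp U = true := by simpa using hp
        obtain ⟨f, f1, f2, f3⟩ := exists_phi ha 1 y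
        obtain ⟨W', a1, a2⟩ := comm W U f h1 h2
        refine ⟨W', _, a1, a2, by simp [gp_mul, f1], ?_⟩
        simpa [gs_mul, gs_inv, gp_mul, f1, hp, f2, f3] using ga_ne_one a
    obtain ⟨W, U, h1, h2, h3, h4⟩ := h1
    obtain ⟨g, hg⟩ : ∃ g : A.G, ¬ gs U y * (g * A.ga a * g⁻¹) = (g * A.ga a * g⁻¹) * gs U y := by
      by_contra h
      push Not at h
      exact h4 (cen_trivial ha h)
    obtain ⟨f, f1, f2, f3⟩ := exists_phi ha g y
    obtain ⟨W', a1, a2⟩ := comm W U f h1 h2
    have b1 : gp (U * f * U⁻¹ * f⁻¹) = false := by simp [gp_mul, f1]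
    refine ⟨W', _, a1.trans a2 (ri_one b1 ?_), a2.trans (lft_one b1 rfl), ?_⟩
    · simp [gs_mul, gs_inv, f1, h3, f3]
    · simp only [gs_mul, gs_inv, gp_inv, f1, h3, f2, Bool.xor_false]
      intro e
      apply hg
      rw [mul_inv_eq_one, mul_inv_eq_iff_eq_mul] at e
      exact e

theorem ri_infinite (u : List Bool) : {W : A.G | Ri u W}.Infinite := by
  intro hf
  obtain ⟨c0, hc⟩ := exists_sep ((hf.insert 1).image Subtype.val)
  obtain ⟨W, U, h1, h2, h3⟩ := exists_ri ha (u ++ List.replicate (c0 + 1) false)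
  have : W = 1 := Subtype.ext (hc _ ⟨W, Or.inr h1.mono, rfl⟩ _ ⟨1, Or.inl rfl, rfl⟩
    (h1.fix (by simp; omega)))
  apply h3
  apply Subtype.ext
  ext1 w
  have := h2 w
  subst W
  simpa using this.symm

theorem conj_infinite {U : A.G} (hU : U ≠ 1) : (Set.range fun X : A.G => X * U * X⁻¹).Infinite := by
  intro hf
  obtain ⟨u, hu⟩ : ∃ u, U.1 u ≠ u := by
    by_contra h
    push Not at h
    exact hU (Subtype.ext (Equiv.ext h))
  obtain ⟨W1, h1, W2, h2, hne, e⟩ := (ri_infinite ha u).exists_ne_map_eq_of_mapsTo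
    (f := fun X : A.G => X * U * X⁻¹) (fun X _ => Set.mem_range_self X) hf
  have hW : Ri u (W2⁻¹ * W1) := (Ri.inv h2).mul h1
  have hc : U * (W2⁻¹ * W1) = (W2⁻¹ * W1) * U := by
    calc U * (W2⁻¹ * W1) = W2⁻¹ * (W2 * U * W2⁻¹) * W1 := by group
      _ = _ := by rw [← e]; group
  set W := W2⁻¹ * W1 with hWd
  have : W = 1 := hW.eq_one fun w => by
    apply U.1.injective
    have e1 := congrArg (fun g : A.G => g.1 (u ++ w)) hc
    simp only [Subgroup.coe_mul, Equiv.Perm.mul_apply] at e1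
    rw [e1]
    refine hW _ fun w' e' => ?_
    obtain ⟨w'', e''⟩ := g_append U u w
    rw [e''] at e'
    exact hu (List.append_inj e' (g_length U u)).1
  exact hne (by rw [hWd, inv_mul_eq_one] at this; exact this.symm)

theorem conj_card [Finite S] {U : A.G} (hU : U ≠ 1) (r : ℕ) :
    r + 1 ≤ ((fun X => A.el X * U * (A.el X)⁻¹) '' {X : List S | X.length ≤ r}).ncard := by
  set K : ℕ → Set A.G := fun r => (fun X => A.el X * U * (A.el X)⁻¹) '' {X : List S | X.length ≤ r}
  have hf : ∀ r, (K r).Finite := fun r => (List.finite_length_le S r).image _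
  change r + 1 ≤ (K r).ncard
  induction r with
  | zero => exact (Set.ncard_pos (hf 0)).2 ⟨_, [], by simp, rfl⟩
  | succ r ih =>
    refine Nat.succ_le_of_lt (lt_of_le_of_lt ih (Set.ncard_lt_ncard ⟨?_, fun hsub => ?_⟩ (hf _)))
    · rintro _ ⟨X, hX, rfl⟩
      exact ⟨X, (show X.length ≤ r from hX).trans (Nat.le_succ r), rfl⟩
    · refine conj_infinite ha hU ((hf r).subset ?_)
      rintro _ ⟨X, rfl⟩
      obtain ⟨X, rfl⟩ := A.el_surj X
      induction X using List.reverseRecOn with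
      | nil => exact ⟨[], by simp, rfl⟩
      | append_singleton X s ih =>
        obtain ⟨X', h1, h2⟩ := ih
        refine hsub ⟨X' ++ [s], by simpa using h1, ?_⟩
        simp only [el_append] at h2 ⊢
        calc _ = A.el [s] * (A.el X' * U * (A.el X')⁻¹) * (A.el [s])⁻¹ := by group
          _ = _ := by rw [h2]; group

theorem many_ri [Finite S] (j : ℕ) (v : List Bool) : ∃ c : ℕ, ∀ r : ℕ, (r + 1) ^ j ≤
    {W : A.G | Ri v W ∧ W.1 ∈ A.wball (c * (r + 1))}.ncard := by
  have hf : ∀ v n, {W : A.G | Ri v W ∧ W.1 ∈ A.wball n}.Finite := fun v n =>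
    ((A.wball_finite n).preimage Subtype.val_injective.injOn).subset fun W h => h.2
  induction j generalizing v with
  | zero =>
    refine ⟨0, fun r => ?_⟩
    rw [pow_zero]
    exact (Set.ncard_pos (hf _ _)).2 ⟨1, fun _ _ => rfl, [], by simp, rfl⟩
  | succ j ih =>
    obtain ⟨c, hc⟩ := ih (v ++ [false])
    obtain ⟨W, U, h1, h2, h3⟩ := exists_ri ha (v ++ [true])
    obtain ⟨W, rfl⟩ := A.el_surj W
    choose L hL using fun X : List S => exists_lft (A := A) (v ++ [true]) X
    set c' := 2 * 3 ^ (v ++ [true]).length + W.length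
    have hc' : ∀ r, r + 1 ≤ {W : A.G | Ri (v ++ [true]) W ∧ W.1 ∈ A.wball (c' * (r + 1))}.ncard := by
      intro r
      refine (conj_card ha h3 r).trans ?_
      choose! X hX using fun (g : A.G) (hg : g ∈ (fun X => A.el X * U * (A.el X)⁻¹) ''
        {X : List S | X.length ≤ r}) => hg
      refine Set.ncard_le_ncard_of_injOn
        (fun g => A.el (L (X g)) * A.el W * (A.el (L (X g)))⁻¹) (fun g hg => ?_) ?_ (hf _ _)
      · refine ⟨h1.conj (hL _).1, (L (X g)).reverse ++ W ++ L (X g), ?_, ?_⟩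
        · have a1 := (hL (X g)).2
          have a2 : (X g).length ≤ r := (hX g hg).1
          have a3 : 3 ^ (v ++ [true]).length * (X g).length ≤ 3 ^ (v ++ [true]).length * r :=
            Nat.mul_le_mul_left _ a2
          simp only [List.length_append, List.length_reverse, c'] at *
          nlinarith [Nat.zero_le (W.length * r), Nat.zero_le (3 ^ (v.length + [true].length))]
        · simp [ev_append, ev_reverse, el, mul_assoc]
      · intro g hg g' hg' e
        have b1 := ((hL (X g)).1.mul h2).mul (hL (X g)).1.inv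
        have b2 := ((hL (X g')).1.mul h2).mul (hL (X g')).1.inv
        rw [← (hX g hg).2, ← (hX g' hg').2]
        apply Subtype.ext
        ext1 w
        have := b1 w
        simp only at e
        rw [e, b2 w] at this
        exact (List.append_cancel_left this).symm
    refine ⟨c + c', fun r => ?_⟩
    rw [pow_succ]
    refine (Nat.mul_le_mul (hc r) (hc' r)).trans ?_
    rw [← Set.ncard_prod]
    refine Set.ncard_le_ncard_of_injOn (fun p => p.1 * p.2) ?_ ?_ (hf _ _)
    · rintro ⟨W1, W2⟩ ⟨⟨a1, X1, a2, a3⟩, ⟨b1, X2, b2, b3⟩⟩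
      refine ⟨a1.mono.mul b1.mono, X2 ++ X1, ?_, ?_⟩
      · rw [List.length_append, add_mul]; omega
      · rw [ev_append, a3, b3]; rfl
    · rintro ⟨W1, W2⟩ ⟨⟨a1, _⟩, ⟨b1, _⟩⟩ ⟨W1', W2'⟩ ⟨⟨a1', _⟩, ⟨b1', _⟩⟩ e
      simp only at e a1 b1 a1' b1'
      have e' : W1'⁻¹ * W1 = W2' * W2⁻¹ := by
        calc W1'⁻¹ * W1 = W1'⁻¹ * (W1 * W2) * W2⁻¹ := by group
          _ = _ := by rw [e]; group
      have h0 : W1'⁻¹ * W1 = 1 := (a1'.inv.mul a1).disj (e' ▸ b1'.mul b1.inv)
      rw [h0] at e'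
      rw [inv_mul_eq_one] at h0
      rw [eq_comm, mul_inv_eq_one] at e'
      rw [h0, e']

end

variable (A) in
theorem superpoly [Fintype S] (h3 : 3 ≤ Fintype.card S) (j : ℕ) :
    ∃ c : ℕ, ∀ r : ℕ, (r + 1) ^ j ≤ (A.wball (c * (r + 1))).ncard := by
  obtain ⟨a, ha⟩ := A.exists_uniq h3
  obtain ⟨c, hc⟩ := many_ri ha j []
  exact ⟨c, fun r => (hc r).trans (Set.ncard_le_ncard_of_injOn Subtype.val (fun W h => h.2)
    Subtype.val_injective.injOn (A.wball_finite _))⟩

end KA

end Pool.Agent.MP_61ef33_al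

end

section

/- Intermediate growth of the groups generated by non-star kneading automata. -/

namespace Pool.Agent.MP_61ef33_al

open Filter

theorem IntermediateGrowth.of_equiv {G H : Type} [Group G] [Group H] (e : G ≃* H)
    (h : IntermediateGrowth G) : IntermediateGrowth H := by
  classical
  obtain ⟨S, h1, h2, h3⟩ := h
  have hb : ∀ n, ball (S.image e) n = e '' ball S n := by
    intro n
    ext g
    constructor
    · rintro ⟨l, a1, a2, rfl⟩
      refine ⟨(l.map e.symm).prod, ⟨l.map e.symm, by simpa using a1, ?_, rfl⟩, ?_⟩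
      · intro x hx
        obtain ⟨y, hy, rfl⟩ := List.mem_map.1 hx
        rcases a2 y hy with h | h
        · obtain ⟨z, hz, rfl⟩ := Finset.mem_image.1 h
          left; simpa using hz
        · obtain ⟨z, hz, e'⟩ := Finset.mem_image.1 h
          right; rw [← map_inv, ← e']; simpa using hz
      · rw [map_list_prod, List.map_map]; simp
    · rintro ⟨_, ⟨l, a1, a2, rfl⟩, rfl⟩
      refine ⟨l.map e, by simpa using a1, ?_, (map_list_prod e l).symm⟩
      intro x hx
      obtain ⟨y, hy, rfl⟩ := List.mem_map.1 hx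
      rcases a2 y hy with h | h
      · exact Or.inl (Finset.mem_image_of_mem _ h)
      · right; rw [← map_inv]; exact Finset.mem_image_of_mem _ h
  have hg : ∀ n, growth (S.image e) n = growth S n := fun n => by
    rw [growth, hb, Set.ncard_image_of_injective _ e.injective, growth]
  refine ⟨S.image e, ?_, by simpa only [hg] using h2, by simpa only [hg] using h3⟩
  rw [Finset.coe_image]
  change Subgroup.closure (e.toMonoidHom '' _) = ⊤
  rw [← MonoidHom.map_closure, h1]
  exact Subgroup.map_top_of_surjective _ e.surjective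

theorem tendsto_of_poly {γ : ℕ → ℕ} (hm : Monotone γ)
    (h : ∀ j : ℕ, ∃ c : ℕ, ∀ r : ℕ, (r + 1) ^ j ≤ γ (c * (r + 1))) (d : ℕ) :
    Tendsto (fun n : ℕ => (γ n : ℝ) / (n : ℝ) ^ d) atTop atTop := by
  obtain ⟨c, hc⟩ := h (d + 1)
  have hlim : Tendsto (fun n : ℕ => (n : ℝ) / (2 * (c + 1)) ^ (d + 1)) atTop atTop :=
    tendsto_natCast_atTop_atTop.atTop_div_const (by positivity)
  refine tendsto_atTop_mono' _ ?_ hlim
  filter_upwards [eventually_ge_atTop (c + 1)] with n hn
  have hn0 : (0 : ℝ) < n := by exact_mod_cast (by omega : 0 < n)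
  obtain ⟨r, hr⟩ : ∃ r, n / (c + 1) = r + 1 :=
    ⟨n / (c + 1) - 1, by have := Nat.div_pos hn (by omega); omega⟩
  have h1 : c * (r + 1) ≤ n := by
    have := Nat.div_mul_le_self n (c + 1)
    rw [hr] at this; nlinarith
  have h2 : n ≤ 2 * (c + 1) * (r + 1) := by
    have := Nat.lt_div_mul_add (a := n) (show 0 < c + 1 by omega)
    rw [hr] at this; nlinarith
  have h3 : n ^ (d + 1) ≤ (2 * (c + 1)) ^ (d + 1) * γ n := by
    calc n ^ (d + 1) ≤ (2 * (c + 1) * (r + 1)) ^ (d + 1) := Nat.pow_le_pow_left h2 _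
      _ = (2 * (c + 1)) ^ (d + 1) * (r + 1) ^ (d + 1) := mul_pow _ _ _
      _ ≤ _ := Nat.mul_le_mul_left _ ((hc r).trans (hm h1))
  rw [div_le_div_iff₀ (by positivity) (by positivity), ← pow_succ', mul_comm]
  exact_mod_cast h3

theorem tendsto_of_subexp {γ : ℕ → ℕ}
    (h : ∀ δ : ℝ, 0 < δ → ∃ K : ℝ, ∀ n : ℕ, (γ n : ℝ) ≤ K * Real.exp (δ * n)) (c : ℝ) (hc : 0 < c) :
    Tendsto (fun n : ℕ => (γ n : ℝ) / Real.exp (c * n)) atTop (nhds 0) := by
  obtain ⟨K, hK⟩ := h (c / 2) (by linarith)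
  have hlim : Tendsto (fun n : ℕ => K * Real.exp (-(c / 2 * n))) atTop (nhds 0) := by
    have := (Real.tendsto_exp_neg_atTop_nhds_zero.comp
      (tendsto_natCast_atTop_atTop.const_mul_atTop (show 0 < c / 2 by linarith))).const_mul K
    simpa using this
  refine squeeze_zero (fun n => by positivity) (fun n => ?_) hlim
  rw [div_le_iff₀ (Real.exp_pos _), mul_assoc, ← Real.exp_add]
  refine (hK n).trans (le_of_eq ?_)
  congr 2; ring

namespace KA

variable {S : Type} (A : KA S)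

theorem intermediate [Fintype S] (hs : ¬ A.Star) (h3 : 3 ≤ Fintype.card S) :
    IntermediateGrowth A.G := by
  classical
  have hb : ∀ n, A.wball n = Subtype.val '' ball (Finset.univ.image A.ga) n := by
    intro n
    ext g
    constructor
    · rintro ⟨W, h1, rfl⟩
      refine ⟨A.el W, ⟨W.reverse.map A.ga, by simpa using h1, ?_, ?_⟩, rfl⟩
      · intro x hx
        obtain ⟨s, _, rfl⟩ := List.mem_map.1 hx
        simp
      · clear h1
        induction W with
        | nil => rfl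
        | cons s W ih =>
          rw [List.reverse_cons, List.map_append, List.prod_append, ih]
          simpa [ga] using (A.el_append [s] W).symm
    · rintro ⟨_, ⟨l, h1, h2, rfl⟩, rfl⟩
      induction l generalizing n with
      | nil => exact ⟨[], by simp, rfl⟩
      | cons x l ih =>
        obtain ⟨W, a1, a2⟩ := ih l.length le_rfl fun y hy => h2 y (by simp [hy])
        obtain ⟨s, rfl⟩ : ∃ s, A.ga s = x := by
          rcases h2 x (by simp) with h | h
          · simpa using h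
          · obtain ⟨s, _, hs⟩ := Finset.mem_image.1 h
            exact ⟨s, by rw [← ga_inv, hs, inv_inv]⟩
        refine ⟨W ++ [s], by simp at h1 ⊢; omega, ?_⟩
        rw [ev_append, a2]; rfl
  have hg : ∀ n, growth (Finset.univ.image A.ga) n = (A.wball n).ncard := fun n => by
    rw [hb, Set.ncard_image_of_injective _ Subtype.val_injective, growth]
  refine ⟨Finset.univ.image A.ga, ?_, ?_, ?_⟩
  · rw [eq_top_iff]
    intro g _
    obtain ⟨W, rfl⟩ := A.el_surj g
    induction W using List.reverseRecOn with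
    | nil => exact one_mem _
    | append_singleton W s ih =>
      rw [el_append]
      exact mul_mem (Subgroup.subset_closure (by simp [ga])) (ih trivial)
  · simp only [hg]
    exact tendsto_of_poly (γ := fun n => (A.wball n).ncard)
      (fun m n h => Set.ncard_le_ncard (fun g ⟨W, h1, h2⟩ => ⟨W, h1.trans h, h2⟩)
        (A.wball_finite _)) (A.superpoly h3)
  · simp only [hg]
    exact tendsto_of_subexp (γ := fun n => (A.wball n).ncard) (A.subexp hs)

end KA

end Pool.Agent.MP_61ef33_al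

end
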