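import Mathlib

section

/- Legs (arcs to infinity), canonical branches of the square root off a leg, crossing parity. -/

namespace Pool.Agent.MP_61ef33_al

open Filter Topology unitInterval Set

theorem sq_unique {α : Type} [TopologicalSpace α] {S : Set α} (hS : IsPreconnected S)
    {u v : α → ℂ} (hu : ContinuousOn u S) (hv : ContinuousOn v S) (h : ∀ x ∈ S, u x ^ 2 = v x ^ 2)
    (h0 : ∀ x ∈ S, v x ≠ 0) {a : α} (ha : a ∈ S) (e : u a = v a) : ∀ x ∈ S, u x = v x :=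
  hS.eq_of_sq_eq hu hv (fun x hx => h x hx) (fun hx => h0 _ hx) ha e

theorem sq_uniqueI {u v : I → ℂ} (hu : Continuous u) (hv : Continuous v)
    (h : ∀ x, u x ^ 2 = v x ^ 2) (h0 : ∀ x, v x ≠ 0) (e : u 0 = v 0) (x : I) : u x = v x :=
  sq_unique isPreconnected_univ hu.continuousOn hv.continuousOn (fun x _ => h x)
    (fun x _ => h0 x) (mem_univ 0) e x (mem_univ x)

theorem exists_sqrt_homotopy {A : Type} [TopologicalSpace A] (H : I × A → ℂ) (hH : Continuous H)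
    (h0 : ∀ p, H p ≠ 0) (g : A → ℂ) (hg : Continuous g) (hg0 : ∀ a, g a ^ 2 = H (0, a)) :
    ∃ R : I × A → ℂ, Continuous R ∧ (∀ p, R p ^ 2 = H p) ∧ ∀ a, R (0, a) = g a := by
  have cov := isCoveringMap_npow (𝕜 := ℂ) 2 (by norm_num)
  have hgne : ∀ a, g a ≠ 0 := fun a e => h0 (0, a) (by rw [← hg0, e]; simp)
  let H' : C(I × A, {x : ℂ // x ≠ 0}) := ⟨fun p => ⟨H p, h0 p⟩, by fun_prop⟩
  let g' : C(A, {x : ℂ // x ≠ 0}) := ⟨fun a => ⟨g a, hgne a⟩, by fun_prop⟩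
  have e : ∀ a, H' (0, a) = (fun x : {x : ℂ // x ≠ 0} =>
      (⟨x ^ 2, pow_ne_zero 2 x.2⟩ : {x : ℂ // x ≠ 0})) (g' a) := fun a => Subtype.ext (hg0 a).symm
  refine ⟨fun p => (cov.liftHomotopy H' g' e p).1, by fun_prop, fun p => ?_, fun a => ?_⟩
  · exact congrArg Subtype.val (congrFun (cov.liftHomotopy_lifts H' g' e) p)
  · exact congrArg Subtype.val (cov.liftHomotopy_zero H' g' e a)

theorem exists_sqrt_lift {γ : I → ℂ} (hγ : Continuous γ) (h0 : ∀ τ, γ τ ≠ 0) {v0 : ℂ}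
    (hv : v0 ^ 2 = γ 0) : ∃ v : I → ℂ, Continuous v ∧ (∀ τ, v τ ^ 2 = γ τ) ∧ v 0 = v0 := by
  obtain ⟨R, h1, h2, h3⟩ := exists_sqrt_homotopy (A := Unit) (fun p => γ p.1) (by fun_prop)
    (fun p => h0 _) (fun _ => v0) continuous_const (fun _ => hv)
  exact ⟨fun τ => R (τ, ()), by fun_prop, fun τ => h2 _, h3 _⟩

theorem exists_sq (z : ℂ) : ∃ w : ℂ, w ^ 2 = z := IsAlgClosed.exists_pow_nat_eq z (by norm_num)

theorem exists_sqrt_ball {x s : ℂ} {r : ℝ} (hs : s ∉ Metric.ball x r) :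
    ∃ q : ℂ → ℂ, ContinuousOn q (Metric.ball x r) ∧ ∀ z, q z ^ 2 = z - s := by
  rcases (Metric.ball x r).eq_empty_or_nonempty with h | h
  · choose q hq using fun z => exists_sq (z - s)
    exact ⟨q, by rw [h]; exact continuousOn_empty _, hq⟩
  · have := (convex_ball x r).contractibleSpace h
    refine Complex.exists_continuousOn_pow_eq (U := Metric.ball x r) ?_ Metric.isOpen_ball
      (by fun_prop) ?_ (by norm_num)
    · exact (inferInstance : SimplyConnectedSpace (Metric.ball x r))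
    · rintro ⟨z, hz, e⟩
      exact hs (sub_eq_zero.1 e ▸ hz)

/-- An arc from infinity (parameter `0`) to its tip (parameter `1`). -/
structure Leg where
  l : ℝ → ℂ
  cont : ContinuousOn l (Ioc 0 1)
  inf : Tendsto l (𝓝[>] 0) (Bornology.cobounded ℂ)

/-- Sign attached to a parity. -/
def sg (e : Bool) : ℂ := if e then -1 else 1

theorem sg_xor (a b : Bool) : sg (xor a b) = sg a * sg b := by cases a <;> cases b <;> simp [sg]
theorem sg_inj {a b : Bool} (h : sg a = sg b) : a = b := by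
  revert h; cases a <;> cases b <;> simp [sg] <;> norm_num
theorem sg_sq (a : Bool) : sg a ^ 2 = 1 := by cases a <;> simp [sg]
theorem sg_ne (a : Bool) : sg a ≠ 0 := by cases a <;> simp [sg]
theorem exists_sg {a b : ℂ} (h : a ^ 2 = b ^ 2) : ∃ e, a = sg e * b := by
  rcases sq_eq_sq_iff_eq_or_eq_neg.1 h with h | h
  · exact ⟨false, by simp [sg, h]⟩
  · exact ⟨true, by simp [sg, h]⟩

namespace Leg

variable (L : Leg)

def set : Set ℂ := L.l '' Ioc 0 1

def tip : ℂ := L.l 1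

theorem tip_mem : L.tip ∈ L.set := ⟨1, by simp, rfl⟩

theorem ne_tip {z : ℂ} (hz : z ∉ L.set) : z - L.tip ≠ 0 :=
  fun e => hz (sub_eq_zero.1 e ▸ L.tip_mem)

theorem preconn : IsPreconnected L.set := isPreconnected_Ioc.image _ L.cont

theorem closed : IsClosed L.set := by
  rw [← closure_subset_iff_isClosed]
  intro z hz
  have h1 : ∀ᶠ u in 𝓝[>] (0 : ℝ), ‖z‖ + 1 ≤ ‖L.l u‖ :=
    ((tendsto_norm_cobounded_atTop (E := ℂ)).comp L.inf).eventually (eventually_ge_atTop _)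
  obtain ⟨δ, hδ, h2⟩ := (nhdsGT_basis 0).eventually_iff.1 h1
  have hsub : L.set ⊆ L.l '' Icc (min δ 1) 1 ∪ {w | ‖z‖ + 1 ≤ ‖w‖} := by
    rintro _ ⟨u, hu, rfl⟩
    by_cases h : u < δ
    · exact Or.inr (h2 ⟨hu.1, by simpa using h⟩)
    · exact Or.inl ⟨u, ⟨(min_le_left _ _).trans (not_lt.1 h), hu.2⟩, rfl⟩
  have hI : Icc (min δ 1) 1 ⊆ Ioc (0 : ℝ) 1 := fun u hu =>
    ⟨lt_of_lt_of_le (lt_min hδ one_pos) hu.1, hu.2⟩
  have hcl : IsClosed (L.l '' Icc (min δ 1) 1 ∪ {w | ‖z‖ + 1 ≤ ‖w‖}) :=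
    (isCompact_Icc.image_of_continuousOn (L.cont.mono hI)).isClosed.union
      (isClosed_le continuous_const continuous_norm)
  rcases hcl.closure_subset_iff.2 hsub hz with h | h
  · exact image_mono hI h
  · exact absurd h (by simp)

def neg : Leg := ⟨fun u => -L.l u, L.cont.neg, Filter.tendsto_neg_cobounded.comp L.inf⟩

theorem mem_neg {z : ℂ} : z ∈ L.neg.set ↔ -z ∈ L.set := by
  constructor
  · rintro ⟨u, hu, rfl⟩; exact ⟨u, hu, by simp [neg]⟩
  · rintro ⟨u, hu, e⟩; exact ⟨u, hu, by simp [neg, e]⟩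

/-- `q` is the square root of `(z - tip) / (z' - tip)` continued along the leg from infinity. -/
def Rho (z z' q : ℂ) : Prop := ∃ r : I → ℂ, Continuous r ∧ r 0 = 1 ∧ r 1 = q ∧
  ∀ u : I, u ≠ 0 → r u ^ 2 * (z' - L.l u) = z - L.l u

theorem mem_set (u : I) (hu : u ≠ 0) : L.l u ∈ L.set :=
  ⟨u, ⟨lt_of_le_of_ne u.2.1 (fun e => hu (Subtype.ext e.symm)), u.2.2⟩, rfl⟩

theorem Rho.unique {L : Leg} {z z' q q' : ℂ} (hz : z ∉ L.set) (hz' : z' ∉ L.set)
    (h : L.Rho z z' q) (h' : L.Rho z z' q') : q = q' := by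
  obtain ⟨r, a1, a2, rfl, a4⟩ := h
  obtain ⟨r', b1, b2, rfl, b4⟩ := h'
  refine sq_uniqueI a1 b1 (fun u => ?_) (fun u => ?_) (a2.trans b2.symm) 1
  · by_cases hu : u = 0
    · rw [hu, a2, b2]
    · have : z' - L.l u ≠ 0 := fun e => hz' (sub_eq_zero.1 e ▸ L.mem_set u hu)
      exact mul_right_cancel₀ this ((a4 u hu).trans (b4 u hu).symm)
  · by_cases hu : u = 0
    · rw [hu, b2]; exact one_ne_zero
    · intro e
      have := b4 u hu
      rw [e] at this
      have e2 : z = L.l u := by linear_combination -this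
      exact hz (e2 ▸ L.mem_set u hu)

/-- A canonical branch of `sqrt (z - tip)` off the leg. -/
structure IsBr (h : ℂ → ℂ) : Prop where
  cont : ContinuousOn h L.setᶜ
  sq : ∀ z ∉ L.set, h z ^ 2 = z - L.tip
  rho : ∀ z ∉ L.set, ∀ z' ∉ L.set, L.Rho z z' (h z / h z')

theorem IsBr.ne {L : Leg} {h : ℂ → ℂ} (hh : L.IsBr h) {z : ℂ} (hz : z ∉ L.set) : h z ≠ 0 :=
  fun e => L.ne_tip hz (by rw [← hh.sq z hz, e]; simp)

theorem IsBr.smul {L : Leg} {h : ℂ → ℂ} (hh : L.IsBr h) (e : Bool) :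
    L.IsBr fun z => sg e * h z :=
  ⟨continuousOn_const.mul hh.cont, fun z hz => by rw [mul_pow, sg_sq, one_mul, hh.sq z hz],
    fun z hz z' hz' => by rw [mul_div_mul_left _ _ (sg_ne e)]; exact hh.rho z hz z' hz'⟩

theorem exists_isBr : ∃ h, L.IsBr h := by
  classical
  by_cases hne : ∃ z0, z0 ∉ L.set
  swap
  · push Not at hne
    exact ⟨fun _ => 0, continuousOn_const, fun z hz => absurd (hne z) hz,
      fun z hz => absurd (hne z) hz⟩
  obtain ⟨z0, hz0⟩ := hne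
  let κ : ℝ → ℂ := fun u => if u = 0 then 0 else (z0 - L.l u)⁻¹
  have hne0 : ∀ u ∈ Ioc (0 : ℝ) 1, z0 - L.l u ≠ 0 := fun u hu e =>
    hz0 (sub_eq_zero.1 e ▸ ⟨u, hu, rfl⟩)
  have hκ : ContinuousOn κ (Icc 0 1) := by
    intro u hu
    by_cases h0 : u = 0
    · subst h0
      have h1 : Tendsto (fun u => (z0 - L.l u)⁻¹) (𝓝[>] (0 : ℝ)) (𝓝 0) :=
        tendsto_inv₀_cobounded.comp ((tendsto_const_sub_cobounded z0).comp L.inf)
      have h2 : ContinuousWithinAt κ (Ioi 0) 0 := by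
        have : κ 0 = 0 := if_pos rfl
        rw [ContinuousWithinAt, this]
        refine h1.congr' ?_
        filter_upwards [self_mem_nhdsWithin] with u hu
        exact (if_neg (ne_of_gt hu)).symm
      exact (continuousWithinAt_Ioi_iff_Ici.1 h2).mono Icc_subset_Ici_self
    · have hu' : u ∈ Ioc (0 : ℝ) 1 := ⟨lt_of_le_of_ne hu.1 (Ne.symm h0), hu.2⟩
      have h1 : ContinuousWithinAt (fun u => (z0 - L.l u)⁻¹) (Ioc 0 1) u :=
        ((continuousOn_const.sub L.cont).inv₀ hne0) u hu'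
      have h2 : ContinuousWithinAt κ (Ioc 0 1) u :=
        h1.congr (fun y hy => if_neg (ne_of_gt hy.1)) (if_neg h0)
      refine h2.mono_of_mem_nhdsWithin ?_
      exact mem_nhdsWithin.2 ⟨Ioi 0, isOpen_Ioi, hu'.1, fun y hy => ⟨hy.1, hy.2.2⟩⟩
  have hκ' : Continuous fun u : I => κ u := hκ.domRestrict
  have hF : ∀ (u : I) (z : ℂ), u ≠ 0 → (1 + (z - z0) * κ u) * (z0 - L.l u) = z - L.l u := by
    intro u z hu
    have h0 : (u : ℝ) ≠ 0 := fun e => hu (Subtype.ext e)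
    have := hne0 u ⟨lt_of_le_of_ne u.2.1 (Ne.symm h0), u.2.2⟩
    simp only [κ, if_neg h0]
    field_simp
    ring
  obtain ⟨R, R1, R2, R3⟩ := exists_sqrt_homotopy (A := {z // z ∉ L.set})
    (fun p => 1 + (p.2.1 - z0) * κ p.1)
    (continuous_const.add (Continuous.mul (by fun_prop) (hκ'.comp continuous_fst))) (by
      rintro ⟨u, z⟩ e
      by_cases hu : u = 0
      · subst hu; simp [κ] at e
      · have := hF u z.1 hu
        simp only at e
        rw [e, zero_mul] at this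
        exact z.2 (sub_eq_zero.1 this.symm ▸ L.mem_set u hu))
    (fun _ => 1) continuous_const (fun a => by simp [κ])
  have Rne : ∀ u z, R (u, z) ≠ 0 := by
    intro u z e
    have := R2 (u, z)
    rw [e] at this
    by_cases hu : u = 0
    · subst hu; simp [κ] at this
    · have h2 := hF u z.1 hu
      simp only at this
      rw [← this] at h2
      have e2 : z.1 = L.l u := by linear_combination -h2
      exact z.2 (e2 ▸ L.mem_set u hu)
  obtain ⟨w0, hw0⟩ := exists_sq (z0 - L.tip)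
  have hw0' : w0 ≠ 0 := fun e => L.ne_tip hz0 (by rw [← hw0, e]; simp)
  refine ⟨fun z => if hz : z ∉ L.set then R (1, ⟨z, hz⟩) * w0 else 0, ?_, fun z hz => ?_,
    fun z hz z' hz' => ?_⟩
  · rw [continuousOn_iff_continuous_domRestrict]
    have : Continuous fun z : (L.setᶜ : Set ℂ) => R (1, ⟨z.1, z.2⟩) * w0 := by fun_prop
    refine this.congr fun z => ?_
    have hz : z.1 ∉ L.set := z.2
    simp only [domRestrict_apply, dif_pos hz]
  · rw [dif_pos hz, mul_pow, R2, hw0]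
    exact hF 1 z one_ne_zero
  · rw [dif_pos hz, dif_pos hz', mul_div_mul_right _ _ hw0']
    refine ⟨fun u => R (u, ⟨z, hz⟩) / R (u, ⟨z', hz'⟩),
      Continuous.div (by fun_prop) (by fun_prop) (fun u => Rne _ _), by simp [R3], rfl,
      fun u hu => ?_⟩
    have a1 := hF u z hu
    have a2 := hF u z' hu
    have a3 := R2 (u, ⟨z, hz⟩)
    have a4 := R2 (u, ⟨z', hz'⟩)
    simp only at a3 a4
    rw [← a3] at a1
    rw [← a4] at a2
    rw [← a1, ← a2]
    have := Rne u ⟨z', hz'⟩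
    field_simp

theorem IsBr.mul {L L' : Leg} {c : ℂ} (hL : ∀ u ∈ Ioc (0 : ℝ) 1, L'.l u ^ 2 + c = L.l u)
    {h h1 h2 : ℂ → ℂ} (hh : L.IsBr h) (hh1 : L'.IsBr h1) (hh2 : L'.neg.IsBr h2) {z z' : ℂ}
    (hz : z ^ 2 + c ∉ L.set) (hz' : z' ^ 2 + c ∉ L.set) :
    h (z ^ 2 + c) / h (z' ^ 2 + c) = h1 z / h1 z' * (h2 z / h2 z') := by
  have n1 : ∀ z, z ^ 2 + c ∉ L.set → z ∉ L'.set := by
    rintro z hz ⟨u, hu, rfl⟩
    exact hz ⟨u, hu, (hL u hu).symm⟩
  have n2 : ∀ z, z ^ 2 + c ∉ L.set → z ∉ L'.neg.set := fun z hz h =>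
    n1 (-z) (by simpa using hz) (L'.mem_neg.1 h)
  obtain ⟨r, a1, a2, a3, a4⟩ := hh1.rho z (n1 z hz) z' (n1 z' hz')
  obtain ⟨r', b1, b2, b3, b4⟩ := hh2.rho z (n2 z hz) z' (n2 z' hz')
  refine Rho.unique hz hz' (hh.rho _ hz _ hz') ⟨fun u => r u * r' u, a1.mul b1, by simp [a2, b2],
    by simp [a3, b3], fun u hu => ?_⟩
  have c1 := a4 u hu
  have c2 := b4 u hu
  simp only [neg] at c2
  rw [← hL u ⟨lt_of_le_of_ne u.2.1 (fun e => hu (Subtype.ext e.symm)), u.2.2⟩]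
  linear_combination (r' u ^ 2 * (z' + L'.l u)) * c1 + (z - L'.l u) * c2

/-- The path `γ` crosses the leg with parity `e`. -/
def Par (h : ℂ → ℂ) (γ : I → ℂ) (e : Bool) : Prop := ∃ v : I → ℂ, Continuous v ∧
  (∀ τ, v τ ^ 2 = γ τ - L.tip) ∧ v 1 * h (γ 0) = sg e * (v 0 * h (γ 1))

variable {L}

theorem exists_par {h : ℂ → ℂ} (hh : L.IsBr h) {γ : I → ℂ} (hγ : Continuous γ)
    (ht : ∀ τ, γ τ ≠ L.tip) (h0 : γ 0 ∉ L.set) (h1 : γ 1 ∉ L.set) : ∃ e, L.Par h γ e := by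
  obtain ⟨v, a1, a2, a3⟩ := exists_sqrt_lift (γ := fun τ => γ τ - L.tip) (by fun_prop)
    (fun τ => sub_ne_zero.2 (ht τ)) (hh.sq _ h0)
  obtain ⟨e, he⟩ := exists_sg (a := v 1) (b := h (γ 1)) (by rw [a2, hh.sq _ h1])
  exact ⟨e, v, a1, a2, by rw [he, a3]; ring⟩

theorem Par.unique {h : ℂ → ℂ} (hh : L.IsBr h) {γ : I → ℂ} (ht : ∀ τ, γ τ ≠ L.tip)
    (h1 : γ 1 ∉ L.set) {e e' : Bool} (p : L.Par h γ e) (p' : L.Par h γ e') : e = e' := by
  obtain ⟨v, a1, a2, a3⟩ := p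
  obtain ⟨v', b1, b2, b3⟩ := p'
  have hne : ∀ τ, v' τ ≠ 0 := fun τ e => ht τ (by
    have := b2 τ; rw [e] at this; linear_combination -this)
  obtain ⟨d, hd⟩ := exists_sg (a := v 0) (b := v' 0) (by rw [a2, b2])
  have := sq_uniqueI (u := v) (v := fun τ => sg d * v' τ) a1 (by fun_prop)
    (fun τ => by rw [mul_pow, sg_sq, one_mul, a2, b2])
    (fun τ => mul_ne_zero (sg_ne d) (hne τ)) hd 1
  rw [this, hd] at a3
  apply sg_inj
  have h3 : sg d * (v' 0 * h (γ 1)) ≠ 0 := mul_ne_zero (sg_ne d) (mul_ne_zero (hne 0) (hh.ne h1))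
  apply mul_right_cancel₀ h3
  linear_combination -a3 + sg d * b3

theorem par_false {h : ℂ → ℂ} (hh : L.IsBr h) {γ : I → ℂ} (hγ : Continuous γ)
    (ha : ∀ τ, γ τ ∉ L.set) : L.Par h γ false :=
  ⟨fun τ => h (γ τ), hh.cont.comp_continuous hγ ha, fun τ => hh.sq _ (ha τ), by simp [sg]; ring⟩

theorem Par.pull {L L' : Leg} {c : ℂ} (hL : ∀ u ∈ Ioc (0 : ℝ) 1, L'.l u ^ 2 + c = L.l u)
    {h h1 : ℂ → ℂ} (hh : L.IsBr h) (hh1 : L'.IsBr h1) {γ : I → ℂ} (hγ : Continuous γ)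
    (ht : ∀ τ, γ τ ^ 2 + c ≠ L.tip) (h0 : γ 0 ^ 2 + c ∉ L.set) (h1' : γ 1 ^ 2 + c ∉ L.set)
    (ha : ∀ τ, -γ τ ∉ L'.set) {e : Bool} (p : L.Par h (fun τ => γ τ ^ 2 + c) e) :
    L'.Par h1 γ e := by
  obtain ⟨h2, hh2⟩ := L'.neg.exists_isBr
  have n1 : ∀ z, z ^ 2 + c ∉ L.set → z ∉ L'.set := by
    rintro z hz ⟨u, hu, rfl⟩
    exact hz ⟨u, hu, (hL u hu).symm⟩
  have htip : L'.tip ^ 2 + c = L.tip := hL 1 (by simp)
  have ha' : ∀ τ, γ τ ∉ L'.neg.set := fun τ h => ha τ (L'.mem_neg.1 h)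
  obtain ⟨e', p'⟩ := exists_par hh1 hγ (fun τ e => ht τ (by rw [e, htip])) (n1 _ h0) (n1 _ h1')
  have hm := hh.mul hL hh1 hh2 h1' h0
  have : e = e' := by
    refine Par.unique hh ht h1' p ?_
    obtain ⟨v, a1, a2, a3⟩ := p'
    refine ⟨fun τ => v τ * h2 (γ τ), a1.mul (hh2.cont.comp_continuous hγ ha'), fun τ => ?_, ?_⟩
    · rw [mul_pow, a2, hh2.sq _ (ha' τ), ← htip]
      simp only [tip, neg]; ring
    · have b1 := hh.ne h0
      have b2 := hh1.ne (n1 _ h0)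
      have b3 := hh2.ne (ha' 0)
      field_simp at hm
      apply mul_right_cancel₀ b2
      simp only
      linear_combination (h2 (γ 1) * h (γ 0 ^ 2 + c)) * a3 - (sg e' * v 0) * hm
  rwa [this]

end Leg

end Pool.Agent.MP_61ef33_al

end

section

/- Spiders (systems of legs compatible with pull-back) and the labelling of preimage trees. -/

namespace Pool.Agent.MP_61ef33_al

open Filter Topology unitInterval Set

/-- Kneading data without the orbit and separation axioms. -/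
structure KB (S : Type) where
  sg : S
  nx : S → S
  cl : S → Bool
  ha : ∀ s, nx s ≠ sg
  hb : ∀ s t, nx s = nx t → cl s = cl t → s = t

namespace KB

variable {S : Type} (A : KB S)

open Classical in
noncomputable def prev (x : Bool) (s : S) : Option S :=
  if h : ∃ t, A.nx t = s ∧ A.cl t = x then some h.choose else none

theorem prev_eq_some {x : Bool} {s t : S} : A.prev x s = some t ↔ A.nx t = s ∧ A.cl t = x := by
  unfold prev
  split_ifs with h
  · constructor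
    · intro e
      have := h.choose_spec
      rw [Option.some.injEq] at e
      rw [← e]; exact this
    · rintro ⟨h1, h2⟩
      have := h.choose_spec
      rw [Option.some.injEq]
      exact A.hb _ _ (this.1.trans h1.symm) (this.2.trans h2.symm)
  · constructor
    · intro e; cases e
    · intro e; exact absurd ⟨t, e⟩ h

theorem prev_sg (x : Bool) : A.prev x A.sg = none := by
  cases e : A.prev x A.sg with
  | none => rfl
  | some t => exact absurd (A.prev_eq_some.1 e).1 (A.ha t)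

open Classical in
noncomputable def act : List Bool → S → List Bool
  | [], _ => []
  | x :: w, s => (xor x (decide (s = A.sg))) :: (match A.prev x s with
      | none => w
      | some t => act w t)

theorem act_act (w : List Bool) (s : S) : A.act (A.act w s) s = w := by
  induction w generalizing s with
  | nil => rfl
  | cons x w ih =>
    by_cases h : s = A.sg
    · subst h
      simp [act, prev_sg]
    · cases e : A.prev x s with
      | none => simp [act, h, e]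
      | some t => simp [act, h, e, ih]

noncomputable def gen (s : S) : Equiv.Perm (List Bool) :=
  Function.Involutive.toPerm (fun w => A.act w s) (fun w => A.act_act w s)

theorem gen_mul_self (s : S) : A.gen s * A.gen s = 1 := by
  ext1 w; exact A.act_act w s

noncomputable def genE (e : Bool) (s : S) : Equiv.Perm (List Bool) := if e then A.gen s else 1

def G : Subgroup (Equiv.Perm (List Bool)) := Subgroup.closure (Set.range A.gen)

theorem genE_mem (e : Bool) (s : S) : A.genE e s ∈ A.G := by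
  cases e
  · exact one_mem _
  · exact Subgroup.subset_closure ⟨s, rfl⟩

end KB

/-- The quadratic map. -/
def qf (c : ℂ) (z : ℂ) : ℂ := z ^ 2 + c

theorem continuous_qf (c : ℂ) : Continuous (qf c) := by unfold qf; fun_prop

/-- A system of legs for `z ^ 2 + c`, one for each level and each postcritical point. -/
structure Spider (S : Type) extends KB S where
  c : ℂ
  pt : S → ℂ
  pt_sg : pt sg = c
  L : ℕ → S → Leg
  h : ℕ → S → ℂ → ℂ
  br : ∀ k s, (L k s).IsBr (h k s)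
  tip : ∀ k s, (L k s).tip = pt s
  pull : ∀ k s, ∀ u ∈ Ioc (0 : ℝ) 1, (L (k + 1) s).l u ^ 2 + c = (L k (nx s)).l u
  disj : ∀ k s t, s ≠ t → Disjoint (L k s).set (L k t).set
  side : ∀ k s, cl s = true ↔ pt s = h k sg (pt s ^ 2 + c)

namespace Spider

variable {S : Type} (A : Spider S)

theorem pt_nx (s : S) : A.pt (A.nx s) = qf A.c (A.pt s) := by
  have := A.pull 0 s 1 (by simp)
  rw [← A.tip 0, ← A.tip 1]
  exact this.symm

theorem pt_mem (k : ℕ) (s : S) : A.pt s ∈ (A.L k s).set := A.tip k s ▸ (A.L k s).tip_mem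

theorem pt_inj {s t : S} (h : A.pt s = A.pt t) : s = t := by
  by_contra hne
  exact disjoint_left.1 (A.disj 0 s t hne) (A.pt_mem 0 s) (h ▸ A.pt_mem 0 t)

theorem pull_mem {k : ℕ} {s : S} {z : ℂ} (h : z ∈ (A.L (k + 1) s).set) :
    qf A.c z ∈ (A.L k (A.nx s)).set := by
  obtain ⟨u, hu, rfl⟩ := h
  exact ⟨u, hu, (A.pull k s u hu).symm⟩

/-- Complement of the legs of level `k`. -/
def Om (k : ℕ) : Set ℂ := {z | ∀ s, z ∉ (A.L k s).set}

theorem om_pull {k : ℕ} {z : ℂ} (h : qf A.c z ∈ A.Om k) : z ∈ A.Om (k + 1) :=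
  fun _ hs => h _ (A.pull_mem hs)

open Classical in
/-- The side of a point with respect to the preimage of the critical value leg. -/
noncomputable def sd (k : ℕ) (z : ℂ) : Bool := decide (z = A.h k A.sg (qf A.c z))

theorem sq_h {k : ℕ} {z : ℂ} (hz : qf A.c z ∉ (A.L k A.sg).set) :
    A.h k A.sg (qf A.c z) ^ 2 = z ^ 2 := by
  rw [(A.br k A.sg).sq _ hz, A.tip, A.pt_sg, qf]; ring

theorem sd_iff {k : ℕ} {z : ℂ} (hz : qf A.c z ∉ (A.L k A.sg).set) (e : Bool) :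
    z = sg e * A.h k A.sg (qf A.c z) ↔ A.sd k z = !e := by
  have hne := (A.br k A.sg).ne hz
  have h2 := sq_eq_sq_iff_eq_or_eq_neg.1 (A.sq_h hz).symm
  have h3 : ¬ (A.h k A.sg (qf A.c z) = -A.h k A.sg (qf A.c z)) := fun e => hne (by
    linear_combination e / 2)
  cases e
  · simp [sg, sd]
  · simp only [sg, sd, if_true, neg_mul, one_mul, Bool.not_true, decide_eq_false_iff_not]
    constructor
    · intro a b; exact h3 (b.symm.trans a)
    · intro a; exact h2.resolve_left a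

theorem eq_sd {k : ℕ} {z : ℂ} (hz : qf A.c z ∉ (A.L k A.sg).set) :
    z = sg (!A.sd k z) * A.h k A.sg (qf A.c z) := (A.sd_iff hz _).2 (by simp)

theorem sd_neg {k : ℕ} {z : ℂ} (hz : qf A.c z ∉ (A.L k A.sg).set) : A.sd k (-z) = !A.sd k z := by
  have e : qf A.c (-z) = qf A.c z := by simp [qf]
  rw [← A.sd_iff (e ▸ hz), e]
  have := A.eq_sd hz
  revert this
  generalize A.h k A.sg (qf A.c z) = w
  cases A.sd k z <;> intro this <;> rw [this] <;> simp [sg]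

theorem sd_const {α : Type} [TopologicalSpace α] {T : Set α} (hT : IsPreconnected T) {k : ℕ}
    {u : α → ℂ} (hu : ContinuousOn u T) (hz : ∀ x ∈ T, qf A.c (u x) ∉ (A.L k A.sg).set)
    {a b : α} (ha : a ∈ T) (hb : b ∈ T) : A.sd k (u b) = A.sd k (u a) := by
  have := sq_unique hT hu (v := fun x => sg (!A.sd k (u a)) * A.h k A.sg (qf A.c (u x)))
    (continuousOn_const.mul ((A.br k A.sg).cont.comp
      ((continuous_qf A.c).comp_continuousOn hu) hz))
    (fun x hx => by rw [mul_pow, sg_sq, one_mul, A.sq_h (hz x hx)])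
    (fun x hx => mul_ne_zero (sg_ne _) ((A.br k A.sg).ne (hz x hx))) ha (A.eq_sd (hz a ha)) b hb
  simpa using (A.sd_iff (hz b hb) _).1 this

theorem sd_pt (k : ℕ) (s : S) : A.sd k (A.pt s) = A.cl s := by
  have := A.side k s
  unfold sd qf
  cases h : A.cl s
  · rw [h] at this; simpa using this
  · rw [h] at this; simpa using this

theorem not_mem_sg {k : ℕ} {s : S} {z : ℂ} (h : z ∈ (A.L (k + 1) s).set) :
    qf A.c z ∉ (A.L k A.sg).set :=
  disjoint_left.1 (A.disj k _ _ (A.ha s)) (A.pull_mem h)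

theorem sd_leg {k : ℕ} {s : S} {z : ℂ} (h : z ∈ (A.L (k + 1) s).set) : A.sd k z = A.cl s := by
  rw [← A.sd_pt k s]
  exact A.sd_const (A.L (k + 1) s).preconn continuousOn_id (fun x hx => A.not_mem_sg hx)
    (A.pt_mem _ s) h

/-- The address of an `n`-th preimage. -/
noncomputable def lab : ℕ → ℕ → ℂ → List Bool
  | _, 0, _ => []
  | k, n + 1, z => A.sd k ((qf A.c)^[n] z) :: lab (k + 1) n z

theorem lab_const {n k : ℕ} {η : I → ℂ} (hη : Continuous η)
    (h : ∀ τ, (qf A.c)^[n] (η τ) ∈ A.Om k) : A.lab k n (η 1) = A.lab k n (η 0) := by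
  induction n generalizing k with
  | zero => rfl
  | succ n ih =>
    simp only [Function.iterate_succ_apply'] at h
    rw [lab, lab, ih fun τ => A.om_pull (h τ)]
    congr 1
    exact A.sd_const isPreconnected_univ (u := fun τ => (qf A.c)^[n] (η τ))
      (((continuous_qf A.c).iterate n).comp hη).continuousOn (fun τ _ => h τ _) (mem_univ _)
      (mem_univ _)

/-- The path meets no leg of level `k` but that of `s`, and crosses it with parity `e`. -/
structure Hyp (k : ℕ) (s : S) (γ : I → ℂ) (e : Bool) : Prop where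
  avoid : ∀ τ t, t ≠ s → γ τ ∉ (A.L k t).set
  ne : ∀ τ, γ τ ≠ A.pt s
  e0 : γ 0 ∉ (A.L k s).set
  e1 : γ 1 ∉ (A.L k s).set
  par : (A.L k s).Par (A.h k s) γ e

variable {A}

theorem Hyp.sd_const {k : ℕ} {s : S} {γ : I → ℂ} {e : Bool} (hγ : Continuous γ) (hs : s ≠ A.sg)
    (H : A.Hyp k s (fun τ => qf A.c (γ τ)) e) (τ : I) : A.sd k (γ τ) = A.sd k (γ 0) :=
  A.sd_const isPreconnected_univ hγ.continuousOn (fun τ _ => H.avoid τ _ hs.symm) (mem_univ _)
    (mem_univ _)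

theorem Hyp.step {k : ℕ} {t : S} {γ : I → ℂ} {e : Bool} (hγ : Continuous γ)
    (H : A.Hyp k (A.nx t) (fun τ => qf A.c (γ τ)) e) (ht : A.cl t = A.sd k (γ 0)) :
    A.Hyp (k + 1) t γ e := by
  have hsd := H.sd_const hγ (A.ha t)
  refine ⟨fun τ t' ht' h => ?_, fun τ h => H.ne τ (by rw [h, pt_nx]), fun h => H.e0 (A.pull_mem h),
    fun h => H.e1 (A.pull_mem h), ?_⟩
  · have h1 : A.nx t' = A.nx t := by
      by_contra h1
      exact H.avoid τ _ h1 (A.pull_mem h)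
    exact ht' (A.hb _ _ h1 (by rw [← A.sd_leg h, hsd, ht]))
  · refine Leg.Par.pull (A.pull k t) (A.br _ _) (A.br _ _) hγ
      (fun τ => by rw [A.tip]; exact H.ne τ) H.e0 H.e1 (fun τ h => ?_) H.par
    have h1 := A.sd_leg h
    rw [A.sd_neg (H.avoid τ _ (A.ha t).symm), hsd, ← ht] at h1
    simp at h1

theorem Hyp.lab {n k : ℕ} {s : S} {η : I → ℂ} {e : Bool} (hη : Continuous η)
    (H : A.Hyp k s (fun τ => (qf A.c)^[n] (η τ)) e) :
    A.lab k n (η 1) = A.genE e s (A.lab k n (η 0)) := by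
  induction n generalizing k s with
  | zero => cases e <;> rfl
  | succ n ih =>
    simp only [Function.iterate_succ_apply'] at H
    have hγ : Continuous fun τ => (qf A.c)^[n] (η τ) := ((continuous_qf A.c).iterate n).comp hη
    rw [Spider.lab, Spider.lab]
    by_cases hs : s = A.sg
    · subst hs
      rw [A.lab_const hη fun τ t h => H.avoid τ _ (A.ha t) (A.pull_mem h)]
      have h0 := A.eq_sd H.e0
      have h1 := A.eq_sd H.e1
      have hp : (A.L k A.sg).Par (A.h k A.sg) (fun τ => qf A.c ((qf A.c)^[n] (η τ)))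
          (xor (A.sd k ((qf A.c)^[n] (η 0))) (A.sd k ((qf A.c)^[n] (η 1)))) := by
        refine ⟨_, hγ, fun τ => by rw [A.tip, A.pt_sg]; simp [qf], ?_⟩
        revert h0 h1
        generalize A.h k A.sg (qf A.c ((qf A.c)^[n] (η 0))) = a
        generalize A.h k A.sg (qf A.c ((qf A.c)^[n] (η 1))) = b
        cases A.sd k ((qf A.c)^[n] (η 0)) <;> cases A.sd k ((qf A.c)^[n] (η 1)) <;>
          intro h0 h1 <;> rw [h0, h1] <;> simp [sg, mul_comm]
      have he := Leg.Par.unique (A.br _ _) (fun τ => by rw [A.tip]; exact H.ne τ) H.e1 H.par hp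
      subst he
      cases A.sd k ((qf A.c)^[n] (η 0)) <;> cases A.sd k ((qf A.c)^[n] (η 1)) <;>
        simp [KB.genE, KB.gen, KB.act, KB.prev_sg]
    · rw [H.sd_const hγ hs 1]
      cases hp : A.prev (A.sd k ((qf A.c)^[n] (η 0))) s with
      | none =>
        rw [A.lab_const hη fun τ t h => ?_]
        · cases e <;> simp [KB.genE, KB.gen, KB.act, hs, hp]
        · have h1 : A.nx t = s := by
            by_contra h1
            exact H.avoid τ _ h1 (A.pull_mem h)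
          have h2 := (A.prev_eq_some (x := A.sd k ((qf A.c)^[n] (η 0)))).2
            ⟨h1, by rw [← A.sd_leg h, H.sd_const hγ hs]⟩
          rw [hp] at h2; cases h2
      | some t =>
        obtain ⟨rfl, h2⟩ := A.prev_eq_some.1 hp
        rw [ih (H.step hγ h2)]
        cases e <;> simp [KB.genE, KB.gen, KB.act, hs, hp]

variable (A)

theorem lab_length (k n : ℕ) (z : ℂ) : (A.lab k n z).length = n := by
  induction n generalizing k with
  | zero => rfl
  | succ n ih => simp [lab, ih]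

theorem lab_inj {n k : ℕ} {a y y' : ℂ} (ha : a ∈ A.Om k) (hy : (qf A.c)^[n] y = a)
    (hy' : (qf A.c)^[n] y' = a) (h : A.lab k n y = A.lab k n y') : y = y' := by
  induction n generalizing k a with
  | zero => exact hy.trans hy'.symm
  | succ n ih =>
    rw [Function.iterate_succ_apply'] at hy hy'
    simp only [lab, List.cons.injEq] at h
    refine ih (A.om_pull (hy ▸ ha)) rfl ?_ h.2
    rw [A.eq_sd (k := k) (z := (qf A.c)^[n] y') (hy' ▸ ha _), ← h.1, hy', ← hy]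
    exact (A.eq_sd (hy ▸ ha _)).symm

theorem lab_surj (w : List Bool) {k : ℕ} {a : ℂ} (ha : a ∈ A.Om k) :
    ∃ y, (qf A.c)^[w.length] y = a ∧ A.lab k w.length y = w := by
  induction w generalizing k a with
  | nil => exact ⟨a, rfl, rfl⟩
  | cons x w ih =>
    have e : qf A.c (sg (!x) * A.h k A.sg a) = a := by
      rw [qf, mul_pow, sg_sq, (A.br k A.sg).sq _ (ha _), A.tip, A.pt_sg]; ring
    obtain ⟨y, h1, h2⟩ := ih (k := k + 1) (a := sg (!x) * A.h k A.sg a) (A.om_pull (e.symm ▸ ha))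
    refine ⟨y, by rw [List.length_cons, Function.iterate_succ_apply', h1, e], ?_⟩
    rw [List.length_cons, lab, h2, h1]
    congr 1
    have := (A.sd_iff (k := k) (z := sg (!x) * A.h k A.sg a) (e.symm ▸ ha _) (!x)).1 (by rw [e])
    simpa using this

theorem pull_P {z : ℂ} (h : qf A.c z ∉ range A.pt) : z ∉ range A.pt := by
  rintro ⟨s, rfl⟩
  exact h ⟨A.nx s, A.pt_nx s⟩

theorem pull_P_iter {n : ℕ} {z : ℂ} (h : (qf A.c)^[n] z ∉ range A.pt) : z ∉ range A.pt := by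
  induction n with
  | zero => exact h
  | succ n ih => rw [Function.iterate_succ_apply'] at h; exact ih (A.pull_P h)

theorem ne_zero_of {z : ℂ} (h : qf A.c z ∉ range A.pt) : z ≠ 0 := by
  rintro rfl
  exact h ⟨A.sg, by simp [A.pt_sg, qf]⟩

theorem exists_lift {n : ℕ} {γ : I → ℂ} (hγ : Continuous γ) (hP : ∀ τ, γ τ ∉ range A.pt) {y : ℂ}
    (hy : (qf A.c)^[n] y = γ 0) :
    ∃ Γ : I → ℂ, Continuous Γ ∧ (∀ τ, (qf A.c)^[n] (Γ τ) = γ τ) ∧ Γ 0 = y := by
  induction n generalizing γ with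
  | zero => exact ⟨γ, hγ, fun _ => rfl, hy.symm⟩
  | succ n ih =>
    rw [Function.iterate_succ_apply'] at hy
    obtain ⟨v, h1, h2, h3⟩ := exists_sqrt_lift (γ := fun τ => γ τ - A.c) (by fun_prop)
      (fun τ e => hP τ ⟨A.sg, by rw [A.pt_sg, sub_eq_zero.1 e]⟩) (v0 := (qf A.c)^[n] y)
      (by rw [← hy, qf]; ring)
    have h4 : ∀ τ, qf A.c (v τ) = γ τ := fun τ => by rw [qf, h2]; ring
    obtain ⟨Γ, a1, a2, a3⟩ := ih h1 (fun τ => A.pull_P (h4 τ ▸ hP τ)) h3.symm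
    exact ⟨Γ, a1, fun τ => by rw [Function.iterate_succ_apply', a2, h4], a3⟩

theorem lift_unique {n : ℕ} {α : Type} [TopologicalSpace α] {T : Set α} (hT : IsPreconnected T)
    {Γ Γ' : α → ℂ} (h1 : ContinuousOn Γ T) (h2 : ContinuousOn Γ' T)
    (hP : ∀ τ ∈ T, (qf A.c)^[n] (Γ τ) ∉ range A.pt)
    (h : ∀ τ ∈ T, (qf A.c)^[n] (Γ τ) = (qf A.c)^[n] (Γ' τ)) {a : α} (ha : a ∈ T)
    (h0 : Γ a = Γ' a) : ∀ τ ∈ T, Γ τ = Γ' τ := by
  induction n with
  | zero => exact h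
  | succ n ih =>
    simp only [Function.iterate_succ_apply'] at h hP
    refine ih (fun τ hτ => A.pull_P (hP τ hτ)) ?_
    refine sq_unique hT (((continuous_qf A.c).iterate n).comp_continuousOn h1)
      (((continuous_qf A.c).iterate n).comp_continuousOn h2)
      (fun τ hτ => add_right_cancel (h τ hτ))
      (fun τ hτ => A.ne_zero_of (h τ hτ ▸ hP τ hτ)) ha (by simp [h0])

end Spider

end Pool.Agent.MP_61ef33_al

end

section

/- Monodromy of paths in terms of addresses. -/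

namespace Pool.Agent.MP_61ef33_al

open Filter Topology unitInterval Set Metric

namespace Spider

variable {S : Type} (A : Spider S)

/-- A disc meeting at most the leg of `s`, and not containing its tip. -/
def GoodBall (x : ℂ) (r : ℝ) (s : S) : Prop :=
  (∀ t, t ≠ s → ∀ z ∈ ball x r, z ∉ (A.L 0 t).set) ∧ A.pt s ∉ ball x r

theorem GoodBall.notP {A : Spider S} {x : ℂ} {r : ℝ} {s : S} (h : A.GoodBall x r s) {z : ℂ}
    (hz : z ∈ ball x r) : z ∉ range A.pt := by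
  rintro ⟨t, rfl⟩
  by_cases e : t = s
  · exact h.2 (e ▸ hz)
  · exact h.1 t e _ hz (A.pt_mem 0 t)

theorem isOpen_others [Finite S] (k : ℕ) (s : S) : IsOpen {z | ∀ t, t ≠ s → z ∉ (A.L k t).set} := by
  simp only [ofPred_forall]
  exact isOpen_iInter_of_finite fun t => isOpen_iInter_of_finite fun _ =>
    (A.L k t).closed.isOpen_compl

theorem exists_goodBall [Finite S] {x : ℂ} (hx : x ∉ range A.pt) :
    ∃ r > 0, ∃ s, A.GoodBall x r s := by
  obtain ⟨s, hs⟩ : ∃ s, ∀ t, t ≠ s → x ∉ (A.L 0 t).set := by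
    by_cases h : ∃ s, x ∈ (A.L 0 s).set
    · obtain ⟨s, hs⟩ := h
      exact ⟨s, fun t ht => disjoint_left.1 (A.disj 0 s t ht.symm) hs⟩
    · push Not at h
      exact ⟨A.sg, fun t _ => h t⟩
  obtain ⟨r, hr, h⟩ := Metric.isOpen_iff.1 ((A.isOpen_others 0 s).inter
    (isOpen_compl_singleton (x := A.pt s))) x ⟨hs, fun e => hx ⟨s, e.symm⟩⟩
  exact ⟨r, hr, s, fun t ht z hz => (h hz).1 t ht, fun hz => (h hz).2 rfl⟩

theorem GoodBall.local {A : Spider S} {x : ℂ} {r : ℝ} {s : S} (h : A.GoodBall x r s) {a a' : ℂ}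
    (ha : a ∈ A.Om 0) (ha' : a' ∈ A.Om 0) : ∃ g ∈ A.G, ∀ n y y', (qf A.c)^[n] y = a →
      (qf A.c)^[n] y' = a' → JoinedIn ((qf A.c)^[n] ⁻¹' ball x r) y y' →
      A.lab 0 n y' = g (A.lab 0 n y) := by
  obtain ⟨q, hq, hq2⟩ := exists_sqrt_ball h.2
  obtain ⟨e, he⟩ := exists_sg (a := q a' * A.h 0 s a) (b := q a * A.h 0 s a') (by
    rw [mul_pow, mul_pow, hq2, hq2, (A.br 0 s).sq _ (ha s), (A.br 0 s).sq _ (ha' s), A.tip]; ring)
  refine ⟨A.genE e s, A.genE_mem e s, ?_⟩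
  rintro n y y' rfl rfl ⟨η, hη⟩
  have hγ : Continuous fun τ => (qf A.c)^[n] (η τ) :=
    ((continuous_qf A.c).iterate n).comp η.continuous
  have := Hyp.lab (A := A) (n := n) (k := 0) (s := s) (e := e) η.continuous
    ⟨fun τ t ht => h.1 t ht _ (hη τ), fun τ e => h.2 (e ▸ hη τ), by simpa using ha s,
      by simpa using ha' s, fun τ => q ((qf A.c)^[n] (η τ)), hq.comp_continuous hγ hη,
      fun τ => by rw [hq2, A.tip], by simpa using he⟩
  simpa using this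

theorem exists_joined {n : ℕ} {B : Set ℂ} (hB : Convex ℝ B) (hP : ∀ z ∈ B, z ∉ range A.pt)
    {y a : ℂ} (hy : (qf A.c)^[n] y ∈ B) (ha : a ∈ B) :
    ∃ y', (qf A.c)^[n] y' = a ∧ JoinedIn ((qf A.c)^[n] ⁻¹' B) y y' := by
  have hm : ∀ τ, Path.segment ((qf A.c)^[n] y) a τ ∈ B := fun τ =>
    hB.segment_subset hy ha (Path.range_segment ((qf A.c)^[n] y) a ▸ mem_range_self τ)
  obtain ⟨Γ, h1, h2, h3⟩ := A.exists_lift (n := n) (Path.segment ((qf A.c)^[n] y) a).continuous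
    (fun τ => hP _ (hm τ)) (y := y) (by simp)
  exact ⟨Γ 1, by simp [h2], ⟨⟨Γ, h1⟩, h3, rfl⟩, fun τ => by
    change (qf A.c)^[n] (Γ τ) ∈ B
    rw [h2]; exact hm τ⟩

theorem near_joined {γ : I → ℂ} (hγ : Continuous γ) {B : Set ℂ} (hB : IsOpen B) {τ0 : I}
    (h0 : γ τ0 ∈ B) : ∀ᶠ τ in 𝓝 τ0, ∀ (f : ℂ → ℂ) (Γ : I → ℂ), Continuous Γ → (∀ τ, f (Γ τ) = γ τ) →
      JoinedIn (f ⁻¹' B) (Γ τ0) (Γ τ) := by
  have : LocallyPathConnectedSpace I := (convex_Icc (0 : ℝ) 1).locallyPathConnectedSpace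
  filter_upwards [pathComponentIn_mem_nhds ((hB.preimage hγ).mem_nhds h0)] with τ hτ f Γ hΓ h
  refine (JoinedIn.map hτ hΓ).mono ?_
  rintro _ ⟨τ', h', rfl⟩
  change f (Γ τ') ∈ B
  rw [h]; exact h'

theorem mon_exists [Finite S] (hd : Dense (A.Om 0)) {γ : I → ℂ} (hγ : Continuous γ)
    (hP : ∀ τ, γ τ ∉ range A.pt) (h0 : γ 0 ∈ A.Om 0) (h1 : γ 1 ∈ A.Om 0) :
    ∃ g ∈ A.G, ∀ n (Γ : I → ℂ), Continuous Γ → (∀ τ, (qf A.c)^[n] (Γ τ) = γ τ) →
      A.lab 0 n (Γ 1) = g (A.lab 0 n (Γ 0)) := by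
  let Q : I → Prop := fun τ => ∀ x r s, A.GoodBall x r s → γ τ ∈ ball x r → ∀ a' ∈ ball x r,
    a' ∈ A.Om 0 → ∃ g ∈ A.G, ∀ n (Γ : I → ℂ), Continuous Γ → (∀ τ, (qf A.c)^[n] (Γ τ) = γ τ) →
      ∀ y, (qf A.c)^[n] y = a' → JoinedIn ((qf A.c)^[n] ⁻¹' ball x r) (Γ τ) y →
        A.lab 0 n y = g (A.lab 0 n (Γ 0))
  have Q0 : Q 0 := by
    intro x r s hg _ a' _ ha'
    obtain ⟨g, g1, g2⟩ := hg.local h0 ha'
    exact ⟨g, g1, fun n Γ _ h y hy hj => g2 n _ _ (h 0) hy hj⟩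
  have trans : ∀ x r s, A.GoodBall x r s → ∀ τ τ', γ τ ∈ ball x r → γ τ' ∈ ball x r →
      (∀ (n : ℕ) (Γ : I → ℂ), Continuous Γ → (∀ τ, (qf A.c)^[n] (Γ τ) = γ τ) →
        JoinedIn ((qf A.c)^[n] ⁻¹' ball x r) (Γ τ) (Γ τ')) → Q τ → Q τ' := by
    intro x r s hg τ τ' m1 m2 hj hQ x' r' s' hg' m3 a' ha1 ha2
    obtain ⟨b, ⟨b1, b2⟩, b3⟩ := hd.inter_open_nonempty _ (isOpen_ball.inter isOpen_ball)
      ⟨_, m2, m3⟩
    obtain ⟨g1, g1m, hg1⟩ := hQ x r s hg m1 b b1 b3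
    obtain ⟨g2, g2m, hg2⟩ := hg'.local b3 ha2
    refine ⟨g2 * g1, mul_mem g2m g1m, fun n Γ hΓ h y hy hj' => ?_⟩
    obtain ⟨y', e1, e2⟩ := A.exists_joined (n := n) ((convex_ball x r).inter (convex_ball x' r'))
      (fun z hz => hg.notP hz.1) (y := Γ τ') (a := b) (by rw [h]; exact ⟨m2, m3⟩) ⟨b1, b2⟩
    rw [Equiv.Perm.mul_apply, ← hg1 n Γ hΓ h y' e1
      ((hj n Γ hΓ h).trans (e2.mono (preimage_mono inter_subset_left)))]
    exact hg2 n y' y e1 hy ((e2.mono (preimage_mono inter_subset_right)).symm.trans hj')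
  have Q1 : Q 1 := by
    refine PreconnectedSpace.induction₂' (fun τ τ' => Q τ → Q τ') (fun τ0 => ?_)
      ⟨fun _ _ _ h h' => h' ∘ h⟩ 0 1 Q0
    obtain ⟨r, hr, s, hg⟩ := A.exists_goodBall (hP τ0)
    filter_upwards [near_joined hγ isOpen_ball (mem_ball_self hr),
      (isOpen_ball.preimage hγ).mem_nhds (mem_ball_self (x := γ τ0) hr)] with τ hτ hm
    exact ⟨trans _ r s hg τ0 τ (mem_ball_self hr) hm fun n Γ hΓ h => hτ _ Γ hΓ h,
      trans _ r s hg τ τ0 hm (mem_ball_self hr) fun n Γ hΓ h => (hτ _ Γ hΓ h).symm⟩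
  obtain ⟨r, hr, s, hg⟩ := A.exists_goodBall (hP 1)
  obtain ⟨g, g1, g2⟩ := Q1 _ r s hg (mem_ball_self hr) _ (mem_ball_self hr) h1
  exact ⟨g, g1, fun n Γ hΓ h => g2 n Γ hΓ h _ (h 1) (JoinedIn.refl (by
    change (qf A.c)^[n] (Γ 1) ∈ ball (γ 1) r
    rw [h]; exact mem_ball_self hr))⟩

/-- `z'` is the endpoint of the lift of `γ` starting at `z`. -/
def Tr {a b : ℂ} (γ : Path a b) (n : ℕ) (z z' : ℂ) : Prop :=
  ∃ Γ : Path z z', ∀ τ, (qf A.c)^[n] (Γ τ) = γ τ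

variable {A}

theorem Tr.src {a b : ℂ} {γ : Path a b} {n : ℕ} {z z' : ℂ} (h : A.Tr γ n z z') :
    (qf A.c)^[n] z = a := by
  obtain ⟨Γ, h⟩ := h; simpa using h 0

theorem Tr.tgt {a b : ℂ} {γ : Path a b} {n : ℕ} {z z' : ℂ} (h : A.Tr γ n z z') :
    (qf A.c)^[n] z' = b := by
  obtain ⟨Γ, h⟩ := h; simpa using h 1

theorem Tr.symm {a b : ℂ} {γ : Path a b} {n : ℕ} {z z' : ℂ} (h : A.Tr γ n z z') :
    A.Tr γ.symm n z' z := by
  obtain ⟨Γ, h⟩ := h
  exact ⟨Γ.symm, fun τ => h _⟩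

theorem Tr.trans {a b d : ℂ} {γ : Path a b} {γ' : Path b d} {n : ℕ} {z z' z'' : ℂ}
    (h : A.Tr γ n z z') (h' : A.Tr γ' n z' z'') : A.Tr (γ.trans γ') n z z'' := by
  obtain ⟨Γ, h⟩ := h
  obtain ⟨Γ', h'⟩ := h'
  refine ⟨Γ.trans Γ', fun τ => ?_⟩
  simp only [Path.trans_apply]
  split_ifs
  · exact h _
  · exact h' _

theorem Tr.unique {a b : ℂ} {γ : Path a b} (hP : ∀ τ, γ τ ∉ range A.pt) {n : ℕ} {z z' z'' : ℂ}
    (h : A.Tr γ n z z') (h' : A.Tr γ n z z'') : z' = z'' := by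
  obtain ⟨Γ, h⟩ := h
  obtain ⟨Γ', h'⟩ := h'
  have := A.lift_unique (n := n) isPreconnected_univ Γ.continuous.continuousOn
    Γ'.continuous.continuousOn (fun τ _ => h τ ▸ hP τ) (fun τ _ => (h τ).trans (h' τ).symm)
    (mem_univ 0) (by simp) 1 (mem_univ 1)
  simpa using this

theorem exists_tr {a b : ℂ} {γ : Path a b} (hP : ∀ τ, γ τ ∉ range A.pt) {n : ℕ} {z : ℂ}
    (hz : (qf A.c)^[n] z = a) : ∃ z', A.Tr γ n z z' := by
  obtain ⟨Γ, h1, h2, h3⟩ := A.exists_lift (n := n) γ.continuous hP (y := z) (by simpa using hz)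
  exact ⟨Γ 1, ⟨⟨Γ, h1⟩, h3, rfl⟩, h2⟩

theorem notP_symm {a b : ℂ} {γ : Path a b} (hP : ∀ τ, γ τ ∉ range A.pt) (τ : I) :
    γ.symm τ ∉ range A.pt := hP _

theorem notP_trans {a b d : ℂ} {γ : Path a b} {γ' : Path b d} (hP : ∀ τ, γ τ ∉ range A.pt)
    (hP' : ∀ τ, γ' τ ∉ range A.pt) (τ : I) : γ.trans γ' τ ∉ range A.pt := by
  simp only [Path.trans_apply]
  split_ifs
  · exact hP _
  · exact hP' _

variable (A) in
/-- Some path from `a` to `b` has monodromy `g` in terms of addresses. -/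
def Mon (a b : ℂ) (g : Equiv.Perm (List Bool)) : Prop :=
  ∃ γ : Path a b, (∀ τ, γ τ ∉ range A.pt) ∧
    ∀ n z z', A.Tr γ n z z' → A.lab 0 n z' = g (A.lab 0 n z)

theorem Mon.symm {a b : ℂ} {g : Equiv.Perm (List Bool)} (h : A.Mon a b g) : A.Mon b a g⁻¹ := by
  obtain ⟨γ, h1, h2⟩ := h
  refine ⟨γ.symm, notP_symm h1, fun n z z' h => ?_⟩
  have := h.symm
  rw [Path.symm_symm] at this
  simp [h2 n z' z this]

theorem Mon.trans {a b d : ℂ} {g g' : Equiv.Perm (List Bool)} (h : A.Mon a b g) (h' : A.Mon b d g') :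
    A.Mon a d (g' * g) := by
  obtain ⟨γ, h1, h2⟩ := h
  obtain ⟨γ', h1', h2'⟩ := h'
  refine ⟨γ.trans γ', notP_trans h1 h1', fun n z z'' h => ?_⟩
  obtain ⟨z', a1⟩ := exists_tr h1 h.src
  obtain ⟨z3, a2⟩ := exists_tr h1' a1.tgt
  rw [Tr.unique (notP_trans h1 h1') h (a1.trans a2), h2' n _ _ a2, h2 n _ _ a1]
  rfl

theorem om_notP {k : ℕ} {z : ℂ} (h : z ∈ A.Om k) : z ∉ range A.pt := by
  rintro ⟨s, rfl⟩
  exact h s (A.pt_mem k s)

theorem mon_one {a b : ℂ} (h : JoinedIn (A.Om 0) a b) : A.Mon a b 1 := by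
  obtain ⟨γ, hγ⟩ := h
  refine ⟨γ, fun τ => om_notP (hγ τ), ?_⟩
  rintro n z z' ⟨Γ, h⟩
  simpa using A.lab_const (n := n) (k := 0) Γ.continuous fun τ => h τ ▸ hγ τ

theorem mon_of_hyp {a b : ℂ} {γ : Path a b} {s : S} {e : Bool} (H : A.Hyp 0 s γ e) :
    A.Mon a b (A.genE e s) := by
  refine ⟨γ, ?_, ?_⟩
  · rintro τ ⟨t, ht⟩
    by_cases h : t = s
    · exact H.ne τ (h ▸ ht.symm)
    · exact H.avoid τ t h (ht ▸ A.pt_mem 0 t)
  · rintro n z z' ⟨Γ, h⟩
    have e' : (fun τ => (qf A.c)^[n] (Γ τ)) = γ := funext h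
    simpa using Hyp.lab (n := n) Γ.continuous (e' ▸ H)

theorem mon_cross {a b : ℂ} {γ : Path a b} {s : S} (h1 : ∀ τ t, t ≠ s → γ τ ∉ (A.L 0 t).set)
    (h2 : ∀ τ, γ τ ≠ A.pt s) (ha : a ∉ (A.L 0 s).set) (hb : b ∉ (A.L 0 s).set) :
    ∃ e, A.Mon a b (A.genE e s) := by
  obtain ⟨e, he⟩ := Leg.exists_par (A.br 0 s) γ.continuous (fun τ => by rw [A.tip]; exact h2 τ)
    (by simpa using ha) (by simpa using hb)
  exact ⟨e, mon_of_hyp ⟨h1, h2, by simpa using ha, by simpa using hb, he⟩⟩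

/-- The circle about `p` through `a`. -/
noncomputable def circ (p a : ℂ) : Path a a where
  toFun τ := p + (a - p) * Complex.exp (2 * Real.pi * Complex.I * (τ : ℝ))
  continuous_toFun := by fun_prop
  source' := by simp
  target' := by simp [Complex.exp_two_pi_mul_I]

theorem circ_dist (p a : ℂ) (τ : I) : dist (circ p a τ) p = dist a p := by
  change dist (p + (a - p) * Complex.exp (2 * Real.pi * Complex.I * (τ : ℝ))) p = _
  rw [dist_eq_norm, dist_eq_norm, add_sub_cancel_left, norm_mul,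
    show (2 * Real.pi * Complex.I * (τ : ℝ) : ℂ) = ((2 * Real.pi * τ : ℝ) : ℂ) * Complex.I by
      push_cast; ring, Complex.norm_exp_ofReal_mul_I, mul_one]

theorem hyp_circ {s : S} {r : ℝ} (hr : ∀ t, t ≠ s → ∀ z ∈ ball (A.pt s) r, z ∉ (A.L 0 t).set)
    {a : ℂ} (ha : a ∈ ball (A.pt s) r) (ha' : a ∉ (A.L 0 s).set) :
    A.Hyp 0 s (circ (A.pt s) a) true := by
  have hne : a ≠ A.pt s := fun e => ha' (e ▸ A.pt_mem 0 s)
  refine ⟨fun τ t ht => hr t ht _ (by rw [mem_ball, circ_dist]; exact ha), fun τ e => hne ?_,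
    by simpa using ha', by simpa using ha', ?_⟩
  · have := circ_dist (A.pt s) a τ
    rw [e, dist_self] at this
    exact dist_eq_zero.1 this.symm
  · obtain ⟨w, hw⟩ := exists_sq (a - A.pt s)
    refine ⟨fun τ => w * Complex.exp (Real.pi * Complex.I * (τ : ℝ)), by fun_prop, fun τ => ?_, ?_⟩
    · change _ = A.pt s + (a - A.pt s) * Complex.exp (2 * Real.pi * Complex.I * (τ : ℝ)) - _
      rw [mul_pow, hw, ← Complex.exp_nat_mul, A.tip]
      push_cast
      rw [← mul_assoc, ← mul_assoc]; ring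
    · simp [sg, Complex.exp_pi_mul_I]

end Spider

end Pool.Agent.MP_61ef33_al

end

section

/- External rays in potential-angle coordinates, unlinking of landing pairs. -/

namespace Pool.Agent.MP_61ef33_al

open Filter Topology Set Metric

noncomputable def ex (t y : ℝ) : ℂ := Complex.exp (t + 2 * Real.pi * y * Complex.I)

/-- The inverse Boettcher map in (potential, angle) coordinates. -/
structure BD where
  c : ℂ
  Ψ : ℝ → ℝ → ℂ
  cont : ContinuousOn (fun p : ℝ × ℝ => Ψ p.1 p.2) {p | 0 < p.1}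
  dbl : ∀ t y, 0 < t → Ψ (2 * t) (2 * y) = qf c (Ψ t y)
  per : ∀ t y (m : ℤ), Ψ t (y + m) = Ψ t y
  inj : ∀ t y t' y', 0 < t → 0 < t' → Ψ t y = Ψ t' y' → t = t' ∧ ∃ m : ℤ, y' = y + m
  asym : ∀ ε > 0, ∃ R, ∀ t ≥ R, ∀ y, ‖Ψ t y / ex t y - 1‖ < ε
  opn : ∃ x r C, 0 < r ∧ ∀ z ∈ ball x r, ∃ t y, 0 < t ∧ t < C ∧ Ψ t y = z

theorem norm_ex (t y : ℝ) : ‖ex t y‖ = Real.exp t := by simp [ex, Complex.norm_exp]

theorem ex_ne (t y : ℝ) : ex t y ≠ 0 := Complex.exp_ne_zero _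

namespace BD

variable (B : BD)

def U : Set ℂ := {z | ∃ t y, 0 < t ∧ B.Ψ t y = z}

theorem contOn {α : Type} [TopologicalSpace α] {T : Set α} {a b : α → ℝ} (ha : ContinuousOn a T)
    (hb : ContinuousOn b T) (h : ∀ x ∈ T, 0 < a x) : ContinuousOn (fun x => B.Ψ (a x) (b x)) T :=
  B.cont.comp (ha.prodMk hb) h

theorem half {t : ℝ} (ht : 0 < t) (y : ℝ) : B.Ψ t (y + 1 / 2) = -B.Ψ t y := by
  have h1 := B.dbl t (y + 1 / 2) ht
  have h2 := B.dbl t y ht
  have h3 := B.per (2 * t) (2 * y) 1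
  rw [show 2 * (y + 1 / 2) = 2 * y + (1 : ℤ) by push_cast; ring, h3, h2] at h1
  rcases sq_eq_sq_iff_eq_or_eq_neg.1 (add_right_cancel h1).symm with h | h
  · obtain ⟨_, m, hm⟩ := B.inj _ _ _ _ ht ht h
    have : (2 * m + 1 : ℤ) = 0 := by
      have : (2 * m + 1 : ℝ) = 0 := by linarith
      exact_mod_cast this
    omega
  · exact h

theorem pre {t y : ℝ} (ht : 0 < t) {z : ℂ} (h : qf B.c z = B.Ψ t y) :
    ∃ y', z = B.Ψ (t / 2) y' := by
  have h1 := B.dbl (t / 2) (y / 2) (by linarith)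
  rw [mul_div_cancel₀ _ two_ne_zero, mul_div_cancel₀ _ two_ne_zero, ← h] at h1
  rcases sq_eq_sq_iff_eq_or_eq_neg.1 (add_right_cancel h1) with h | h
  · exact ⟨_, h⟩
  · exact ⟨y / 2 + 1 / 2, by rw [B.half (by linarith), h]⟩

theorem iter {t : ℝ} (ht : 0 < t) (y : ℝ) (n : ℕ) :
    (qf B.c)^[n] (B.Ψ t y) = B.Ψ (2 ^ n * t) (2 ^ n * y) := by
  induction n with
  | zero => simp
  | succ n ih =>
    rw [Function.iterate_succ_apply', ih, ← B.dbl _ _ (by positivity)]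
    congr 1 <;> ring

theorem ray_inf (y : ℝ) : Tendsto (fun t => B.Ψ t y) atTop (Bornology.cobounded ℂ) := by
  obtain ⟨R, hR⟩ := B.asym (1 / 2) (by norm_num)
  rw [← tendsto_norm_atTop_iff_cobounded]
  refine tendsto_atTop_mono' _ ?_ (Real.tendsto_exp_atTop.atTop_div_const (show (0 : ℝ) < 2 by norm_num))
  filter_upwards [eventually_ge_atTop R] with t ht
  have h1 := hR t ht y
  have h2 := norm_sub_norm_le (1 : ℂ) (1 - B.Ψ t y / ex t y)
  rw [norm_sub_rev] at h1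
  simp only [norm_one, sub_sub_cancel, norm_div, norm_ex] at h2
  have h3 : 1 / 2 ≤ ‖B.Ψ t y‖ / Real.exp t := by linarith
  rw [le_div_iff₀ (Real.exp_pos t)] at h3
  linarith

/-- The ray of angle `y` lands at `z`. -/
def Lands (y : ℝ) (z : ℂ) : Prop := Tendsto (fun t => B.Ψ t y) (𝓝[>] 0) (𝓝 z)

variable {B}

theorem Lands.unique {y : ℝ} {z z' : ℂ} (h : B.Lands y z) (h' : B.Lands y z') : z = z' :=
  tendsto_nhds_unique h h'

theorem Lands.int {y : ℝ} {z : ℂ} (h : B.Lands y z) (m : ℤ) : B.Lands (y + m) z := by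
  unfold Lands at *; simpa only [B.per] using h

theorem Lands.half {y : ℝ} {z : ℂ} (h : B.Lands y z) : B.Lands (y + 1 / 2) (-z) := by
  refine (Tendsto.neg h).congr' ?_
  filter_upwards [self_mem_nhdsWithin] with t ht
  exact (B.half ht y).symm

theorem tendsto_mul_nhdsGT {a : ℝ} (ha : 0 < a) :
    Tendsto (fun t : ℝ => a * t) (𝓝[>] 0) (𝓝[>] 0) := by
  refine tendsto_nhdsWithin_iff.2 ⟨?_, ?_⟩
  · have : Tendsto (fun t : ℝ => a * t) (𝓝 0) (𝓝 (a * 0)) := (continuous_const_mul a).tendsto 0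
    rw [mul_zero] at this
    exact this.mono_left nhdsWithin_le_nhds
  · filter_upwards [self_mem_nhdsWithin] with t ht
    exact mul_pos ha ht

theorem Lands.dbl {y : ℝ} {z : ℂ} (h : B.Lands y z) : B.Lands (2 * y) (qf B.c z) := by
  have := ((continuous_qf B.c).tendsto z).comp
    (Tendsto.comp h (tendsto_mul_nhdsGT (show (0 : ℝ) < 1 / 2 by norm_num)))
  refine this.congr' ?_
  filter_upwards [self_mem_nhdsWithin] with t ht
  have ht' : (0 : ℝ) < t := ht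
  simp only [Function.comp]
  rw [← B.dbl _ _ (by linarith)]
  congr 1; ring

theorem Lands.iter {y : ℝ} {z : ℂ} (h : B.Lands y z) (n : ℕ) :
    B.Lands (2 ^ n * y) ((qf B.c)^[n] z) := by
  induction n with
  | zero => simpa using h
  | succ n ih =>
    rw [Function.iterate_succ_apply', pow_succ', mul_assoc]
    exact ih.dbl

theorem Lands.sq {y : ℝ} {z : ℂ} (h : B.Lands y (qf B.c z)) :
    Tendsto (fun t => B.Ψ t (y / 2) ^ 2) (𝓝[>] 0) (𝓝 (z ^ 2)) := by
  have := (Tendsto.comp h (tendsto_mul_nhdsGT (show (0 : ℝ) < 2 by norm_num))).sub_const B.c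
  rw [qf, add_sub_cancel_right] at this
  refine this.congr' ?_
  filter_upwards [self_mem_nhdsWithin] with t ht
  have := B.dbl t (y / 2) ht
  rw [mul_div_cancel₀ _ two_ne_zero] at this
  simp [this, qf]

theorem Lands.zero {y : ℝ} (h : B.Lands y B.c) : B.Lands (y / 2) 0 := by
  have h1 := Lands.sq (z := 0) (by simpa [qf] using h)
  have h2 := (Real.continuous_sqrt.tendsto _).comp h1.norm
  rw [Lands, tendsto_zero_iff_norm_tendsto_zero]
  simpa [Function.comp_def] using h2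

theorem Lands.pre {y : ℝ} {z : ℂ} (hz : z ≠ 0) (h : B.Lands y (qf B.c z)) :
    ∃ y', B.Lands y' z ∧ ∃ m : ℤ, 2 * y' = y + m := by
  have h1 := h.sq
  have hz2 : 0 < ‖z ^ 2‖ := norm_pos_iff.2 (pow_ne_zero 2 hz)
  obtain ⟨q, hq, hq2⟩ := exists_sqrt_ball (x := z ^ 2) (s := 0) (r := ‖z ^ 2‖) (by simp)
  simp only [sub_zero] at hq2
  obtain ⟨δ, hδ, h2⟩ := (nhdsGT_basis 0).eventually_iff.1 (h1.eventually (ball_mem_nhds _ hz2))
  have hc : ContinuousOn (fun t => B.Ψ t (y / 2)) (Ioo 0 δ) :=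
    B.contOn continuousOn_id continuousOn_const fun t ht => ht.1
  obtain ⟨e, he⟩ := exists_sg (a := B.Ψ (δ / 2) (y / 2)) (b := q (B.Ψ (δ / 2) (y / 2) ^ 2))
    (hq2 _).symm
  have h3 := sq_unique isPreconnected_Ioo hc (v := fun t => sg e * q (B.Ψ t (y / 2) ^ 2))
    (continuousOn_const.mul (hq.comp (hc.pow 2) fun t ht => h2 ht))
    (fun t _ => by rw [mul_pow, sg_sq, one_mul, hq2]) (fun t ht => mul_ne_zero (sg_ne e) fun e0 => by
      have a := hq2 (B.Ψ t (y / 2) ^ 2)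
      have b := h2 ht
      rw [← a, e0] at b
      simp at b) (a := δ / 2) ⟨by linarith, by linarith⟩ he
  have h4 : B.Lands (y / 2) (sg e * q (z ^ 2)) := by
    have := ((hq.continuousAt (ball_mem_nhds _ hz2)).tendsto.comp h1).const_mul (sg e)
    refine this.congr' ?_
    filter_upwards [Ioo_mem_nhdsGT hδ] with t ht
    exact (h3 t ht).symm
  rcases sq_eq_sq_iff_eq_or_eq_neg.1 (show (sg e * q (z ^ 2)) ^ 2 = z ^ 2 by
    rw [mul_pow, sg_sq, one_mul, hq2]) with h5 | h5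
  · exact ⟨y / 2, h5 ▸ h4, 0, by simp; ring⟩
  · refine ⟨y / 2 + 1 / 2, ?_, 1, by push_cast; ring⟩
    have := h4.half
    rwa [h5, neg_neg] at this

/-- The leg along a landing ray, with potential scale `a`. -/
noncomputable def mkLeg {a : ℝ} (ha : 0 < a) {y : ℝ} {z : ℂ} (h : B.Lands y z) : Leg where
  l u := if u < 1 then B.Ψ (a * ((1 - u) / u)) y else z
  cont := by
    intro u hu
    have hc : ContinuousOn (fun u : ℝ => B.Ψ (a * ((1 - u) / u)) y) (Ioo 0 1) :=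
      B.contOn (continuousOn_const.mul ((continuousOn_const.sub continuousOn_id).div continuousOn_id
        fun u hu => ne_of_gt hu.1)) continuousOn_const fun u hu =>
          mul_pos ha (div_pos (by linarith [hu.2]) hu.1)
    rcases lt_or_eq_of_le hu.2 with h1 | h1
    · refine ContinuousAt.continuousWithinAt ?_
      refine (hc.continuousAt (Ioo_mem_nhds hu.1 h1)).congr ?_
      filter_upwards [Ioo_mem_nhds hu.1 h1] with v hv
      exact (if_pos hv.2).symm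
    · subst h1
      refine ContinuousWithinAt.mono (continuousWithinAt_Iio_iff_Iic.1 ?_) Ioc_subset_Iic_self
      rw [ContinuousWithinAt, if_neg (lt_irrefl _)]
      have h2 : Tendsto (fun u : ℝ => (1 - u) / u) (𝓝[<] 1) (𝓝[>] 0) := by
        refine tendsto_nhdsWithin_iff.2 ⟨?_, ?_⟩
        · have : ContinuousAt (fun u : ℝ => (1 - u) / u) 1 := by fun_prop (disch := norm_num)
          simpa using this.tendsto.mono_left nhdsWithin_le_nhds
        · filter_upwards [Ioo_mem_nhdsLT (show (0 : ℝ) < 1 by norm_num)] with u hu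
          exact div_pos (by linarith [hu.2]) hu.1
      refine (Tendsto.comp h ((tendsto_mul_nhdsGT ha).comp h2)).congr' ?_
      filter_upwards [self_mem_nhdsWithin] with u hu
      exact (if_pos hu).symm
  inf := by
    have h2 : Tendsto (fun u : ℝ => a * ((1 - u) / u)) (𝓝[>] 0) atTop := by
      refine Tendsto.const_mul_atTop ha ?_
      refine (tendsto_atTop_add_const_right _ (-1) tendsto_inv_nhdsGT_zero).congr' ?_
      filter_upwards [self_mem_nhdsWithin] with u hu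
      have : u ≠ 0 := ne_of_gt hu
      field_simp
      ring
    refine ((B.ray_inf y).comp h2).congr' ?_
    filter_upwards [Ioo_mem_nhdsGT (show (0 : ℝ) < 1 by norm_num)] with u hu
    exact (if_pos hu.2).symm

variable (B) in
/-- The leg consists of the ray of angle `y` and its landing point `z`. -/
structure IsRay (L : Leg) (y : ℝ) (z : ℂ) : Prop where
  lands : B.Lands y z
  notU : z ∉ B.U
  tip : L.tip = z
  mem : ∀ w, w ∈ L.set ↔ w = z ∨ ∃ t, 0 < t ∧ B.Ψ t y = w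

theorem isRay_mkLeg {a : ℝ} (ha : 0 < a) {y : ℝ} {z : ℂ} (h : B.Lands y z) (hz : z ∉ B.U) :
    B.IsRay (mkLeg ha h) y z := by
  refine ⟨h, hz, by simp [Leg.tip, mkLeg], fun w => ⟨?_, ?_⟩⟩
  · rintro ⟨u, hu, rfl⟩
    by_cases h1 : u < 1
    · exact Or.inr ⟨_, mul_pos ha (div_pos (by linarith) hu.1), (if_pos h1).symm⟩
    · exact Or.inl (if_neg h1)
  · rintro (rfl | ⟨t, ht, rfl⟩)
    · exact ⟨1, by simp, by simp [mkLeg]⟩
    · have h1 : a / (a + t) < 1 := by rw [div_lt_one (by linarith)]; linarith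
      refine ⟨a / (a + t), ⟨by positivity, h1.le⟩, ?_⟩
      simp only [mkLeg, if_pos h1]
      congr 1
      field_simp
      ring

theorem IsRay.int {L : Leg} {y : ℝ} {z : ℂ} (h : B.IsRay L y z) (m : ℤ) : B.IsRay L (y + m) z :=
  ⟨h.lands.int m, h.notU, h.tip, fun w => by simpa only [B.per] using h.mem w⟩

theorem IsRay.mem_iff {L : Leg} {y : ℝ} {z : ℂ} (h : B.IsRay L y z) {t y' : ℝ} (ht : 0 < t) :
    B.Ψ t y' ∈ L.set ↔ ∃ m : ℤ, y' = y + m := by
  rw [h.mem]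
  constructor
  · rintro (e | ⟨t', ht', e⟩)
    · exact absurd ⟨t, y', ht, e⟩ h.notU
    · exact (B.inj _ _ _ _ ht' ht e).2
  · rintro ⟨m, rfl⟩
    exact Or.inr ⟨t, ht, (B.per _ _ _).symm⟩

theorem IsRay.not_mem {L : Leg} {y : ℝ} {z : ℂ} (h : B.IsRay L y z) {z' : ℂ} (hz : z' ∉ B.U)
    (hne : z' ≠ z) : z' ∉ L.set := by
  rw [h.mem]
  rintro (e | ⟨t, ht, e⟩)
  · exact hne e
  · exact hz ⟨t, y, ht, e⟩

theorem IsRay.not_mem_of_lands {L : Leg} {y : ℝ} {z : ℂ} (h : B.IsRay L y z) {y' : ℝ} {z' : ℂ}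
    (h' : B.Lands y' z') (hne : z' ≠ z) {t : ℝ} (ht : 0 < t) : B.Ψ t y' ∉ L.set := by
  rw [h.mem_iff ht]
  rintro ⟨m, rfl⟩
  exact hne (h'.unique (h.lands.int m))

theorem IsRay.not_mem_Ioo {L : Leg} {y : ℝ} {z : ℂ} (h : B.IsRay L y z) {t y' : ℝ} (ht : 0 < t)
    (hy : y' ∈ Ioo y (y + 1)) : B.Ψ t y' ∉ L.set := by
  rw [h.mem_iff ht]
  rintro ⟨m, rfl⟩
  have h1 : (0 : ℤ) < m := by have := hy.1; exact_mod_cast (by linarith : (0 : ℝ) < m)
  have h2 : m < (1 : ℤ) := by have := hy.2; exact_mod_cast (by linarith : (m : ℝ) < 1)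
  omega

theorem IsRay.disj {L L' : Leg} {y y' : ℝ} {z z' : ℂ} (h : B.IsRay L y z) (h' : B.IsRay L' y' z')
    (hne : z ≠ z') : Disjoint L.set L'.set := by
  rw [disjoint_left]
  intro w hw
  rcases (h.mem w).1 hw with rfl | ⟨t, ht, rfl⟩
  · exact h'.not_mem h.notU hne
  · exact h'.not_mem_of_lands h.lands hne ht

variable (B) in
theorem exists_w (z : ℂ) : ∃ R, 0 < R ∧ ∃ w : ℝ → ℂ, Continuous w ∧
    (∀ y, w y ^ 2 = B.Ψ R y - z) ∧ ∀ y, w (y + 1) = -w y := by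
  obtain ⟨R0, hR0⟩ := B.asym (1 / 2) (by norm_num)
  obtain ⟨R, hR1, hR2, hR3⟩ : ∃ R : ℝ, 0 < R ∧ R0 ≤ R ∧ 2 * ‖z‖ ≤ Real.exp R :=
    ⟨max (max 1 R0) (2 * ‖z‖), lt_of_lt_of_le one_pos ((le_max_left _ _).trans (le_max_left _ _)),
      (le_max_right _ _).trans (le_max_left _ _), by
        have := Real.add_one_le_exp (max (max 1 R0) (2 * ‖z‖))
        linarith [le_max_right (max 1 R0) (2 * ‖z‖)]⟩
  obtain ⟨q, hq, hq2⟩ := exists_sqrt_ball (x := 1) (s := 0) (r := 1) (by simp)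
  simp only [sub_zero] at hq2
  have hm : ∀ y, (B.Ψ R y - z) / ex R y ∈ ball (1 : ℂ) 1 := by
    intro y
    rw [mem_ball, dist_eq_norm, sub_div, sub_right_comm]
    have h1 := hR0 R hR2 y
    have h2 : ‖z / ex R y‖ ≤ 1 / 2 := by
      rw [norm_div, norm_ex, div_le_iff₀ (Real.exp_pos R)]; linarith
    linarith [norm_sub_le (B.Ψ R y / ex R y - 1) (z / ex R y)]
  have hc : Continuous fun y => B.Ψ R y :=
    continuousOn_univ.1 (B.contOn continuousOn_const continuousOn_id fun _ _ => hR1)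
  have hex : Continuous fun y => ex R y := by unfold ex; fun_prop
  refine ⟨R, hR1, fun y => ex (R / 2) (y / 2) * q ((B.Ψ R y - z) / ex R y),
    Continuous.mul (by unfold ex; fun_prop)
      (hq.comp_continuous ((hc.sub continuous_const).div hex fun y => ex_ne _ _) hm),
    fun y => ?_, fun y => ?_⟩
  · have : ex (R / 2) (y / 2) ^ 2 = ex R y := by
      rw [ex, ex, ← Complex.exp_nat_mul]; congr 1; push_cast; ring
    rw [mul_pow, hq2, this, mul_div_cancel₀ _ (ex_ne _ _)]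
  · have h1 : B.Ψ R (y + 1) = B.Ψ R y := by simpa using B.per R y 1
    have h2 : ex R (y + 1) = ex R y := by
      rw [ex, ex, ← mul_one (Complex.exp (R + 2 * Real.pi * y * Complex.I)),
        ← Complex.exp_two_pi_mul_I, ← Complex.exp_add]
      congr 1; push_cast; ring
    have h3 : ex (R / 2) ((y + 1) / 2) = -ex (R / 2) (y / 2) := by
      rw [ex, ex, ← mul_neg_one, ← Complex.exp_pi_mul_I, ← Complex.exp_add]
      congr 1; push_cast; ring
    simp only [h1, h2, h3, neg_mul]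

theorem IsRay.branch {L : Leg} {y0 : ℝ} {z : ℂ} (hL : B.IsRay L y0 z) {h : ℂ → ℂ} (hh : L.IsBr h)
    {R : ℝ} (hR : 0 < R) {w : ℝ → ℂ} (hw : Continuous w) (hw2 : ∀ y, w y ^ 2 = B.Ψ R y - z) :
    ∃ d, ∀ y ∈ Ioo y0 (y0 + 1), w y = sg d * h (B.Ψ R y) := by
  have hm : y0 + 1 / 2 ∈ Ioo y0 (y0 + 1) := ⟨by linarith, by linarith⟩
  obtain ⟨d, hd⟩ := exists_sg (a := w (y0 + 1 / 2)) (b := h (B.Ψ R (y0 + 1 / 2)))
    (by rw [hw2, hh.sq _ (hL.not_mem_Ioo hR hm), hL.tip])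
  exact ⟨d, sq_unique isPreconnected_Ioo hw.continuousOn (continuousOn_const.mul (hh.cont.comp
    (B.contOn continuousOn_const continuousOn_id fun _ _ => hR) fun y hy => hL.not_mem_Ioo hR hy))
    (fun y hy => by rw [mul_pow, sg_sq, one_mul, hw2, hh.sq _ (hL.not_mem_Ioo hR hy), hL.tip])
    (fun y hy => mul_ne_zero (sg_ne d) (hh.ne (hL.not_mem_Ioo hR hy))) hm hd⟩

theorem radial {L0 L1 : Leg} {y0 y1 : ℝ} {z : ℂ} (r0 : B.IsRay L0 y0 z) (r1 : B.IsRay L1 y1 z)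
    {h0 h1 : ℂ → ℂ} (b0 : L0.IsBr h0) (b1 : L1.IsBr h1) {y : ℝ} {z' : ℂ} (hl : B.Lands y z')
    (hz' : z' ∉ B.U) (hne : z' ≠ z) {R : ℝ} (hR : 0 < R) {e : Bool}
    (he : h0 (B.Ψ R y) = sg e * h1 (B.Ψ R y)) : h0 z' = sg e * h1 z' := by
  have hc : ContinuousOn (fun t => B.Ψ t y) (Ioi 0) :=
    B.contOn continuousOn_id continuousOn_const fun t ht => ht
  have n0 : ∀ t ∈ Ioi (0 : ℝ), B.Ψ t y ∉ L0.set := fun t ht => r0.not_mem_of_lands hl hne ht
  have n1 : ∀ t ∈ Ioi (0 : ℝ), B.Ψ t y ∉ L1.set := fun t ht => r1.not_mem_of_lands hl hne ht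
  have := sq_unique isPreconnected_Ioi (b0.cont.comp hc n0)
    (v := fun t => sg e * h1 (B.Ψ t y)) (continuousOn_const.mul (b1.cont.comp hc n1))
    (fun t ht => by
      simp only [Function.comp]
      rw [mul_pow, sg_sq, one_mul, b0.sq _ (n0 t ht), b1.sq _ (n1 t ht), r0.tip, r1.tip])
    (fun t ht => mul_ne_zero (sg_ne e) (b1.ne (n1 t ht))) hR he
  have t0 := (b0.cont.continuousAt (L0.closed.isOpen_compl.mem_nhds (r0.not_mem hz' hne))).tendsto.comp hl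
  have t1 := ((b1.cont.continuousAt
    (L1.closed.isOpen_compl.mem_nhds (r1.not_mem hz' hne))).tendsto.comp hl).const_mul (sg e)
  refine tendsto_nhds_unique t0 (t1.congr' ?_)
  filter_upwards [self_mem_nhdsWithin] with t ht
  exact (this t ht).symm

theorem sectors {L0 L1 : Leg} {y0 y1 : ℝ} {z : ℂ} (r0 : B.IsRay L0 y0 z) (r1 : B.IsRay L1 y1 z)
    {h0 h1 : ℂ → ℂ} (b0 : L0.IsBr h0) (b1 : L1.IsBr h1) (h01 : y0 ≤ y1) (h10 : y1 ≤ y0 + 1) :
    ∃ e, ∀ y z', B.Lands y z' → z' ∉ B.U → z' ≠ z →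
      (y ∈ Ioo y1 (y0 + 1) → h0 z' = sg e * h1 z') ∧ (y ∈ Ioo y0 y1 → h0 z' = sg (!e) * h1 z') := by
  obtain ⟨R, hR, w, w1, w2, w3⟩ := B.exists_w z
  obtain ⟨d0, hd0⟩ := r0.branch b0 hR w1 w2
  obtain ⟨d1, hd1⟩ := r1.branch b1 hR w1 w2
  refine ⟨xor d0 d1, fun y z' hl hz' hne => ⟨fun hy => radial r0 r1 b0 b1 hl hz' hne hR ?_,
    fun hy => radial r0 r1 b0 b1 hl hz' hne hR ?_⟩⟩
  · have a0 := hd0 y ⟨by linarith [hy.1], hy.2⟩
    have a1 := hd1 y ⟨hy.1, by linarith [hy.2]⟩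
    rw [a0] at a1
    revert a1
    cases d0 <;> cases d1 <;> simp only [sg] <;> intro a1 <;> simp at a1 ⊢ <;>
      first | exact a1 | linear_combination -a1
  · have a0 := hd0 y ⟨hy.1, by linarith [hy.2]⟩
    have a1 := hd1 (y + 1) ⟨by linarith [hy.1], by linarith [hy.2]⟩
    have h1' : B.Ψ R (y + 1) = B.Ψ R y := by simpa using B.per R y 1
    rw [w3, a0, h1'] at a1
    revert a1
    cases d0 <;> cases d1 <;> simp only [sg] <;> intro a1 <;> simp at a1 ⊢ <;>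
      first | exact a1 | linear_combination -a1

theorem exists_shift (y0 y : ℝ) : ∃ m : ℤ, y0 ≤ y + m ∧ y + m < y0 + 1 :=
  ⟨⌈y0 - y⌉, by linarith [Int.le_ceil (y0 - y)], by linarith [Int.ceil_lt_add_one (y0 - y)]⟩

theorem unlink {y0 y1 : ℝ} {z : ℂ} (l0 : B.Lands y0 z) (l1 : B.Lands y1 z) (hz : z ∉ B.U)
    (h10 : y1 ≤ y0 + 1) {a b : ℝ} {z' : ℂ} (la : B.Lands a z') (lb : B.Lands b z') (hz' : z' ∉ B.U)
    (hne : z' ≠ z) (ha : a ∈ Ioo y0 y1) : ∃ m : ℤ, b + m ∈ Ioo y0 y1 := by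
  have r0 := isRay_mkLeg one_pos l0 hz
  have r1 := isRay_mkLeg one_pos l1 hz
  obtain ⟨h0, b0⟩ := (mkLeg one_pos l0).exists_isBr
  obtain ⟨h1, b1⟩ := (mkLeg one_pos l1).exists_isBr
  obtain ⟨e, he⟩ := sectors r0 r1 b0 b1 (ha.1.trans ha.2).le h10
  obtain ⟨m, m1, m2⟩ := exists_shift y0 b
  refine ⟨m, lt_of_le_of_ne m1 fun e => hne ((lb.int m).unique (e ▸ l0)), ?_⟩
  by_contra h
  have h' : y1 < b + m := lt_of_le_of_ne (not_lt.1 h) fun e => hne ((lb.int m).unique (e ▸ l1))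
  have a1 := (he _ _ (lb.int m) hz' hne).1 ⟨h', m2⟩
  have a2 := (he _ _ la hz' hne).2 ha
  have := sg_inj (mul_right_cancel₀ (b1.ne (r1.not_mem hz' hne)) (a1.symm.trans a2))
  simp at this

theorem abs_add_int {d : ℝ} (_h0 : 0 ≤ d) (h1 : d ≤ 1 / 2) (m : ℤ) : d ≤ |d + m| := by
  rcases le_or_gt 0 m with h | h
  · have : (0 : ℝ) ≤ m := by exact_mod_cast h
    exact le_trans (by linarith) (le_abs_self _)
  · have : (m : ℝ) ≤ -1 := by exact_mod_cast (by omega : m ≤ -1)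
    exact le_trans (by linarith) (neg_le_abs _)

variable (B) in
/-- The critical value does not escape, and the critical point is not periodic. -/
structure Mis : Prop where
  notU : ∀ k, (qf B.c)^[k] B.c ∉ B.U
  ne0 : ∀ k, (qf B.c)^[k] B.c ≠ 0

theorem Mis.ne_c (M : B.Mis) (k : ℕ) : (qf B.c)^[k + 1] B.c ≠ B.c := by
  rw [Function.iterate_succ_apply']
  intro e
  exact M.ne0 k (by simpa [qf] using e)

theorem Mis.zero (M : B.Mis) : (0 : ℂ) ∉ B.U := by
  rintro ⟨t, y, ht, e⟩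
  exact M.notU 0 ⟨2 * t, 2 * y, by linarith, by rw [B.dbl _ _ ht, e]; simp [qf]⟩

theorem Mis.short (M : B.Mis) {y0 y1 : ℝ} (l0 : B.Lands y0 B.c) (l1 : B.Lands y1 B.c)
    (h01 : y0 < y1) (h10 : y1 - y0 ≤ 1 / 2) (k : ℕ) {a : ℝ}
    (la : B.Lands a ((qf B.c)^[k + 1] B.c)) : a ∉ Ioo y0 y1 := by
  have nh : ∀ k α, B.Lands α ((qf B.c)^[k] B.c) → ¬ B.Lands (α + 1 / 2) ((qf B.c)^[k] B.c) :=
    fun k α h h' => M.ne0 k (by linear_combination (h'.unique h.half) / 2)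
  have step : ∀ k α d, B.Lands α ((qf B.c)^[k] B.c) → B.Lands (α + d) ((qf B.c)^[k] B.c) →
      y1 - y0 ≤ d → d < 1 / 2 → ∃ α' d', B.Lands α' ((qf B.c)^[k + 1] B.c) ∧
        B.Lands (α' + d') ((qf B.c)^[k + 1] B.c) ∧ y1 - y0 < d' ∧ d' < 1 / 2 := by
    intro k α d la ld h1 h2
    have la' := la.dbl
    have ld' := ld.dbl
    rw [← Function.iterate_succ_apply' (qf B.c)] at la' ld'
    have key : ∀ y, B.Lands y B.c → ∃ j : ℤ, y + j ∈ Ioo (2 * α + 2 * d) (2 * α + 1) := by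
      intro y ly
      obtain ⟨j, j1, j2⟩ := exists_shift (2 * α) y
      refine ⟨j, ?_, j2⟩
      by_contra h
      have j3 : 2 * α < y + j := lt_of_le_of_ne j1 fun e =>
        M.ne_c k (la'.unique (e ▸ ly.int j))
      have j4 : y + j < 2 * α + 2 * d := lt_of_le_of_ne (not_lt.1 h) fun e =>
        M.ne_c k (ld'.unique (by rw [mul_add, ← e]; exact ly.int j))
      have z1 := (ly.int j).zero
      have z2 := z1.half
      rw [neg_zero] at z2
      obtain ⟨m, m1, m2⟩ := unlink la ld (M.notU k) (by linarith) z1 z2 M.zero (M.ne0 k).symm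
        ⟨by linarith, by linarith⟩
      have := abs_add_int (d := 1 / 2) (by norm_num) le_rfl m
      have h3 : |1 / 2 + (m : ℝ)| < d := abs_lt.2 ⟨by linarith, by linarith⟩
      linarith
    rcases lt_trichotomy (2 * d) (1 / 2) with h | h | h
    · exact ⟨2 * α, 2 * d, la', by rwa [← mul_add], by linarith, h⟩
    · exact absurd (by rwa [mul_add, h] at ld') (nh _ _ la')
    · obtain ⟨j0, a1, a2⟩ := key y0 l0
      obtain ⟨j1, b1, b2⟩ := key y1 l1
      refine ⟨2 * (α + d), 1 - 2 * d, ld', ?_, ?_, by linarith⟩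
      · have := la'.int 1
        rwa [show 2 * α + ((1 : ℤ) : ℝ) = 2 * (α + d) + (1 - 2 * d) by push_cast; ring] at this
      · refine lt_of_le_of_lt (abs_add_int (by linarith) h10 (j1 - j0)) (abs_lt.2 ⟨?_, ?_⟩) <;>
          push_cast <;> linarith
  have main : ∀ k, ∃ α' d', B.Lands α' ((qf B.c)^[k + 1] B.c) ∧
      B.Lands (α' + d') ((qf B.c)^[k + 1] B.c) ∧ y1 - y0 < d' ∧ d' < 1 / 2 := by
    intro k
    induction k with
    | zero =>
      refine step 0 y0 (y1 - y0) l0 (by simpa using l1) le_rfl (lt_of_le_of_ne h10 fun e => ?_)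
      exact nh 0 y0 l0 (by rw [← e]; simpa using l1)
    | succ k ih =>
      obtain ⟨α, d, a1, a2, a3, a4⟩ := ih
      exact step _ α d a1 a2 a3.le a4
  intro ha
  obtain ⟨α, d, a1, a2, a3, a4⟩ := main k
  obtain ⟨m1, b1, b2⟩ := unlink l0 l1 (M.notU 0) (by linarith) la a1 (M.notU _) (M.ne_c k) ha
  obtain ⟨m2, c1, c2⟩ := unlink l0 l1 (M.notU 0) (by linarith) la a2 (M.notU _) (M.ne_c k) ha
  have := abs_add_int (d := d) (by linarith) a4.le (m2 - m1)
  have h3 : |d + ((m2 - m1 : ℤ) : ℝ)| < y1 - y0 := abs_lt.2 ⟨by push_cast; linarith, by push_cast; linarith⟩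
  linarith

theorem Mis.const (M : B.Mis) {L0 L1 : Leg} {y0 y1 : ℝ} (r0 : B.IsRay L0 y0 B.c)
    (r1 : B.IsRay L1 y1 B.c) {h0 h1 : ℂ → ℂ} (b0 : L0.IsBr h0) (b1 : L1.IsBr h1) :
    ∃ e, ∀ k, h0 ((qf B.c)^[k + 1] B.c) = sg e * h1 ((qf B.c)^[k + 1] B.c) := by
  obtain ⟨m, m1, m2⟩ := exists_shift y0 y1
  have r1' := r1.int m
  obtain ⟨e, he⟩ := sectors r0 r1' b0 b1 m1 m2.le
  have hk : ∀ k, ∃ a, B.Lands a ((qf B.c)^[k + 1] B.c) ∧ y0 < a ∧ a < y0 + 1 ∧ a ≠ y1 + m := by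
    intro k
    have la := r0.lands.iter (k + 1)
    obtain ⟨j, j1, j2⟩ := exists_shift y0 (2 ^ (k + 1) * y0)
    exact ⟨_, la.int j, lt_of_le_of_ne j1 fun e => M.ne_c k ((la.int j).unique (e ▸ r0.lands)), j2,
      fun e => M.ne_c k ((la.int j).unique (e ▸ r1'.lands))⟩
  by_cases hs : y1 + m - y0 ≤ 1 / 2
  · refine ⟨e, fun k => ?_⟩
    obtain ⟨a, la, a1, a2, a3⟩ := hk k
    refine (he a _ la (M.notU _) (M.ne_c k)).1 ⟨?_, a2⟩
    by_contra h
    have h' : a < y1 + m := lt_of_le_of_ne (not_lt.1 h) a3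
    exact M.short r0.lands r1'.lands (a1.trans h') hs k la ⟨a1, h'⟩
  · refine ⟨!e, fun k => ?_⟩
    obtain ⟨a, la, a1, a2, a3⟩ := hk k
    refine (he a _ la (M.notU _) (M.ne_c k)).2 ⟨a1, ?_⟩
    by_contra h
    have h' : y1 + m < a := lt_of_le_of_ne (not_lt.1 h) a3.symm
    exact M.short r1'.lands (by simpa using r0.lands.int 1) m2 (by linarith) k la ⟨h', a2⟩

end BD

end Pool.Agent.MP_61ef33_al

end
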