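import Pool.Agent.Mg.F61ef33.G942b22
import Pool.Agent.Mg.F61ef33.G6578bc
import Pool.Agent.MP_61ef33_al.Defs2
import Pool.Agent.Mg.F61ef33.Gd91748
import Pool.Agent.MP_61ef33_al.Defs3
import Pool.Agent.Mg.F61ef33.Ga1a4a1

section

/- Separation of itineraries; the iterated monodromy group is the kneading automaton group. -/

namespace Pool.Agent.MP_61ef33_al

open Filter Topology Set Metric unitInterval Polynomial

namespace Spider

variable {S : Type} {A : Spider S}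

variable (A) in
def addr : ℕ → (ℕ → S) → List Bool
  | 0, _ => []
  | n + 1, s => A.cl (s 1) :: addr n fun j => s (j + 1)

theorem addr_length (n : ℕ) (s : ℕ → S) : (A.addr n s).length = n := by
  induction n generalizing s with
  | zero => rfl
  | succ n ih => simp [addr, ih]

theorem addr_congr (n : ℕ) {s t : ℕ → S} (h : ∀ j, A.cl (s j) = A.cl (t j)) :
    A.addr n s = A.addr n t := by
  induction n generalizing s t with
  | zero => rfl
  | succ n ih => rw [addr, addr, h, ih fun j => h (j + 1)]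

theorem Hyp.chain {n k : ℕ} {s : ℕ → S} (hs : ∀ j, A.nx (s (j + 1)) = s j) {η : I → ℂ} {e : Bool}
    (hη : Continuous η) (H : A.Hyp k (s 0) (fun τ => (qf A.c)^[n] (η τ)) e)
    (h : A.lab k n (η 0) = A.addr n s) :
    (∃ k', A.Hyp k' (s n) η e) ∧ A.lab k n (η 1) = A.lab k n (η 0) := by
  induction n generalizing k s with
  | zero => exact ⟨⟨k, H⟩, rfl⟩
  | succ n ih =>
    simp only [Function.iterate_succ_apply'] at H
    have hγ : Continuous fun τ => (qf A.c)^[n] (η τ) := ((continuous_qf A.c).iterate n).comp hη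
    rw [← hs 0] at H
    simp only [Spider.lab, addr, List.cons.injEq] at h ⊢
    obtain ⟨h1, h2⟩ := ih (s := fun j => s (j + 1)) (fun j => hs (j + 1)) (H.step hγ h.1.symm) h.2
    exact ⟨h1, H.sd_const hγ (A.ha _) 1, h2⟩

theorem approx [Finite S] (hs : ∀ x ∉ range A.pt, A.Shr x) {t0 : ℂ}
    (hf : ∀ s, ∀ ε > 0, ∃ a ∈ Metric.ball (A.pt s) ε, a ∈ A.Om 0 ∧ A.Mon t0 a 1)
    {s : ℕ → S} (h : ∀ j, A.nx (s (j + 1)) = s j) : ∃ a ∈ A.Om 0, A.Mon t0 a 1 ∧ ∀ ε > 0, ∃ N,
      ∀ n ≥ N, ∀ y, (qf A.c)^[n] y = a → A.lab 0 n y = A.addr n s → dist y (A.pt (s n)) ≤ ε := by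
  obtain ⟨r, hr0, hr⟩ := Metric.isOpen_iff.1 (A.isOpen_others 0 (s 0)) (A.pt (s 0))
    fun t ht => disjoint_left.1 (A.disj 0 _ t ht.symm) (A.pt_mem 0 _)
  obtain ⟨a, a1, a2, a3⟩ := hf (s 0) r hr0
  have H := hyp_circ (fun t ht z hz => hr hz t ht) a1 (a2 _)
  have hP : ∀ τ, circ (A.pt (s 0)) a τ ∉ range A.pt := by
    rintro τ ⟨t, ht⟩
    by_cases e : t = s 0
    · exact H.ne τ (e ▸ ht.symm)
    · exact H.avoid τ t e (ht ▸ A.pt_mem 0 t)
  refine ⟨a, a2, a3, fun ε hε => ?_⟩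
  obtain ⟨N, hN⟩ := A.shr_path hs (circ (A.pt (s 0)) a).continuous hP ε hε
  refine ⟨N, fun n hn y hy hl => ?_⟩
  obtain ⟨Γ, g1, g2, rfl⟩ := A.exists_lift (n := n) (circ (A.pt (s 0)) a).continuous hP (y := y)
    (by simpa using hy)
  have e' : (fun τ => (qf A.c)^[n] (Γ τ)) = circ (A.pt (s 0)) a := funext g2
  obtain ⟨⟨k', H'⟩, h2⟩ := Hyp.chain h g1 (e' ▸ H) hl
  have hcl : Γ 1 = Γ 0 := A.lab_inj a2 (by simp [g2]) hy h2
  by_contra hlt
  push Not at hlt
  obtain ⟨q, q1, q2⟩ := exists_sqrt_ball (x := Γ 0) (s := A.pt (s n))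
    (r := dist (Γ 0) (A.pt (s n))) (by simp [dist_comm])
  have := Leg.Par.unique (A.br _ _) (fun τ => by rw [A.tip]; exact H'.ne τ) H'.e1 H'.par
    (e' := false) ⟨fun τ => q (Γ τ), q1.comp_continuous g1 fun τ =>
      lt_of_le_of_lt (hN n hn Γ g1 g2 τ) hlt, fun τ => by rw [q2, A.tip], by simp [hcl, sg]⟩
  cases this

theorem separated [Finite S] (hs : ∀ x ∉ range A.pt, A.Shr x) {t0 : ℂ}
    (hf : ∀ s, ∀ ε > 0, ∃ a ∈ Metric.ball (A.pt s) ε, a ∈ A.Om 0 ∧ A.Mon t0 a 1) (s t : S)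
    (h : ∀ i, A.cl (A.nx^[i] s) = A.cl (A.nx^[i] t)) : s = t := by
  by_contra hne
  let T := {p : S × S // p.1 ≠ p.2 ∧ ∀ i, A.cl (A.nx^[i] p.1) = A.cl (A.nx^[i] p.2)}
  let F : T → T := fun p => ⟨(A.nx p.1.1, A.nx p.1.2), fun e => p.2.1 (A.hb _ _ e (p.2.2 0)),
    fun i => p.2.2 (i + 1)⟩
  obtain ⟨a, b, hab, e⟩ := Finite.exists_ne_map_eq_of_infinite
    (fun n => F^[n] (⟨(s, t), hne, h⟩ : T))
  wlog hlt : a < b generalizing a b
  · exact this b a hab.symm e.symm (by omega)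
  obtain ⟨q, rfl⟩ : ∃ q, b = q + 1 + a := ⟨b - a - 1, by omega⟩
  set p0 : T := F^[a] ⟨(s, t), hne, h⟩ with hp0
  have hfix : F^[q + 1] p0 = p0 := by
    rw [hp0, ← Function.iterate_add_apply]; exact e.symm
  let p : ℕ → T := fun k => F^[q * k] p0
  have hp : ∀ k, F (p (k + 1)) = p k := by
    intro k
    show F (F^[q * (k + 1)] p0) = F^[q * k] p0
    rw [← Function.iterate_succ_apply' F]
    have : (q * (k + 1)).succ = q * k + (q + 1) := by simp [Nat.succ_eq_add_one]; ring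
    rw [this, Function.iterate_add_apply, hfix]
  obtain ⟨a, a1, a2, a3⟩ := approx hs hf (s := fun k => (p k).1.1)
    fun j => congrArg (fun x : T => x.1.1) (hp j)
  obtain ⟨b, b1, b2, b3⟩ := approx hs hf (s := fun k => (p k).1.2)
    fun j => congrArg (fun x : T => x.1.2) (hp j)
  obtain ⟨δ, d1, d2⟩ := a2.symm.trans b2
  have : Nonempty T := ⟨p0⟩
  obtain ⟨p1, hp1⟩ := Finite.exists_min (α := T) fun x => dist (A.pt x.1.1) (A.pt x.1.2)
  have hm : 0 < dist (A.pt p1.1.1) (A.pt p1.1.2) := dist_pos.2 fun e => p1.2.1 (A.pt_inj e)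
  set m := dist (A.pt p1.1.1) (A.pt p1.1.2)
  obtain ⟨N1, h1⟩ := a3 (m / 4) (by linarith)
  obtain ⟨N2, h2⟩ := b3 (m / 4) (by linarith)
  obtain ⟨N3, h3⟩ := A.shr_path hs δ.continuous d1 (m / 4) (by linarith)
  set n := max N1 (max N2 N3)
  obtain ⟨y, y1, y2⟩ := A.lab_surj (A.addr n fun k => (p k).1.1) a1
  rw [addr_length] at y1 y2
  obtain ⟨z, hz⟩ := exists_tr d1 y1
  have z2 := d2 n y z hz
  have c1 := h1 n (le_max_left _ _) y y1 y2
  have c2 := h2 n ((le_max_left _ _).trans (le_max_right _ _)) z hz.tgt (by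
    rw [z2, y2]; simpa using addr_congr n fun j => (p j).2.2 0)
  obtain ⟨Γ, hΓ⟩ := hz
  have c3 := h3 n ((le_max_right _ _).trans (le_max_right _ _)) Γ Γ.continuous hΓ 1
  simp only [Path.target, Path.source] at c3
  have c4 := hp1 (p n)
  have c5 := dist_triangle4 (A.pt (p n).1.1) y z (A.pt (p n).1.2)
  rw [dist_comm] at c1 c3
  linarith

theorem img_equiv [Finite S] (hd : Dense (A.Om 0)) {t0 : ℂ} (h0 : t0 ∈ A.Om 0)
    (hf : ∀ g ∈ A.G, A.Mon t0 t0 g) {f : ℂ[X]} (hfe : (fun x => f.eval x) = qf A.c)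
    (hP : postcrit f = range A.pt) {t : ℂ} (ht : t ∉ range A.pt) :
    Nonempty (IMG f t ≃* A.G) := by
  obtain ⟨δ, hδ⟩ : JoinedIn (range A.pt)ᶜ t t0 :=
    ((finite_range A.pt).countable.isPathConnected_compl_of_one_lt_rank (by simp)).joinedIn
      t ht t0 (om_notP h0)
  have hit : ∀ n z, (fun x => f.eval x)^[n] z = (qf A.c)^[n] z := fun n z => by rw [hfe]
  have hv : ∀ v : PreTree f t, (qf A.c)^[v.1.1] v.1.2 = t := fun v => (hit _ _).symm.trans v.2
  choose E hE using fun v : PreTree f t => exists_tr (A := A) (γ := δ) hδ (hv v)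
  have hbij : Function.Bijective fun v : PreTree f t => A.lab 0 v.1.1 (E v) := by
    constructor
    · rintro ⟨⟨n, z⟩, hz⟩ ⟨⟨n', z'⟩, hz'⟩ e
      have hn : n = n' := by simpa [lab_length] using congrArg List.length e
      subst hn
      have e1 := A.lab_inj h0 (hE ⟨(n, z), hz⟩).tgt (hE ⟨(n, z'), hz'⟩).tgt e
      have := Tr.unique (notP_symm hδ) (hE ⟨(n, z), hz⟩).symm (e1 ▸ (hE ⟨(n, z'), hz'⟩).symm)
      simp only at this
      subst this
      rfl
    · intro w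
      obtain ⟨y, y1, y2⟩ := A.lab_surj w h0
      obtain ⟨z, hz⟩ := exists_tr (notP_symm hδ) y1
      have hz' := hz.symm
      rw [Path.symm_symm] at hz'
      refine ⟨⟨(w.length, z), (hit _ _).trans hz.tgt⟩, ?_⟩
      simp only
      rw [Tr.unique hδ (hE ⟨(w.length, z), (hit _ _).trans hz.tgt⟩) hz', y2]
  let e : PreTree f t ≃ List Bool := Equiv.ofBijective _ hbij
  have he : ∀ v, e v = A.lab 0 v.1.1 (E v) := fun _ => rfl
  have key : ∀ (γ : Path t t) (g : Equiv.Perm (List Bool)),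
      (∀ n z z', A.Tr ((δ.symm.trans γ).trans δ) n z z' → A.lab 0 n z' = g (A.lab 0 n z)) →
      ∀ v w : PreTree f t, w.1.1 = v.1.1 → A.Tr γ v.1.1 v.1.2 w.1.2 → e w = g (e v) := by
    intro γ g h v w hn hT
    have h1 := hE w
    rw [hn] at h1
    rw [he, he, hn]
    exact h _ _ _ (((hE v).symm.trans hT).trans h1)
  have hmap : (IMG f t).map (e.permCongrHom : Equiv.Perm (PreTree f t) →* _) = A.G := by
    apply le_antisymm
    · rw [IMG, MonoidHom.map_closure, Subgroup.closure_le]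
      rintro _ ⟨π, ⟨γ, h1, h2⟩, rfl⟩
      rw [hP] at h1
      have h3 := notP_trans (notP_trans (notP_symm hδ) h1) hδ
      obtain ⟨g, g1, g2⟩ := A.mon_exists hd ((δ.symm.trans γ).trans δ).continuous h3
        (by simpa using h0) (by simpa using h0)
      have : e.permCongrHom π = g := by
        ext1 x
        obtain ⟨v, rfl⟩ := e.surjective x
        obtain ⟨z, hz⟩ := exists_tr h1 (hv v)
        have a1 := h2 v ⟨(v.1.1, z), (hit _ _).trans hz.tgt⟩ rfl (by simp only [hit]; exact hz)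
        have a2 := key γ g (by
          rintro n z z' ⟨Γ, hΓ⟩
          simpa using g2 n Γ Γ.continuous hΓ) v ⟨(v.1.1, z), (hit _ _).trans hz.tgt⟩ rfl hz
        rw [← a2, ← a1]
        simp
      exact this ▸ g1
    · intro g hg
      obtain ⟨γ0, h1, h2⟩ := hf g hg
      refine ⟨e.permCongrHom.symm g, Subgroup.subset_closure ⟨(δ.trans γ0).trans δ.symm,
        hP ▸ notP_trans (notP_trans hδ h1) (notP_symm hδ), fun v w hn hT => ?_⟩,
        e.permCongrHom.apply_symm_apply g⟩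
      simp only [hit] at hT
      obtain ⟨y, hy⟩ := exists_tr h1 (hE v).tgt
      obtain ⟨z, hz⟩ := exists_tr (notP_symm hδ) hy.tgt
      have a1 := Tr.unique (notP_trans (notP_trans hδ h1) (notP_symm hδ)) hT
        (((hE v).trans hy).trans hz)
      have a2 := hz.symm
      rw [Path.symm_symm, ← a1, ← hn] at a2
      have a3 := Tr.unique hδ a2 (hE w)
      apply e.injective
      have a4 := h2 _ _ _ hy
      rw [he w, hn, ← a3, a4, ← he]
      simp [Equiv.permCongrHom]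
  exact ⟨(e.permCongrHom.subgroupMap _).trans (MulEquiv.subgroupCongr hmap)⟩

end Spider

theorem KA.G_eq_KB {S : Type} (A : KA S) (B : KB S) (h1 : A.sg = B.sg) (h2 : A.nx = B.nx)
    (h3 : A.cl = B.cl) : A.G = B.G := by
  have hp : ∀ x s, A.prev x s = B.prev x s := fun x s => Option.ext fun t => by
    rw [A.prev_eq_some, B.prev_eq_some, h2, h3]
  have ha : ∀ w s, A.act w s = B.act w s := by
    intro w
    induction w with
    | nil => intro s; rfl
    | cons x w ih =>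
      intro s
      simp only [KA.act, KB.act, hp, KA.isg, h1]
      cases B.prev x s <;> simp [ih, h1]
  rw [A.G_eq, KB.G]
  congr 2
  funext s
  ext1 w
  exact ha w s

/-- The link: the iterated monodromy group is generated by a kneading automaton whose kneading
sequence is that of the landing angle. -/
theorem BD.Mis.link {B : BD} (M : B.Mis) [Finite B.P] {θ : ℝ} (hθ : B.Lands θ B.c) :
    ∃ A : KA B.P, A.sg = BD.sgP ∧ A.nx = BD.nxP ∧
      (∃ e, ∀ j, A.cl (A.nx^[j] A.sg) = xor (kneading θ j) e) ∧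
      ∀ f : ℂ[X], (fun x => f.eval x) = qf B.c → postcrit f = B.P → ∀ t ∉ B.P,
        Nonempty (IMG f t ≃* A.G) := by
  obtain ⟨A, hc, hpt, hsg, hnx, ⟨ang, hr⟩, e, he⟩ := M.exists_spider hθ
  have hr' : ∀ s, B.IsRay (A.L 0 s) (ang s) (A.pt s) := hpt ▸ hr
  obtain ⟨t0, h0, h1, h2⟩ := BD.full hr'
  obtain ⟨x0, x1, x2⟩ := B.shr_base hc fun s => (hr' s).notU
  have hs : ∀ x ∉ range A.pt, A.Shr x := fun x hx => A.shr_all x1 x2 hx
  let K : KA B.P := ⟨A.sg, A.nx, A.cl, A.ha, A.hb, by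
    rintro ⟨_, k, rfl⟩
    exact ⟨k, Subtype.ext (by rw [hsg, hnx]; exact BD.nxP_iter k)⟩, Spider.separated hs h2⟩
  refine ⟨K, hsg, hnx, ⟨e, fun j => ?_⟩, fun f hf hP t ht => ?_⟩
  · change A.cl (A.nx^[j] A.sg) = _
    rw [hsg, hnx]; exact he j
  · have e1 : range A.pt = B.P := by rw [hpt, Subtype.range_val]
    rw [KA.G_eq_KB K A.toKB rfl rfl rfl]
    exact Spider.img_equiv (BD.dense_om hr') h0 h1 (hc ▸ hf) (hP.trans e1.symm) (by rw [e1]; exact ht)

end Pool.Agent.MP_61ef33_al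

end

section

/- From the inverse Boettcher map to the main theorem. -/

namespace Pool.Agent.MP_61ef33_al

open Filter Topology Set Polynomial

theorem ex_mem {t : ℝ} (ht : 0 < t) (y : ℝ) : ex t y ∈ {w : ℂ | 1 < ‖w‖} := by
  change 1 < ‖ex t y‖
  rw [norm_ex]; exact Real.one_lt_exp_iff.2 ht

theorem exists_ex {w : ℂ} (hw : w ≠ 0) : ∃ y, ex (Real.log ‖w‖) y = w := by
  refine ⟨Complex.arg w / (2 * Real.pi), ?_⟩
  have hp : (Real.pi : ℂ) ≠ 0 := by exact_mod_cast Real.pi_ne_zero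
  rw [ex]
  conv_rhs => rw [← Complex.exp_log hw, Complex.log]
  congr 2
  push_cast
  field_simp

/-- Boettcher data from an inverse Boettcher map. -/
noncomputable def mkBD (c : ℂ) (φ : ℂ → ℂ) (hd : DifferentiableOn ℂ φ {w | 1 < ‖w‖})
    (hinj : InjOn φ {w | 1 < ‖w‖}) (hconj : ∀ w, 1 < ‖w‖ → φ (w ^ 2) = φ w ^ 2 + c)
    (hasym : Tendsto (fun w => φ w / w) (Bornology.cobounded ℂ) (𝓝 1)) : BD where
  c := c
  Ψ t y := φ (ex t y)
  cont := hd.continuousOn.comp (by unfold ex; fun_prop) fun p hp => ex_mem hp _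
  dbl t y ht := by
    rw [qf, ← hconj _ (ex_mem ht y), ex, ex, ← Complex.exp_nat_mul]
    congr 2; push_cast; ring
  per t y m := by
    congr 1
    rw [ex, ex, Complex.exp_eq_exp_iff_exists_int]
    exact ⟨m, by push_cast; ring⟩
  inj t y t' y' ht ht' h := by
    have h1 := hinj (ex_mem ht y) (ex_mem ht' y') h
    rw [ex, ex, Complex.exp_eq_exp_iff_exists_int] at h1
    obtain ⟨n, hn⟩ := h1
    have a1 := congrArg Complex.re hn
    have a2 := congrArg Complex.im hn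
    simp at a1 a2
    refine ⟨a1, -n, ?_⟩
    have hp := Real.pi_pos
    push_cast
    apply mul_left_cancel₀ (show 2 * Real.pi ≠ 0 by positivity)
    linarith
  asym ε hε := by
    have h1 := hasym.eventually (Metric.ball_mem_nhds (1 : ℂ) hε)
    rw [← comap_norm_atTop, eventually_comap, eventually_atTop] at h1
    obtain ⟨R, hR⟩ := h1
    refine ⟨R, fun t ht y => ?_⟩
    have := hR _ (show R ≤ Real.exp t by linarith [Real.add_one_le_exp t]) (ex t y) (norm_ex t y)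
    simpa [dist_eq_norm] using this
  opn := by
    have ho : IsOpen {w : ℂ | 1 < ‖w‖} := isOpen_lt continuous_const continuous_norm
    have h2 : (2 : ℂ) ∈ {w : ℂ | 1 < ‖w‖} := by simp
    have ha : AnalyticAt ℂ φ 2 := hd.analyticAt (ho.mem_nhds h2)
    have hV : {w : ℂ | 1 < ‖w‖} ∩ {w : ℂ | ‖w‖ < 3} ∈ 𝓝 (2 : ℂ) :=
      inter_mem (ho.mem_nhds h2) ((isOpen_lt continuous_norm continuous_const).mem_nhds (by
        simp; norm_num))
    rcases ha.eventually_constant_or_nhds_le_map_nhds with h | h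
    · obtain ⟨w, ⟨h1, h3⟩, h4⟩ := (((h.and (ho.mem_nhds h2)).filter_mono
        nhdsWithin_le_nhds).and (self_mem_nhdsWithin (s := {2}ᶜ))).exists
      exact absurd (hinj h3 h2 h1) h4
    · obtain ⟨r, hr, hsub⟩ := Metric.mem_nhds_iff.1 (h (image_mem_map hV))
      refine ⟨φ 2, r, 3, hr, fun z hz => ?_⟩
      obtain ⟨w, ⟨w1, w2⟩, rfl⟩ := hsub hz
      have w1' : 1 < ‖w‖ := w1
      have w2' : ‖w‖ < 3 := w2
      obtain ⟨y, hy⟩ := exists_ex (w := w) (norm_pos_iff.1 (by linarith))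
      refine ⟨Real.log ‖w‖, y, Real.log_pos w1', ?_, by rw [hy]⟩
      linarith [Real.log_le_sub_one_of_pos (show 0 < ‖w‖ by linarith)]

theorem eval_quad (c : ℂ) : (fun x => (X ^ 2 + C c : ℂ[X]).eval x) = qf c := by
  funext x; simp [qf]

theorem postcrit_quad (c : ℂ) : postcrit (X ^ 2 + C c) = range fun k => (qf c)^[k] c := by
  ext z
  simp only [postcrit, eval_quad, mem_range, mem_ofPred_eq]
  constructor
  · rintro ⟨n, hn, w, h1, rfl⟩
    have : w = 0 := by simpa using h1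
    subst this
    obtain ⟨k, rfl⟩ : ∃ k, n = k + 1 := ⟨n - 1, by omega⟩
    exact ⟨k, by simp [qf]⟩
  · rintro ⟨k, rfl⟩
    exact ⟨k + 1, by omega, 0, by simp, by simp [qf]⟩

theorem BD.mis_of_finite (B : BD) (hf : B.P.Finite) (h0 : (0 : ℂ) ∉ B.P) : B.Mis := by
  refine ⟨fun k ⟨t, y, ht, e⟩ => ?_, fun k e => h0 ⟨k, e⟩⟩
  have := hf.to_subtype
  obtain ⟨m, n, hne, h⟩ := Finite.exists_ne_map_eq_of_infinite
    (fun m => (⟨(qf B.c)^[m + k] B.c, m + k, rfl⟩ : B.P))
  have h1 : (qf B.c)^[m + k] B.c = (qf B.c)^[n + k] B.c := congrArg Subtype.val h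
  rw [Function.iterate_add_apply, Function.iterate_add_apply, ← e, B.iter ht, B.iter ht] at h1
  have h2 := mul_right_cancel₀ ht.ne' (B.inj _ _ _ _ (by positivity) (by positivity) h1).1
  exact hne (pow_right_injective₀ (by norm_num) (by norm_num) h2)

theorem BD.three_le (B : BD) (M : B.Mis) [Fintype B.P] (hc : B.c ≠ -2) : 3 ≤ Fintype.card B.P := by
  refine Fintype.two_lt_card_iff.2 ⟨BD.sgP, BD.nxP BD.sgP, BD.nxP (BD.nxP BD.sgP), fun e => ?_,
    fun e => ?_, fun e => ?_⟩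
  · exact M.ne_c 0 (congrArg Subtype.val e).symm
  · exact M.ne_c 1 (congrArg Subtype.val e).symm
  · have h : qf B.c B.c = qf B.c (qf B.c B.c) := congrArg Subtype.val e
    rcases sq_eq_sq_iff_eq_or_eq_neg.1 (add_right_cancel h) with h | h
    · exact M.ne_c 0 h.symm
    · have h0 : B.c ≠ 0 := M.ne0 0
      apply hc
      apply mul_left_cancel₀ h0
      rw [qf] at h
      linear_combination h

theorem main (c : ℂ) (φ : ℂ → ℂ) (θ : ℝ) (hd : DifferentiableOn ℂ φ {w | 1 < ‖w‖})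
    (hinj : InjOn φ {w | 1 < ‖w‖}) (hconj : ∀ w, 1 < ‖w‖ → φ (w ^ 2) = φ w ^ 2 + c)
    (hasym : Tendsto (fun w => φ w / w) (Bornology.cobounded ℂ) (𝓝 1))
    (hland : Tendsto (fun r : ℝ => φ (r * Complex.exp (2 * Real.pi * θ * Complex.I)))
      (𝓝[>] 1) (𝓝 c))
    (hfin : (postcrit (X ^ 2 + C c)).Finite) (h0 : (0 : ℂ) ∉ postcrit (X ^ 2 + C c)) (hc : c ≠ -2)
    (hν : ¬ ∃ p, 2 ≤ p ∧ ∀ j, ¬ p ∣ j + 1 → kneading θ (j + p) = kneading θ j)
    (t : ℂ) (ht : t ∉ postcrit (X ^ 2 + C c)) : IntermediateGrowth (IMG (X ^ 2 + C c) t) := by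
  let B := mkBD c φ hd hinj hconj hasym
  have hP : postcrit (X ^ 2 + C c) = B.P := postcrit_quad c
  rw [hP] at hfin h0 ht
  have M := B.mis_of_finite hfin h0
  have := hfin.to_subtype
  have := Fintype.ofFinite B.P
  have hθ : B.Lands θ B.c := by
    have h1 : Tendsto Real.exp (𝓝[>] 0) (𝓝[>] 1) := by
      refine tendsto_nhdsWithin_iff.2 ⟨?_, ?_⟩
      · simpa using (Real.continuous_exp.tendsto 0).mono_left nhdsWithin_le_nhds
      · filter_upwards [self_mem_nhdsWithin] with t ht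
        exact Real.one_lt_exp_iff.2 ht
    refine (hland.comp h1).congr fun t => ?_
    simp [B, mkBD, ex, Complex.exp_add]
  obtain ⟨A, _, _, ⟨e, he⟩, hA⟩ := M.link hθ
  obtain ⟨E⟩ := hA _ (eval_quad c) hP t ht
  refine IntermediateGrowth.of_equiv E.symm (A.intermediate ?_ (B.three_le M hc))
  rintro ⟨p, h1, h2⟩
  refine hν ⟨p, h1, fun j hj => ?_⟩
  have := h2 j hj
  rw [he, he] at this
  simpa using this

end Pool.Agent.MP_61ef33_al

end

section

/- From an isolated invariant continuum to a quadratic-like restriction. -/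

namespace Pool.Agent.MP_61ef33_al

open Filter Topology Set

theorem pre_conn {f : ℂ → ℂ} (ho : IsOpenMap f) {W D C E : Set ℂ} (hW : IsOpen W)
    (hD : ∀ s, IsClosed s → IsClosed (f '' (D ∩ s))) (h1 : W ∩ f ⁻¹' C ⊆ D) (h2 : D ⊆ W)
    (hC : IsPreconnected C) {y0 : ℂ} (hy : y0 ∈ C) (hE : IsPreconnected E) (h3 : E ⊆ W ∩ f ⁻¹' C)
    (h4 : ∀ z ∈ W, f z = y0 → z ∈ E) : IsPreconnected (W ∩ f ⁻¹' C) := by
  have key : ∀ u v, IsOpen u → IsOpen v → W ∩ f ⁻¹' C ⊆ u ∪ v → E ⊆ u →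
      (W ∩ f ⁻¹' C ∩ v).Nonempty → (W ∩ f ⁻¹' C ∩ (u ∩ v)).Nonempty := by
    rintro u v hu hv hs hEu ⟨z, hz, hzv⟩
    obtain ⟨_, a1, ⟨w, a2, rfl⟩, a3⟩ := hC (f '' (W ∩ v)) (f '' (D ∩ uᶜ))ᶜ (ho _ (hW.inter hv))
      (hD _ hu.isClosed_compl).isOpen_compl (fun y hy => by
        by_cases h : y ∈ f '' (D ∩ uᶜ)
        · obtain ⟨w, b, rfl⟩ := h
          exact Or.inl ⟨w, ⟨h2 b.1, (hs ⟨h2 b.1, hy⟩).resolve_left b.2⟩, rfl⟩
        · exact Or.inr h) ⟨f z, hz.2, z, ⟨hz.1, hzv⟩, rfl⟩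
      ⟨y0, hy, fun ⟨w, b, e⟩ => b.2 (hEu (h4 w (h2 b.1) e))⟩
    exact ⟨w, ⟨a2.1, a1⟩, by_contra fun h => a3 ⟨w, ⟨h1 ⟨a2.1, a1⟩, h⟩, rfl⟩, a2.2⟩
  intro u v hu hv hs h5 h6
  by_cases h : (E ∩ (u ∩ v)).Nonempty
  · exact h.mono (inter_subset_inter_left _ h3)
  by_cases hEu : E ⊆ u
  · exact key u v hu hv hs hEu h6
  · rw [inter_comm u v]
    refine key v u hv hu (union_comm u v ▸ hs) (fun z hz => by_contra fun hv' => ?_) h5
    obtain ⟨w, w1, w2⟩ := not_subset.1 hEu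
    exact h (hE u v hu hv (h3.trans hs) ⟨z, hz, (hs (h3 hz)).resolve_right hv'⟩
      ⟨w, w1, (hs (h3 w1)).resolve_left w2⟩)

theorem isOpenMap_qf (c : ℂ) : IsOpenMap (qf c) :=
  (isOpenMap_add_right c).comp (Complex.isOpenQuotientMap_pow 2).isOpenMap

theorem norm_qf (c z : ℂ) : ‖z‖ ^ 2 - ‖c‖ ≤ ‖qf c z‖ := by
  have := norm_sub_norm_le (z ^ 2) (-c)
  rwa [norm_pow, norm_neg, sub_neg_eq_add] at this

theorem isClosedMap_qf (c : ℂ) : IsClosedMap (qf c) := by
  refine (isProperMap_iff_tendsto_cocompact.2 ⟨continuous_qf c, ?_⟩).isClosedMap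
  rw [← Metric.cobounded_eq_cocompact, ← tendsto_norm_atTop_iff_cobounded]
  exact tendsto_atTop_mono (norm_qf c) (tendsto_atTop_add_const_right _ _
    ((tendsto_pow_atTop two_ne_zero).comp tendsto_norm_cobounded_atTop))

theorem isOpenMap_iter (c : ℂ) (n : ℕ) : IsOpenMap (qf c)^[n] := by
  induction n with
  | zero => exact IsOpenMap.id
  | succ n ih => exact ih.comp (isOpenMap_qf c)

theorem far_conn {R : ℝ} (hR : 0 ≤ R) : IsPreconnected {z : ℂ | R ≤ ‖z‖} := by
  have : {z : ℂ | R ≤ ‖z‖} = (fun p : ℝ × ℝ => p.1 * Complex.exp (p.2 * Complex.I)) ''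
      Ici R ×ˢ univ := by
    ext z
    constructor
    · exact fun h => ⟨(‖z‖, z.arg), ⟨h, trivial⟩, Complex.norm_mul_exp_arg_mul_I z⟩
    · rintro ⟨p, h, rfl⟩
      have h1 : R ≤ p.1 := h.1
      simpa [abs_of_nonneg (hR.trans h1)] using h1
  rw [this]
  exact (isPreconnected_Ici.prod isPreconnected_univ).image _ (by fun_prop)

/-- A connected neighbourhood of infinity. -/
def Far (C : Set ℂ) : Prop := IsPreconnected C ∧ ∃ R, ∀ z : ℂ, R ≤ ‖z‖ → z ∈ C

theorem Far.union {C D : Set ℂ} (h : Far C) (h' : Far D) : Far (C ∪ D) := by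
  obtain ⟨h1, R, hR⟩ := h
  obtain ⟨h2, R', hR'⟩ := h'
  obtain ⟨z, hz⟩ := NormedSpace.exists_lt_norm ℝ ℂ (max R R')
  exact ⟨h1.union z (hR z (le_of_max_le_left hz.le)) (hR' z (le_of_max_le_right hz.le)) h2,
    R, fun z hz => Or.inl (hR z hz)⟩

theorem Far.pre {C : Set ℂ} (h : Far C) (c : ℂ) : Far (qf c ⁻¹' C) := by
  obtain ⟨h1, R, hR⟩ := h
  set R' := |R| + ‖c‖ + 1
  have a0 := abs_nonneg R
  have a1 := norm_nonneg c
  have hf : ∀ z : ℂ, R' ≤ ‖z‖ → qf c z ∈ C := fun z hz =>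
    hR _ (le_trans (by simp only [R'] at hz; nlinarith [le_abs_self R]) (norm_qf c z))
  refine ⟨?_, R', hf⟩
  obtain ⟨y, hy⟩ := NormedSpace.exists_lt_norm ℝ ℂ (max R (R' ^ 2 + ‖c‖))
  have := pre_conn (isOpenMap_qf c) isOpen_univ (D := univ)
    (fun s hs => isClosedMap_qf c _ (by simpa using hs)) (subset_univ _) subset_rfl h1
    (hR y (le_of_max_le_left hy.le)) (far_conn (show 0 ≤ R' by positivity))
    (fun z hz => ⟨trivial, hf z hz⟩) (by
      rintro z - rfl
      have b1 := (norm_add_le (z ^ 2) c).trans' (le_of_max_le_right hy.le)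
      rw [norm_pow] at b1
      exact (pow_le_pow_iff_left₀ (by positivity) (norm_nonneg z) two_ne_zero).1 (by linarith))
  simpa using this

theorem Far.pre_iter {C : Set ℂ} (h : Far C) (c : ℂ) (n : ℕ) : Far ((qf c)^[n] ⁻¹' C) := by
  induction n with
  | zero => exact h
  | succ n ih => exact ih.pre c

theorem Far.comp {V : Set ℂ} (h : Far Vᶜ) (hV : IsOpen V) (x : ℂ) :
    Far (connectedComponentIn V x)ᶜ := by
  obtain ⟨h1, R, hR⟩ := h
  have hs : Vᶜ ⊆ (connectedComponentIn V x)ᶜ := compl_subset_compl.2 (connectedComponentIn_subset _ _)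
  refine ⟨?_, R, fun z hz => hs (hR z hz)⟩
  obtain ⟨y, hy⟩ := NormedSpace.exists_lt_norm ℝ ℂ R
  refine isPreconnected_of_forall y fun z hz => ?_
  by_cases hzV : z ∈ V
  swap
  · exact ⟨Vᶜ, hs, hR y hy.le, hzV, h1⟩
  obtain ⟨w, w1, w2⟩ : ∃ w ∈ closure (connectedComponentIn V z), w ∉ V := by
    by_contra hn
    push Not at hn
    have hc : IsClopen (connectedComponentIn V z) := ⟨closure_subset_iff_isClosed.1
      (isPreconnected_connectedComponentIn.closure.subset_connectedComponentIn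
        (subset_closure (mem_connectedComponentIn hzV)) hn), hV.connectedComponentIn⟩
    have := hc.eq_univ ⟨z, mem_connectedComponentIn hzV⟩
    exact hR y hy.le (connectedComponentIn_subset V z (this ▸ mem_univ y))
  refine ⟨Vᶜ ∪ insert w (connectedComponentIn V z), union_subset hs (insert_subset (hs w2)
    fun a ha hx => hz ?_), Or.inl (hR y hy.le), Or.inr (Or.inr (mem_connectedComponentIn hzV)),
    h1.union w w2 (mem_insert _ _) (isPreconnected_connectedComponentIn.subset_closure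
      (subset_insert _ _) (insert_subset w1 subset_closure))⟩
  rw [connectedComponentIn_eq hx, ← connectedComponentIn_eq ha]
  exact mem_connectedComponentIn hzV

theorem Far.disc {U : Set ℂ} (h : Far Uᶜ) (ho : IsOpen U) (hc : IsConnected U) : IsDisc U := by
  obtain ⟨h1, R, hR⟩ := h
  obtain ⟨y, hy⟩ := NormedSpace.exists_lt_norm ℝ ℂ R
  exact ⟨ho, isBounded_iff_forall_norm_le.2 ⟨R, fun z hz => le_of_not_ge fun h => hR z h hz⟩, hc,
    ⟨y, hR y hy.le⟩, h1⟩

theorem exists_nbhds {K : Set ℂ} (hK : IsCompact K) (h0 : K.Nonempty) (hs : ∀ z ∈ K, -z ∈ K)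
    (hf : IsPreconnected Kᶜ) : ∃ O : ℝ → Set ℂ, (∀ δ, IsOpen (O δ)) ∧ (∀ δ > 0, K ⊆ O δ) ∧
      (∀ δ ≤ 1, Far (O δ)ᶜ) ∧ (∀ δ δ', δ < δ' → δ' ≤ 1 → closure (O δ) ⊆ O δ') ∧
      (∀ δ ≤ 1, ∀ z ∈ O δ, -z ∈ O δ) ∧
      ∀ W, IsOpen W → K ⊆ W → ∀ η > 0, ∃ δ > 0, δ < η ∧ closure (O δ) ⊆ W := by
  obtain ⟨R, R0, hR⟩ := hK.isBounded.exists_pos_norm_le
  let d : ℂ → ℝ := fun z => Metric.infDist z K
  let x0 : ℂ := (R + 1 : ℝ)
  have hx0 : R + 1 ≤ ‖x0‖ := by rw [Complex.norm_real, Real.norm_of_nonneg (by positivity)]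
  have hfar : ∀ z : ℂ, R + 1 ≤ ‖z‖ → 1 ≤ d z := fun z hz =>
    (Metric.le_infDist h0).2 fun y hy => by
      rw [dist_eq_norm]; linarith [norm_sub_norm_le z y, hR y hy]
  let C : ℝ → Set ℂ := fun δ => connectedComponentIn {z | δ ≤ d z} x0
  have hd : Continuous d := Metric.continuous_infDist_pt K
  have c0 : ∀ δ, ∀ z ∈ C δ, δ ≤ d z := fun δ z hz =>
    connectedComponentIn_subset {z | δ ≤ d z} x0 hz
  have c1 : ∀ δ ≤ 1, ∀ z : ℂ, R + 1 ≤ ‖z‖ → z ∈ C δ := fun δ hδ z hz =>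
    (far_conn (show 0 ≤ R + 1 by positivity)).subset_connectedComponentIn hx0
      (fun w hw => hδ.trans (hfar w hw)) hz
  have c2 : ∀ δ, ∀ S, IsPreconnected S → S ⊆ {z | δ ≤ d z} → ∀ a ∈ S, a ∈ C δ → S ⊆ C δ :=
    fun δ S h1 h2 a h3 h4 => by
      simp only [C]
      rw [connectedComponentIn_eq h4]
      exact h1.subset_connectedComponentIn h3 h2
  have c3 : ∀ δ, IsClosed (C δ) := fun δ => by
    rcases (C δ).eq_empty_or_nonempty with h | ⟨a, h⟩
    · rw [h]; exact isClosed_empty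
    · exact closure_subset_iff_isClosed.1 (c2 δ _ isPreconnected_connectedComponentIn.closure
        (closure_minimal (connectedComponentIn_subset _ _) (isClosed_le continuous_const hd)) a
        (subset_closure h) h)
  have c4 : ∀ δ δ', δ < δ' → δ' ≤ 1 → closure (C δ)ᶜ ⊆ (C δ')ᶜ := by
    intro δ δ' h h1 z hz hz'
    have a1 : C δ' ⊆ C δ := connectedComponentIn_mono _ fun w hw => h.le.trans hw
    have a2 : δ' ≤ d z := c0 _ _ hz'
    have a3 := c2 δ (Metric.ball z (δ' - δ)) (convex_ball _ _).isPreconnected (fun w hw => by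
      have := Metric.infDist_le_infDist_add_dist (x := z) (y := w) (s := K)
      rw [Metric.mem_ball, dist_comm] at hw
      change δ ≤ Metric.infDist w K
      linarith) z (Metric.mem_ball_self (by linarith)) (a1 hz')
    obtain ⟨w, w1, w2⟩ := mem_closure_iff.1 hz _ Metric.isOpen_ball
      (Metric.mem_ball_self (show 0 < δ' - δ by linarith))
    exact w2 (a3 w1)
  have c5 : ∀ δ ≤ 1, Far (C δ)ᶜᶜ := fun δ hδ => by
    rw [compl_compl]; exact ⟨isPreconnected_connectedComponentIn, R + 1, c1 δ hδ⟩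
  refine ⟨fun δ => (C δ)ᶜ, fun δ => (c3 δ).isOpen_compl, fun δ hδ z hz h => ?_, c5, c4,
    fun δ hδ z hz h => hz ?_, fun W hW hKW η hη => ?_⟩
  · have : δ ≤ d z := c0 _ _ h
    simp only [d, Metric.infDist_zero_of_mem hz] at this
    linarith
  · refine c2 δ (Neg.neg '' C δ) (isPreconnected_connectedComponentIn.image _ (by fun_prop)) ?_ x0
      ⟨-x0, c1 δ hδ _ (by rwa [norm_neg]), neg_neg _⟩ (c1 δ hδ _ hx0) ⟨-z, h, neg_neg _⟩
    rintro _ ⟨w, hw, rfl⟩
    refine le_trans (c0 _ _ hw) ((Metric.le_infDist h0).2 fun y hy => ?_)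
    rw [← dist_neg_neg, neg_neg]
    exact Metric.infDist_le_dist_of_mem (hs y hy)
  · let ρ : ℕ → ℝ := fun n => min η 1 / 2 / 2 ^ n
    have m0 : 0 < min η 1 := lt_min hη one_pos
    have r0 : ∀ n, 0 < ρ n := fun n => by positivity
    have r1 : ∀ n, ρ n < min η 1 := fun n =>
      (div_le_self (by positivity) (one_le_pow₀ one_le_two)).trans_lt (by linarith)
    have r2 : ∀ n, ρ n ≤ 1 := fun n => (r1 n).le.trans (min_le_right _ _)
    obtain ⟨n, hn⟩ := exists_subset_nhds_of_isCompact (V := fun n => closure (C (ρ n))ᶜ) (U := W)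
      (directed_of_isDirected_le fun m n h => closure_mono (compl_subset_compl.2
        (connectedComponentIn_mono _ fun w hw => le_trans
          (show ρ n ≤ ρ m by simp only [ρ]; gcongr; norm_num) hw)))
      (fun n => (isBounded_iff_forall_norm_le.2 ⟨R + 1, fun z (hz : z ∉ C (ρ n)) => le_of_not_ge
        fun h => hz (c1 _ (r2 n) z h)⟩).isCompact_closure) (fun x hx => by
        refine hW.mem_nhds (hKW (by_contra fun hxK => ?_))
        have hx1 : x0 ∈ Kᶜ := fun h => by linarith [hR x0 h]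
        obtain ⟨γ, hγ⟩ := ((hK.isClosed.isOpen_compl.isConnected_iff_isPathConnected).1
          ⟨⟨x0, hx1⟩, hf⟩).joinedIn x0 hx1 x hxK
        obtain ⟨τ, -, hτ⟩ := isCompact_univ.exists_isMinOn univ_nonempty
          (hd.comp γ.continuous).continuousOn
        have a1 : 0 < d (γ τ) := (hK.isClosed.notMem_iff_infDist_pos h0).1 (hγ τ)
        have a2 : Tendsto ρ atTop (𝓝 0) :=
          tendsto_const_nhds.div_atTop (tendsto_pow_atTop_atTop_of_one_lt one_lt_two)
        obtain ⟨n, hn⟩ := (a2.eventually (gt_mem_nhds a1)).exists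
        have a3 : ρ (n + 1) < ρ n := by
          simp only [ρ]; gcongr; exacts [one_lt_two, Nat.lt_succ_self n]
        refine c4 _ _ a3 (r2 n) (mem_iInter.1 hx (n + 1)) ?_
        exact c2 _ (range γ) (isPreconnected_range γ.continuous) (by
          rintro _ ⟨σ, rfl⟩; exact hn.le.trans (hτ (mem_univ σ))) x0 ⟨0, γ.source⟩
          (c1 _ (r2 n) _ hx0) ⟨1, γ.target⟩)
    exact ⟨ρ n, r0 n, (r1 n).trans_le (min_le_left _ _), hn⟩

theorem renorm_of {c : ℂ} {p : ℕ} (hp : 2 ≤ p) {K : Set ℂ} (hK : IsCompact K)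
    (hc : IsPreconnected K) (h0 : (0 : ℂ) ∈ K) (hs : ∀ z ∈ K, -z ∈ K) (hf : IsPreconnected Kᶜ)
    (hm : MapsTo (qf c)^[p] K K) (hsurj : K ⊆ (qf c)^[p] '' K)
    (H1 : ∀ i, 0 < i → i < p → ∀ z ∈ K, ∀ z' ∈ K, (qf c)^[i] z ≠ -(qf c)^[i] z')
    {W0 : Set ℂ} (o0 : IsOpen W0) (k0 : K ⊆ W0)
    (H2 : ∀ z, (∀ n, ((qf c)^[p])^[n] z ∈ W0) → z ∈ K) : Renormalizable c := by
  set F := (qf c)^[p] with hF
  have cF : Continuous F := (continuous_qf c).iterate p
  have oF : IsOpenMap F := isOpenMap_iter c p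
  have eF : ∀ z, F (-z) = F z := fun z => by
    obtain ⟨q, rfl⟩ : ∃ q, p = q + 1 := ⟨p - 1, by omega⟩
    simp [hF, qf]
  obtain ⟨u, v, hu, hv, ku, kv, huv⟩ := generalized_tube_lemma hK hK
    (n := ⋂ i ∈ Finset.Ioo 0 p, {q : ℂ × ℂ | (qf c)^[i] q.1 ≠ -(qf c)^[i] q.2})
    (isOpen_biInter_finset fun i _ => isOpen_ne_fun (((continuous_qf c).iterate i).comp continuous_fst)
      (((continuous_qf c).iterate i).comp continuous_snd).neg)
    (fun q hq => mem_iInter₂.2 fun i hi => H1 i (Finset.mem_Ioo.1 hi).1 (Finset.mem_Ioo.1 hi).2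
      _ hq.1 _ hq.2)
  have two : ∀ z ∈ u, ∀ z' ∈ v, F z = F z' → z = z' ∨ z = -z' := by
    intro z hz z' hz' e
    have : ∀ i, i < p → (qf c)^[i + 1] z = (qf c)^[i + 1] z' → z = z' ∨ z = -z' := by
      intro i
      induction i with
      | zero => exact fun _ e => sq_eq_sq_iff_eq_or_eq_neg.1 (add_right_cancel e)
      | succ i ih =>
        intro hi e
        rw [Function.iterate_succ_apply', Function.iterate_succ_apply' (qf c) (i + 1)] at e
        exact ih (by omega) ((sq_eq_sq_iff_eq_or_eq_neg.1 (add_right_cancel e)).resolve_right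
          (mem_iInter₂.1 (huv (mk_mem_prod hz hz')) (i + 1) (Finset.mem_Ioo.2 ⟨by omega, hi⟩)))
    exact this (p - 1) (by omega) (by rwa [Nat.sub_add_cancel (by omega)])
  obtain ⟨O, O1, O2, O3, O4, O5, O6⟩ := exists_nbhds hK ⟨0, h0⟩ hs hf
  obtain ⟨δ1, d1, d2, d3⟩ := O6 (W0 ∩ (u ∩ v)) (o0.inter (hu.inter hv))
    (subset_inter k0 (subset_inter ku kv)) 1 one_pos
  obtain ⟨δ0, d4, d5, d6⟩ := O6 (F '' O δ1) (oF _ (O1 δ1)) (hsurj.trans (image_mono (O2 δ1 d1)))
    δ1 d1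
  have cp : IsCompact (closure (O δ1)) := by
    obtain ⟨R, hR⟩ := (O3 δ1 d2.le).2
    exact (isBounded_iff_forall_norm_le.2
      ⟨R, fun z hz => le_of_not_ge fun h => hR z h hz⟩).isCompact_closure
  obtain ⟨n, hn⟩ := exists_subset_nhds_of_isCompact (U := O δ0)
    (V := fun n : ℕ => ⋂ i ≤ n, F^[i] ⁻¹' closure (O δ1))
    (directed_of_isDirected_le fun m n h => biInter_subset_biInter_left fun i hi => le_trans hi h)
    (fun n => cp.of_isClosed_subset (isClosed_biInter fun i _ => isClosed_closure.preimage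
      (cF.iterate i)) fun z hz => mem_iInter₂.1 hz 0 (Nat.zero_le n))
    (fun z hz => (O1 δ0).mem_nhds (O2 δ0 d4 (H2 z fun n =>
      (d3 (mem_iInter₂.1 (mem_iInter.1 hz n) n le_rfl)).1)))
  let ρ : ℕ → ℝ := fun i => δ1 - (δ1 - δ0) / 2 ^ i
  have r0 : ρ 0 = δ0 := by simp [ρ]
  have r1 : ∀ i, ρ i < δ1 := fun i => by
    have := div_pos (sub_pos.2 d5) (show (0 : ℝ) < 2 ^ i by positivity)
    simp only [ρ]; linarith
  have r2 : ∀ i, ρ i < ρ (i + 1) := fun i => by
    have := div_pos (sub_pos.2 d5) (show (0 : ℝ) < 2 ^ i by positivity)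
    simp only [ρ, pow_succ, ← div_div]; linarith
  have r3 : ∀ i, 0 < ρ i := fun i => by
    have := div_le_self (show 0 ≤ δ1 - δ0 by linarith) (one_le_pow₀ (n := i) (one_le_two (α := ℝ)))
    simp only [ρ]; linarith
  let V : ℕ → Set ℂ := fun n => {z | ∀ i ≤ n, F^[i] z ∈ O (ρ i)}
  have V1 : IsOpen (V n) := by
    simp only [V, ofPred_forall]
    exact (finite_Iic n).isOpen_biInter fun i _ => (O1 _).preimage (cF.iterate i)
  have V2 : K ⊆ V n := fun z hz i _ => O2 _ (r3 i) (hm.iterate i hz)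
  have V3 : V n ⊆ O δ0 := fun z hz => r0 ▸ hz 0 (Nat.zero_le _)
  have V4 : ∀ n, Far (V n)ᶜ := by
    have : ∀ i, Far (F^[i] ⁻¹' (O (ρ i))ᶜ) := fun i => by
      rw [hF, ← Function.iterate_mul]
      exact (O3 _ ((r1 i).le.trans d2.le)).pre_iter c _
    intro n
    induction n with
    | zero => simpa [V, compl_def] using this 0
    | succ n ih =>
      have e : (V (n + 1))ᶜ = (V n)ᶜ ∪ F^[n + 1] ⁻¹' (O (ρ (n + 1)))ᶜ := by
        rw [preimage_compl, ← compl_inter]
        congr 1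
        ext z
        exact ⟨fun h => ⟨fun i hi => h i (by omega), h _ le_rfl⟩, fun h i hi =>
          (Nat.of_le_succ hi).elim (h.1 i) fun e => e ▸ h.2⟩
      exact e ▸ ih.union (this _)
  have sub : O δ0 ⊆ O δ1 := subset_closure.trans (O4 _ _ d5 d2.le)
  let V0 := connectedComponentIn (V n) 0
  have W1 : V0 ⊆ V n := connectedComponentIn_subset _ _
  have W2 : K ⊆ V0 := hc.subset_connectedComponentIn h0 V2
  let U := O δ1 ∩ F ⁻¹' V0
  have U0 : closure U ⊆ closure (O δ1) := closure_mono inter_subset_left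
  have U1 : closure U ⊆ V n := by
    intro z hz
    have a1 : ∀ i ≤ n, F^[i + 1] z ∈ O (ρ (i + 1)) := fun i hi =>
      O4 _ _ (r2 i) ((r1 _).le.trans d2.le) (map_mem_closure (cF.iterate (i + 1)) hz
        fun w hw => W1 hw.2 i hi)
    intro i hi
    cases i with
    | succ i => exact a1 i (by omega)
    | zero =>
      refine r0 ▸ hn (mem_iInter₂.2 fun i hi => ?_)
      cases i with
      | zero => exact U0 hz
      | succ i => exact subset_closure (O4 _ _ (r1 _) d2.le (subset_closure (a1 i (by omega))))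
  have U2 : K ⊆ U := fun z hz => ⟨O2 _ d1 hz, W2 (hm hz)⟩
  have U3 : IsCompact (closure U) := cp.of_isClosed_subset isClosed_closure U0
  have U4 : closure U ⊆ O δ1 := U1.trans (V3.trans sub)
  have two' : ∀ z ∈ O δ1, ∀ z' ∈ O δ1, F z = F z' → z = z' ∨ z = -z' := fun z hz z' hz' =>
    two z (d3 (subset_closure hz)).2.1 z' (d3 (subset_closure hz')).2.2
  have U5 : IsPreconnected U := pre_conn oF (O1 _) (D := closure U)
    (fun s hs => ((U3.inter_right hs).image cF).isClosed) subset_closure U4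
    isPreconnected_connectedComponentIn (W2 (hm h0)) isPreconnected_singleton
    (singleton_subset_iff.2 (U2 h0)) fun z hz e => by simpa using two' z hz 0 (O2 _ d1 h0) e
  have oV : IsOpen V0 := V1.connectedComponentIn
  have fV : Far V0ᶜ := (V4 n).comp V1 0
  refine ⟨p, F, U, V0, hp, rfl, Far.disc ?_ ((O1 _).inter (oV.preimage cF)) ⟨⟨0, U2 h0⟩, U5⟩,
    fV.disc oV ⟨⟨0, W2 h0⟩, isPreconnected_connectedComponentIn⟩,
    U5.closure.subset_connectedComponentIn (subset_closure (U2 h0)) U1, fun z hz => hz.2,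
    fun C hC h => ?_, fun y hy => ?_, fun k => U2 (hm.iterate k h0)⟩
  · rw [compl_inter]
    exact (O3 _ d2.le).union (fV.pre_iter c p)
  · have : U ∩ F ⁻¹' C = closure U ∩ F ⁻¹' C := subset_antisymm
      (inter_subset_inter_left _ subset_closure) fun z hz => ⟨⟨U4 hz.1, hC hz.2⟩, hz.2⟩
    exact this ▸ U3.inter_right (h.isClosed.preimage cF)
  · obtain ⟨z, hz, rfl⟩ := d6 (subset_closure (V3 (W1 hy)))
    refine ⟨z, subset_antisymm (fun w hw => two' w hw.1.1 z hz hw.2) ?_⟩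
    rintro w (rfl | rfl)
    · exact ⟨⟨hz, hy⟩, rfl⟩
    · exact ⟨⟨O5 _ d2.le z hz, by rwa [mem_preimage, eF]⟩, eF z⟩

end Pool.Agent.MP_61ef33_al

end

section

/- A kneading sequence of star form gives a renormalization; the intrinsic main theorem. -/

namespace Pool.Agent.MP_61ef33_al

open Filter Topology Set Polynomial

theorem nested_conn {K : ℕ → Set ℂ} (h1 : Antitone K) (h2 : ∀ n, IsCompact (K n))
    (h3 : ∀ n, IsPreconnected (K n)) : IsPreconnected (⋂ n, K n) := by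
  rw [isPreconnected_iff_subset_of_fully_disjoint_closed (isClosed_iInter fun n => (h2 n).isClosed)]
  intro u v hu hv hs huv
  obtain ⟨u', v', a1, a2, a3, a4, a5⟩ := normal_separation hu hv huv
  obtain ⟨n, hn⟩ := exists_subset_nhds_of_isCompact (directed_of_isDirected_le h1) h2
    (U := u' ∪ v') fun x hx => (a1.union a2).mem_nhds (union_subset_union a3 a4 (hs hx))
  refine ((h3 n).subset_or_subset a1 a2 a5 hn).imp (fun h x hx => ?_) fun h x hx => ?_
  · exact (hs hx).resolve_right fun h' => disjoint_left.1 a5 (h (mem_iInter.1 hx n)) (a4 h')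
  · exact (hs hx).resolve_left fun h' => disjoint_left.1 a5 (a3 h') (h (mem_iInter.1 hx n))

theorem pre_conn_crit {c : ℂ} {C : Set ℂ} (h : IsPreconnected C) (hc : c ∈ C) :
    IsPreconnected (qf c ⁻¹' C) := by
  have := pre_conn (isOpenMap_qf c) isOpen_univ (D := univ)
    (fun s hs => isClosedMap_qf c _ (by simpa using hs)) (subset_univ _) subset_rfl h hc
    (isPreconnected_singleton (x := 0)) (by simpa [qf] using hc) (by simp [qf])
  simpa using this

namespace BD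

variable {B : BD}

theorem U_escape {z : ℂ} (hz : z ∈ B.U) (R : ℝ) : ∀ᶠ n in atTop, R < ‖(qf B.c)^[n] z‖ := by
  obtain ⟨t, y, ht, rfl⟩ := hz
  obtain ⟨T, hT⟩ := B.asym (1 / 2) (by norm_num)
  have h0 : Tendsto (fun n : ℕ => 2 ^ n * t) atTop atTop :=
    (tendsto_pow_atTop_atTop_of_one_lt one_lt_two).atTop_mul_const ht
  filter_upwards [h0.eventually_ge_atTop T, h0.eventually_ge_atTop (2 * R)] with n h1 h2
  have h3 := (re_ge_of_near (hT _ h1 (2 ^ n * y)).le).trans (Complex.re_le_norm _)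
  rw [norm_div, norm_ex, le_div_iff₀ (Real.exp_pos _)] at h3
  rw [B.iter ht]
  linarith [Real.add_one_le_exp (2 ^ n * t)]

theorem mem_U_iff (z : ℂ) (n : ℕ) : (qf B.c)^[n] z ∈ B.U ↔ z ∈ B.U := by
  constructor
  · rintro ⟨t, y, ht, e⟩
    obtain ⟨y', e'⟩ := B.pre_iter ht e.symm
    exact ⟨_, y', by positivity, e'.symm⟩
  · rintro ⟨t, y, ht, rfl⟩
    exact ⟨_, _, by positivity, (B.iter ht y n).symm⟩

theorem U_conn : IsPreconnected B.U := by
  have : B.U = (fun p : ℝ × ℝ => B.Ψ p.1 p.2) '' {p | 0 < p.1} :=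
    Set.ext fun z => ⟨fun ⟨t, y, h, e⟩ => ⟨(t, y), h, e⟩, fun ⟨p, h, e⟩ => ⟨_, _, h, e⟩⟩
  rw [this]
  exact ((convex_Ioi (0 : ℝ)).linear_preimage (LinearMap.fst ℝ ℝ ℝ)).isPreconnected.image _ B.cont

theorem compl_U_eq {R0 : ℝ} (hR : ∀ z, R0 < ‖z‖ → z ∈ B.U) {R : ℝ} (h : R0 ≤ R) :
    B.Uᶜ = ⋂ n : ℕ, (qf B.c)^[n] ⁻¹' Metric.closedBall 0 R := by
  ext z
  simp only [mem_iInter, mem_preimage, mem_closedBall_zero_iff, mem_compl_iff]
  constructor
  · exact fun hz n => le_of_not_gt fun h' => hz ((mem_U_iff z n).1 (hR _ (h.trans_lt h')))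
  · exact fun h' hz => (U_escape hz R).exists.elim fun n hn => hn.not_ge (h' n)

theorem Mis.K_props (M : B.Mis) {R0 : ℝ} (hR : ∀ z, R0 < ‖z‖ → z ∈ B.U) :
    IsCompact B.Uᶜ ∧ IsPreconnected B.Uᶜ := by
  set R := max R0 (2 + ‖B.c‖)
  have a : ∀ n (z : ℂ), ‖(qf B.c)^[n] z‖ ≤ R → ‖z‖ ≤ R := fun n z h =>
    (norm_le_iter B.c n z).trans (max_le h (le_max_right _ _))
  have b : ∀ n, IsCompact ((qf B.c)^[n] ⁻¹' Metric.closedBall 0 R) := fun n =>
    (isCompact_closedBall 0 R).of_isClosed_subset (Metric.isClosed_closedBall.preimage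
      ((continuous_qf _).iterate n)) fun z hz =>
        mem_closedBall_zero_iff.2 (a n z (mem_closedBall_zero_iff.1 hz))
  have e := compl_U_eq hR (le_max_left R0 (2 + ‖B.c‖))
  have hc : ∀ n, B.c ∈ (qf B.c)^[n] ⁻¹' Metric.closedBall 0 R :=
    mem_iInter.1 (e.subset (M.notU 0))
  rw [e]
  refine ⟨(b 0).of_isClosed_subset (isClosed_iInter fun n => (b n).isClosed) (iInter_subset _ 0),
    nested_conn (antitone_nat_of_succ_le fun n z hz => ?_) b fun n => ?_⟩
  · rw [mem_preimage, mem_closedBall_zero_iff] at *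
    rw [Function.iterate_succ_apply'] at hz
    exact a 1 _ hz
  · induction n with
    | zero => exact (convex_closedBall _ _).isPreconnected
    | succ n ih => exact pre_conn_crit ih (hc n)

theorem Mis.exists_branch (M : B.Mis) {θ : ℝ} (hθ : B.Lands θ B.c) : ∃ (g : ℂ → ℂ) (e : Bool),
    ContinuousOn g B.Uᶜ ∧ (∀ z ∈ B.Uᶜ, g z ^ 2 = z - B.c) ∧
      ∀ j, (qf B.c)^[j] B.c = sg (xor (kneading θ j) e) * g (qf B.c ((qf B.c)^[j] B.c)) := by
  classical
  have r := isRay_mkLeg one_pos hθ (M.notU 0)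
  obtain ⟨h, b⟩ := (mkLeg one_pos hθ).exists_isBr
  obtain ⟨e, he⟩ := M.sides r b
  have h1 : ∀ z ∈ B.Uᶜ, (if z = B.c then 0 else h z) ^ 2 = z - B.c := fun z hz => by
    split_ifs with e
    · simp [e]
    · rw [b.sq z (r.not_mem hz e), r.tip]
  refine ⟨fun z => if z = B.c then 0 else h z, e, fun z hz => ?_, h1, fun j => ?_⟩
  · by_cases e : z = B.c
    · rw [ContinuousWithinAt, if_pos e, tendsto_zero_iff_norm_tendsto_zero]
      have : Tendsto (fun w => Real.sqrt ‖w - B.c‖) (𝓝[B.Uᶜ] z) (𝓝 0) := by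
        have : Continuous fun w => Real.sqrt ‖w - B.c‖ := by fun_prop
        simpa [e] using (this.tendsto z).mono_left nhdsWithin_le_nhds
      refine this.congr' ?_
      filter_upwards [self_mem_nhdsWithin] with w hw
      rw [← h1 w hw, norm_pow, Real.sqrt_sq (norm_nonneg _)]
    · refine ((b.cont.continuousAt ((Leg.closed _).isOpen_compl.mem_nhds
        (r.not_mem hz e))).congr ?_).continuousWithinAt
      filter_upwards [isOpen_ne.mem_nhds e] with w hw
      exact (if_neg hw).symm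
  · have := M.ne_c j
    rw [Function.iterate_succ_apply'] at this
    simp only [if_neg this]
    exact he j

theorem Mis.renorm (M : B.Mis) {R0 : ℝ} (hR : ∀ z, R0 < ‖z‖ → z ∈ B.U) {θ : ℝ}
    (hθ : B.Lands θ B.c) {p : ℕ} (hp : 2 ≤ p)
    (hs : ∀ j, ¬ p ∣ j + 1 → kneading θ (j + p) = kneading θ j)
    (hn : ¬ ∀ j, kneading θ (j + p) = kneading θ j) : Renormalizable B.c := by
  obtain ⟨g, e, g1, g2, g3⟩ := M.exists_branch hθ
  obtain ⟨X1, X2⟩ := M.K_props hR
  set X := B.Uᶜ with hX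
  set f := qf B.c with hf
  have cf : Continuous f := continuous_qf _
  have fX : ∀ z, f z ∈ X ↔ z ∈ X := fun z => not_congr (mem_U_iff z 1)
  have fXn : ∀ n z, f^[n] z ∈ X ↔ z ∈ X := fun n z => not_congr (mem_U_iff z n)
  let ν : ℕ → Bool := fun j => xor (kneading θ j) e
  have ν1 : ∀ j, ¬ p ∣ j + 1 → ν (j + p) = ν j := fun j h => by simp only [ν, hs j h]
  let S : Bool → Set ℂ := fun a => (fun y => sg a * g y) '' X
  have fS : ∀ a, ∀ y ∈ X, f (sg a * g y) = y := fun a y hy => by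
    rw [hf, qf, mul_pow, sg_sq, one_mul, g2 y hy]; ring
  have S0 : ∀ a z, z ∈ S a ↔ z ∈ X ∧ z = sg a * g (f z) := fun a z => by
    constructor
    · rintro ⟨y, hy, rfl⟩
      exact ⟨(fX _).1 (by rwa [fS a y hy]), by simp only [fS a y hy]⟩
    · exact fun h => ⟨f z, (fX z).2 h.1, h.2.symm⟩
  have gc : ∀ a, ContinuousOn (fun y => sg a * g y) X := fun a => continuousOn_const.mul g1
  have S1 : ∀ a, IsCompact (S a) := fun a => X1.image_of_continuousOn (gc a)
  have S2 : ∀ a, IsPreconnected (S a) := fun a => X2.image _ (gc a)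
  have S3 : ∀ a, ∀ z ∈ X, z ∉ S (!a) → z ∈ S a := fun a z hz h => by
    obtain ⟨b, hb⟩ := exists_sg (a := z) (b := g (f z)) (by rw [g2 _ ((fX z).2 hz), hf, qf]; ring)
    have := (S0 b z).2 ⟨hz, hb⟩
    cases a <;> cases b <;> first | exact this | exact absurd this h
  have S4 : ∀ a b, ∀ z ∈ S a, z ∈ S b → z ≠ 0 → a = b := fun a b z h h' h0 => by
    have a1 := ((S0 a z).1 h).2
    refine sg_inj (mul_right_cancel₀ (fun e => h0 ?_) (a1.symm.trans ((S0 b z).1 h').2))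
    rw [a1, e, mul_zero]
  have cX : B.c ∈ X := M.notU 0
  have S5 : ∀ a, (0 : ℂ) ∈ S a := fun a =>
    ⟨B.c, cX, by simpa [sg_ne] using g2 _ cX⟩
  have S6 : ∀ j, f^[j] B.c ∈ S (ν j) := fun j => (S0 _ _).2 ⟨M.notU j, g3 j⟩
  let Y : ℕ → ℕ → Set ℂ := fun n o => {z | z ∈ X ∧ ∀ i < n, ¬ p ∣ o + i + 1 → f^[i] z ∈ S (ν (o + i))}
  have Y1 : ∀ n o z, z ∈ Y (n + 1) o ↔ (¬ p ∣ o + 1 → z ∈ S (ν o)) ∧ f z ∈ Y n (o + 1) := by
    intro n o z
    simp only [Y, mem_ofPred_eq, Nat.forall_lt_succ_left', fX, add_right_comm o 1, add_assoc]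
    simp only [← add_assoc, add_zero]
    tauto
  have Y2 : ∀ n o, p ∣ o → B.c ∈ Y n o := by
    rintro n _ ⟨k, rfl⟩
    refine ⟨cX, fun i _ h => ?_⟩
    rw [add_assoc, Nat.dvd_add_right (dvd_mul_right p k)] at h
    have : ν (p * k + i) = ν i := by
      induction k with
      | zero => simp
      | succ k ih =>
        rw [← ih, ← ν1 (p * k + i) (by rwa [add_assoc, Nat.dvd_add_right (dvd_mul_right p k)])]
        congr 1; ring
    exact this ▸ S6 i
  have Y3 : ∀ n o, IsCompact (Y n o) ∧ IsPreconnected (Y n o) := by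
    intro n
    induction n with
    | zero => intro o; simpa [Y] using ⟨X1, X2⟩
    | succ n ih =>
      intro o
      by_cases h : p ∣ o + 1
      · have : Y (n + 1) o = f ⁻¹' Y n (o + 1) := Set.ext fun z => by simp [Y1, h]
        exact ⟨X1.of_isClosed_subset (this ▸ (ih _).1.isClosed.preimage cf) fun z hz => hz.1,
          this ▸ pre_conn_crit (ih _).2 (Y2 n _ h)⟩
      · have : Y (n + 1) o = (fun y => sg (ν o) * g y) '' Y n (o + 1) := by
          ext z
          rw [Y1]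
          constructor
          · exact fun hz => ⟨f z, hz.2, ((S0 _ _).1 (hz.1 h)).2.symm⟩
          · rintro ⟨y, hy, rfl⟩
            exact ⟨fun _ => ⟨y, hy.1, rfl⟩, by rwa [fS _ y hy.1]⟩
        rw [this]
        have := (gc (ν o)).mono fun z (hz : z ∈ Y n (o + 1)) => hz.1
        exact ⟨(ih _).1.image_of_continuousOn this, (ih _).2.image _ this⟩
  let K : ℕ → Set ℂ := fun o => ⋂ n, Y n o
  have K0 : ∀ o z, z ∈ K o ↔ z ∈ X ∧ ∀ i, ¬ p ∣ o + i + 1 → f^[i] z ∈ S (ν (o + i)) := fun o z =>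
    ⟨fun h => ⟨(mem_iInter.1 h 0).1, fun i => (mem_iInter.1 h (i + 1)).2 i (by omega)⟩,
      fun h => mem_iInter.2 fun n => ⟨h.1, fun i _ => h.2 i⟩⟩
  have K1 : ∀ o z, z ∈ K o ↔ (¬ p ∣ o + 1 → z ∈ S (ν o)) ∧ f z ∈ K (o + 1) := fun o z =>
    ⟨fun h => ⟨((Y1 0 o z).1 (mem_iInter.1 h 1)).1,
      mem_iInter.2 fun n => ((Y1 n o z).1 (mem_iInter.1 h (n + 1))).2⟩, fun h =>
      mem_iInter.2 fun n => by
        have := (Y1 n o z).2 ⟨h.1, mem_iInter.1 h.2 n⟩
        exact ⟨this.1, fun i hi => this.2 i (by omega)⟩⟩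
  have K2 : ∀ o i, MapsTo f^[i] (K o) (K (o + i)) := fun o i => by
    induction i with
    | zero => exact mapsTo_id _
    | succ i ih => rw [Function.iterate_succ']; exact MapsTo.comp (fun z hz => ((K1 _ z).1 hz).2) ih
  have K3 : ∀ o, K (o + p) = K o := fun o => Set.ext fun z => by
    rw [K0, K0]
    refine and_congr_right fun _ => forall_congr' fun i => ?_
    rw [add_right_comm o p, add_right_comm _ p, Nat.dvd_add_self_right]
    exact forall_congr' fun h => by rw [ν1 _ h]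
  have K4 : ∀ o, IsCompact (K o) := fun o => (Y3 0 o).1.of_isClosed_subset
    (isClosed_iInter fun n => (Y3 n o).1.isClosed) (iInter_subset _ 0)
  have K5 : ∀ o, IsPreconnected (K o) := fun o => nested_conn
    (fun m n h z hz => ⟨hz.1, fun i hi => hz.2 i (hi.trans_le h)⟩) (fun n => (Y3 n o).1)
    fun n => (Y3 n o).2
  have K6 : ∀ o, ¬ p ∣ o + 1 → (0 : ℂ) ∉ K o := fun o ho h => hn fun j => by
    have a1 : ∀ i, ¬ p ∣ o + 1 + i + 1 → ν i = ν (o + 1 + i) := fun i hi =>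
      S4 _ _ _ (S6 i) (((K0 _ _).1 (show B.c ∈ K (o + 1) by
        simpa [hf, qf] using ((K1 o 0).1 h).2)).2 i hi) (M.ne0 i)
    by_cases hj : p ∣ j + 1
    swap
    · exact hs j hj
    have a2 : ¬ p ∣ o + 1 + j + 1 := by rwa [add_assoc, Nat.dvd_add_left hj]
    have a3 := a1 (j + p) (by
      rwa [← add_assoc, add_right_comm _ p, Nat.dvd_add_self_right])
    rw [← add_assoc, ν1 _ a2, ← a1 j a2] at a3
    simpa [ν] using a3
  have K7 : ∀ o i, K (o + i) ⊆ f^[i] '' K o := fun o i => by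
    induction i with
    | zero => simp
    | succ i ih =>
      intro y hy
      have a1 := ((K0 _ _).1 hy).1
      obtain ⟨z, hz, e⟩ := ih ((K1 (o + i) _).2 ⟨fun _ => ⟨y, a1, rfl⟩, by rwa [fS _ y a1]⟩)
      exact ⟨z, hz, by rw [Function.iterate_succ_apply', e, fS _ y a1]⟩
  have K8 : ∀ o, IsPreconnected (K o)ᶜ := by
    have u0 : B.Ψ 1 0 ∈ B.U := ⟨1, 0, one_pos, rfl⟩
    let C : ℕ → Set ℂ := fun o => connectedComponentIn (K o)ᶜ (B.Ψ 1 0)
    have UK : ∀ o, B.U ⊆ (K o)ᶜ := fun o z hz h => ((K0 _ _).1 h).1 hz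
    have c1 : ∀ o, B.U ⊆ C o := fun o => U_conn.subset_connectedComponentIn u0 (UK o)
    have c2 : ∀ o, f ⁻¹' C (o + 1) ⊆ C o := fun o => by
      have := pre_conn (isOpenMap_qf B.c) isOpen_univ (D := univ) (C := C (o + 1))
        (fun s hs => isClosedMap_qf B.c _ (by simpa using hs)) (subset_univ _) subset_rfl
        isPreconnected_connectedComponentIn (c1 _ u0) U_conn
        (fun z hz => ⟨trivial, c1 _ ((mem_U_iff z 1).2 hz)⟩)
        fun z _ e => (mem_U_iff z 1).1 (by change qf B.c z ∈ _; rwa [e])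
      rw [univ_inter] at this
      exact this.subset_connectedComponentIn (c1 _ ((mem_U_iff _ 1).2 u0))
        fun z hz h => connectedComponentIn_subset (K (o + 1))ᶜ _ hz ((K1 o z).1 h).2
    have c3 : ∀ i o z, f^[i] z ∈ C (o + i) → z ∈ C o := by
      intro i
      induction i with
      | zero => exact fun _ _ h => h
      | succ i ih => exact fun o z h => ih o z (c2 _ (by rwa [Function.iterate_succ_apply'] at h))
    have c4 : ∀ o, ¬ p ∣ o + 1 → S (!ν o) ⊆ C o := fun o ho => by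
      have a1 : IsPreconnected (insert 0 B.U) := U_conn.subset_closure (subset_insert _ _)
        (insert_subset (mem_closure_of_tendsto hθ.zero (by
          filter_upwards [self_mem_nhdsWithin] with t ht
          exact ⟨t, _, ht, rfl⟩)) subset_closure)
      refine subset_union_left.trans (((S2 _).union 0 (S5 _) (mem_insert _ _)
        a1).subset_connectedComponentIn (Or.inr (Or.inr u0)) (union_subset (fun z hz h => ?_)
          (insert_subset (K6 o ho) (UK o))))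
      have := S4 _ _ z hz (((K1 o z).1 h).1 ho) fun e => K6 o ho (e ▸ h)
      simp at this
    intro o
    have : (K o)ᶜ = C o := by
      refine subset_antisymm (fun z hz => by_contra fun h => hz ?_) (connectedComponentIn_subset _ _)
      have a1 : z ∈ X := fun h' => h (c1 o h')
      exact (K0 o z).2 ⟨a1, fun i hi => S3 _ _ ((fXn i z).2 a1) fun h' => h (c3 i o z (c4 _ hi h'))⟩
    rw [this]; exact isPreconnected_connectedComponentIn
  obtain ⟨q, rfl⟩ : ∃ q, p = q + 1 := ⟨p - 1, by omega⟩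
  have nd : ∀ i, 0 < i → i < q + 1 → ¬ q + 1 ∣ q + i + 1 := fun i h1 h2 h => by
    rw [add_right_comm, Nat.dvd_add_self_left] at h
    exact absurd (Nat.le_of_dvd h1 h) (by omega)
  refine renorm_of hp (K4 q) (K5 q) ((K1 q 0).2 ⟨fun h => absurd dvd_rfl h, ?_⟩)
    (fun z hz => (K1 q _).2 ⟨fun h => absurd dvd_rfl h, by simpa [hf, qf] using ((K1 q z).1 hz).2⟩)
    (K8 q) (by simpa only [K3] using K2 q (q + 1)) (by simpa only [K3] using K7 q (q + 1))
    (fun i h1 h2 z hz z' hz' e => ?_)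
    (W0 := Metric.ball 0 (R0 + 1) ∩ ⋂ i ∈ Finset.Ioo 0 (q + 1), f^[i] ⁻¹' (S (!ν (q + i)))ᶜ)
    (Metric.isOpen_ball.inter (isOpen_biInter_finset fun i _ =>
      (S1 _).isClosed.isOpen_compl.preimage (cf.iterate i))) (fun z hz => ⟨?_, mem_iInter₂.2
        fun i hi h => ?_⟩) fun z hz => ?_
  · rw [show f 0 = B.c by simp [hf, qf]]
    exact mem_iInter.2 fun n => Y2 n _ dvd_rfl
  · have a1 := (S0 _ _).1 (((K1 _ _).1 (K2 q i hz)).1 (nd i h1 h2))
    have a2 := (S0 _ _).1 (((K1 _ _).1 (K2 q i hz')).1 (nd i h1 h2))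
    have a3 : f (f^[i] z) = f (f^[i] z') := by simp [e, hf, qf]
    refine K6 _ (nd i h1 h2) ((?_ : f^[i] z = 0) ▸ K2 q i hz)
    rw [a3, ← a2.2] at a1
    linear_combination (e + a1.2) / 2
  · rw [mem_ball_zero_iff]
    exact (le_of_not_gt fun h => ((K0 _ _).1 hz).1 (hR z h)).trans_lt (lt_add_one _)
  · have h1 := nd i (Finset.mem_Ioo.1 hi).1 (Finset.mem_Ioo.1 hi).2
    have := S4 _ _ _ h (((K1 _ _).1 (K2 q i hz)).1 h1) fun e => K6 _ h1 (e ▸ K2 q i hz)
    simp at this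
  · have a1 : z ∈ X := fun h => by
      obtain ⟨N, hN⟩ := eventually_atTop.1 (U_escape h (R0 + 1))
      have := mem_ball_zero_iff.1 (hz N).1
      rw [← Function.iterate_mul] at this
      exact this.not_gt (hN _ (by nlinarith))
    refine (K0 q z).2 ⟨a1, fun i hi => ?_⟩
    have a2 := Nat.mod_add_div i (q + 1)
    have a3 : i % (q + 1) ≠ 0 := fun e => hi (by
      rw [add_right_comm, Nat.dvd_add_self_left]; exact Nat.dvd_of_mod_eq_zero e)
    have a4 := mem_iInter₂.1 (hz (i / (q + 1))).2 (i % (q + 1))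
      (Finset.mem_Ioo.2 ⟨by omega, Nat.mod_lt _ (by omega)⟩)
    rw [mem_preimage, ← Function.iterate_mul, ← Function.iterate_add_apply, a2] at a4
    have a5 : ∀ k, ν (q + i % (q + 1) + (q + 1) * k) = ν (q + i % (q + 1)) := by
      intro k
      induction k with
      | zero => rfl
      | succ k ih =>
        rw [mul_add, mul_one, ← add_assoc, ν1, ih]
        rw [add_right_comm, Nat.dvd_add_left (dvd_mul_right _ _)]
        exact nd _ (by omega) (Nat.mod_lt _ (by omega))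
    have a6 := a5 (i / (q + 1))
    rw [add_assoc, a2] at a6
    exact a6 ▸ S3 _ _ ((fXn i z).2 a1) a4

end BD

theorem main' (c : ℂ) (hfin : (postcrit (X ^ 2 + C c)).Finite) (h0 : (0 : ℂ) ∉ postcrit (X ^ 2 + C c))
    (hc : c ≠ -2) (hr : ¬ Renormalizable c) (t : ℂ) (ht : t ∉ postcrit (X ^ 2 + C c)) :
    IntermediateGrowth (IMG (X ^ 2 + C c) t) := by
  obtain ⟨B, rfl, R0, hR⟩ := exists_BD c (by
    rw [postcrit_quad] at hfin
    obtain ⟨M, hM⟩ := isBounded_iff_forall_norm_le.1 hfin.isBounded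
    exact ⟨M, fun k => hM _ ⟨k, rfl⟩⟩)
  have hP : postcrit (X ^ 2 + C B.c) = B.P := postcrit_quad B.c
  rw [hP] at hfin h0 ht
  have M := B.mis_of_finite hfin h0
  have := hfin.to_subtype
  have := Fintype.ofFinite B.P
  obtain ⟨θ, hθ⟩ := M.lands_c hfin hR
  obtain ⟨A, _, _, ⟨e, he⟩, hA⟩ := M.link hθ
  obtain ⟨E⟩ := hA _ (eval_quad B.c) hP t ht
  refine IntermediateGrowth.of_equiv E.symm (A.intermediate ?_ (B.three_le M hc))
  rintro ⟨p, h1, h2⟩
  refine hr (M.renorm hR hθ h1 (fun j hj => ?_) fun h => ?_)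
  · have := h2 j hj
    rw [he, he] at this
    simpa using this
  · obtain ⟨q, rfl⟩ : ∃ q, p = q + 1 := ⟨p - 1, by omega⟩
    have := A.hd (A.nx^[q + 1] A.sg) A.sg fun i => by rw [← Function.iterate_add_apply, he, he, h]
    rw [Function.iterate_succ_apply'] at this
    exact A.ha _ this

end Pool.Agent.MP_61ef33_al

end
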